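import Pool.Agent.L7h96.RC.Alg

set_option autoImplicit false
set_option linter.unusedSectionVars false
set_option linter.unusedSimpArgs false

open Finset

namespace Pool.Agent.L7h96.RC

section alg2

variable {ι X : Type} [DecidableEq ι] [AddCommGroup X] [DecidableEq X]

/-- two-copy sum; `p` has sources `A` (completed by `G`), `q` has sources `B` -/
def Y (D : ι → X) (t : ι → ℝ) (I : Finset ι) (G : X → ℝ) (A B : X)
    (f : Finset ι → Finset ι → Finset ι → ℝ) : ℝ :=
  S3 I (fun ω p q => W t I ω p q * f ω p q * G (A + bd D p) * (if bd D q = B then 1 else 0))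

/-- one-copy sum with completion `G` -/
def zG (D : ι → X) (t : ι → ℝ) (I : Finset ι) (G : X → ℝ) (A : X) : ℝ :=
  ∑ p ∈ I.powerset, tw t p * G (A + bd D p)

theorem Y_one (D : ι → X) (t : ι → ℝ) (I : Finset ι) (G : X → ℝ) (A B : X) :
    Y D t I G A B (fun _ _ _ => 1) = zG D t I G A * zz D t I B := by
  have h := S3_total t I (fun p => G (A + bd D p)) (fun q => if bd D q = B then 1 else 0)
  unfold Y zG zz
  simp only [mul_ite, mul_one, mul_zero] at h ⊢
  exact h

/-- the indicator of zero -/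
def G0 (C : X) : ℝ := if C = 0 then 1 else 0

theorem zG_G0 [E2 X] (D : ι → X) (t : ι → ℝ) (I : Finset ι) (A : X) :
    zG D t I G0 A = zz D t I A := by
  unfold zG zz G0
  refine sum_congr rfl fun p _ => ?_
  by_cases h : bd D p = A
  · rw [if_pos h, if_pos (by rw [h, add_self']), mul_one]
  · rw [if_neg h, if_neg, mul_zero]
    intro h'
    apply h
    have := (eq_add_iff _ _ _).1 h'
    rw [this, zero_add]

theorem sum_powerset_symmDiff {M : Type} [AddCommMonoid M] {ω q : Finset ι} (hq : q ⊆ ω)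
    (h : Finset ι → M) :
    ∑ p ∈ ω.powerset, h (symmDiff p q) = ∑ p ∈ ω.powerset, h p := by
  have hs : ∀ p ∈ ω.powerset, symmDiff p q ∈ ω.powerset := by
    intro p hp
    rw [mem_powerset] at hp ⊢
    intro i hi
    rw [mem_symmDiff] at hi
    rcases hi with hi | hi
    · exact hp hi.1
    · exact hq hi.1
  refine sum_nbij' (fun p => symmDiff p q) (fun p => symmDiff p q) hs hs ?_ ?_ ?_
  · intro p _; exact symmDiff_symmDiff_cancel_right q p
  · intro p _; exact symmDiff_symmDiff_cancel_right q p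
  · intro p _; rfl

/-- number of subsets of `ω` with boundary `B`, weighted by `φ` -/
def cnt (D : ι → X) (ω : Finset ι) (B : X) (φ : Finset ι → ℝ) : ℝ :=
  ∑ q ∈ ω.powerset, if bd D q = B then φ q else 0

theorem Y_split [E2 X] (D : ι → X) (t : ι → ℝ) (I : Finset ι) (G : X → ℝ) (A B : X)
    (F : Finset ι → Finset ι → ℝ) (φ : Finset ι → Finset ι → ℝ) :
    Y D t I G A B (fun ω p q => F ω (symmDiff p q) * φ ω q) =
      ∑ ω ∈ I.powerset, ∑ r ∈ ω.powerset,
        W t I ω r ∅ * F ω r * G (A + B + bd D r) * cnt D ω B (φ ω) := by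
  unfold Y S3 cnt
  refine sum_congr rfl fun ω _ => ?_
  rw [sum_comm]
  simp only [mul_sum]
  rw [sum_comm (s := ω.powerset) (t := ω.powerset)
    (f := fun x y => W t I ω x ∅ * F ω x * G (A + B + bd D x) * if bd D y = B then φ ω y else 0)]
  refine sum_congr rfl fun q hq => ?_
  rw [← sum_powerset_symmDiff (mem_powerset.1 hq)]
  refine sum_congr rfl fun r _ => ?_
  rw [symmDiff_symmDiff_cancel_right, W_symmDiff, symmDiff_symmDiff_cancel_right]
  by_cases h : bd D q = B
  · rw [if_pos h, if_pos h, bd_symmDiff, h]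
    have : A + (bd D r + B) = A + B + bd D r := by abel
    rw [this]
    ring
  · rw [if_neg h, if_neg h]
    ring

/-- `B` is the boundary of a subset of `ω` -/
def Sp (D : ι → X) (ω : Finset ι) (B : X) : Prop := ∃ q ∈ ω.powerset, bd D q = B

instance (D : ι → X) (ω : Finset ι) (B : X) : Decidable (Sp D ω B) := by
  unfold Sp; infer_instance

theorem cnt_eq [E2 X] (D : ι → X) (ω : Finset ι) (B : X) :
    cnt D ω B (fun _ => 1) = (if Sp D ω B then 1 else 0) * cnt D ω 0 (fun _ => 1) := by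
  split_ifs with h
  · obtain ⟨q0, hq0, hb⟩ := h
    rw [one_mul]
    unfold cnt
    rw [← sum_powerset_symmDiff (mem_powerset.1 hq0)]
    refine sum_congr rfl fun q _ => ?_
    rw [bd_symmDiff, hb]
    have : (bd D q + B = B) ↔ bd D q = 0 := by simp
    simp only [this]
  · rw [zero_mul]
    unfold cnt
    refine sum_eq_zero fun q hq => ?_
    rw [if_neg]
    intro h'
    exact h ⟨q, hq, h'⟩

theorem switch [E2 X] (D : ι → X) (t : ι → ℝ) (I : Finset ι) (G : X → ℝ) (A B : X)
    (F : Finset ι → Finset ι → ℝ) :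
    Y D t I G A B (fun ω p q => F ω (symmDiff p q)) =
      Y D t I G (A + B) 0 (fun ω p q => F ω (symmDiff p q) * (if Sp D ω B then 1 else 0)) := by
  have h1 := Y_split D t I G A B F (fun _ _ => 1)
  have h2 := Y_split D t I G (A + B) 0 (fun ω r => F ω r * (if Sp D ω B then 1 else 0))
    (fun _ _ => 1)
  simp only [mul_one] at h1 h2
  rw [h1, h2]
  refine sum_congr rfl fun ω _ => sum_congr rfl fun r _ => ?_
  rw [cnt_eq D ω B, add_zero]
  ring

theorem Y_nonneg {D : ι → X} {t : ι → ℝ} (h0 : ∀ i, 0 ≤ t i) (h1 : ∀ i, t i ≤ 1) {I : Finset ι}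
    {G : X → ℝ} (hG : ∀ C, 0 ≤ G C) {A B : X} {f : Finset ι → Finset ι → Finset ι → ℝ}
    (hf : ∀ ω p q, ω ⊆ I → p ⊆ ω → q ⊆ ω → 0 ≤ f ω p q) : 0 ≤ Y D t I G A B f := by
  refine S3_nonneg fun ω p q hω hp hq => ?_
  have := W_nonneg h0 h1 I ω p q
  have := hf ω p q hω hp hq
  have := hG (A + bd D p)
  split_ifs <;> positivity

theorem Y_mono {D : ι → X} {t : ι → ℝ} (h0 : ∀ i, 0 ≤ t i) (h1 : ∀ i, t i ≤ 1) {I : Finset ι}
    {G : X → ℝ} (hG : ∀ C, 0 ≤ G C) {A B : X} {f g : Finset ι → Finset ι → Finset ι → ℝ}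
    (hf : ∀ ω p q, ω ⊆ I → p ⊆ ω → q ⊆ ω → f ω p q ≤ g ω p q) :
    Y D t I G A B f ≤ Y D t I G A B g := by
  refine S3_le fun ω p q hω hp hq => ?_
  have h2 := W_nonneg h0 h1 I ω p q
  have h3 := hf ω p q hω hp hq
  have h4 := hG (A + bd D p)
  have h5 : W t I ω p q * f ω p q * G (A + bd D p) ≤ W t I ω p q * g ω p q * G (A + bd D p) :=
    mul_le_mul_of_nonneg_right (mul_le_mul_of_nonneg_left h3 h2) h4
  split_ifs
  · simpa using h5
  · simp

theorem Y_congr {D : ι → X} {t : ι → ℝ} {I : Finset ι}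
    {G : X → ℝ} {A B : X} {f g : Finset ι → Finset ι → Finset ι → ℝ}
    (hf : ∀ ω p q, ω ⊆ I → p ⊆ ω → q ⊆ ω → f ω p q = g ω p q) :
    Y D t I G A B f = Y D t I G A B g := by
  refine S3_congr fun ω p q hω hp hq => ?_
  rw [hf ω p q hω hp hq]

theorem Y_add (D : ι → X) (t : ι → ℝ) (I : Finset ι) (G : X → ℝ) (A B : X)
    (f g : Finset ι → Finset ι → Finset ι → ℝ) :
    Y D t I G A B (fun ω p q => f ω p q + g ω p q) = Y D t I G A B f + Y D t I G A B g := by
  unfold Y
  rw [← S3_add]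
  refine S3_congr fun ω p q _ _ _ => ?_
  ring

theorem Y_sub (D : ι → X) (t : ι → ℝ) (I : Finset ι) (G : X → ℝ) (A B : X)
    (f g : Finset ι → Finset ι → Finset ι → ℝ) :
    Y D t I G A B (fun ω p q => f ω p q - g ω p q) = Y D t I G A B f - Y D t I G A B g := by
  unfold Y
  rw [← S3_sub]
  refine S3_congr fun ω p q _ _ _ => ?_
  ring

theorem G0_nonneg (C : X) : 0 ≤ G0 C := by
  unfold G0; split_ifs <;> norm_num

/-- second Griffiths inequality -/
theorem gks [E2 X] {D : ι → X} {t : ι → ℝ} (h0 : ∀ i, 0 ≤ t i) (h1 : ∀ i, t i ≤ 1)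
    (I : Finset ι) (A B : X) :
    zz D t I A * zz D t I B ≤ zz D t I (A + B) * zz D t I 0 := by
  rw [← zG_G0 D t I A, ← zG_G0 D t I (A + B), ← Y_one, ← Y_one]
  have := switch D t I G0 A B (fun _ _ => 1)
  simp only [one_mul] at this
  rw [this]
  refine Y_mono h0 h1 G0_nonneg fun ω p q _ _ _ => ?_
  split_ifs <;> norm_num

/-- the truncated correlation as a mass of the double current -/
theorem trunc [E2 X] (D : ι → X) (t : ι → ℝ) (I : Finset ι) (A B : X) :
    zz D t I (A + B) * zz D t I 0 - zz D t I A * zz D t I B =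
      Y D t I G0 (A + B) 0 (fun ω _ _ => if Sp D ω B then 0 else 1) := by
  rw [← zG_G0 D t I A, ← zG_G0 D t I (A + B), ← Y_one, ← Y_one]
  have := switch D t I G0 A B (fun _ _ => 1)
  simp only [one_mul] at this
  rw [this, ← Y_sub]
  refine Y_congr fun ω p q _ _ _ => ?_
  split_ifs <;> norm_num

theorem zz_le_zero [E2 X] {D : ι → X} {t : ι → ℝ} (h0 : ∀ i, 0 ≤ t i) (h1 : ∀ i, t i ≤ 1)
    (I : Finset ι) (A : X) : zz D t I A ≤ zz D t I 0 := by
  have h := gks h0 h1 (D := D) I A A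
  rw [add_self'] at h
  have h2 := zz_nonneg (D := D) (I := I) h0 A
  have h3 := zz_nonneg (D := D) (I := I) h0 (0 : X)
  nlinarith

/-- correlations -/
noncomputable def corr (D : ι → X) (t : ι → ℝ) (I : Finset ι) (A : X) : ℝ :=
  zz D t I A / zz D t I 0

theorem zz_pos {D : ι → X} {t : ι → ℝ} (h0 : ∀ i, 0 ≤ t i) (I : Finset ι) :
    0 < zz D t I 0 := lt_of_lt_of_le one_pos (zz_zero_pos h0)

theorem corr_nonneg {D : ι → X} {t : ι → ℝ} (h0 : ∀ i, 0 ≤ t i) (I : Finset ι) (A : X) :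
    0 ≤ corr D t I A := div_nonneg (zz_nonneg h0 A) (zz_nonneg h0 0)

theorem corr_le_one [E2 X] {D : ι → X} {t : ι → ℝ} (h0 : ∀ i, 0 ≤ t i) (h1 : ∀ i, t i ≤ 1)
    (I : Finset ι) (A : X) : corr D t I A ≤ 1 :=
  div_le_one_of_le₀ (zz_le_zero h0 h1 I A) (zz_nonneg h0 0)

theorem corr_zero {D : ι → X} {t : ι → ℝ} (h0 : ∀ i, 0 ≤ t i) (I : Finset ι) :
    corr D t I 0 = 1 := div_self (zz_pos h0 I).ne'

theorem corr_gks [E2 X] {D : ι → X} {t : ι → ℝ} (h0 : ∀ i, 0 ≤ t i) (h1 : ∀ i, t i ≤ 1)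
    (I : Finset ι) (A B : X) :
    corr D t I A * corr D t I B ≤ corr D t I (A + B) := by
  have hp := zz_pos (D := D) h0 I
  have := gks h0 h1 (D := D) I A B
  unfold corr
  rw [div_mul_div_comm, div_le_div_iff₀ (mul_pos hp hp) hp]
  nlinarith

theorem corr_insert_le [E2 X] {D : ι → X} {t : ι → ℝ} (h0 : ∀ i, 0 ≤ t i) (h1 : ∀ i, t i ≤ 1)
    {I : Finset ι} {i : ι} (hi : i ∉ I) (A : X) :
    corr D t I A ≤ corr D t (insert i I) A := by
  unfold corr
  rw [div_le_div_iff₀ (zz_pos h0 I) (zz_pos h0 _), zz_insert D t hi, zz_insert D t hi, zero_add]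
  have h2 := gks h0 h1 (D := D) I A (D i)
  have := h0 i
  nlinarith

theorem corr_union_le [E2 X] {D : ι → X} {t : ι → ℝ} (h0 : ∀ i, 0 ≤ t i) (h1 : ∀ i, t i ≤ 1)
    (I F : Finset ι) (A : X) :
    corr D t I A ≤ corr D t (F ∪ I) A := by
  induction F using Finset.induction_on with
  | empty => simp
  | @insert i F _ ih =>
    rw [insert_union]
    by_cases h : i ∈ F ∪ I
    · rw [insert_eq_of_mem h]; exact ih
    · exact ih.trans (corr_insert_le h0 h1 h A)

theorem corr_subset_le [E2 X] {D : ι → X} {t : ι → ℝ} (h0 : ∀ i, 0 ≤ t i) (h1 : ∀ i, t i ≤ 1)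
    {I J : Finset ι} (h : I ⊆ J) (A : X) : corr D t I A ≤ corr D t J A := by
  have := corr_union_le h0 h1 (D := D) I J A
  rwa [union_eq_left.2 h] at this

theorem zz_congr {D : ι → X} {t t' : ι → ℝ} {I : Finset ι} (h : ∀ i ∈ I, t i = t' i) (A : X) :
    zz D t I A = zz D t' I A := by
  unfold zz
  refine sum_congr rfl fun p hp => ?_
  have : tw t p = tw t' p := prod_congr rfl fun i hi => h i (mem_powerset.1 hp hi)
  rw [this]

theorem corr_update_le [E2 X] {D : ι → X} {t : ι → ℝ} (h0 : ∀ i, 0 ≤ t i) (h1 : ∀ i, t i ≤ 1)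
    (I : Finset ι) (i : ι) {s : ℝ} (hs : t i ≤ s) (A : X) :
    corr D t I A ≤ corr D (Function.update t i s) I A := by
  have hcong : ∀ (J : Finset ι), i ∉ J → ∀ C, zz D (Function.update t i s) J C = zz D t J C := by
    intro J hJ C
    refine zz_congr (fun j hj => ?_) C
    rw [Function.update_of_ne]
    intro h
    exact hJ (h ▸ hj)
  by_cases hi : i ∈ I
  · obtain ⟨J, hJ, rfl⟩ : ∃ J, i ∉ J ∧ insert i J = I := ⟨I.erase i, notMem_erase i I,
      insert_erase hi⟩
    unfold corr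
    have hs0 : 0 ≤ s := (h0 i).trans hs
    have hpos : 0 < zz D (Function.update t i s) (insert i J) 0 := by
      refine zz_pos (fun j => ?_) _
      by_cases hj : j = i
      · subst hj; simpa using hs0
      · rw [Function.update_of_ne hj]; exact h0 j
    rw [div_le_div_iff₀ (zz_pos h0 _) hpos, zz_insert D t hJ, zz_insert D t hJ,
      zz_insert D _ hJ, zz_insert D _ hJ, zero_add, hcong J hJ, hcong J hJ, hcong J hJ,
      hcong J hJ, Function.update_self]
    have h2 := gks h0 h1 (D := D) J A (D i)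
    nlinarith
  · unfold corr
    rw [hcong I hi, hcong I hi]

theorem corr_mono [E2 X] {D : ι → X} {t t' : ι → ℝ} (h0 : ∀ i, 0 ≤ t i) (h1 : ∀ i, t' i ≤ 1)
    (h : ∀ i, t i ≤ t' i) (I : Finset ι) (A : X) :
    corr D t I A ≤ corr D t' I A := by
  have key : ∀ T : Finset ι, corr D t I A ≤ corr D (fun i => if i ∈ T then t' i else t i) I A := by
    intro T
    induction T using Finset.induction_on with
    | empty => simp
    | @insert i T hi ih =>
      refine ih.trans ?_
      have e : (fun j => if j ∈ insert i T then t' j else t j) =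
          Function.update (fun j => if j ∈ T then t' j else t j) i (t' i) := by
        funext j
        by_cases hj : j = i
        · subst hj; simp
        · rw [Function.update_of_ne hj]; simp [hj]
      rw [e]
      refine corr_update_le (fun j => ?_) (fun j => ?_) I i ?_ A
      · show 0 ≤ (if j ∈ T then t' j else t j)
        split_ifs
        · exact (h0 j).trans (h j)
        · exact h0 j
      · show (if j ∈ T then t' j else t j) ≤ 1
        split_ifs
        · exact h1 j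
        · exact (h j).trans (h1 j)
      · simp only [if_neg hi]; exact h i
  have := key I
  have e : ∀ C, zz D (fun i => if i ∈ I then t' i else t i) I C = zz D t' I C := fun C =>
    zz_congr (fun i hi => by simp [hi]) C
  unfold corr at this ⊢
  rwa [e, e] at this

/-- flux inequality -/
theorem cnt_flux_le [E2 X] (D : ι → X) (ω : Finset ι) (e : ι) :
    cnt D ω 0 (fun q => if e ∈ q then 1 else 0) ≤ cnt D ω 0 (fun q => if e ∈ q then 0 else 1) := by
  by_cases h : ∃ q0 ∈ ω.powerset, bd D q0 = 0 ∧ e ∈ q0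
  · obtain ⟨q0, hq0, hb, he⟩ := h
    refine le_of_eq ?_
    unfold cnt
    rw [← sum_powerset_symmDiff (mem_powerset.1 hq0)]
    refine sum_congr rfl fun q _ => ?_
    rw [bd_symmDiff, hb, add_zero]
    have : e ∈ symmDiff q q0 ↔ e ∉ q := by
      rw [mem_symmDiff]; tauto
    simp only [this]
    split_ifs <;> rfl
  · have h1 : cnt D ω 0 (fun q => if e ∈ q then 1 else 0) = 0 := by
      unfold cnt
      refine sum_eq_zero fun q hq => ?_
      by_cases hb : bd D q = 0
      · rw [if_pos hb]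
        exact if_neg fun he => h ⟨q, hq, hb, he⟩
      · rw [if_neg hb]
    rw [h1]
    refine sum_nonneg fun q _ => ?_
    by_cases hb : bd D q = 0
    · rw [if_pos hb]; show (0:ℝ) ≤ (if e ∈ q then 0 else 1); split_ifs <;> norm_num
    · rw [if_neg hb]

theorem cnt_flux_eq [E2 X] (D : ι → X) (ω : Finset ι) (e : ι)
    (h : ∃ q0 ∈ ω.powerset, bd D q0 = 0 ∧ e ∈ q0) :
    cnt D ω 0 (fun q => if e ∈ q then 1 else 0) = cnt D ω 0 (fun q => if e ∈ q then 0 else 1) := by
  obtain ⟨q0, hq0, hb, he⟩ := h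
  unfold cnt
  rw [← sum_powerset_symmDiff (mem_powerset.1 hq0)]
  refine sum_congr rfl fun q _ => ?_
  rw [bd_symmDiff, hb, add_zero]
  have : e ∈ symmDiff q q0 ↔ e ∉ q := by
    rw [mem_symmDiff]; tauto
  simp only [this]
  split_ifs <;> rfl

/-- flux inequality for the double current; `F` is a function of `(ω, p ∆ q)` -/
theorem flux_le [E2 X] {D : ι → X} {t : ι → ℝ} (h0 : ∀ i, 0 ≤ t i) (h1 : ∀ i, t i ≤ 1)
    {I : Finset ι} {G : X → ℝ} (hG : ∀ C, 0 ≤ G C) {A : X} {F : Finset ι → Finset ι → ℝ}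
    (hF : ∀ ω r, 0 ≤ F ω r) (e : ι) :
    Y D t I G A 0 (fun ω p q => F ω (symmDiff p q) * if e ∈ q then 1 else 0) ≤
      Y D t I G A 0 (fun ω p q => F ω (symmDiff p q) * if e ∈ q then 0 else 1) := by
  rw [Y_split D t I G A 0 F (fun _ q => if e ∈ q then 1 else 0),
    Y_split D t I G A 0 F (fun _ q => if e ∈ q then 0 else 1)]
  refine sum_le_sum fun ω _ => sum_le_sum fun r _ => ?_
  refine mul_le_mul_of_nonneg_left (cnt_flux_le D ω e) ?_
  exact mul_nonneg (mul_nonneg (W_nonneg h0 h1 I ω r ∅) (hF ω r)) (hG _)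

theorem flux_eq [E2 X] {D : ι → X} {t : ι → ℝ}
    {I : Finset ι} {G : X → ℝ} {A : X} {F : Finset ι → Finset ι → ℝ} (e : ι)
    (h : ∀ ω r, ω ⊆ I → r ⊆ ω → F ω r ≠ 0 → ∃ q0 ∈ ω.powerset, bd D q0 = 0 ∧ e ∈ q0) :
    Y D t I G A 0 (fun ω p q => F ω (symmDiff p q) * if e ∈ q then 1 else 0) =
      Y D t I G A 0 (fun ω p q => F ω (symmDiff p q) * if e ∈ q then 0 else 1) := by
  rw [Y_split D t I G A 0 F (fun _ q => if e ∈ q then 1 else 0),
    Y_split D t I G A 0 F (fun _ q => if e ∈ q then 0 else 1)]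
  refine sum_congr rfl fun ω hω => sum_congr rfl fun r hr => ?_
  by_cases hF : F ω r = 0
  · rw [hF]; ring
  · rw [cnt_flux_eq D ω e (h ω r (mem_powerset.1 hω) (mem_powerset.1 hr) hF)]

end alg2

end Pool.Agent.L7h96.RC
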