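import Pool.Agent.L7h96.RC.Defs

set_option autoImplicit false
set_option linter.unusedSectionVars false
set_option linter.unusedSimpArgs false

open Finset

namespace Pool.Agent.L7h96.RC

variable {d : ℕ}

instance : E2 (X d) := ⟨fun a => by
  ext v
  simp only [Finsupp.add_apply, Finsupp.coe_zero, Pi.zero_apply]
  exact CharTwo.add_self_eq_zero _⟩

theorem fst_ne_tg (e : Ed d) : e.1 ≠ tg e := by
  intro h
  have h2 := congrFun h e.2
  simp [tg] at h2

theorem gr_adj {O : Set (Ed d)} {e : Ed d} (he : e ∈ O) : (gr O).Adj e.1 (tg e) :=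
  ⟨e, he, Or.inl ⟨rfl, rfl⟩⟩

theorem gr_mono {O O' : Set (Ed d)} (h : O ⊆ O') : gr O ≤ gr O' := by
  intro x y ⟨e, he, hh⟩
  exact ⟨e, h he, hh⟩

theorem reach_mono {O O' : Set (Ed d)} (h : O ⊆ O') {u v : V d}
    (hr : (gr O).Reachable u v) : (gr O').Reachable u v := hr.mono (gr_mono h)

theorem inf_mono {O O' : Set (Ed d)} (h : O ⊆ O') {u : V d}
    (hr : Inf O u) : Inf O' u := Set.Infinite.mono (fun _ hw => reach_mono h hw) hr

theorem inf_reach {O : Set (Ed d)} {u v : V d} (h : (gr O).Reachable u v) (hr : Inf O u) :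
    Inf O v := by
  refine Set.Infinite.mono (fun w hw => ?_) hr
  exact h.symm.trans hw

/-- induction along open edges -/
theorem reach_ind {O : Set (Ed d)} {u : V d} {P : V d → Prop} (h0 : P u)
    (h1 : ∀ e ∈ O, (gr O).Reachable u e.1 → (P e.1 ↔ P (tg e))) {v : V d}
    (h : (gr O).Reachable u v) : P v := by
  rw [SimpleGraph.reachable_iff_reflTransGen] at h
  induction h with
  | refl => exact h0
  | @tail a b hab hadj ih =>
    have hr : (gr O).Reachable u a := (SimpleGraph.reachable_iff_reflTransGen _ _).2 hab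
    obtain ⟨e, he, ⟨rfl, rfl⟩ | ⟨rfl, rfl⟩⟩ := hadj
    · exact (h1 e he hr).1 ih
    · exact (h1 e he (hr.trans (gr_adj he).symm.reachable)).2 ih

theorem reach_chain {O : Set (Ed d)} {u v : V d} (h : (gr O).Reachable u v) :
    ∃ K : Finset (Ed d), ↑K ⊆ O ∧ bd DB K = Finsupp.single u 1 + Finsupp.single v 1 := by
  rw [SimpleGraph.reachable_iff_reflTransGen] at h
  induction h with
  | refl => exact ⟨∅, by simp, by rw [bd_empty, add_self']⟩
  | @tail a b _ hadj ih =>
    obtain ⟨K, hK, hb⟩ := ih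
    obtain ⟨e, he, hh⟩ := hadj
    refine ⟨symmDiff K {e}, ?_, ?_⟩
    · intro x hx
      rw [mem_coe, mem_symmDiff, mem_singleton] at hx
      rcases hx with hx | hx
      · exact hK hx.1
      · rw [hx.1]; exact he
    · rw [bd_symmDiff, hb]
      have h1 : bd DB ({e} : Finset (Ed d)) = Finsupp.single a 1 + Finsupp.single b 1 := by
        have : bd DB ({e} : Finset (Ed d)) = DB e := by simp [bd]
        rw [this, DB]
        rcases hh with ⟨rfl, rfl⟩ | ⟨rfl, rfl⟩
        · rfl
        · rw [add_comm]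
      rw [h1]
      have : Finsupp.single u 1 + Finsupp.single a 1 + (Finsupp.single a 1 + Finsupp.single b 1) =
        Finsupp.single u 1 + Finsupp.single b 1 + (Finsupp.single a (1 : ZMod 2) +
          Finsupp.single a 1) := by abel
      rw [this, add_self', add_zero]

open scoped Classical in
/-- parity of a chain on a set of vertices -/
noncomputable def par (C : Set (V d)) : X d →+ ZMod 2 :=
  Finsupp.liftAddHom (fun w => if w ∈ C then AddMonoidHom.id (ZMod 2) else 0)

open scoped Classical in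
theorem par_single (C : Set (V d)) (w : V d) (a : ZMod 2) :
    par C (Finsupp.single w a) = if w ∈ C then a else 0 := by
  unfold par
  rw [Finsupp.liftAddHom_apply_single]
  split_ifs <;> rfl

open scoped Classical in
theorem par_DB (C : Set (V d)) (e : Ed d) :
    par C (DB e) = (if e.1 ∈ C then 1 else 0) + (if tg e ∈ C then 1 else 0) := by
  rw [DB, map_add, par_single, par_single]

theorem par_bd (C : Set (V d)) (K : Finset (Ed d)) :
    par C (bd DB K) = ∑ e ∈ K, par C (DB e) := by
  unfold bd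
  rw [map_sum]

theorem par_DB_zero {C : Set (V d)} {e : Ed d} (h : e.1 ∈ C ↔ tg e ∈ C) :
    par C (DB e) = 0 := by
  classical
  rw [par_DB]
  simp only [h]
  split_ifs
  · exact CharTwo.add_self_eq_zero _
  · simp

theorem par_DB_one {C : Set (V d)} {e : Ed d} (h : ¬ (e.1 ∈ C ↔ tg e ∈ C)) :
    par C (DB e) = 1 := by
  classical
  rw [par_DB]
  by_cases h1 : e.1 ∈ C
  · have h2 : tg e ∉ C := fun h2 => h ⟨fun _ => h2, fun _ => h1⟩
    simp [h1, h2]
  · have h2 : tg e ∈ C := by
      by_contra h2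
      exact h ⟨fun h => absurd h h1, fun h => absurd h h2⟩
    simp [h1, h2]

theorem chain_reach {O : Set (Ed d)} {u v : V d} {K : Finset (Ed d)} (hK : ↑K ⊆ O)
    (hb : bd DB K = Finsupp.single u 1 + Finsupp.single v 1) : (gr O).Reachable u v := by
  classical
  set C : Set (V d) := {w | (gr O).Reachable u w} with hC
  have h1 : par C (bd DB K) = 0 := by
    rw [par_bd]
    refine sum_eq_zero fun e he => par_DB_zero ?_
    have := (gr_adj (hK he)).reachable
    exact ⟨fun h => SimpleGraph.Reachable.trans h this,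
      fun h => SimpleGraph.Reachable.trans h this.symm⟩
  rw [hb, map_add, par_single, par_single] at h1
  have hu : u ∈ C := SimpleGraph.Reachable.refl _
  rw [if_pos hu] at h1
  by_contra hv
  have hv' : v ∉ C := hv
  rw [if_neg hv', add_zero] at h1
  exact one_ne_zero h1

/-- edges at a vertex -/
noncomputable def inc (v : V d) : Finset (Ed d) :=
  (Finset.univ.image fun i : Fin d => ((v, i) : Ed d)) ∪
    (Finset.univ.image fun i : Fin d => ((v - Pi.single i 1, i) : Ed d))

theorem mem_inc {v : V d} {e : Ed d} : e ∈ inc v ↔ e.1 = v ∨ tg e = v := by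
  unfold inc
  rw [mem_union, mem_image, mem_image]
  constructor
  · rintro (⟨i, _, rfl⟩ | ⟨i, _, rfl⟩)
    · exact Or.inl rfl
    · right; simp [tg]
  · rintro (rfl | h)
    · exact Or.inl ⟨e.2, mem_univ _, rfl⟩
    · right
      refine ⟨e.2, mem_univ _, ?_⟩
      rw [← h]
      ext <;> simp [tg]

theorem DB_apply_of_not {v : V d} {e : Ed d} (h : e ∉ inc v) : DB e v = 0 := by
  rw [mem_inc, not_or] at h
  unfold DB
  rw [Finsupp.add_apply, Finsupp.single_apply, Finsupp.single_apply, if_neg h.1, if_neg h.2,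
    add_zero]

/-- `p` is even at `v` -/
def EvAt (p : Set (Ed d)) (v : V d) : Prop := by
  classical
  exact ∑ e ∈ inc v, (if e ∈ p then DB e v else 0) = 0

/-- `p` is even at every vertex -/
def Evn (p : Set (Ed d)) : Prop := ∀ v, EvAt p v

theorem bd_apply (K : Finset (Ed d)) (v : V d) : bd DB K v = ∑ e ∈ K, DB e v := by
  unfold bd
  rw [Finsupp.finsetSum_apply]

open scoped Classical in
theorem bd_apply_inc (p : Set (Ed d)) (K : Finset (Ed d)) (v : V d)
    (h : ∀ e ∈ inc v, (e ∈ p ↔ e ∈ K)) :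
    bd DB K v = ∑ e ∈ inc v, (if e ∈ p then DB e v else 0) := by
  rw [bd_apply, ← sum_filter]
  symm
  refine sum_subset_zero_on_sdiff ?_ ?_ ?_
  · intro e he
    rw [mem_filter] at he
    exact (h e he.1).1 he.2
  · intro e he
    rw [mem_sdiff, mem_filter, not_and] at he
    by_cases h1 : e ∈ inc v
    · exact absurd ((h e h1).2 he.1) (he.2 h1)
    · exact DB_apply_of_not h1
  · intro e _; rfl

theorem par_eq_sum (C : Finset (V d)) (c : X d) : par (↑C) c = ∑ v ∈ C, c v := by
  classical
  induction c using Finsupp.induction_linear with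
  | zero => simp
  | add f g hf hg => rw [map_add, hf, hg, ← sum_add_distrib]; rfl
  | single w a =>
    rw [par_single]
    simp only [Finsupp.single_apply, mem_coe]
    rw [sum_ite_eq]

/-- a finite set with a single odd edge on its boundary contradicts evenness -/
theorem flux_fin {p : Set (Ed d)} (hp : Evn p) (C : Set (V d)) (hC : C.Finite) {e₀ : Ed d}
    (h0 : e₀ ∈ p) (hc : ¬ (e₀.1 ∈ C ↔ tg e₀ ∈ C))
    (h : ∀ e ∈ p, e ≠ e₀ → (e.1 ∈ C ↔ tg e ∈ C)) : False := by
  classical
  lift C to Finset (V d) using hC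
  set K : Finset (Ed d) := (C.biUnion inc).filter (fun e => e ∈ p) with hK
  have h1 : par (↑C) (bd DB K) = 0 := by
    rw [par_eq_sum]
    refine sum_eq_zero fun v hv => ?_
    rw [bd_apply_inc p K v]
    · exact hp v
    · intro e he
      rw [hK, mem_filter, mem_biUnion]
      exact ⟨fun h => ⟨⟨v, hv, he⟩, h⟩, fun h => h.2⟩
  have h2 : e₀ ∈ K := by
    rw [hK, mem_filter, mem_biUnion]
    refine ⟨?_, h0⟩
    by_cases h1 : e₀.1 ∈ C
    · exact ⟨e₀.1, h1, mem_inc.2 (Or.inl rfl)⟩
    · have h2 : tg e₀ ∈ C := by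
        by_contra h2
        exact hc ⟨fun h => absurd h h1, fun h => absurd h h2⟩
      exact ⟨tg e₀, h2, mem_inc.2 (Or.inr rfl)⟩
  rw [par_bd, sum_eq_single e₀, par_DB_one hc] at h1
  · exact one_ne_zero h1
  · intro e he hne
    exact par_DB_zero (h e (mem_filter.1 he).2 hne)
  · intro h; exact absurd h2 h

/-- an odd bridge has two infinite sides -/
theorem inf_of_odd {p O : Set (Ed d)} (hp : Evn p) (hpO : p ⊆ O) {e : Ed d} (he : e ∈ p)
    (hb : ¬ (gr (O \ {e})).Reachable e.1 (tg e)) :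
    Inf (O \ {e}) e.1 ∧ Inf (O \ {e}) (tg e) := by
  constructor
  · by_contra hfin
    unfold Inf at hfin
    rw [Set.not_infinite] at hfin
    refine flux_fin hp _ hfin he ?_ ?_
    · intro h
      exact hb (h.1 (SimpleGraph.Reachable.refl _))
    · intro e' he' hne
      have hadj := (gr_adj (O := O \ {e}) (e := e') ⟨hpO he', hne⟩).reachable
      exact ⟨fun h => SimpleGraph.Reachable.trans h hadj,
        fun h => SimpleGraph.Reachable.trans h hadj.symm⟩
  · by_contra hfin
    unfold Inf at hfin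
    rw [Set.not_infinite] at hfin
    refine flux_fin hp _ hfin he ?_ ?_
    · intro h
      exact hb (SimpleGraph.Reachable.symm (h.2 (SimpleGraph.Reachable.refl _)))
    · intro e' he' hne
      have hadj := (gr_adj (O := O \ {e}) (e := e') ⟨hpO he', hne⟩).reachable
      exact ⟨fun h => SimpleGraph.Reachable.trans h hadj,
        fun h => SimpleGraph.Reachable.trans h hadj.symm⟩

/-! ### finite boxes -/

theorem mem_box {n : ℕ} {v : V d} : v ∈ box d n ↔ ∀ j, |v j| ≤ n := by
  unfold box
  rw [mem_Icc, Pi.le_def, Pi.le_def]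
  simp only [abs_le]
  exact ⟨fun h j => ⟨h.1 j, h.2 j⟩, fun h => ⟨fun j => (h j).1, fun j => (h j).2⟩⟩

theorem mem_edg {n : ℕ} {e : Ed d} : e ∈ edg d n ↔ e.1 ∈ box d n ∧ tg e ∈ box d n := by
  unfold edg
  rw [mem_filter, mem_product]
  simp

theorem box_mono {m n : ℕ} (h : m ≤ n) : box d m ⊆ box d n := by
  intro v hv
  rw [mem_box] at hv ⊢
  intro j
  exact (hv j).trans (by exact_mod_cast h)

theorem edg_mono {m n : ℕ} (h : m ≤ n) : edg d m ⊆ edg d n := by
  intro e he
  rw [mem_edg] at he ⊢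
  exact ⟨box_mono h he.1, box_mono h he.2⟩

theorem exists_box (v : V d) : ∃ n, v ∈ box d n := by
  refine ⟨∑ j, (v j).natAbs, mem_box.2 fun j => ?_⟩
  have h : (v j).natAbs ≤ ∑ j, (v j).natAbs :=
    single_le_sum (f := fun j => (v j).natAbs) (fun _ _ => Nat.zero_le _) (mem_univ j)
  rw [Int.abs_eq_natAbs]
  exact_mod_cast h

theorem exists_box_finset (C : Finset (V d)) : ∃ n, C ⊆ box d n := by
  classical
  induction C using Finset.induction_on with
  | empty => exact ⟨0, by simp⟩
  | @insert v C _ ih =>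
    obtain ⟨n, hn⟩ := ih
    obtain ⟨m, hm⟩ := exists_box v
    refine ⟨max m n, ?_⟩
    rw [insert_subset_iff]
    exact ⟨box_mono (le_max_left _ _) hm, hn.trans (box_mono (le_max_right _ _))⟩

theorem exists_edg_finset (C : Finset (Ed d)) : ∃ n, C ⊆ edg d n := by
  classical
  obtain ⟨n, hn⟩ := exists_box_finset (C.image (fun e => e.1) ∪ C.image tg)
  refine ⟨n, fun e he => mem_edg.2 ⟨hn ?_, hn ?_⟩⟩
  · exact mem_union_left _ (mem_image_of_mem _ he)
  · exact mem_union_right _ (mem_image_of_mem _ he)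

theorem reach_fin {O : Set (Ed d)} {u v : V d} (h : (gr O).Reachable u v) :
    ∃ n, (gr (O ∩ ↑(edg d n))).Reachable u v := by
  obtain ⟨K, hK, hb⟩ := reach_chain h
  obtain ⟨n, hn⟩ := exists_edg_finset K
  exact ⟨n, chain_reach (fun e he => ⟨hK he, hn he⟩) hb⟩

theorem reach_box_mono {O : Set (Ed d)} {u v : V d} {m n : ℕ} (hmn : m ≤ n)
    (h : (gr (O ∩ ↑(edg d m))).Reachable u v) : (gr (O ∩ ↑(edg d n))).Reachable u v :=
  reach_mono (Set.inter_subset_inter_right _ (by exact_mod_cast edg_mono hmn)) h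

/-! ### shifts -/

/-- shift of an edge -/
def shE (v : V d) (e : Ed d) : Ed d := (e.1 + v, e.2)

@[simp] theorem tg_shE (v : V d) (e : Ed d) : tg (shE v e) = tg e + v := by
  unfold tg shE; exact add_right_comm _ _ _

@[simp] theorem shE_fst (v : V d) (e : Ed d) : (shE v e).1 = e.1 + v := rfl

theorem shE_shE (u v : V d) (e : Ed d) : shE u (shE v e) = shE (v + u) e := by
  unfold shE; simp [add_assoc]

@[simp] theorem shE_zero (e : Ed d) : shE 0 e = e := by unfold shE; simp

/-- shift as an equivalence -/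
def shEq (v : V d) : Ed d ≃ Ed d where
  toFun := shE v
  invFun := shE (-v)
  left_inv e := by rw [shE_shE]; simp
  right_inv e := by rw [shE_shE]; simp

theorem reach_shift {O O' : Set (Ed d)} {v : V d} (h : ∀ e, e ∈ O → shE v e ∈ O') {a b : V d}
    (hr : (gr O).Reachable a b) : (gr O').Reachable (a + v) (b + v) := by
  rw [SimpleGraph.reachable_iff_reflTransGen] at hr
  induction hr with
  | refl => exact SimpleGraph.Reachable.refl _
  | @tail x y _ hadj ih =>
    refine ih.trans (SimpleGraph.Adj.reachable ?_)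
    obtain ⟨e, he, ⟨rfl, rfl⟩ | ⟨rfl, rfl⟩⟩ := hadj
    · exact ⟨shE v e, h e he, Or.inl ⟨rfl, (tg_shE v e).symm⟩⟩
    · exact ⟨shE v e, h e he, Or.inr ⟨(tg_shE v e).symm, rfl⟩⟩

/-- edges of the box of radius `R` around `z` -/
noncomputable def wedg (z : V d) (R : ℕ) : Finset (Ed d) := (edg d R).map (shEq z).toEmbedding

theorem mem_wedg {z : V d} {R : ℕ} {e : Ed d} :
    e ∈ wedg z R ↔ (∀ j, |e.1 j - z j| ≤ R) ∧ (∀ j, |tg e j - z j| ≤ R) := by
  unfold wedg
  rw [mem_map_equiv]
  show shE (-z) e ∈ edg d R ↔ _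
  rw [mem_edg, mem_box, mem_box, tg_shE, shE_fst]
  simp [sub_eq_add_neg]

/-- `z` reaches distance `R` -/
def Rch (O : Set (Ed d)) (z : V d) (R : ℕ) : Prop :=
  ∃ w, (∃ j, (R : ℤ) ≤ |w j - z j|) ∧ (gr (O ∩ ↑(wedg z R))).Reachable z w

theorem tg_sub (e : Ed d) (j : Fin d) : |tg e j - e.1 j| ≤ 1 := by
  unfold tg
  simp only [Pi.add_apply, add_sub_cancel_left, Pi.single_apply]
  split_ifs <;> simp

theorem rch_of_reach {O : Set (Ed d)} {z w : V d} {R : ℕ} (hw : ∃ j, (R : ℤ) ≤ |w j - z j|)
    (h : (gr O).Reachable z w) : Rch O z R := by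
  by_contra hn
  have key : ∀ w, (gr O).Reachable z w →
      (gr (O ∩ ↑(wedg z R))).Reachable z w ∧ ∀ j, |w j - z j| < R := by
    intro w h
    rw [SimpleGraph.reachable_iff_reflTransGen] at h
    induction h with
    | refl =>
      refine ⟨SimpleGraph.Reachable.refl _, fun j => ?_⟩
      by_contra hj
      exact hn ⟨z, ⟨j, not_lt.1 hj⟩, SimpleGraph.Reachable.refl _⟩
    | @tail a b _ hadj ih =>
      obtain ⟨ih1, ih2⟩ := ih
      have hstep : (gr (O ∩ ↑(wedg z R))).Adj a b := by
        obtain ⟨e, he, hh⟩ := hadj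
        have hab : ∀ j, |b j - a j| ≤ 1 := by
          intro j
          rcases hh with ⟨rfl, rfl⟩ | ⟨rfl, rfl⟩
          · exact tg_sub e j
          · rw [abs_sub_comm]; exact tg_sub e j
        have hb : ∀ j, |b j - z j| ≤ R := by
          intro j
          have h1 := hab j
          have h2 := ih2 j
          have h3 : |b j - z j| ≤ |b j - a j| + |a j - z j| := abs_sub_le _ _ _
          omega
        have ha : ∀ j, |a j - z j| ≤ R := fun j => (ih2 j).le
        refine ⟨e, ⟨he, ?_⟩, hh⟩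
        rw [mem_coe, mem_wedg]
        rcases hh with ⟨rfl, rfl⟩ | ⟨rfl, rfl⟩
        · exact ⟨ha, hb⟩
        · exact ⟨hb, ha⟩
      have hr := ih1.trans hstep.reachable
      refine ⟨hr, fun j => ?_⟩
      by_contra hj
      exact hn ⟨b, ⟨j, not_lt.1 hj⟩, hr⟩
  obtain ⟨j, hj⟩ := hw
  have := (key w h).2 j
  omega

theorem rch_of_inf {O : Set (Ed d)} {z : V d} (h : Inf O z) (R : ℕ) : Rch O z R := by
  by_contra hn
  apply h
  refine Set.Finite.subset (Finset.finite_toSet ((box d R).map (Equiv.addRight z).toEmbedding)) ?_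
  intro w hw
  rw [mem_coe, mem_map_equiv]
  show w + -z ∈ box d R
  rw [mem_box]
  intro j
  by_contra hj
  refine hn (rch_of_reach (w := w) ⟨j, ?_⟩ hw)
  rw [not_le] at hj
  simp only [Pi.add_apply, Pi.neg_apply] at hj
  rw [sub_eq_add_neg]
  exact hj.le

theorem inf_of_rch {O : Set (Ed d)} {z : V d} (h : ∀ R, Rch O z R) : Inf O z := by
  intro hfin
  obtain ⟨n, hn⟩ := exists_box_finset (hfin.toFinset.map (Equiv.addRight (-z)).toEmbedding)
  obtain ⟨w, ⟨j, hj⟩, hr⟩ := h (n + 1)
  have hw : w ∈ hfin.toFinset := by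
    rw [Set.Finite.mem_toFinset]
    exact reach_mono Set.inter_subset_left hr
  have h2 := hn (mem_map_of_mem _ hw)
  rw [mem_box] at h2
  have h3 := h2 j
  simp only [Equiv.coe_toEmbedding, Equiv.coe_addRight, Pi.add_apply, Pi.neg_apply] at h3
  rw [← sub_eq_add_neg] at h3
  push_cast at hj
  omega

end Pool.Agent.L7h96.RC
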