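import Pool.Agent.L7h96.RC.Model
import Pool.Agent.L7h96.RC.Alg2
import Pool.Agent.L7h96.RC.Conn

set_option autoImplicit false

/-! The mixing inequality in finite volume. -/

open Finset

namespace Pool.Agent.L7h96.RC

variable {d : ℕ}

/-- the bulk edges -/
def bk (ω : Finset (HE d)) : Set (Ed d) := {e | Sum.inl e ∈ ω}

theorem Sp_add {ω : Finset (HE d)} {A B : X d} (hA : Sp DD ω A) (hB : Sp DD ω B) :
    Sp DD ω (A + B) := by
  obtain ⟨p, hp, rfl⟩ := hA
  obtain ⟨q, hq, rfl⟩ := hB
  rw [mem_powerset] at hp hq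
  refine ⟨symmDiff p q, ?_, bd_symmDiff DD p q⟩
  rw [mem_powerset]
  intro i hi
  rw [mem_symmDiff] at hi
  rcases hi with hi | hi
  · exact hp hi.1
  · exact hq hi.1

theorem Sp_zero {ω : Finset (HE d)} : Sp DD ω 0 := ⟨∅, by simp, bd_empty DD⟩

theorem Sp_sum {ω : Finset (HE d)} {ι : Type*} (s : Finset ι) (f : ι → X d)
    (h : ∀ i ∈ s, Sp DD ω (f i)) : Sp DD ω (∑ i ∈ s, f i) := by
  classical
  induction s using Finset.induction_on with
  | empty => simpa using Sp_zero
  | @insert i s hi ih =>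
    rw [sum_insert hi]
    exact Sp_add (h i (mem_insert_self _ _)) (ih fun j hj => h j (mem_insert_of_mem hj))

theorem Sp_reach {ω : Finset (HE d)} {x y : V d} (h : (gr (bk ω)).Reachable x y) :
    Sp DD ω (Finsupp.single x 1 + Finsupp.single y 1) := by
  obtain ⟨K, hK, hb⟩ := reach_chain h
  refine ⟨K.map Function.Embedding.inl, ?_, ?_⟩
  · rw [mem_powerset]
    intro i hi
    obtain ⟨e, he, rfl⟩ := mem_map.1 hi
    exact hK he
  · rw [← hb]
    unfold bd
    rw [sum_map]
    rfl

theorem Sp_ghost {ω : Finset (HE d)} {v : V d} (h : Sum.inr v ∈ ω) :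
    Sp DD ω (Finsupp.single v 1) := by
  refine ⟨{Sum.inr v}, by simpa using h, ?_⟩
  unfold bd
  rw [sum_singleton]
  rfl

theorem smul_even {m : ℕ} (hm : Even m) (x : X d) : m • x = 0 := by
  obtain ⟨k, rfl⟩ := hm
  rw [add_smul, ← smul_add, add_self', smul_zero]

theorem eq_sum_single (B : X d) : B = ∑ v ∈ B.support, Finsupp.single v (1 : ZMod 2) := by
  conv_lhs => rw [← Finsupp.sum_single B]
  unfold Finsupp.sum
  refine sum_congr rfl fun v hv => ?_
  have h2 : ∀ z : ZMod 2, z ≠ 0 → z = 1 := by decide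
  rw [h2 (B v) (Finsupp.mem_support_iff.1 hv)]

open scoped Classical in
theorem span {ω : Finset (HE d)} {B : X d} (h : ¬ Sp DD ω B) :
    ∃ κ : (gr (bk ω)).ConnectedComponent,
      (∀ v, (gr (bk ω)).connectedComponentMk v = κ → Sum.inr v ∉ ω) ∧
      Odd (B.support.filter (fun v => (gr (bk ω)).connectedComponentMk v = κ)).card := by
  by_contra hcon
  push Not at hcon
  apply h
  rw [eq_sum_single B, ← sum_fiberwise_of_maps_to (s := B.support)
    (t := B.support.image (gr (bk ω)).connectedComponentMk)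
    (g := (gr (bk ω)).connectedComponentMk) (fun v hv => mem_image_of_mem _ hv)]
  apply Sp_sum
  intro κ _
  by_cases hg : ∀ v, (gr (bk ω)).connectedComponentMk v = κ → Sum.inr v ∉ ω
  · have he := Nat.not_odd_iff_even.1 (by
      have := hcon κ hg
      simpa using this)
    set F := B.support.filter (fun v => (gr (bk ω)).connectedComponentMk v = κ) with hF
    rcases F.eq_empty_or_nonempty with h0 | ⟨k, hk⟩
    · rw [h0, sum_empty]; exact Sp_zero
    · have e1 : ∑ v ∈ F, Finsupp.single v (1 : ZMod 2) =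
          ∑ v ∈ F, (Finsupp.single v (1 : ZMod 2) + Finsupp.single k 1) := by
        rw [sum_add_distrib, sum_const, smul_even he, add_zero]
      rw [e1]
      apply Sp_sum
      intro v hv
      apply Sp_reach
      rw [hF, mem_filter] at hv hk
      exact SimpleGraph.ConnectedComponent.exact (hv.2.trans hk.2.symm)
  · push Not at hg
    obtain ⟨w, hw, hwg⟩ := hg
    apply Sp_sum
    intro v hv
    rw [mem_filter] at hv
    have e1 : Finsupp.single v (1 : ZMod 2) = Finsupp.single v 1 + Finsupp.single w 1 +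
        Finsupp.single w 1 := by
      rw [add_assoc, add_self', add_zero]
    rw [e1]
    apply Sp_add _ (Sp_ghost hwg)
    apply Sp_reach
    exact SimpleGraph.ConnectedComponent.exact (hv.2.trans hw.symm)

open scoped Classical in
theorem par_eq (C : Set (V d)) (A : X d) :
    par C A = ((A.support.filter (fun v => v ∈ C)).card : ZMod 2) := by
  conv_lhs => rw [eq_sum_single A]
  rw [map_sum]
  simp only [par_single]
  rw [← sum_filter, sum_const, nsmul_eq_mul, mul_one]

/-- the vertices of the box connected to `a` -/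
noncomputable def Nb (n : ℕ) (ω : Finset (HE d)) (a : V d) : Finset (V d) := by
  classical
  exact (box d n).filter (fun v => (gr (bk ω)).Reachable a v)

theorem mem_Nb {n : ℕ} {ω : Finset (HE d)} {a v : V d} :
    v ∈ Nb n ω a ↔ v ∈ box d n ∧ (gr (bk ω)).Reachable a v := by
  classical
  unfold Nb; rw [mem_filter]

/-- the event -/
def Ev (n r : ℕ) (ω : Finset (HE d)) (a : V d) : Prop :=
  (∀ v, (gr (bk ω)).Reachable a v → Sum.inr v ∉ ω) ∧ r ≤ (Nb n ω a).card

theorem reach_box {n : ℕ} {ω : Finset (HE d)} (hω : ω ⊆ II d n) {x y : V d}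
    (h : (gr (bk ω)).Reachable x y) (hxy : x ≠ y) : y ∈ box d n := by
  rw [SimpleGraph.reachable_iff_reflTransGen] at h
  cases h with
  | refl => exact absurd rfl hxy
  | @tail b _ _ hadj =>
    obtain ⟨e, he, hh⟩ := hadj
    have he' : e ∈ edg d n := by
      have := hω he
      unfold II at this
      simpa using this
    rw [mem_edg] at he'
    rcases hh with ⟨_, rfl⟩ | ⟨_, rfl⟩
    · exact he'.2
    · exact he'.1

theorem ivt {O : Set (Ed d)} (j : Fin d) {x y : V d} (h : (gr O).Reachable x y) :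
    ∀ c ∈ Finset.uIcc (x j) (y j), ∃ v, (gr O).Reachable x v ∧ v j = c := by
  rw [SimpleGraph.reachable_iff_reflTransGen] at h
  induction h with
  | refl =>
    intro c hc
    rw [uIcc_self, mem_singleton] at hc
    exact ⟨x, SimpleGraph.Reachable.refl _, hc.symm⟩
  | @tail b z hab hadj ih =>
    intro c hc
    have hr : (gr O).Reachable x b := (SimpleGraph.reachable_iff_reflTransGen _ _).2 hab
    have hstep : |z j - b j| ≤ 1 := by
      obtain ⟨e, _, hh⟩ := hadj
      rcases hh with ⟨rfl, rfl⟩ | ⟨rfl, rfl⟩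
      · exact tg_sub e j
      · rw [abs_sub_comm]; exact tg_sub e j
    by_cases hc' : c ∈ Finset.uIcc (x j) (b j)
    · exact ih c hc'
    · refine ⟨z, hr.trans hadj.reachable, ?_⟩
      rw [mem_uIcc] at hc hc'
      rw [abs_le] at hstep
      omega

theorem Nb_card {n r : ℕ} {ω : Finset (HE d)} (hω : ω ⊆ II d n) {a b : V d}
    (h : (gr (bk ω)).Reachable a b) {j : Fin d} (hj : (r : ℤ) ≤ |a j - b j|) :
    r ≤ (Nb n ω a).card := by
  rcases Nat.eq_zero_or_pos r with rfl | hr
  · exact Nat.zero_le _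
  have hab : a ≠ b := by
    rintro rfl
    simp at hj
    omega
  have ha : a ∈ box d n := reach_box hω h.symm hab.symm
  have hsub : Finset.uIcc (a j) (b j) ⊆ (Nb n ω a).image (fun v => v j) := by
    intro c hc
    obtain ⟨v, hv, hvc⟩ := ivt j h c hc
    rw [mem_image]
    refine ⟨v, mem_Nb.2 ⟨?_, hv⟩, hvc⟩
    by_cases hav : a = v
    · rw [← hav]; exact ha
    · exact reach_box hω hv hav
  have h1 := (card_le_card hsub).trans card_image_le
  rw [Int.card_uIcc] at h1
  rw [abs_sub_comm, Int.abs_eq_natAbs] at hj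
  omega

theorem event {n r : ℕ} {ω p : Finset (HE d)} {A B : X d} (hω : ω ⊆ II d n) (hp : p ⊆ ω)
    (hb : A + B + bd DD p = 0) (hS : ¬ Sp DD ω B)
    (hr : ∀ x ∈ A.support, ∀ y ∈ B.support, ∃ j, (r : ℤ) ≤ |x j - y j|) :
    ∃ a ∈ A.support, Ev n r ω a := by
  classical
  obtain ⟨κ, hκ, hodd⟩ := span hS
  set C : Set (V d) := {v | (gr (bk ω)).connectedComponentMk v = κ} with hC
  have hB : par C B = 1 := by
    rw [par_eq]
    exact ZMod.natCast_eq_one_iff_odd.2 hodd
  have hP : par C (bd DD p) = 0 := by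
    unfold bd
    rw [map_sum]
    apply sum_eq_zero
    intro i hi
    cases i with
    | inl e =>
      apply par_DB_zero
      have hadj := (gr_adj (O := bk ω) (e := e) (hp hi)).reachable
      have : (gr (bk ω)).connectedComponentMk e.1 = (gr (bk ω)).connectedComponentMk (tg e) :=
        SimpleGraph.ConnectedComponent.sound hadj
      show (gr (bk ω)).connectedComponentMk e.1 = κ ↔ (gr (bk ω)).connectedComponentMk (tg e) = κ
      rw [this]
    | inr v =>
      show par C (DG v) = 0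
      unfold DG
      rw [par_single, if_neg]
      intro hv
      exact hκ v hv (hp hi)
  have hA : par C A = 1 := by
    have h := congrArg (par C) hb
    rw [map_add, map_add, map_zero, hB, hP, add_zero] at h
    have h2 : ∀ z : ZMod 2, z + 1 = 0 → z = 1 := by decide
    exact h2 _ h
  have hAne : (A.support.filter (fun v => v ∈ C)).Nonempty := by
    rw [nonempty_iff_ne_empty]
    intro h0
    rw [par_eq, h0] at hA
    simp at hA
  have hBne : (B.support.filter (fun v => v ∈ C)).Nonempty := by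
    rw [nonempty_iff_ne_empty]
    intro h0
    rw [par_eq, h0] at hB
    simp at hB
  obtain ⟨a, ha⟩ := hAne
  obtain ⟨b, hb'⟩ := hBne
  rw [mem_filter] at ha hb'
  have hreach : (gr (bk ω)).Reachable a b :=
    SimpleGraph.ConnectedComponent.exact ((show (gr (bk ω)).connectedComponentMk a = κ from ha.2).trans
      (show (gr (bk ω)).connectedComponentMk b = κ from hb'.2).symm)
  obtain ⟨j, hj⟩ := hr a ha.1 b hb'.1
  refine ⟨a, ha.1, ?_, Nb_card hω hreach hj⟩
  intro v hv
  apply hκ
  rw [← (show (gr (bk ω)).connectedComponentMk a = κ from ha.2)]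
  exact SimpleGraph.ConnectedComponent.sound hv.symm

/-! ### the weights -/

theorem sum_pow_card (T : Finset (V d)) (x y : ℝ) :
    ∑ S ∈ T.powerset, x ^ S.card * y ^ (T.card - S.card) = (x + y) ^ T.card := by
  rw [Finset.sum_pow_mul_eq_add_pow]

/-- adding ghosts -/
noncomputable def ag (ω : Finset (HE d)) (T : Finset (V d)) : Finset (HE d) :=
  ω ∪ T.map Function.Embedding.inr

theorem bk_ag (ω : Finset (HE d)) (T : Finset (V d)) : bk (ag ω T) = bk ω := by
  ext e
  unfold bk ag
  simp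

theorem W_ag {n : ℕ} {b g : ℝ} {ω p q : Finset (HE d)} {N T : Finset (V d)}
    (hN : N ⊆ box d n) (hNω : ∀ v ∈ N, Sum.inr v ∉ ω) (hT : T ⊆ N) (hp : p ⊆ ω) (hq : q ⊆ ω) :
    W (tt b g) (II d n) (ag ω T) p q =
      ((g ^ 2) ^ T.card * (1 - g ^ 2) ^ (N.card - T.card)) *
        ∏ i ∈ (II d n) \ N.map Function.Embedding.inr,
          (if i ∈ ω then (if (i ∈ p ↔ i ∈ q) then tt b g i ^ 2 else tt b g i) else 1 - tt b g i ^ 2) := by
  have hsub : N.map Function.Embedding.inr ⊆ II d n := by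
    intro i hi
    obtain ⟨v, hv, rfl⟩ := mem_map.1 hi
    unfold II
    simpa using hN hv
  unfold W
  rw [← prod_sdiff hsub, mul_comm]
  congr 1
  · rw [prod_map]
    have h1 : ∀ v ∈ N, (if (Function.Embedding.inr v : HE d) ∈ ag ω T then
        (if ((Function.Embedding.inr v : HE d) ∈ p ↔ (Function.Embedding.inr v : HE d) ∈ q) then
          tt b g (Function.Embedding.inr v) ^ 2 else tt b g (Function.Embedding.inr v))
        else 1 - tt b g (Function.Embedding.inr v) ^ 2) = if v ∈ T then g ^ 2 else 1 - g ^ 2 := by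
      intro v hv
      have h2 : (Sum.inr v : HE d) ∉ ω := hNω v hv
      have h3 : (Sum.inr v : HE d) ∉ p := fun h => h2 (hp h)
      have h4 : (Sum.inr v : HE d) ∉ q := fun h => h2 (hq h)
      have h5 : (Sum.inr v : HE d) ∈ ag ω T ↔ v ∈ T := by
        unfold ag
        simp [h2]
      simp only [Function.Embedding.inr_apply, h5, h3, h4, if_true, tt, Sum.elim_inr]
    rw [prod_congr rfl h1, prod_ite, prod_const, prod_const, filter_mem_eq_inter,
      inter_eq_right.2 hT, filter_not, filter_mem_eq_inter, inter_eq_right.2 hT,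
      card_sdiff_of_subset hT]
  · refine prod_congr rfl fun i hi => ?_
    rw [mem_sdiff] at hi
    have h5 : i ∈ ag ω T ↔ i ∈ ω := by
      unfold ag
      rw [mem_union, or_iff_left]
      intro h
      apply hi.2
      obtain ⟨v, hv, rfl⟩ := mem_map.1 h
      exact mem_map_of_mem _ (hT hv)
    simp only [h5]

theorem W_out {n : ℕ} {b g : ℝ} {ω p q : Finset (HE d)} {N : Finset (V d)}
    (hN : N ⊆ box d n) (hNω : ∀ v ∈ N, Sum.inr v ∉ ω) (hp : p ⊆ ω) (hq : q ⊆ ω) :
    W (tt b g) (II d n) ω p q =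
      (1 - g ^ 2) ^ N.card * ∑ T ∈ N.powerset, W (tt b g) (II d n) (ag ω T) p q := by
  have h0 : W (tt b g) (II d n) (ag ω ∅) p q = W (tt b g) (II d n) ω p q := by
    unfold ag; simp
  rw [← h0, W_ag hN hNω (empty_subset N) hp hq]
  rw [sum_congr rfl (fun T hT => W_ag hN hNω (mem_powerset.1 hT) hp hq), ← sum_mul, sum_pow_card]
  simp

theorem S3_sigma {ι : Type} [DecidableEq ι] (I : Finset ι) (f : Finset ι → Finset ι → Finset ι → ℝ) :
    S3 I f = ∑ x ∈ I.powerset.sigma (fun ω => ω.powerset ×ˢ ω.powerset), f x.1 x.2.1 x.2.2 := by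
  unfold S3
  rw [sum_sigma]
  refine sum_congr rfl fun ω _ => ?_
  rw [sum_product]

open scoped Classical in
theorem S3_event {n r : ℕ} {b g : ℝ} (hb0 : 0 ≤ b) (hb1 : b ≤ 1) (hg0 : 0 ≤ g) (hg1 : g ≤ 1)
    (a : V d) (Ψ : Finset (HE d) → Finset (HE d) → ℝ) (hΨ : ∀ p q, 0 ≤ Ψ p q) :
    S3 (II d n) (fun ω p q => W (tt b g) (II d n) ω p q * (if Ev n r ω a then 1 else 0) * Ψ p q) ≤
      (1 - g ^ 2) ^ r * S3 (II d n) (fun ω p q => W (tt b g) (II d n) ω p q * Ψ p q) := by
  have ht0 : ∀ i : HE d, 0 ≤ tt b g i := by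
    intro i; cases i
    · exact hb0
    · exact hg0
  have ht1 : ∀ i : HE d, tt b g i ≤ 1 := by
    intro i; cases i
    · exact hb1
    · exact hg1
  have hc0 : 0 ≤ 1 - g ^ 2 := by nlinarith
  have hc1 : 1 - g ^ 2 ≤ 1 := by nlinarith [sq_nonneg g]
  rw [S3_sigma, S3_sigma]
  set T3 := (II d n).powerset.sigma (fun ω => ω.powerset ×ˢ ω.powerset) with hT3
  have mT3 : ∀ x : Σ _ : Finset (HE d), Finset (HE d) × Finset (HE d), x ∈ T3 ↔
      x.1 ⊆ II d n ∧ x.2.1 ⊆ x.1 ∧ x.2.2 ⊆ x.1 := by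
    intro x
    rw [hT3, mem_sigma, mem_product, mem_powerset, mem_powerset, mem_powerset]
  set Fn : (Σ _ : Finset (HE d), Finset (HE d) × Finset (HE d)) → ℝ := fun x =>
    W (tt b g) (II d n) x.1 x.2.1 x.2.2 * Ψ x.2.1 x.2.2 with hFn
  have hFn0 : ∀ x, 0 ≤ Fn x := fun x => mul_nonneg (W_nonneg ht0 ht1 _ _ _ _) (hΨ _ _)
  set φ : (Σ _ : (Σ _ : Finset (HE d), Finset (HE d) × Finset (HE d)), Finset (V d)) →
    (Σ _ : Finset (HE d), Finset (HE d) × Finset (HE d)) := fun z => ⟨ag z.1.1 z.2, z.1.2⟩ with hφ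
  set D := (T3.filter (fun x => Ev n r x.1 a)).sigma (fun x => (Nb n x.1 a).powerset) with hD
  have step1 : ∑ x ∈ T3, W (tt b g) (II d n) x.1 x.2.1 x.2.2 * (if Ev n r x.1 a then 1 else 0) *
      Ψ x.2.1 x.2.2 = ∑ x ∈ T3.filter (fun x => Ev n r x.1 a), Fn x := by
    rw [sum_filter]
    refine sum_congr rfl fun x _ => ?_
    split_ifs
    · rw [mul_one]
    · simp
  have step2 : ∀ x ∈ T3.filter (fun x => Ev n r x.1 a),
      Fn x ≤ (1 - g ^ 2) ^ r * ∑ T ∈ (Nb n x.1 a).powerset, Fn (φ ⟨x, T⟩) := by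
    intro x hx
    rw [mem_filter, mT3] at hx
    obtain ⟨⟨h1, h2, h3⟩, h4, h5⟩ := hx
    have hW := W_out (b := b) (g := g) (N := Nb n x.1 a) (fun v hv => (mem_Nb.1 hv).1)
      (fun v hv => h4 v (mem_Nb.1 hv).2) h2 h3
    have hS0 : 0 ≤ ∑ T ∈ (Nb n x.1 a).powerset, W (tt b g) (II d n) (ag x.1 T) x.2.1 x.2.2 :=
      sum_nonneg fun T _ => W_nonneg ht0 ht1 _ _ _ _
    have hpow : (1 - g ^ 2) ^ (Nb n x.1 a).card ≤ (1 - g ^ 2) ^ r :=
      pow_le_pow_of_le_one hc0 hc1 h5
    rw [hFn]
    simp only [hφ]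
    rw [← sum_mul, ← mul_assoc, hW]
    exact mul_le_mul_of_nonneg_right (mul_le_mul_of_nonneg_right hpow hS0) (hΨ _ _)
  have hinj : Set.InjOn φ ↑D := by
    rintro ⟨⟨ω, pq⟩, T⟩ hz ⟨⟨ω', pq'⟩, T'⟩ hz' heq
    rw [mem_coe, hD, mem_sigma, mem_filter, mem_powerset] at hz hz'
    simp only [hφ, Sigma.mk.injEq, heq_eq_eq] at heq
    obtain ⟨e1, e2⟩ := heq
    simp only at hz hz' e1 e2
    obtain ⟨⟨_, h4, _⟩, hT⟩ := hz
    obtain ⟨⟨_, h4', _⟩, hT'⟩ := hz'
    have hbk : bk ω = bk ω' := by rw [← bk_ag ω T, e1, bk_ag]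
    have hmem : ∀ (ω : Finset (HE d)) (T : Finset (V d)) (i : HE d), i ∈ ag ω T ↔
        i ∈ ω ∨ ∃ v ∈ T, Sum.inr v = i := by
      intro ω T i
      unfold ag
      rw [mem_union, mem_map]
      rfl
    have hTT : ∀ v, v ∈ T → v ∈ T' := by
      intro v hv
      have h6 : (Sum.inr v : HE d) ∈ ag ω' T' := by
        rw [← e1, hmem]; exact Or.inr ⟨v, hv, rfl⟩
      rw [hmem] at h6
      rcases h6 with h6 | ⟨w, hw, hwv⟩
      · exact absurd h6 (h4' v (by rw [← hbk]; exact (mem_Nb.1 (hT hv)).2))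
      · rw [← Sum.inr_injective hwv]; exact hw
    have hTT' : ∀ v, v ∈ T' → v ∈ T := by
      intro v hv
      have h6 : (Sum.inr v : HE d) ∈ ag ω T := by
        rw [e1, hmem]; exact Or.inr ⟨v, hv, rfl⟩
      rw [hmem] at h6
      rcases h6 with h6 | ⟨w, hw, hwv⟩
      · exact absurd h6 (h4 v (by rw [hbk]; exact (mem_Nb.1 (hT' hv)).2))
      · rw [← Sum.inr_injective hwv]; exact hw
    have hTe : T = T' := by
      ext v; exact ⟨hTT v, hTT' v⟩
    subst hTe
    have hωe : ω = ω' := by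
      ext i
      constructor
      · intro hi
        have h6 : i ∈ ag ω' T := by rw [← e1, hmem]; exact Or.inl hi
        rw [hmem] at h6
        rcases h6 with h6 | ⟨w, hw, rfl⟩
        · exact h6
        · exact absurd hi (h4 w (mem_Nb.1 (hT hw)).2)
      · intro hi
        have h6 : i ∈ ag ω T := by rw [e1, hmem]; exact Or.inl hi
        rw [hmem] at h6
        rcases h6 with h6 | ⟨w, hw, rfl⟩
        · exact h6
        · exact absurd hi (h4' w (mem_Nb.1 (hT' hw)).2)
    subst hωe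
    rw [e2]
  have himg : D.image φ ⊆ T3 := by
    intro y hy
    obtain ⟨⟨x, T⟩, hz, rfl⟩ := mem_image.1 hy
    rw [hD, mem_sigma, mem_filter, mT3, mem_powerset] at hz
    obtain ⟨⟨⟨h1, h2, h3⟩, _⟩, hT⟩ := hz
    rw [mT3]
    simp only [hφ]
    have hsub : x.1 ⊆ ag x.1 T := subset_union_left
    refine ⟨?_, h2.trans hsub, h3.trans hsub⟩
    unfold ag
    apply union_subset h1
    intro i hi
    obtain ⟨v, hv, rfl⟩ := mem_map.1 hi
    unfold II
    simpa using (mem_Nb.1 (hT hv)).1
  rw [step1]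
  calc ∑ x ∈ T3.filter (fun x => Ev n r x.1 a), Fn x
      ≤ ∑ x ∈ T3.filter (fun x => Ev n r x.1 a),
          (1 - g ^ 2) ^ r * ∑ T ∈ (Nb n x.1 a).powerset, Fn (φ ⟨x, T⟩) := sum_le_sum step2
    _ = (1 - g ^ 2) ^ r * ∑ z ∈ D, Fn (φ z) := by rw [← mul_sum, hD, sum_sigma]
    _ = (1 - g ^ 2) ^ r * ∑ y ∈ D.image φ, Fn y := by rw [sum_image hinj]
    _ ≤ (1 - g ^ 2) ^ r * ∑ y ∈ T3, Fn y :=
        mul_le_mul_of_nonneg_left (sum_le_sum_of_subset_of_nonneg himg fun y _ _ => hFn0 y)
          (pow_nonneg hc0 r)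

theorem S3_sum {ι κ : Type} [DecidableEq ι] (I : Finset ι) (s : Finset κ)
    (f : κ → Finset ι → Finset ι → Finset ι → ℝ) :
    S3 I (fun ω p q => ∑ a ∈ s, f a ω p q) = ∑ a ∈ s, S3 I (f a) := by
  classical
  induction s using Finset.induction_on with
  | empty => simp [S3]
  | @insert a s ha ih =>
    rw [sum_insert ha, ← ih, ← S3_add]
    refine S3_congr fun ω p q _ _ _ => ?_
    rw [sum_insert ha]

theorem mix : S_MIX := by
  classical
  intro d n b g hb0 hb1 hg0 hg1 A B r hr
  have ht0 : ∀ i : HE d, 0 ≤ tt b g i := by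
    intro i; cases i
    · exact hb0
    · exact hg0
  have ht1 : ∀ i : HE d, tt b g i ≤ 1 := by
    intro i; cases i
    · exact hb1
    · exact hg1
  rw [trunc]
  have htot : zz DD (tt b g) (II d n) (A + B) * zz DD (tt b g) (II d n) 0 =
      S3 (II d n) (fun ω p q => W (tt b g) (II d n) ω p q *
        (G0 (A + B + bd DD p) * (if bd DD q = 0 then 1 else 0))) := by
    rw [← zG_G0 DD (tt b g) (II d n) (A + B), ← Y_one]
    unfold Y
    refine S3_congr fun ω p q _ _ _ => ?_
    ring
  rw [htot]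
  have hΨ : ∀ p q : Finset (HE d), 0 ≤ G0 (A + B + bd DD p) * (if bd DD q = 0 then (1 : ℝ) else 0) := by
    intro p q
    apply mul_nonneg (G0_nonneg _)
    split_ifs <;> norm_num
  calc Y DD (tt b g) (II d n) G0 (A + B) 0 (fun ω _ _ => if Sp DD ω B then 0 else 1)
      ≤ S3 (II d n) (fun ω p q => ∑ a ∈ A.support,
          W (tt b g) (II d n) ω p q * (if Ev n r ω a then 1 else 0) *
            (G0 (A + B + bd DD p) * (if bd DD q = 0 then 1 else 0))) := by
        unfold Y
        refine S3_le fun ω p q hω hp hq => ?_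
        beta_reduce
        have hW := W_nonneg ht0 ht1 (II d n) ω p q
        have hterm : ∀ a ∈ A.support, 0 ≤ W (tt b g) (II d n) ω p q * (if Ev n r ω a then 1 else 0) *
            (G0 (A + B + bd DD p) * (if bd DD q = 0 then 1 else 0)) := by
          intro a _
          apply mul_nonneg (mul_nonneg hW _) (hΨ p q)
          split_ifs <;> norm_num
        by_cases hS : Sp DD ω B
        · rw [if_pos hS, mul_zero, zero_mul, zero_mul]
          exact sum_nonneg hterm
        · by_cases hb : A + B + bd DD p = 0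
          · obtain ⟨a, ha, hev⟩ := event hω hp hb hS hr
            refine le_trans ?_ (single_le_sum hterm ha)
            rw [if_neg hS, if_pos hev]
            apply le_of_eq
            ring
          · have : G0 (A + B + bd DD p) = 0 := by unfold G0; rw [if_neg hb]
            rw [this, mul_zero, zero_mul]
            apply le_of_eq
            symm
            apply sum_eq_zero
            intro a _
            rw [this] at *
            ring
    _ = ∑ a ∈ A.support, S3 (II d n) (fun ω p q => W (tt b g) (II d n) ω p q *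
          (if Ev n r ω a then 1 else 0) *
            (G0 (A + B + bd DD p) * (if bd DD q = 0 then 1 else 0))) := S3_sum _ _ _
    _ ≤ ∑ a ∈ A.support, (1 - g ^ 2) ^ r * S3 (II d n) (fun ω p q => W (tt b g) (II d n) ω p q *
        (G0 (A + B + bd DD p) * (if bd DD q = 0 then 1 else 0))) :=
        sum_le_sum fun a _ => S3_event hb0 hb1 hg0 hg1 a _ hΨ
    _ = _ := by
        rw [sum_const, nsmul_eq_mul, mul_assoc]

end Pool.Agent.L7h96.RC
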