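import Mathlib

set_option autoImplicit false
set_option linter.unusedSectionVars false
set_option linter.unusedSimpArgs false

open Finset

namespace Pool.Agent.L7h96.RC

/-- abelian groups of exponent two -/
class E2 (X : Type) [AddCommGroup X] : Prop where
  add_self : ∀ a : X, a + a = 0

section alg

variable {ι X : Type} [DecidableEq ι] [AddCommGroup X]

/-- boundary of a finite set of (hyper)edges -/
def bd (D : ι → X) (p : Finset ι) : X := ∑ i ∈ p, D i

@[simp] theorem bd_empty (D : ι → X) : bd D ∅ = 0 := by simp [bd]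

theorem bd_insert (D : ι → X) {i : ι} {p : Finset ι} (hi : i ∉ p) :
    bd D (insert i p) = D i + bd D p := by
  simp [bd, sum_insert hi]

theorem bd_union (D : ι → X) {p q : Finset ι} (h : Disjoint p q) :
    bd D (p ∪ q) = bd D p + bd D q := by
  simp [bd, sum_union h]

theorem add_self' [E2 X] (a : X) : a + a = 0 := E2.add_self a

theorem add_cancel' [E2 X] (a b : X) : a + (a + b) = b := by
  rw [← add_assoc, add_self', zero_add]

theorem eq_add_iff [E2 X] (a b c : X) : a + b = c ↔ b = c + a := by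
  constructor
  · intro h; rw [← h, add_comm (a + b) a, add_cancel']
  · intro h; rw [h, add_comm c a, add_cancel']

theorem bd_symmDiff [E2 X] (D : ι → X) (p q : Finset ι) :
    bd D (symmDiff p q) = bd D p + bd D q := by
  have h1 : bd D p = bd D (p \ q) + bd D (p ∩ q) := by
    rw [← bd_union D (disjoint_sdiff_inter p q), sdiff_union_inter]
  have h2 : bd D q = bd D (q \ p) + bd D (p ∩ q) := by
    rw [inter_comm p q, ← bd_union D (disjoint_sdiff_inter q p), sdiff_union_inter]
  have h3 : bd D (symmDiff p q) = bd D (p \ q) + bd D (q \ p) := by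
    rw [← bd_union D disjoint_sdiff_sdiff]
    rfl
  rw [h1, h2, h3]
  have := add_self' (bd D (p ∩ q))
  calc bd D (p \ q) + bd D (q \ p) = bd D (p \ q) + bd D (q \ p) + (bd D (p ∩ q) + bd D (p ∩ q)) := by
        rw [this, add_zero]
    _ = _ := by abel

/-! ### powerset sums -/

theorem sum_powerset_union {M : Type} [AddCommMonoid M] {F I : Finset ι} (h : Disjoint F I)
    (f : Finset ι → M) :
    ∑ t ∈ (F ∪ I).powerset, f t = ∑ a ∈ F.powerset, ∑ b ∈ I.powerset, f (a ∪ b) := by
  induction F using Finset.induction_on generalizing f with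
  | empty => simp
  | @insert i F hi ih =>
    have hiI : i ∉ I := fun h' => disjoint_left.1 h (mem_insert_self i F) h'
    have hd : Disjoint F I := h.mono_left (subset_insert i F)
    rw [insert_union, sum_powerset_insert (by simp [hi, hiI]), ih hd, ih hd,
      sum_powerset_insert hi]
    simp only [insert_union]

/-- sum over `(ω, p, q)` with `p, q ⊆ ω ⊆ I` -/
def S3 {M : Type} [AddCommMonoid M] (I : Finset ι) (f : Finset ι → Finset ι → Finset ι → M) : M :=
  ∑ ω ∈ I.powerset, ∑ p ∈ ω.powerset, ∑ q ∈ ω.powerset, f ω p q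

theorem S3_congr {M : Type} [AddCommMonoid M] {I : Finset ι}
    {f g : Finset ι → Finset ι → Finset ι → M}
    (h : ∀ ω p q, ω ⊆ I → p ⊆ ω → q ⊆ ω → f ω p q = g ω p q) : S3 I f = S3 I g := by
  unfold S3
  refine sum_congr rfl fun ω hω => sum_congr rfl fun p hp => sum_congr rfl fun q hq => ?_
  exact h ω p q (mem_powerset.1 hω) (mem_powerset.1 hp) (mem_powerset.1 hq)

theorem S3_add {M : Type} [AddCommMonoid M] (I : Finset ι)
    (f g : Finset ι → Finset ι → Finset ι → M) :
    S3 I (fun ω p q => f ω p q + g ω p q) = S3 I f + S3 I g := by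
  unfold S3
  simp only [sum_add_distrib]

theorem S3_insert {M : Type} [AddCommMonoid M] {I : Finset ι} {i : ι} (hi : i ∉ I)
    (f : Finset ι → Finset ι → Finset ι → M) :
    S3 (insert i I) f = S3 I (fun ω p q => f ω p q + (f (insert i ω) p q +
      f (insert i ω) (insert i p) q + f (insert i ω) p (insert i q) +
      f (insert i ω) (insert i p) (insert i q))) := by
  unfold S3
  rw [sum_powerset_insert hi, ← sum_add_distrib]
  refine sum_congr rfl fun ω hω => ?_
  have hiω : i ∉ ω := fun h => hi (mem_powerset.1 hω h)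
  rw [sum_powerset_insert hiω]
  simp only [sum_powerset_insert hiω, ← sum_add_distrib]
  refine sum_congr rfl fun p _ => sum_congr rfl fun q _ => ?_
  abel

theorem S3_union {M : Type} [AddCommMonoid M] {F I : Finset ι} (h : Disjoint F I)
    (f : Finset ι → Finset ι → Finset ι → M) :
    S3 (F ∪ I) f = S3 F (fun α a b => S3 I (fun ω p q => f (α ∪ ω) (a ∪ p) (b ∪ q))) := by
  induction F using Finset.induction_on generalizing f with
  | empty => simp [S3]
  | @insert i F hi ih =>
    have hiI : i ∉ I := fun h' => disjoint_left.1 h (mem_insert_self i F) h'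
    have hd : Disjoint F I := h.mono_left (subset_insert i F)
    rw [insert_union, S3_insert (by simp [hi, hiI]), ih hd, S3_insert hi]
    simp only [insert_union, S3_add]

theorem S3_mul_left (I : Finset ι) (c : ℝ) (f : Finset ι → Finset ι → Finset ι → ℝ) :
    S3 I (fun ω p q => c * f ω p q) = c * S3 I f := by
  unfold S3
  simp only [mul_sum]

theorem S3_nonneg {I : Finset ι} {f : Finset ι → Finset ι → Finset ι → ℝ}
    (h : ∀ ω p q, ω ⊆ I → p ⊆ ω → q ⊆ ω → 0 ≤ f ω p q) : 0 ≤ S3 I f := by
  unfold S3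
  refine sum_nonneg fun ω hω => sum_nonneg fun p hp => sum_nonneg fun q hq => ?_
  exact h ω p q (mem_powerset.1 hω) (mem_powerset.1 hp) (mem_powerset.1 hq)

theorem S3_le {I : Finset ι} {f g : Finset ι → Finset ι → Finset ι → ℝ}
    (h : ∀ ω p q, ω ⊆ I → p ⊆ ω → q ⊆ ω → f ω p q ≤ g ω p q) : S3 I f ≤ S3 I g := by
  unfold S3
  refine sum_le_sum fun ω hω => sum_le_sum fun p hp => sum_le_sum fun q hq => ?_
  exact h ω p q (mem_powerset.1 hω) (mem_powerset.1 hp) (mem_powerset.1 hq)

theorem S3_sub (I : Finset ι) (f g : Finset ι → Finset ι → Finset ι → ℝ) :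
    S3 I (fun ω p q => f ω p q - g ω p q) = S3 I f - S3 I g := by
  unfold S3
  simp only [sum_sub_distrib]

/-! ### one-copy sums -/

/-- `t`-weight of a set -/
def tw (t : ι → ℝ) (p : Finset ι) : ℝ := ∏ i ∈ p, t i

@[simp] theorem tw_empty (t : ι → ℝ) : tw t (∅ : Finset ι) = 1 := by simp [tw]

theorem tw_insert (t : ι → ℝ) {i : ι} {p : Finset ι} (hi : i ∉ p) :
    tw t (insert i p) = t i * tw t p := by simp [tw, prod_insert hi]

variable [DecidableEq X]

/-- high temperature sum with sources `A` -/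
def zz (D : ι → X) (t : ι → ℝ) (I : Finset ι) (A : X) : ℝ :=
  ∑ p ∈ I.powerset, if bd D p = A then tw t p else 0

theorem zz_insert [E2 X] (D : ι → X) (t : ι → ℝ) {I : Finset ι} {i : ι} (hi : i ∉ I) (A : X) :
    zz D t (insert i I) A = zz D t I A + t i * zz D t I (A + D i) := by
  unfold zz
  rw [sum_powerset_insert hi, mul_sum]
  congr 1
  refine sum_congr rfl fun p hp => ?_
  have hip : i ∉ p := fun h => hi (mem_powerset.1 hp h)
  rw [bd_insert D hip, tw_insert t hip]
  by_cases h : D i + bd D p = A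
  · have h' : bd D p = A + D i := (eq_add_iff _ _ _).1 h
    rw [if_pos h, if_pos h']
  · have h' : ¬ bd D p = A + D i := fun h' => h ((eq_add_iff _ _ _).2 h')
    rw [if_neg h, if_neg h', mul_zero]

theorem tw_nonneg {t : ι → ℝ} {p : Finset ι} (h : ∀ i ∈ p, 0 ≤ t i) : 0 ≤ tw t p :=
  prod_nonneg h

theorem zz_nonneg {D : ι → X} {t : ι → ℝ} {I : Finset ι} (h : ∀ i, 0 ≤ t i) (A : X) :
    0 ≤ zz D t I A := by
  refine sum_nonneg fun p _ => ?_
  split_ifs
  · exact tw_nonneg fun i _ => h i
  · exact le_rfl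

theorem zz_zero_pos {D : ι → X} {t : ι → ℝ} {I : Finset ι} (h : ∀ i, 0 ≤ t i) :
    1 ≤ zz D t I 0 := by
  have : (if bd D (∅ : Finset ι) = 0 then tw t (∅ : Finset ι) else 0) ≤ zz D t I 0 := by
    unfold zz
    refine single_le_sum (f := fun p => if bd D p = 0 then tw t p else 0) (fun p _ => ?_)
      (empty_mem_powerset I)
    show 0 ≤ (if bd D p = 0 then tw t p else 0)
    split_ifs
    · exact tw_nonneg fun i _ => h i
    · exact le_rfl
  simpa using this

/-- inversion of the removal identity -/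
theorem zz_inv [E2 X] (D : ι → X) (t : ι → ℝ) {F I : Finset ι} (h : Disjoint F I) (A : X) :
    (∏ i ∈ F, (1 - t i ^ 2)) * zz D t I A =
      ∑ K ∈ F.powerset, (-1) ^ K.card * tw t K * zz D t (F ∪ I) (A + bd D K) := by
  induction F using Finset.induction_on generalizing A with
  | empty => simp
  | @insert i F hi ih =>
    have hiI : i ∉ I := fun h' => disjoint_left.1 h (mem_insert_self i F) h'
    have hd : Disjoint F I := h.mono_left (subset_insert i F)
    have hiU : i ∉ F ∪ I := by simp [hi, hiI]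
    rw [prod_insert hi, sum_powerset_insert hi, mul_assoc, ih hd, mul_sum, ← sum_add_distrib]
    refine sum_congr rfl fun K hK => ?_
    have hiK : i ∉ K := fun h => hi (mem_powerset.1 hK h)
    rw [insert_union, bd_insert D hiK, tw_insert t hiK, card_insert_of_notMem hiK, pow_succ,
      zz_insert D t hiU, zz_insert D t hiU]
    have e1 : A + (D i + bd D K) + D i = A + bd D K := by
      have : A + (D i + bd D K) + D i = A + bd D K + (D i + D i) := by abel
      rw [this, add_self', add_zero]
    have e2 : A + (D i + bd D K) = A + bd D K + D i := by abel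
    rw [e1, e2]
    ring

/-! ### weights of two copies -/

/-- weight of `(ω, p, q)` on `I` -/
def W (t : ι → ℝ) (I ω p q : Finset ι) : ℝ :=
  ∏ i ∈ I, if i ∈ ω then (if (i ∈ p ↔ i ∈ q) then t i ^ 2 else t i) else 1 - t i ^ 2

theorem W_symmDiff (t : ι → ℝ) (I ω p q : Finset ι) :
    W t I ω p q = W t I ω (symmDiff p q) ∅ := by
  unfold W
  refine prod_congr rfl fun i _ => ?_
  have : (i ∈ p ↔ i ∈ q) ↔ (i ∈ symmDiff p q ↔ i ∈ (∅ : Finset ι)) := by
    simp only [mem_symmDiff, notMem_empty, iff_false]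
    tauto
  simp only [this]

theorem W_nonneg {t : ι → ℝ} (h0 : ∀ i, 0 ≤ t i) (h1 : ∀ i, t i ≤ 1) (I ω p q : Finset ι) :
    0 ≤ W t I ω p q := by
  refine prod_nonneg fun i _ => ?_
  have := h0 i
  have := h1 i
  split_ifs
  · positivity
  · exact h0 i
  · nlinarith

theorem W_union (t : ι → ℝ) {F I α a b ω p q : Finset ι} (h : Disjoint F I) (hα : α ⊆ F)
    (ha : a ⊆ α) (hb : b ⊆ α) (hω : ω ⊆ I) (hp : p ⊆ ω) (hq : q ⊆ ω) :
    W t (F ∪ I) (α ∪ ω) (a ∪ p) (b ∪ q) = W t F α a b * W t I ω p q := by
  unfold W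
  rw [prod_union h]
  congr 1
  · refine prod_congr rfl fun i hi => ?_
    have h1 : i ∉ ω := fun h' => disjoint_left.1 h hi (hω h')
    have h2 : i ∉ p := fun h' => h1 (hp h')
    have h3 : i ∉ q := fun h' => h1 (hq h')
    simp [h1, h2, h3]
  · refine prod_congr rfl fun i hi => ?_
    have h1 : i ∉ α := fun h' => disjoint_right.1 h hi (hα h')
    have h2 : i ∉ a := fun h' => h1 (ha h')
    have h3 : i ∉ b := fun h' => h1 (hb h')
    simp [h1, h2, h3]

theorem W_insert_out (t : ι → ℝ) {I ω p q : Finset ι} {i : ι} (hi : i ∉ I) (hω : ω ⊆ I) :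
    W t (insert i I) ω p q = (1 - t i ^ 2) * W t I ω p q := by
  unfold W
  rw [prod_insert hi, if_neg (fun h => hi (hω h))]

theorem W_insert_in (t : ι → ℝ) {I ω p q : Finset ι} {i : ι} (hi : i ∉ I) {p' q' : Finset ι}
    (hp' : ∀ j, j ≠ i → (j ∈ p' ↔ j ∈ p)) (hq' : ∀ j, j ≠ i → (j ∈ q' ↔ j ∈ q)) :
    W t (insert i I) (insert i ω) p' q' =
      (if (i ∈ p' ↔ i ∈ q') then t i ^ 2 else t i) * W t I ω p q := by
  unfold W
  rw [prod_insert hi, if_pos (mem_insert_self i ω)]
  congr 1
  refine prod_congr rfl fun j hj => ?_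
  have hji : j ≠ i := fun h => hi (h ▸ hj)
  simp [hji, hp' j hji, hq' j hji]

theorem S3_total (t : ι → ℝ) (I : Finset ι) (f g : Finset ι → ℝ) :
    S3 I (fun ω p q => W t I ω p q * (f p * g q)) =
      (∑ p ∈ I.powerset, tw t p * f p) * (∑ q ∈ I.powerset, tw t q * g q) := by
  induction I using Finset.induction_on generalizing f g with
  | empty => simp [S3, W]
  | @insert i I hi ih =>
    rw [S3_insert hi, sum_powerset_insert hi, sum_powerset_insert hi]
    have e1 : ∀ f : Finset ι → ℝ, ∑ p ∈ I.powerset, tw t p * f p +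
        ∑ p ∈ I.powerset, tw t (insert i p) * f (insert i p) =
        ∑ p ∈ I.powerset, tw t p * (f p + t i * f (insert i p)) := by
      intro f
      rw [← sum_add_distrib]
      refine sum_congr rfl fun p hp => ?_
      rw [tw_insert t (fun h => hi (mem_powerset.1 hp h))]
      ring
    rw [e1, e1, ← ih]
    refine S3_congr fun ω p q hω hp hq => ?_
    have hip : i ∉ p := fun h => hi (hω (hp h))
    have hiq : i ∉ q := fun h => hi (hω (hq h))
    rw [W_insert_out t hi hω,
      W_insert_in (p := p) (q := q) t hi (fun j _ => Iff.rfl) (fun j _ => Iff.rfl),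
      W_insert_in (p := p) (q := q) t hi (fun j hj => by simp [hj]) (fun j _ => Iff.rfl),
      W_insert_in (p := p) (q := q) t hi (fun j _ => Iff.rfl) (fun j hj => by simp [hj]),
      W_insert_in (p := p) (q := q) t hi (fun j hj => by simp [hj]) (fun j hj => by simp [hj])]
    simp only [hip, hiq, mem_insert_self, iff_false, not_true, not_false_iff, if_true, if_false,
      iff_true, true_iff, false_iff]
    ring

end alg

end Pool.Agent.L7h96.RC
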