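import Pool.Agent.L7h96.RC.Stm
import Pool.Agent.L7h90.RC.Surg
import Pool.Agent.Helper45K9.CP.BkDet

set_option autoImplicit false
set_option linter.unusedSectionVars false
set_option linter.unusedSimpArgs false

open Finset MeasureTheory Filter Topology

namespace Pool.Agent.L7h96.RC.BKN

open Pool.Agent.Helper98K9.CP (del res)
open Pool.Agent.Helper98K9.CP.BkDetL (first_hit del_le del_not_mem)


variable {d : ℕ}

/-- edges which do not touch `B` -/
def off (B : Set (V d)) : Set (Ed d) := {e | e.1 ∉ B ∧ tg e ∉ B}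

/-- edges inside `B` -/
def ins (B : Set (V d)) : Set (Ed d) := {e | e.1 ∈ B ∧ tg e ∈ B}

theorem gr_off (O : Set (Ed d)) (B : Set (V d)) : gr (O ∩ off B) = del (gr O) B := by
  ext x y
  constructor
  · rintro ⟨e, ⟨he, h1, h2⟩, hh⟩
    refine ⟨⟨e, he, hh⟩, ?_, ?_⟩
    · rcases hh with ⟨rfl, rfl⟩ | ⟨rfl, rfl⟩ <;> assumption
    · rcases hh with ⟨rfl, rfl⟩ | ⟨rfl, rfl⟩ <;> assumption
  · rintro ⟨⟨e, he, hh⟩, h1, h2⟩
    refine ⟨e, ⟨he, ?_⟩, hh⟩
    rcases hh with ⟨rfl, rfl⟩ | ⟨rfl, rfl⟩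
    · exact ⟨h1, h2⟩
    · exact ⟨h2, h1⟩

theorem gr_ins (O : Set (Ed d)) (B : Set (V d)) : gr (O ∩ ins B) = res (gr O) B := by
  ext x y
  constructor
  · rintro ⟨e, ⟨he, h1, h2⟩, hh⟩
    refine ⟨⟨e, he, hh⟩, ?_, ?_⟩
    · rcases hh with ⟨rfl, rfl⟩ | ⟨rfl, rfl⟩ <;> assumption
    · rcases hh with ⟨rfl, rfl⟩ | ⟨rfl, rfl⟩ <;> assumption
  · rintro ⟨⟨e, he, hh⟩, h1, h2⟩
    refine ⟨e, ⟨he, ?_⟩, hh⟩
    rcases hh with ⟨rfl, rfl⟩ | ⟨rfl, rfl⟩
    · exact ⟨h1, h2⟩
    · exact ⟨h2, h1⟩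

theorem ins_box (k : ℕ) : ins (↑(box d k) : Set (V d)) = ↑(edg d k) := by
  ext e
  rw [mem_coe, mem_edg]
  rfl

theorem off_sub {F : Finset (Ed d)} {k : ℕ} (hF : F ⊆ edg d k) (O : Set (Ed d)) :
    O ∩ off (↑(box d k)) ⊆ (O \ ↑F) ∩ off (↑(box d k)) := by
  rintro e ⟨he, h1, h2⟩
  refine ⟨⟨he, fun hf => ?_⟩, h1, h2⟩
  exact h1 (mem_coe.2 (mem_edg.1 (hF hf)).1)

theorem off_ins {k : ℕ} (O : Set (Ed d)) :
    (O ∪ ↑(edg d k)) ∩ off (↑(box d k)) ⊆ O ∩ off (↑(box d k)) := by
  rintro e ⟨he | he, h1, h2⟩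
  · exact ⟨he, h1, h2⟩
  · exact absurd (mem_coe.2 (mem_edg.1 he).1) h1

/-- trifurcation at `B` -/
def Tr (B : Set (V d)) (O : Set (Ed d)) : Prop :=
  (∀ x ∈ B, ∀ y ∈ B, (gr (O ∩ ins B)).Reachable x y) ∧
  ∃ u : Fin 3 → V d, (∀ i, u i ∉ B) ∧ (∀ i, ∃ x ∈ B, (gr O).Reachable x (u i)) ∧
    (∀ i, Inf (O ∩ off B) (u i)) ∧ ∀ i j, i ≠ j → ¬ (gr (O ∩ off B)).Reachable (u i) (u j)

/-- adjacent vertices differ by at most one in every coordinate -/
theorem adj_le {O : Set (Ed d)} {x y : V d} (h : (gr O).Adj x y) (j : Fin d) :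
    |y j - x j| ≤ 1 := by
  obtain ⟨e, _, ⟨rfl, rfl⟩ | ⟨rfl, rfl⟩⟩ := h
  · exact tg_sub e j
  · rw [abs_sub_comm]; exact tg_sub e j

theorem adj_box {O : Set (Ed d)} {x y : V d} {n : ℕ} (h : (gr O).Adj x y) (hx : x ∈ box d n) :
    y ∈ box d (n + 1) := by
  rw [mem_box] at hx ⊢
  intro j
  have h1 := adj_le h j
  have h2 := hx j
  have h3 : |y j| ≤ |y j - x j| + |x j| := by
    calc |y j| = |(y j - x j) + x j| := by ring_nf
      _ ≤ _ := abs_add_le _ _
  push_cast
  omega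

/-- a component of the complement of a box in an infinite cluster -/
theorem comp_inf {O : Set (Ed d)} {u : V d} {k : ℕ} (hu : u ∈ box d k) (h : Inf O u) :
    ∃ w, w ∉ box d k ∧ (gr O).Reachable u w ∧ Inf (O ∩ off (↑(box d k))) w := by
  classical
  by_contra hn
  push Not at hn
  apply h
  set Y : Set (V d) := {w | w ∈ box d (k + 1) ∧ w ∉ box d k ∧ (gr O).Reachable u w} with hY
  have hYf : Y.Finite := (Finset.finite_toSet (box d (k + 1))).subset fun w hw => hw.1
  have hfin : (↑(box d k) ∪ ⋃ w ∈ Y, {v | (gr (O ∩ off (↑(box d k)))).Reachable w v}).Finite := by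
    refine (Finset.finite_toSet _).union (hYf.biUnion fun w hw => ?_)
    have := hn w hw.2.1 hw.2.2
    unfold Inf at this
    rw [Set.not_infinite] at this
    exact this
  refine hfin.subset fun v hv => ?_
  by_cases hvb : v ∈ box d k
  · exact Or.inl hvb
  · right
    obtain ⟨w, hw, x', hx', hwx⟩ := first_hit (B := (↑(box d k) : Set (V d))) hvb hu
      (SimpleGraph.Reachable.symm hv)
    have hwB := del_not_mem hvb hw
    have hr : (gr O).Reachable u w := SimpleGraph.Reachable.trans hv (del_le hw)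
    rw [Set.mem_iUnion₂]
    refine ⟨w, ⟨adj_box hwx.symm hx', hwB, hr⟩, ?_⟩
    show (gr (O ∩ off (↑(box d k)))).Reachable w v
    rw [gr_off]
    exact hw.symm

/-- without `T3` some box becomes a trifurcation box when it is opened -/
theorem tr_of {O : Set (Ed d)} (h : ¬ T3 O) : ∃ k, Tr (↑(box d k)) (O ∪ ↑(edg d k)) := by
  classical
  unfold T3 at h
  push Not at h
  obtain ⟨F, u, hu, hn⟩ := h
  obtain ⟨k1, hk1⟩ := exists_edg_finset F
  obtain ⟨k2, hk2⟩ := exists_box_finset (Finset.univ.image u)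
  set k := max k1 k2 with hk
  have hF : F ⊆ edg d k := hk1.trans (edg_mono (le_max_left _ _))
  have hub : ∀ i, u i ∈ box d k := fun i =>
    box_mono (le_max_right _ _) (hk2 (mem_image_of_mem _ (mem_univ i)))
  choose z hz1 hz2 hz3 using fun i => comp_inf (hub i) (hu i)
  refine ⟨k, ?_, z, hz1, ?_, ?_, ?_⟩
  · intro x hx y hy
    have hr := Pool.Agent.L7h90.RC.box_reach (n := k) hx hy
    refine reach_mono ?_ hr
    rw [ins_box]
    exact fun e he => ⟨Or.inr he, he⟩
  · intro i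
    exact ⟨u i, hub i, reach_mono (fun e he => Or.inl he.1) (hz2 i)⟩
  · intro i
    exact Pool.Agent.L7h96.RC.inf_mono (Set.inter_subset_inter_left _
      (Set.sdiff_subset.trans Set.subset_union_left)) (hz3 i)
  · intro i j hij hr
    have h1 : (gr (O \ ↑F)).Reachable (z i) (z j) := by
      refine reach_mono ?_ hr
      exact (off_ins O).trans ((off_sub hF O).trans Set.inter_subset_left)
    exact hn i j hij (((hz2 i).trans h1).trans (hz2 j).symm)

/-- leaving a box through its boundary -/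
theorem exit {O : Set (Ed d)} {N : ℕ} {a b : V d} (ha : a ∈ box d N) (hb : b ∉ box d N)
    (h : (gr O).Reachable a b) : ∃ y, y ∈ box d (N + 1) ∧ y ∉ box d N ∧
      (gr O).Reachable a y := by
  by_contra hn
  push Not at hn
  have key : ∀ c, (gr O).Reachable a c → c ∈ box d N := by
    intro c hc
    rw [SimpleGraph.reachable_iff_reflTransGen] at hc
    induction hc with
    | refl => exact ha
    | @tail x y hx hadj ih =>
      by_contra hy
      exact hn y (adj_box hadj ih) hy ((SimpleGraph.reachable_iff_reflTransGen _ _).2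
        (hx.tail hadj))
  exact hb (key b h)

theorem inf_iff {O : Set (Ed d)} {u : V d} :
    Inf O u ↔ ∀ n, ∃ w, w ∉ box d n ∧ (gr O).Reachable u w := by
  constructor
  · intro h n
    by_contra hn
    push Not at hn
    refine h ((Finset.finite_toSet (box d n)).subset fun w hw => ?_)
    by_contra hc
    exact hn w hc hw
  · intro h hf
    obtain ⟨n, hn⟩ := exists_box_finset hf.toFinset
    obtain ⟨w, hw, hr⟩ := h n
    exact hw (hn (by rw [Set.Finite.mem_toFinset]; exact hr))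

/-- the three exits -/
theorem tr_exit {O : Set (Ed d)} {B : Set (V d)} {N : ℕ} (hB : B ⊆ ↑(box d N)) (h : Tr B O) :
    ∃ y : Fin 3 → V d, (∀ k, y k ∈ box d (N + 1) ∧ y k ∉ box d N) ∧
      (∀ k, ∃ x ∈ B, (gr O).Reachable x (y k)) ∧
      ∀ k l, k ≠ l → ¬ (del (gr O) B).Reachable (y k) (y l) := by
  obtain ⟨_, u, hu1, hu2, hu3, hu4⟩ := h
  have key : ∀ i, ∃ y, (y ∈ box d (N + 1) ∧ y ∉ box d N) ∧
      (gr (O ∩ off B)).Reachable (u i) y := by
    intro i
    by_cases hi : u i ∈ box d N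
    · obtain ⟨w, hw, hr⟩ := inf_iff.1 (hu3 i) N
      obtain ⟨y, h1, h2, h3⟩ := exit hi hw hr
      exact ⟨y, ⟨h1, h2⟩, h3⟩
    · obtain ⟨x, hx, hr⟩ := hu2 i
      obtain ⟨w, hw, x', hx', hwx⟩ := first_hit (hu1 i) hx hr.symm
      rw [← gr_off] at hw
      by_cases hwN : w ∈ box d N
      · obtain ⟨y, h1, h2, h3⟩ := exit hwN hi hw.symm
        exact ⟨y, ⟨h1, h2⟩, hw.trans h3⟩
      · exact ⟨w, ⟨adj_box hwx.symm (hB hx'), hwN⟩, hw⟩
  choose y hy1 hy2 using key
  refine ⟨y, hy1, fun k => ?_, fun k l hkl hr => ?_⟩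
  · obtain ⟨x, hx, hr⟩ := hu2 k
    exact ⟨x, hx, hr.trans (reach_mono Set.inter_subset_left (hy2 k))⟩
  · rw [← gr_off] at hr
    exact hu4 k l hkl (((hy2 k).trans hr).trans (hy2 l).symm)

/-- the translate of a set of vertices -/
def shB (v : V d) (B : Set (V d)) : Set (V d) := {x | x - v ∈ B}

theorem reach_shift' {O O' : Set (Ed d)} {v : V d} (h : ∀ e, shE v e ∈ O' → e ∈ O) {a b : V d}
    (hr : (gr O').Reachable (a + v) (b + v)) : (gr O).Reachable a b := by
  have := reach_shift (O := O') (O' := O) (v := -v) (fun e he => h _ (by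
    rw [shE_shE]; simpa using he)) hr
  simpa using this

theorem inf_shift {O O' : Set (Ed d)} {v : V d} (h : ∀ e, e ∈ O → shE v e ∈ O') {a : V d}
    (hr : Inf O a) : Inf O' (a + v) := by
  unfold Inf at hr ⊢
  refine Set.Infinite.mono ?_ (hr.image (f := fun w => w + v) (fun x _ y _ hxy =>
    add_right_cancel hxy))
  rintro _ ⟨w, hw, rfl⟩
  exact reach_shift h hw

theorem tr_shift {O O' : Set (Ed d)} {v : V d} {B : Set (V d)}
    (h : ∀ e, e ∈ O ↔ shE v e ∈ O') (ht : Tr B O) : Tr (shB v B) O' := by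
  obtain ⟨h1, u, hu1, hu2, hu3, hu4⟩ := ht
  have hoff : ∀ e, e ∈ O ∩ off B ↔ shE v e ∈ O' ∩ off (shB v B) := by
    intro e
    refine and_congr (h e) ?_
    unfold off shB
    simp
  have hins : ∀ e, e ∈ O ∩ ins B ↔ shE v e ∈ O' ∩ ins (shB v B) := by
    intro e
    refine and_congr (h e) ?_
    unfold ins shB
    simp
  refine ⟨?_, fun i => u i + v, ?_, ?_, ?_, ?_⟩
  · intro x hx y hy
    have := reach_shift (v := v) (fun e he => (hins e).1 he) (h1 (x - v) hx (y - v) hy)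
    simpa using this
  · intro i hi
    apply hu1 i
    unfold shB at hi
    simpa using hi
  · intro i
    obtain ⟨x, hx, hr⟩ := hu2 i
    refine ⟨x + v, by unfold shB; simpa using hx, reach_shift (fun e he => (h e).1 he) hr⟩
  · intro i
    exact inf_shift (fun e he => (hoff e).1 he) (hu3 i)
  · intro i j hij hr
    exact hu4 i j hij (reach_shift' (fun e he => (hoff e).2 he) hr)

/-! ### measurability -/

theorem meas_reach (S : Set (Ed d)) (x y : V d) :
    MeasurableSet {σ : Om d | (gr (Op σ ∩ S)).Reachable x y} := by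
  have : {σ : Om d | (gr (Op σ ∩ S)).Reachable x y} =
      ⋃ n : ℕ, {σ : Om d | (gr (Op σ ∩ S ∩ ↑(edg d n))).Reachable x y} := by
    ext σ
    rw [Set.mem_iUnion]
    constructor
    · intro h; exact reach_fin h
    · rintro ⟨n, hn⟩
      exact reach_mono Set.inter_subset_left hn
  rw [this]
  refine MeasurableSet.iUnion fun n => ?_
  refine Dep.meas (F := edg d n) fun σ τ h => ?_
  have e : Op σ ∩ S ∩ ↑(edg d n) = Op τ ∩ S ∩ ↑(edg d n) := by
    ext e
    simp only [Set.mem_inter_iff, mem_coe]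
    constructor
    · rintro ⟨⟨h1, h2⟩, h3⟩
      refine ⟨⟨?_, h2⟩, h3⟩
      unfold Op at h1 ⊢
      rw [Set.mem_ofPred_eq] at h1 ⊢
      rw [← h e h3]; exact h1
    · rintro ⟨⟨h1, h2⟩, h3⟩
      refine ⟨⟨?_, h2⟩, h3⟩
      unfold Op at h1 ⊢
      rw [Set.mem_ofPred_eq] at h1 ⊢
      rw [h e h3]; exact h1
  rw [Set.mem_ofPred_eq, Set.mem_ofPred_eq, e]

theorem meas_inf (S : Set (Ed d)) (x : V d) :
    MeasurableSet {σ : Om d | Inf (Op σ ∩ S) x} := by
  have : {σ : Om d | Inf (Op σ ∩ S) x} =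
      ⋂ n : ℕ, ⋃ w : {w : V d // w ∉ box d n}, {σ : Om d | (gr (Op σ ∩ S)).Reachable x w} := by
    ext σ
    rw [Set.mem_iInter]
    simp only [Set.mem_iUnion, Set.mem_ofPred_eq]
    rw [inf_iff]
    refine forall_congr' fun n => ?_
    constructor
    · rintro ⟨w, h1, h2⟩; exact ⟨⟨w, h1⟩, h2⟩
    · rintro ⟨⟨w, h1⟩, h2⟩; exact ⟨w, h1, h2⟩
  rw [this]
  exact MeasurableSet.iInter fun n => MeasurableSet.iUnion fun w => meas_reach S x w

theorem meas_tr (B : Set (V d)) : MeasurableSet {σ : Om d | Tr B (Op σ)} := by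
  have : {σ : Om d | Tr B (Op σ)} =
      (⋂ x : B, ⋂ y : B, {σ : Om d | (gr (Op σ ∩ ins B)).Reachable x y}) ∩
      ⋃ u : Fin 3 → (Bᶜ : Set (V d)),
        (⋂ i, ⋃ x : B, {σ : Om d | (gr (Op σ ∩ Set.univ)).Reachable x (u i)}) ∩
        ((⋂ i, {σ : Om d | Inf (Op σ ∩ off B) (u i)}) ∩
        (⋂ i, ⋂ j, {σ : Om d | i ≠ j → ¬ (gr (Op σ ∩ off B)).Reachable (u i) (u j)})) := by
    ext σ
    simp only [Set.mem_inter_iff, Set.mem_iInter, Set.mem_iUnion, Set.mem_ofPred_eq,
      Set.inter_univ]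
    unfold Tr
    refine and_congr ?_ ?_
    · constructor
      · intro h x y; exact h x x.2 y y.2
      · intro h x hx y hy; exact h ⟨x, hx⟩ ⟨y, hy⟩
    · constructor
      · rintro ⟨u, h1, h2, h3, h4⟩
        refine ⟨fun i => ⟨u i, h1 i⟩, fun i => ?_, h3, h4⟩
        obtain ⟨x, hx, hr⟩ := h2 i
        exact ⟨⟨x, hx⟩, hr⟩
      · rintro ⟨u, h2, h3, h4⟩
        refine ⟨fun i => u i, fun i => (u i).2, fun i => ?_, h3, h4⟩
        obtain ⟨x, hr⟩ := h2 i
        exact ⟨x, x.2, hr⟩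
  rw [this]
  refine MeasurableSet.inter ?_ ?_
  · exact MeasurableSet.iInter fun x => MeasurableSet.iInter fun y => meas_reach _ _ _
  · refine MeasurableSet.iUnion fun u => ?_
    refine MeasurableSet.inter ?_ (MeasurableSet.inter ?_ ?_)
    · exact MeasurableSet.iInter fun i => MeasurableSet.iUnion fun x => meas_reach _ _ _
    · exact MeasurableSet.iInter fun i => meas_inf _ _
    · refine MeasurableSet.iInter fun i => MeasurableSet.iInter fun j => ?_
      by_cases hij : i = j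
      · have : {σ : Om d | i ≠ j → ¬ (gr (Op σ ∩ off B)).Reachable (u i : V d) (u j)} =
          Set.univ := by
          ext σ; simp [hij]
        rw [this]; exact MeasurableSet.univ
      · have : {σ : Om d | i ≠ j → ¬ (gr (Op σ ∩ off B)).Reachable (u i : V d) (u j)} =
          {σ : Om d | (gr (Op σ ∩ off B)).Reachable (u i : V d) (u j)}ᶜ := by
          ext σ; simp [hij]
        rw [this]; exact (meas_reach _ _ _).compl

/-! ### counting -/

theorem card_box (n : ℕ) : (box d n).card = (2 * n + 1) ^ d := by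
  unfold Pool.Agent.L7h96.RC.box
  rw [Pi.card_Icc]
  have : ∀ i : Fin d, (Finset.Icc (-(n : ℤ)) (n : ℤ)).card = 2 * n + 1 := by
    intro i
    rw [Int.card_Icc]
    omega
  rw [prod_congr rfl fun i _ => this i, prod_const, card_univ, Fintype.card_fin]

/-- the translation of the box with index `w` -/
def cen (k : ℕ) (w : V d) : V d := fun j => (2 * k + 1) * w j

theorem cen_disj {k : ℕ} {w w' : V d} (h : w ≠ w') :
    Disjoint (shB (cen k w) (↑(box d k) : Set (V d))) (shB (cen k w') (↑(box d k))) := by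
  rw [Set.disjoint_left]
  intro x hx hx'
  apply h
  funext j
  have h1 := mem_box.1 (mem_coe.1 hx) j
  have h2 := mem_box.1 (mem_coe.1 hx') j
  unfold cen at h1 h2
  simp only [Pi.sub_apply] at h1 h2
  rw [abs_le] at h1 h2
  have h3 : (2 * (k : ℤ) + 1) * (w j - w' j) ≤ 2 * k := by nlinarith
  have h4 : -(2 * (k : ℤ)) ≤ (2 * (k : ℤ) + 1) * (w j - w' j) := by nlinarith
  have h5 : w j - w' j < 1 := by
    by_contra hc
    push Not at hc
    nlinarith
  have h6 : -1 < w j - w' j := by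
    by_contra hc
    push Not at hc
    nlinarith
  omega

theorem cen_sub {k M : ℕ} {w : V d} (h : w ∈ box d M) :
    shB (cen k w) (↑(box d k) : Set (V d)) ⊆ ↑(box d ((2 * k + 1) * M + k)) := by
  intro x hx
  rw [mem_coe, mem_box]
  intro j
  have h1 := mem_box.1 (mem_coe.1 hx) j
  have h2 := mem_box.1 h j
  unfold cen at h1
  simp only [Pi.sub_apply] at h1
  rw [abs_le] at h1 h2 ⊢
  push_cast
  constructor
  · nlinarith
  · nlinarith

open scoped Classical in
theorem count {k M : ℕ} (σ : Om d) :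
    (((box d M).filter fun w => Tr (↑(box d k)) (Op (th (cen k w) σ))).card) ≤
      (2 * ((2 * k + 1) * M + k) + 3) ^ d - (2 * ((2 * k + 1) * M + k) + 1) ^ d := by
  set N := (2 * k + 1) * M + k with hN
  set W := (box d M).filter fun w => Tr (↑(box d k)) (Op (th (cen k w) σ)) with hW
  set Y : Finset (V d) := box d (N + 1) \ box d N with hY
  have hTr : ∀ w : W, Tr (shB (cen k w.1) (↑(box d k))) (Op σ) := by
    intro w
    have hw := (mem_filter.1 w.2).2
    refine tr_shift (O := Op (th (cen k w.1) σ)) (fun e => ?_) hw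
    unfold Op th
    rfl
  have hsub : ∀ w : W, shB (cen k w.1) (↑(box d k) : Set (V d)) ⊆ ↑(box d N) :=
    fun w => cen_sub (mem_filter.1 w.2).1
  have h := Pool.Agent.Helper98K9.CP.bkdet (V d) (gr (Op σ)) W
    (fun w => shB (cen k w.1) (↑(box d k))) Y
    (fun i j hij => cen_disj (fun h => hij (Subtype.ext h)))
    (fun i => ⟨cen k i.1, by
      show cen k i.1 - cen k i.1 ∈ (↑(box d k) : Set (V d))
      rw [sub_self, mem_coe, mem_box]
      intro j; simp⟩)
    (fun i x hx y hy => by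
      rw [← gr_ins]
      exact (hTr i).1 x hx y hy)
    (fun i y hy hyB => by
      rw [hY, Finset.mem_sdiff] at hy
      exact hy.2 (hsub i hyB))
    (fun i => by
      obtain ⟨y, h1, h2, h3⟩ := tr_exit (hsub i) (hTr i)
      exact ⟨y, fun k => by rw [hY, Finset.mem_sdiff]; exact h1 k, h2, h3⟩)
  rw [Fintype.card_coe, hY, card_sdiff_of_subset (box_mono (Nat.le_succ N)), card_box,
    card_box] at h
  convert h using 3
  omega

theorem tr_null {P : Measure (Om d)} [IsProbabilityMeasure P] (hT : TI P) (k : ℕ) :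
    P.real {σ | Tr (↑(box d k)) (Op σ)} = 0 := by
  classical
  set E : Set (Om d) := {σ | Tr (↑(box d k)) (Op σ)} with hE
  have hEm : MeasurableSet E := meas_tr _
  refine le_antisymm ?_ measureReal_nonneg
  have key : ∀ M : ℕ, P.real E ≤
      ((2 * (k : ℝ) + 1) + 2 / (2 * M + 1)) ^ d - (2 * (k : ℝ) + 1) ^ d := by
    intro M
    set N := (2 * k + 1) * M + k with hN
    have h1 : ∑ w ∈ box d M, P.real (th (cen k w) ⁻¹' E) = ((2 * M + 1) ^ d : ℕ) * P.real E := by
      rw [sum_congr rfl fun w _ => hT.real (cen k w) hEm, sum_const, card_box, nsmul_eq_mul]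
    have h2 : ∑ w ∈ box d M, P.real (th (cen k w) ⁻¹' E) ≤
        (((2 * N + 3) ^ d - (2 * N + 1) ^ d : ℕ) : ℝ) := by
      have h3 : ∀ w : V d, P.real (th (cen k w) ⁻¹' E) =
          ∫ σ, (th (cen k w) ⁻¹' E).indicator (fun _ => (1 : ℝ)) σ ∂P := by
        intro w
        rw [integral_indicator ((th_meas _) hEm)]
        simp
      rw [sum_congr rfl fun w _ => h3 w, ← integral_finsetSum _ (fun w _ =>
        (integrable_const (1 : ℝ)).indicator ((th_meas _) hEm))]
      have h4 : ∀ σ : Om d, ∑ w ∈ box d M, (th (cen k w) ⁻¹' E).indicator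
          (fun _ => (1 : ℝ)) σ ≤ (((2 * N + 3) ^ d - (2 * N + 1) ^ d : ℕ) : ℝ) := by
        intro σ
        have h5 : ∑ w ∈ box d M, (th (cen k w) ⁻¹' E).indicator (fun _ => (1 : ℝ)) σ =
            (((box d M).filter fun w => Tr (↑(box d k)) (Op (th (cen k w) σ))).card : ℝ) := by
          rw [card_filter]
          push_cast
          refine sum_congr rfl fun w _ => ?_
          rw [Set.indicator_apply]
          rfl
        rw [h5]
        exact_mod_cast count σ
      calc ∫ σ, ∑ w ∈ box d M, (th (cen k w) ⁻¹' E).indicator (fun _ => (1 : ℝ)) σ ∂P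
          ≤ ∫ _, (((2 * N + 3) ^ d - (2 * N + 1) ^ d : ℕ) : ℝ) ∂P := by
            refine integral_mono ?_ (integrable_const _) h4
            exact integrable_finsetSum _ (fun w _ =>
              (integrable_const (1 : ℝ)).indicator ((th_meas _) hEm))
        _ = _ := by simp
    rw [h1] at h2
    rw [Nat.cast_sub (Nat.pow_le_pow_left (by omega) d)] at h2
    have h0 : (0 : ℝ) < (2 * M + 1) := by positivity
    have h6 : (0 : ℝ) < (2 * M + 1) ^ d := by positivity
    rw [← mul_le_mul_iff_right₀ h6, mul_sub, ← mul_pow, ← mul_pow]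
    push_cast at h2
    have e1 : (2 * (M : ℝ) + 1) * (2 * (k : ℝ) + 1 + 2 / (2 * M + 1)) = 2 * (N : ℝ) + 3 := by
      rw [hN]; push_cast; field_simp; ring
    have e2 : (2 * (M : ℝ) + 1) * (2 * (k : ℝ) + 1) = 2 * (N : ℝ) + 1 := by
      rw [hN]; push_cast; ring
    rw [e1, e2]
    exact h2
  have hlim : Tendsto (fun M : ℕ => ((2 * (k : ℝ) + 1) + 2 / (2 * (M : ℝ) + 1)) ^ d -
      (2 * (k : ℝ) + 1) ^ d) atTop (𝓝 (((2 * (k : ℝ) + 1) + 0) ^ d - (2 * (k : ℝ) + 1) ^ d)) := by
    refine Tendsto.sub_const (Tendsto.pow (Tendsto.const_add _ ?_) d) _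
    refine Tendsto.div_atTop tendsto_const_nhds ?_
    refine tendsto_atTop_add_const_right _ _ ?_
    exact Tendsto.const_mul_atTop (by norm_num) tendsto_natCast_atTop_atTop
  rw [add_zero, sub_self] at hlim
  exact ge_of_tendsto' hlim key

theorem op_opn (n : ℕ) (σ : Om d) : Op (opn n σ) = Op σ ∪ ↑(edg d n) := by
  classical
  ext e
  unfold Op opn
  simp only [Set.mem_ofPred_eq, Set.mem_union, mem_coe]
  split_ifs with h
  · simp [h]
  · simp [h]

/-- **Burton–Keane** -/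
theorem bk : S_BK := by
  intro d P _ hT hC
  rw [ae_iff]
  have hsub : {σ : Om d | ¬ T3 (Op σ)} ⊆
      ⋃ k : ℕ, opn k ⁻¹' {σ | Tr (↑(box d k)) (Op σ)} := by
    intro σ hσ
    obtain ⟨k, hk⟩ := tr_of hσ
    rw [Set.mem_iUnion]
    refine ⟨k, ?_⟩
    show Tr (↑(box d k)) (Op (opn k σ))
    rw [op_opn]
    exact hk
  refine measure_mono_null hsub (measure_iUnion_null fun k => ?_)
  obtain ⟨C, hC⟩ := hC k
  have h1 := hC _ (meas_tr (↑(box d k)))
  rw [tr_null hT k, mul_zero] at h1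
  have h2 := le_antisymm h1 measureReal_nonneg
  rwa [measureReal_eq_zero_iff] at h2

end Pool.Agent.L7h96.RC.BKN
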