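import Pool.Agent.L7h96.RC.Model

set_option autoImplicit false

/-! The dictionary between integer currents and their parities. -/

open Finset MeasureTheory

namespace Pool.Agent.L7h96.RC.CurN

/-! ### the weights on `ℕ` -/

theorem wm_apply {J : ℝ} (hJ : 0 ≤ J) {s : Set ℕ} {a : ℝ}
    (ha : HasSum (s.indicator (fun k => J ^ k / k.factorial)) a) : wm J s = ENNReal.ofReal a := by
  unfold wm
  rw [Measure.sum_apply _ (MeasurableSet.of_discrete)]
  have h1 : ∀ k : ℕ, (ENNReal.ofReal (J ^ k / k.factorial) • Measure.dirac k) s =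
      ENNReal.ofReal (s.indicator (fun k => J ^ k / k.factorial) k) := by
    intro k
    rw [Measure.smul_apply, Measure.dirac_apply, smul_eq_mul]
    by_cases hk : k ∈ s
    · simp [Set.indicator_of_mem hk]
    · simp [Set.indicator_of_notMem hk]
  simp only [h1]
  rw [← ENNReal.ofReal_tsum_of_nonneg, ha.tsum_eq]
  · intro k
    by_cases hk : k ∈ s
    · rw [Set.indicator_of_mem hk]; positivity
    · rw [Set.indicator_of_notMem hk]
  · exact ha.summable

theorem hs_odd (J : ℝ) : HasSum ({k : ℕ | Odd k}.indicator (fun k => J ^ k / k.factorial)) (Real.sinh J) := by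
  have h := HasSum.even_add_odd (f := {k : ℕ | Odd k}.indicator (fun k => J ^ k / k.factorial))
    (m := 0) (m' := Real.sinh J) ?_ ?_
  · simpa using h
  · have : (fun k : ℕ => {k : ℕ | Odd k}.indicator (fun k => J ^ k / (k.factorial : ℝ)) (2 * k)) = fun _ => 0 := by
      funext k
      apply Set.indicator_of_notMem
      simp
    rw [this]; exact hasSum_zero
  · have : (fun k : ℕ => {k : ℕ | Odd k}.indicator (fun k => J ^ k / (k.factorial : ℝ)) (2 * k + 1)) =
        fun k => J ^ (2 * k + 1) / ((2 * k + 1).factorial : ℝ) := by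
      funext k
      apply Set.indicator_of_mem
      simp
    rw [this]; exact Real.hasSum_sinh J

theorem hs_even (J : ℝ) : HasSum ({k : ℕ | Even k}.indicator (fun k => J ^ k / k.factorial)) (Real.cosh J) := by
  have h := HasSum.even_add_odd (f := {k : ℕ | Even k}.indicator (fun k => J ^ k / k.factorial))
    (m := Real.cosh J) (m' := 0) ?_ ?_
  · simpa using h
  · have : (fun k : ℕ => {k : ℕ | Even k}.indicator (fun k => J ^ k / (k.factorial : ℝ)) (2 * k)) =
        fun k => J ^ (2 * k) / ((2 * k).factorial : ℝ) := by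
      funext k
      apply Set.indicator_of_mem
      simp
    rw [this]; exact Real.hasSum_cosh J
  · have : (fun k : ℕ => {k : ℕ | Even k}.indicator (fun k => J ^ k / (k.factorial : ℝ)) (2 * k + 1)) = fun _ => 0 := by
      funext k
      apply Set.indicator_of_notMem
      simp
    rw [this]; exact hasSum_zero

theorem hs_zero (J : ℝ) : HasSum (({0} : Set ℕ).indicator (fun k => J ^ k / k.factorial)) 1 := by
  have h := hasSum_ite_eq (0 : ℕ) (1 : ℝ)
  convert h using 1
  funext k
  by_cases hk : k = 0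
  · subst hk; simp
  · simp [hk]

/-- classes: zero, odd, even and positive -/
def cl (k : ℕ) : Fin 3 := if k = 0 then 0 else if Odd k then 1 else 2

/-- masses of the classes -/
noncomputable def ms (J : ℝ) (i : Fin 3) : ℝ := ![1, Real.sinh J, Real.cosh J - 1] i

theorem wm_cl {J : ℝ} (hJ : 0 ≤ J) (i : Fin 3) : wm J (cl ⁻¹' {i}) = ENNReal.ofReal (ms J i) := by
  fin_cases i
  · have : cl ⁻¹' {0} = ({0} : Set ℕ) := by
      ext k
      simp only [Set.mem_preimage, Set.mem_singleton_iff, cl]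
      split_ifs <;> simp_all
    show wm J (cl ⁻¹' {0}) = ENNReal.ofReal 1
    rw [this]
    exact wm_apply hJ (hs_zero J)
  · have : cl ⁻¹' {1} = {k : ℕ | Odd k} := by
      ext k
      simp only [Set.mem_preimage, Set.mem_singleton_iff, cl, Set.mem_ofPred_eq]
      split_ifs <;> simp_all
    show wm J (cl ⁻¹' {1}) = ENNReal.ofReal (Real.sinh J)
    rw [this]
    exact wm_apply hJ (hs_odd J)
  · have : cl ⁻¹' {2} = {k : ℕ | Even k} \ {0} := by
      ext k
      simp only [Set.mem_preimage, Set.mem_singleton_iff, cl, Set.mem_sdiff, Set.mem_ofPred_eq]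
      split_ifs with h1 h2
      · simp [h1]
      · simp [Nat.not_even_iff_odd.2 h2]
      · simp [h1, Nat.not_odd_iff_even.1 h2]
    show wm J (cl ⁻¹' {2}) = ENNReal.ofReal (Real.cosh J - 1)
    rw [this]
    apply wm_apply hJ
    have h := (hs_even J).sub (hs_zero J)
    have hfun : ({k : ℕ | Even k} \ {0}).indicator (fun k => J ^ k / (k.factorial : ℝ)) =
        fun b => {k : ℕ | Even k}.indicator (fun k => J ^ k / (k.factorial : ℝ)) b -
          ({0} : Set ℕ).indicator (fun k => J ^ k / (k.factorial : ℝ)) b := by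
      funext k
      by_cases hk : k = 0
      · subst hk; simp
      · by_cases hk' : Even k
        · simp [hk, hk', Set.indicator]
        · simp [hk, hk', Set.indicator]
    rw [hfun]
    exact h

/-- masses of the parities -/
noncomputable def mp (J : ℝ) (b : Bool) : ℝ := if b then Real.sinh J else Real.cosh J

/-- parity -/
def pa (k : ℕ) : Bool := decide (Odd k)

theorem wm_pa {J : ℝ} (hJ : 0 ≤ J) (b : Bool) : wm J (pa ⁻¹' {b}) = ENNReal.ofReal (mp J b) := by
  cases b
  · have : pa ⁻¹' {false} = {k : ℕ | Even k} := by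
      ext k; simp [pa]
    rw [this]
    exact wm_apply hJ (hs_even J)
  · have : pa ⁻¹' {true} = {k : ℕ | Odd k} := by
      ext k; simp [pa]
    rw [this]
    exact wm_apply hJ (hs_odd J)

theorem wm_fin {J : ℝ} (hJ : 0 ≤ J) : IsFiniteMeasure (wm J) := by
  constructor
  have h : (Set.univ : Set ℕ) = pa ⁻¹' {false} ∪ pa ⁻¹' {true} := by
    ext k; simp
  rw [h]
  refine lt_of_le_of_lt (measure_union_le _ _) ?_
  rw [wm_pa hJ, wm_pa hJ]
  exact ENNReal.add_lt_top.2 ⟨ENNReal.ofReal_lt_top, ENNReal.ofReal_lt_top⟩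

theorem ms_nonneg {J : ℝ} (hJ : 0 ≤ J) (i : Fin 3) : 0 ≤ ms J i := by
  fin_cases i
  · exact zero_le_one
  · exact Real.sinh_nonneg_iff.2 hJ
  · show 0 ≤ Real.cosh J - 1
    linarith [Real.one_le_cosh J]

theorem mp_nonneg {J : ℝ} (hJ : 0 ≤ J) (b : Bool) : 0 ≤ mp J b := by
  unfold mp
  split_ifs
  · exact Real.sinh_nonneg_iff.2 hJ
  · exact (Real.cosh_pos J).le

/-! ### finite sums -/

section fin
variable {ι : Type} [DecidableEq ι]

/-- the set of a boolean function -/
def toF {E : Finset ι} (y : ↥E → Bool) : Finset ι :=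
  (Finset.univ.filter (fun e => y e = true)).map (Function.Embedding.subtype _)

omit [DecidableEq ι] in
theorem mem_toF {E : Finset ι} (y : ↥E → Bool) (i : ι) :
    i ∈ toF y ↔ ∃ h : i ∈ E, y ⟨i, h⟩ = true := by
  unfold toF
  simp

omit [DecidableEq ι] in
theorem toF_sub {E : Finset ι} (y : ↥E → Bool) : toF y ⊆ E := by
  intro i hi
  exact ((mem_toF y i).1 hi).1

theorem sum_powerset_bool {M : Type} [AddCommMonoid M] (E : Finset ι) (g : Finset ι → M) :
    ∑ p ∈ E.powerset, g p = ∑ y : ↥E → Bool, g (toF y) := by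
  refine Finset.sum_nbij' (fun p => fun e : ↥E => decide (e.1 ∈ p)) (fun y => toF y) ?_ ?_ ?_ ?_ ?_
  · intro p _; exact Finset.mem_univ _
  · intro y _; exact Finset.mem_powerset.2 (toF_sub y)
  · intro p hp
    ext i
    rw [mem_toF]
    simp only [decide_eq_true_eq]
    constructor
    · rintro ⟨_, h⟩; exact h
    · intro h; exact ⟨Finset.mem_powerset.1 hp h, h⟩
  · intro y _
    funext e
    rw [Bool.eq_iff_iff]
    simp only [decide_eq_true_eq, mem_toF]
    constructor
    · rintro ⟨_, h⟩; exact h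
    · intro h; exact ⟨e.2, h⟩
  · intro p hp
    congr 1
    ext i
    rw [mem_toF]
    simp only [decide_eq_true_eq]
    constructor
    · intro h; exact ⟨Finset.mem_powerset.1 hp h, h⟩
    · rintro ⟨_, h⟩; exact h

/-- push-forward of a product weight -/
theorem push {T A K : Type} [Fintype T] [DecidableEq T] [Fintype A] [Fintype K] [DecidableEq K]
    (f : A → ℝ) (c : A → K) (Ψ : (T → K) → ℝ) :
    ∑ x : T → A, (∏ e, f (x e)) * Ψ (fun e => c (x e)) =
      ∑ y : T → K, (∏ e, ∑ a ∈ Finset.univ.filter (fun a => c a = y e), f a) * Ψ y := by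
  classical
  have h1 : ∀ y : T → K, (∏ e, ∑ a ∈ Finset.univ.filter (fun a => c a = y e), f a) =
      ∑ x : T → A, if (fun e => c (x e)) = y then ∏ e, f (x e) else 0 := by
    intro y
    rw [Finset.prod_univ_sum, ← Finset.sum_filter]
    apply Finset.sum_congr
    · ext x
      rw [Fintype.mem_piFinset, Finset.mem_filter]
      simp only [Finset.mem_filter, Finset.mem_univ, true_and]
      exact ⟨fun h => funext h, fun h e => congrFun h e⟩
    · intro x _; rfl
  simp only [h1, Finset.sum_mul]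
  rw [Finset.sum_comm]
  apply Finset.sum_congr rfl
  intro x _
  rw [Finset.sum_eq_single (fun e => c (x e))]
  · rw [if_pos rfl]
  · intro y _ hy
    rw [if_neg (fun h => hy h.symm), zero_mul]
  · intro h; exact absurd (Finset.mem_univ _) h

/-- sums over triples of sets as sums over functions -/
theorem S3_bool (E : Finset ι) (F : Bool → Bool → Bool → ℝ) (hF : ∀ x y, x = true ∨ y = true → F false x y = 0)
    (Φ : Finset ι → Finset ι → Finset ι → ℝ) :
    ∑ y : ↥E → Bool × Bool × Bool, (∏ e, F (y e).1 (y e).2.1 (y e).2.2) *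
        Φ (toF fun e => (y e).1) (toF fun e => (y e).2.1) (toF fun e => (y e).2.2) =
      S3 E (fun ω p q => (∏ e ∈ E, F (decide (e ∈ ω)) (decide (e ∈ p)) (decide (e ∈ q))) * Φ ω p q) := by
  set G : Finset ι → Finset ι → Finset ι → ℝ := fun ω p q =>
    (∏ e ∈ E, F (decide (e ∈ ω)) (decide (e ∈ p)) (decide (e ∈ q))) * Φ ω p q with hG
  have hz : ∀ ω p q, p ⊆ E → q ⊆ E → ¬ (p ⊆ ω ∧ q ⊆ ω) → G ω p q = 0 := by
    intro ω p q hp hq hn
    rw [hG]
    simp only
    have : ∃ e ∈ E, e ∉ ω ∧ (e ∈ p ∨ e ∈ q) := by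
      by_contra hc
      push Not at hc
      apply hn
      constructor
      · intro e he
        by_contra h
        exact (hc e (hp he) h).1 he
      · intro e he
        by_contra h
        exact (hc e (hq he) h).2 he
    obtain ⟨e, he, h1, h2⟩ := this
    rw [Finset.prod_eq_zero he, zero_mul]
    rw [decide_eq_false h1]
    apply hF
    simpa using h2
  have e1 : S3 E G = ∑ ω ∈ E.powerset, ∑ p ∈ E.powerset, ∑ q ∈ E.powerset, G ω p q := by
    unfold S3
    refine Finset.sum_congr rfl fun ω hω => ?_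
    have hωE := Finset.mem_powerset.1 hω
    have e2 : ∀ p ∈ ω.powerset, ∑ q ∈ ω.powerset, G ω p q = ∑ q ∈ E.powerset, G ω p q := by
      intro p hp
      apply Finset.sum_subset (Finset.powerset_mono.2 hωE)
      intro q hq hq'
      apply hz ω p q ((Finset.mem_powerset.1 hp).trans hωE) (Finset.mem_powerset.1 hq)
      exact fun h => hq' (Finset.mem_powerset.2 h.2)
    rw [Finset.sum_congr rfl e2]
    apply Finset.sum_subset (Finset.powerset_mono.2 hωE)
    intro p hp hp'
    apply Finset.sum_eq_zero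
    intro q hq
    apply hz ω p q (Finset.mem_powerset.1 hp) (Finset.mem_powerset.1 hq)
    exact fun h => hp' (Finset.mem_powerset.2 h.1)
  rw [e1, sum_powerset_bool]
  simp only [sum_powerset_bool (E := E)]
  rw [← (Equiv.arrowProdEquivProdArrow ↥E (fun _ => Bool) (fun _ => Bool × Bool)).symm.sum_comp,
    Fintype.sum_prod_type]
  refine Finset.sum_congr rfl fun y1 _ => ?_
  rw [← (Equiv.arrowProdEquivProdArrow ↥E (fun _ => Bool) (fun _ => Bool)).symm.sum_comp,
    Fintype.sum_prod_type]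
  refine Finset.sum_congr rfl fun y2 _ => Finset.sum_congr rfl fun y3 _ => ?_
  rw [hG]
  simp only [Equiv.arrowProdEquivProdArrow, Equiv.coe_fn_symm_mk]
  congr 1
  rw [← Finset.prod_coe_sort E]
  refine Finset.prod_congr rfl fun e _ => ?_
  have h : ∀ y : ↥E → Bool, decide (e.1 ∈ toF y) = y e := by
    intro y
    rw [Bool.eq_iff_iff, decide_eq_true_eq, mem_toF]
    exact ⟨fun ⟨_, h⟩ => h, fun h => ⟨e.2, h⟩⟩
  rw [h, h, h]

end fin

/-! ### the classes of a current -/

variable {d n : ℕ}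

/-- the classes of one current -/
def th (m : Cur d n) : (↥(edg d n) → Fin 3) × (↥(box d n) → Bool) :=
  (fun e => cl (m.1 e), fun v => pa (m.2 v))

/-- the odd edges -/
def od {ι : Type} {E : Finset ι} (x : ↥E → Fin 3) : Finset ι := toF (fun e => decide (x e = 1))

/-- the source condition in terms of the classes -/
def SrcP (y : (↥(edg d n) → Fin 3) × (↥(box d n) → Bool)) : Prop :=
  bd DB (od y.1) = bd DG (toF y.2)

theorem tg_ne (e : Ed d) : e.1 ≠ tg e := by
  intro h
  have h2 := congrFun h e.2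
  simp [tg] at h2

theorem bd_DB_apply (P : Finset (Ed d)) (v : V d) :
    (bd DB P) v = ∑ e ∈ P, (if e.1 = v ∨ tg e = v then (1 : ZMod 2) else 0) := by
  unfold bd
  rw [Finsupp.finsetSum_apply]
  refine Finset.sum_congr rfl fun e _ => ?_
  unfold DB
  rw [Finsupp.add_apply, Finsupp.single_apply, Finsupp.single_apply]
  by_cases h1 : e.1 = v
  · have h2 : tg e ≠ v := fun h => tg_ne e (h1.trans h.symm)
    simp [h1, h2]
  · by_cases h2 : tg e = v
    · simp [h1, h2]
    · simp [h1, h2]

theorem bd_DG_apply (P : Finset (V d)) (v : V d) :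
    (bd DG P) v = if v ∈ P then (1 : ZMod 2) else 0 := by
  unfold bd
  rw [Finsupp.finsetSum_apply]
  unfold DG
  simp only [Finsupp.single_apply]
  rw [Finset.sum_ite_eq']

theorem edg_fst {e : Ed d} (he : e ∈ edg d n) : e.1 ∈ box d n := by
  unfold edg at he
  rw [Finset.mem_filter, Finset.mem_product] at he
  exact he.1.1

theorem edg_snd {e : Ed d} (he : e ∈ edg d n) : tg e ∈ box d n := by
  unfold edg at he
  rw [Finset.mem_filter] at he
  exact he.2

theorem sum_toF {ι : Type} {E : Finset ι} (y : ↥E → Bool) (f : ι → ZMod 2) :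
    ∑ e ∈ toF y, f e = ∑ e : ↥E, if y e = true then f e.1 else 0 := by
  unfold toF
  rw [Finset.sum_map, Finset.sum_filter]
  rfl

theorem cast_cl (k : ℕ) : ((k : ℕ) : ZMod 2) = if cl k = 1 then 1 else 0 := by
  unfold cl
  by_cases h0 : k = 0
  · subst h0; simp
  · by_cases h1 : Odd k
    · rw [if_neg h0, if_pos h1, if_pos rfl]
      exact ZMod.natCast_eq_one_iff_odd.2 h1
    · rw [if_neg h0, if_neg h1, if_neg (by decide)]
      exact ZMod.natCast_eq_zero_iff_even.2 (Nat.not_odd_iff_even.1 h1)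

theorem cast_pa (k : ℕ) : ((k : ℕ) : ZMod 2) = if pa k = true then 1 else 0 := by
  unfold pa
  by_cases h1 : Odd k
  · simp [h1, ZMod.natCast_eq_one_iff_odd.2 h1]
  · simp [h1, ZMod.natCast_eq_zero_iff_even.2 (Nat.not_odd_iff_even.1 h1)]

theorem src_iff (m : Cur d n) : m ∈ Srcless d n ↔ SrcP (th m) := by
  have key : ∀ v : ↥(box d n), ((((∑ e : ↥(edg d n), if e.1.1 = v.1 ∨ tg e.1 = v.1 then m.1 e else 0) +
      m.2 v : ℕ)) : ZMod 2) = bd DB (od (th m).1) v.1 + bd DG (toF (th m).2) v.1 := by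
    intro v
    rw [Nat.cast_add, Nat.cast_sum, bd_DB_apply, bd_DG_apply]
    congr 1
    · unfold od
      rw [sum_toF]
      refine Finset.sum_congr rfl fun e _ => ?_
      have hth : (th m).1 e = cl (m.1 e) := rfl
      by_cases hi : e.1.1 = v.1 ∨ tg e.1 = v.1
      · rw [if_pos hi, if_pos hi, cast_cl, hth]; simp
      · rw [if_neg hi, if_neg hi]; simp
    · rw [cast_pa]
      congr 1
      rw [mem_toF]
      simp only [th]
      exact propext ⟨fun h => ⟨v.2, h⟩, fun ⟨_, h⟩ => h⟩
  have two : ∀ a b : ZMod 2, a + b = 0 ↔ a = b := by decide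
  unfold Srcless SrcP
  rw [Set.mem_ofPred_eq]
  constructor
  · intro h
    ext v
    by_cases hv : v ∈ box d n
    · rw [← two, ← key ⟨v, hv⟩]
      exact ZMod.natCast_eq_zero_iff_even.2 (h ⟨v, hv⟩)
    · rw [bd_DB_apply, bd_DG_apply, if_neg (fun h => hv (toF_sub _ h))]
      apply Finset.sum_eq_zero
      intro e he
      have he' : e ∈ edg d n := toF_sub _ he
      rw [if_neg]
      rintro (h | h)
      · exact hv (h ▸ edg_fst he')
      · exact hv (h ▸ edg_snd he')
  · intro h v
    rw [← ZMod.natCast_eq_zero_iff_even, key v, two, h]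

/-- the measure before conditioning -/
noncomputable def M0 (d n : ℕ) (J K : ℝ) : Measure (Cur d n) :=
  (Measure.pi fun _ => wm J).prod (Measure.pi fun _ => wm K)

/-- masses of the classes -/
noncomputable def mm (J K : ℝ) (y : (↥(edg d n) → Fin 3) × (↥(box d n) → Bool)) : ℝ :=
  (∏ e, ms J (y.1 e)) * ∏ v, mp K (y.2 v)

theorem mm_nonneg {J K : ℝ} (hJ : 0 ≤ J) (hK : 0 ≤ K)
    (y : (↥(edg d n) → Fin 3) × (↥(box d n) → Bool)) : 0 ≤ mm J K y :=
  mul_nonneg (Finset.prod_nonneg fun _ _ => ms_nonneg hJ _) (Finset.prod_nonneg fun _ _ => mp_nonneg hK _)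

theorem M0_cell {J K : ℝ} (hJ : 0 ≤ J) (hK : 0 ≤ K)
    (y : (↥(edg d n) → Fin 3) × (↥(box d n) → Bool)) :
    M0 d n J K (th ⁻¹' {y}) = ENNReal.ofReal (mm J K y) := by
  have := wm_fin hJ
  have := wm_fin hK
  have h : (th ⁻¹' {y} : Set (Cur d n)) =
      (Set.univ.pi fun e => cl ⁻¹' {y.1 e}) ×ˢ (Set.univ.pi fun v => pa ⁻¹' {y.2 v}) := by
    ext m
    simp only [Set.mem_preimage, Set.mem_singleton_iff, Set.mem_prod, Set.mem_pi, Set.mem_univ,
      true_imp_iff, th]
    rw [Prod.ext_iff]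
    simp only [funext_iff]
  unfold M0 mm
  rw [h, Measure.prod_prod, Measure.pi_pi, Measure.pi_pi]
  simp only [wm_cl hJ, wm_pa hK]
  rw [← ENNReal.ofReal_prod_of_nonneg (fun e _ => ms_nonneg hJ _),
    ← ENNReal.ofReal_prod_of_nonneg (fun v _ => mp_nonneg hK _),
    ← ENNReal.ofReal_mul (Finset.prod_nonneg fun e _ => ms_nonneg hJ _)]

theorem M0_fin {J K : ℝ} (hJ : 0 ≤ J) (hK : 0 ≤ K) : IsFiniteMeasure (M0 d n J K) := by
  have := wm_fin hJ
  have := wm_fin hK
  unfold M0
  infer_instance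

open scoped Classical in
/-- the normalisation -/
noncomputable def NN (d n : ℕ) (J K : ℝ) : ℝ :=
  ∑ y : (↥(edg d n) → Fin 3) × (↥(box d n) → Bool), if SrcP y then mm J K y else 0

open scoped Classical in
theorem M0_src {J K : ℝ} (hJ : 0 ≤ J) (hK : 0 ≤ K) : (M0 d n J K).real (Srcless d n) = NN d n J K := by
  have := M0_fin (d := d) (n := n) hJ hK
  have h : Srcless d n = th ⁻¹' (↑(Finset.univ.filter
      (fun y : (↥(edg d n) → Fin 3) × (↥(box d n) → Bool) => SrcP y)) : Set _) := by
    ext m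
    rw [src_iff]
    simp
  rw [h, ← sum_measureReal_preimage_singleton _ (fun y _ => MeasurableSet.of_discrete)]
  unfold NN
  rw [Finset.sum_filter]
  refine Finset.sum_congr rfl fun y _ => ?_
  rw [measureReal_def, M0_cell hJ hK, ENNReal.toReal_ofReal (mm_nonneg hJ hK y)]

open scoped Classical in
theorem PC_cell {J K : ℝ} (hJ : 0 ≤ J) (hK : 0 ≤ K)
    (y : (↥(edg d n) → Fin 3) × (↥(box d n) → Bool)) :
    (ProbabilityTheory.cond (M0 d n J K) (Srcless d n)).real (th ⁻¹' {y}) =
      (NN d n J K)⁻¹ * (if SrcP y then mm J K y else 0) := by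
  have := M0_fin (d := d) (n := n) hJ hK
  rw [measureReal_def, ProbabilityTheory.cond_apply (MeasurableSet.of_discrete), ENNReal.toReal_mul,
    ENNReal.toReal_inv, ← measureReal_def, M0_src hJ hK]
  congr 1
  by_cases hy : SrcP y
  · have : Srcless d n ∩ th ⁻¹' {y} = th ⁻¹' {y} := by
      ext m
      simp only [Set.mem_inter_iff, Set.mem_preimage, Set.mem_singleton_iff, src_iff]
      constructor
      · exact fun h => h.2
      · intro h; exact ⟨h ▸ hy, h⟩
    rw [this, if_pos hy, M0_cell hJ hK, ENNReal.toReal_ofReal (mm_nonneg hJ hK y)]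
  · have : Srcless d n ∩ th ⁻¹' {y} = ∅ := by
      ext m
      simp only [Set.mem_inter_iff, Set.mem_preimage, Set.mem_singleton_iff, src_iff,
        Set.mem_empty_iff_false, iff_false]
      rintro ⟨h1, h2⟩
      exact hy (h2 ▸ h1)
    rw [this, if_neg hy, measure_empty, ENNReal.toReal_zero]

/-- the open edges of two currents -/
def om {ι : Type} {E : Finset ι} (x1 x2 : ↥E → Fin 3) : Finset ι :=
  toF (fun e => decide (x1 e ≠ 0 ∨ x2 e ≠ 0))

theorem cl_eq_zero (k : ℕ) : cl k = 0 ↔ k = 0 := by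
  unfold cl
  by_cases h0 : k = 0
  · simp [h0]
  · by_cases h1 : Odd k
    · simp [h0, h1]
    · simp [h0, h1]

theorem trace_eq (m : Cur d n × Cur d n) : trace m = ↑(om (th m.1).1 (th m.2).1) := by
  ext e
  rw [Finset.mem_coe]
  unfold trace om
  rw [Set.mem_ofPred_eq, mem_toF]
  simp only [decide_eq_true_eq, th, ne_eq, cl_eq_zero]
  constructor
  · rintro ⟨h, h'⟩; exact ⟨h, by omega⟩
  · rintro ⟨h, h'⟩; exact ⟨h, by omega⟩

open scoped Classical in
/-- the double sum -/
noncomputable def Num (d n : ℕ) (J K K' : ℝ) (κ : Finset (Ed d) → ℝ) : ℝ :=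
  ∑ y1 : (↥(edg d n) → Fin 3) × (↥(box d n) → Bool),
    ∑ y2 : (↥(edg d n) → Fin 3) × (↥(box d n) → Bool),
      (if SrcP y1 then mm J K y1 else 0) * (if SrcP y2 then mm J K' y2 else 0) * κ (om y1.1 y2.1)

theorem Num_one (J K K' : ℝ) : Num d n J K K' (fun _ => 1) = NN d n J K * NN d n J K' := by
  unfold Num NN
  rw [Finset.sum_mul_sum]
  simp only [mul_one]

open scoped Classical in
theorem pn_eq (β h : ℝ) (hβ : 0 < β) (hh : 0 ≤ h) (F η : Finset (Ed d)) :
    pn d n β h F η = Num d n β (β * h) 0 (fun ω => if ω ∩ F = η then 1 else 0) /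
      Num d n β (β * h) 0 (fun _ => 1) := by
  have hK : 0 ≤ β * h := mul_nonneg hβ.le hh
  have hK' : 0 ≤ β * 0 := by simp
  have := M0_fin (d := d) (n := n) hβ.le hK
  have := M0_fin (d := d) (n := n) hβ.le hK'
  have hpc : ∀ h' : ℝ, PC d n β h' = ProbabilityTheory.cond (M0 d n β (β * h')) (Srcless d n) := fun _ => rfl
  unfold pn
  rw [hpc, hpc]
  set P1 := ProbabilityTheory.cond (M0 d n β (β * h)) (Srcless d n) with hP1
  set P2 := ProbabilityTheory.cond (M0 d n β (β * 0)) (Srcless d n) with hP2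
  have hset : {m : Cur d n × Cur d n | trace m ∩ ↑F = (↑η : Set (Ed d))} =
      (Prod.map th th) ⁻¹' ((Finset.univ.filter (fun y : ((↥(edg d n) → Fin 3) × (↥(box d n) → Bool)) ×
        ((↥(edg d n) → Fin 3) × (↥(box d n) → Bool)) => om y.1.1 y.2.1 ∩ F = η) : Finset _) : Set _) := by
    ext m
    rw [Set.mem_ofPred_eq, trace_eq, ← Finset.coe_inter, Finset.coe_inj]
    simp
  rw [hset, ← sum_measureReal_preimage_singleton _ (fun y _ => MeasurableSet.of_discrete)]
  rw [Finset.sum_filter]
  have hcell : ∀ y : ((↥(edg d n) → Fin 3) × (↥(box d n) → Bool)) ×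
        ((↥(edg d n) → Fin 3) × (↥(box d n) → Bool)), (P1.prod P2).real (Prod.map th th ⁻¹' {y}) =
        ((NN d n β (β * h))⁻¹ * (if SrcP y.1 then mm β (β * h) y.1 else 0)) *
        ((NN d n β (β * 0))⁻¹ * (if SrcP y.2 then mm β (β * 0) y.2 else 0)) := by
    intro y
    have : (Prod.map th th ⁻¹' {y} : Set (Cur d n × Cur d n)) = (th ⁻¹' {y.1}) ×ˢ (th ⁻¹' {y.2}) := by
      ext m
      simp only [Set.mem_preimage, Set.mem_singleton_iff, Set.mem_prod, Prod.ext_iff, Prod.map]
    rw [this, measureReal_prod_prod, hP1, hP2, PC_cell hβ.le hK, PC_cell hβ.le hK']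
  simp only [hcell]
  rw [Num_one]
  unfold Num
  rw [Fintype.sum_prod_type, mul_zero, Finset.sum_div]
  refine Finset.sum_congr rfl fun y1 _ => ?_
  rw [Finset.sum_div]
  refine Finset.sum_congr rfl fun y2 _ => ?_
  simp only
  split_ifs <;> simp [div_eq_mul_inv] <;> ring

/-! ### the finite sums -/

theorem Gf_eq (K : ℝ) (C : X d) :
    ∑ g : ↥(box d n) → Bool, (∏ v, mp K (g v)) * (if bd DG (toF g) = C then 1 else 0) =
      Real.cosh K ^ (box d n).card * Gf n (Real.tanh K) C := by
  unfold Gf zz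
  rw [sum_powerset_bool, Finset.mul_sum]
  refine Finset.sum_congr rfl fun g _ => ?_
  have h1 : ∏ v, mp K (g v) = Real.cosh K ^ (box d n).card * tw (fun _ => Real.tanh K) (toF g) := by
    have h2 : tw (fun _ => Real.tanh K) (toF g) = ∏ v : ↥(box d n), if g v = true then Real.tanh K else 1 := by
      unfold tw toF
      rw [Finset.prod_map, Finset.prod_filter]
    rw [h2]
    have h3 : Real.cosh K ^ (box d n).card = ∏ _v : ↥(box d n), Real.cosh K := by
      rw [Finset.prod_const, Finset.card_univ, Fintype.card_coe]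
    rw [h3, ← Finset.prod_mul_distrib]
    refine Finset.prod_congr rfl fun v _ => ?_
    unfold mp
    cases g v
    · simp
    · simp only [if_true]
      rw [Real.tanh_eq_sinh_div_cosh]
      field_simp
  rw [h1]
  split_ifs
  · ring
  · ring

theorem Gf_zero (C : X d) : Gf n 0 C = if C = 0 then 1 else 0 := by
  unfold Gf zz
  rw [Finset.sum_eq_single ∅]
  · simp only [bd_empty, tw_empty]
    by_cases h : C = 0
    · rw [if_pos h, if_pos h.symm]
    · rw [if_neg h, if_neg (fun h' => h h'.symm)]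
  · intro T _ hT
    obtain ⟨v, hv⟩ := Finset.nonempty_iff_ne_empty.2 hT
    have : tw (fun _ => (0 : ℝ)) T = 0 := Finset.prod_eq_zero hv rfl
    rw [this]
    simp
  · intro h; exact absurd (Finset.empty_mem_powerset _) h

/-- local weights -/
noncomputable def Fw (J : ℝ) (o x y : Bool) : ℝ :=
  ∑ a ∈ Finset.univ.filter (fun a : Fin 3 × Fin 3 =>
    (decide (a.1 ≠ 0 ∨ a.2 ≠ 0), decide (a.1 = 1), decide (a.2 = 1)) = (o, x, y)), ms J a.1 * ms J a.2

theorem Fw_val (J : ℝ) (o x y : Bool) : Fw J o x y = Real.cosh J ^ 2 *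
    (if o = true then (if (x = true ↔ y = true) then Real.tanh J ^ 2 else Real.tanh J) else
      (if x = true ∨ y = true then 0 else 1 - Real.tanh J ^ 2)) := by
  have hc : Real.cosh J ≠ 0 := (Real.cosh_pos J).ne'
  have hs : Real.sinh J ^ 2 = Real.cosh J ^ 2 - 1 := by
    have := Real.cosh_sq J; linarith
  unfold Fw
  rw [Finset.sum_filter, Fintype.sum_prod_type]
  simp only [Fin.sum_univ_three, Real.tanh_eq_sinh_div_cosh]
  cases o <;> cases x <;> cases y <;> simp [ms] <;> field_simp <;> nlinarith [hs]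

theorem Num_eq (J K : ℝ) (κ : Finset (Ed d) → ℝ) :
    Num d n J K 0 κ = (Real.cosh J ^ 2) ^ (edg d n).card * Real.cosh K ^ (box d n).card *
      S3 (edg d n) (fun ω p q => W (fun _ => Real.tanh J) (edg d n) ω p q *
        κ ω * Gf n (Real.tanh K) (bd DB p) * (if bd DB q = 0 then 1 else 0)) := by
  classical
  set Ψ : (↥(edg d n) → Bool × Bool × Bool) → ℝ := fun y =>
    Real.cosh K ^ (box d n).card * (κ (toF fun e => (y e).1) *
      Gf n (Real.tanh K) (bd DB (toF fun e => (y e).2.1)) *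
      (if bd DB (toF fun e => (y e).2.2) = 0 then 1 else 0)) with hΨ
  have hg : ∀ (L : ℝ) (x : ↥(edg d n) → Fin 3),
      ∑ g : ↥(box d n) → Bool, (if SrcP (x, g) then mm J L (x, g) else 0) =
        (∏ e, ms J (x e)) * (Real.cosh L ^ (box d n).card * Gf n (Real.tanh L) (bd DB (od x))) := by
    intro L x
    rw [← Gf_eq, Finset.mul_sum]
    refine Finset.sum_congr rfl fun g _ => ?_
    unfold SrcP mm
    by_cases h : bd DB (od x) = bd DG (toF g)
    · rw [if_pos h, if_pos h.symm, mul_one]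
    · rw [if_neg h, if_neg (fun h' => h h'.symm), mul_zero, mul_zero]
  have h1 : Num d n J K 0 κ = ∑ x1 : ↥(edg d n) → Fin 3, ∑ x2 : ↥(edg d n) → Fin 3,
      ((∏ e, ms J (x1 e)) * ∏ e, ms J (x2 e)) *
        Ψ (fun e => (decide (x1 e ≠ 0 ∨ x2 e ≠ 0), decide (x1 e = 1), decide (x2 e = 1))) := by
    unfold Num
    rw [Fintype.sum_prod_type]
    refine Finset.sum_congr rfl fun x1 _ => ?_
    simp only [Fintype.sum_prod_type]
    rw [Finset.sum_comm]
    refine Finset.sum_congr rfl fun x2 _ => ?_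
    have h2 : ∀ g1 g2 : ↥(box d n) → Bool,
        (if SrcP (x1, g1) then mm J K (x1, g1) else 0) * (if SrcP (x2, g2) then mm J 0 (x2, g2) else 0) *
          κ (om x1 x2) = κ (om x1 x2) * ((if SrcP (x1, g1) then mm J K (x1, g1) else 0) *
            (if SrcP (x2, g2) then mm J 0 (x2, g2) else 0)) := fun _ _ => by ring
    simp only [h2, ← Finset.mul_sum]
    rw [← Finset.sum_mul, hg, hg, Real.tanh_zero, Gf_zero, Real.cosh_zero, one_pow, one_mul, hΨ]
    unfold om od
    ring
  have h3 : Num d n J K 0 κ = ∑ x : ↥(edg d n) → Fin 3 × Fin 3, (∏ e, ms J (x e).1 * ms J (x e).2) *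
      Ψ (fun e => (fun a : Fin 3 × Fin 3 => (decide (a.1 ≠ 0 ∨ a.2 ≠ 0), decide (a.1 = 1), decide (a.2 = 1)))
        (x e)) := by
    rw [h1, ← (Equiv.arrowProdEquivProdArrow ↥(edg d n) (fun _ => Fin 3) (fun _ => Fin 3)).symm.sum_comp,
      Fintype.sum_prod_type]
    refine Finset.sum_congr rfl fun x1 _ => Finset.sum_congr rfl fun x2 _ => ?_
    rw [← Finset.prod_mul_distrib]
    rfl
  rw [h3]
  refine (push (fun a : Fin 3 × Fin 3 => ms J a.1 * ms J a.2) (fun a : Fin 3 × Fin 3 =>
    (decide (a.1 ≠ 0 ∨ a.2 ≠ 0), decide (a.1 = 1), decide (a.2 = 1))) Ψ).trans ?_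
  have h4 := S3_bool (edg d n) (Fw J) (by
    intro x y hxy
    rw [Fw_val]
    simp [hxy]) (fun ω p q => Real.cosh K ^ (box d n).card * (κ ω *
      Gf n (Real.tanh K) (bd DB p) * (if bd DB q = 0 then 1 else 0)))
  have h5 : ∑ y : ↥(edg d n) → Bool × Bool × Bool,
      (∏ e, ∑ a ∈ Finset.univ.filter (fun a : Fin 3 × Fin 3 =>
        (decide (a.1 ≠ 0 ∨ a.2 ≠ 0), decide (a.1 = 1), decide (a.2 = 1)) = y e), ms J a.1 * ms J a.2) * Ψ y =
      ∑ y : ↥(edg d n) → Bool × Bool × Bool, (∏ e, Fw J (y e).1 (y e).2.1 (y e).2.2) *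
        (fun ω p q => Real.cosh K ^ (box d n).card * (κ ω *
          Gf n (Real.tanh K) (bd DB p) * (if bd DB q = 0 then 1 else 0)))
          (toF fun e => (y e).1) (toF fun e => (y e).2.1) (toF fun e => (y e).2.2) := rfl
  rw [h5, h4, ← S3_mul_left]
  refine S3_congr fun ω p q hω hp hq => ?_
  have h6 : ∏ e ∈ edg d n, Fw J (decide (e ∈ ω)) (decide (e ∈ p)) (decide (e ∈ q)) =
      (Real.cosh J ^ 2) ^ (edg d n).card * W (fun _ => Real.tanh J) (edg d n) ω p q := by
    unfold W
    rw [← Finset.prod_const, ← Finset.prod_mul_distrib]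
    refine Finset.prod_congr rfl fun e _ => ?_
    rw [Fw_val]
    simp only [decide_eq_true_eq]
    congr 1
    by_cases he : e ∈ ω
    · rw [if_pos he, if_pos he]
    · rw [if_neg he, if_neg he, if_neg]
      rintro (h | h)
      · exact he (hp h)
      · exact he (hq h)
  rw [h6]
  ring

theorem zz_disjSum (β g : ℝ) :
    zz DD (tt β g) (II d n) 0 = ∑ p ∈ (edg d n).powerset, tw (fun _ => β) p * Gf n g (bd DB p) := by
  unfold Gf zz
  simp only [Finset.mul_sum]
  rw [← Finset.sum_product']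
  have two : ∀ a b : X d, a + b = 0 ↔ b = a := by
    intro a b
    have h2 : ∀ a b : ZMod 2, a + b = 0 ↔ b = a := by decide
    constructor
    · intro h
      ext v
      exact (h2 _ _).1 (by rw [← Finsupp.add_apply, h]; rfl)
    · rintro rfl
      ext v
      rw [Finsupp.add_apply]
      exact (h2 _ _).2 rfl
  refine Finset.sum_nbij' (fun u => (u.toLeft, u.toRight)) (fun u => u.1.disjSum u.2) ?_ ?_ ?_ ?_ ?_
  · intro u hu
    rw [Finset.mem_powerset] at hu
    rw [Finset.mem_product, Finset.mem_powerset, Finset.mem_powerset]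
    unfold II at hu
    constructor
    · intro e he
      rw [Finset.mem_toLeft] at he
      simpa using hu he
    · intro e he
      rw [Finset.mem_toRight] at he
      simpa using hu he
  · intro u hu
    rw [Finset.mem_product, Finset.mem_powerset, Finset.mem_powerset] at hu
    rw [Finset.mem_powerset]
    exact Finset.disjSum_mono hu.1 hu.2
  · intro u _
    exact Finset.toLeft_disjSum_toRight
  · intro u _
    simp
  · intro u _
    have e1 : bd DD u = bd DB u.toLeft + bd DG u.toRight := by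
      conv_lhs => rw [← Finset.toLeft_disjSum_toRight (u := u)]
      unfold bd
      rw [Finset.sum_disjSum]
      rfl
    have e2 : tw (tt β g) u = tw (fun _ => β) u.toLeft * tw (fun _ => g) u.toRight := by
      conv_lhs => rw [← Finset.toLeft_disjSum_toRight (u := u)]
      unfold tw
      rw [Finset.prod_disjSum]
      rfl
    rw [e1, e2]
    by_cases h : bd DG u.toRight = bd DB u.toLeft
    · rw [if_pos ((two _ _).2 h), if_pos h]
    · rw [if_neg (fun h' => h ((two _ _).1 h')), if_neg h, mul_zero]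

theorem cur : S_CUR := by
  intro d n β h hβ hh F η _
  rw [pn_eq β h hβ hh, Num_eq, Num_eq]
  have hc : (Real.cosh β ^ 2) ^ (edg d n).card * Real.cosh (β * h) ^ (box d n).card ≠ 0 :=
    mul_ne_zero (pow_ne_zero _ (pow_ne_zero _ (Real.cosh_pos _).ne')) (pow_ne_zero _ (Real.cosh_pos _).ne')
  rw [mul_div_mul_left _ _ hc]
  congr 1
  have h1 := S3_total (fun _ : Ed d => Real.tanh β) (edg d n)
    (fun p => Gf n (Real.tanh (β * h)) (bd DB p)) (fun q => if bd DB q = 0 then 1 else 0)
  rw [zz_disjSum]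
  have h2 : zz DB (fun _ => Real.tanh β) (edg d n) 0 =
      ∑ q ∈ (edg d n).powerset, tw (fun _ => Real.tanh β) q * (if bd DB q = 0 then 1 else 0) := by
    unfold zz
    refine Finset.sum_congr rfl fun q _ => ?_
    simp
  rw [h2, ← h1]
  refine S3_congr fun ω p q _ _ _ => ?_
  ring

end Pool.Agent.L7h96.RC.CurN
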