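import Pool.Agent.L7h96.RC.Stm

set_option autoImplicit false
set_option linter.unusedSectionVars false
set_option linter.unusedSimpArgs false

open Finset

namespace Pool.Agent.L7h96.RC

variable {d : ℕ}

/-- a cluster that avoids the endpoints of the edges of `F` is not affected by their removal -/
theorem reach_avoid {O F : Set (Ed d)} {s u : V d} (h : (gr O).Reachable s u)
    (hF : ∀ e ∈ F, e ∈ O → ¬ (gr O).Reachable s e.1 ∧ ¬ (gr O).Reachable s (tg e)) :
    (gr (O \ F)).Reachable s u := by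
  rw [SimpleGraph.reachable_iff_reflTransGen] at h
  induction h with
  | refl => exact SimpleGraph.Reachable.refl _
  | @tail a b hab hadj ih =>
    have hr : (gr O).Reachable s a := (SimpleGraph.reachable_iff_reflTransGen _ _).2 hab
    obtain ⟨e, he, hh⟩ := hadj
    have hne : e ∉ F := by
      intro hef
      rcases hh with ⟨rfl, _⟩ | ⟨rfl, _⟩
      · exact (hF e hef he).1 hr
      · exact (hF e hef he).2 hr
    exact ih.trans (SimpleGraph.Adj.reachable ⟨e, ⟨he, hne⟩, hh⟩)

/-- the two endpoints of an edge in some order -/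
def Ends (f : Ed d) (s t : V d) : Prop := (s = f.1 ∧ t = tg f) ∨ (s = tg f ∧ t = f.1)

theorem Ends.symm {f : Ed d} {s t : V d} (h : Ends f s t) : Ends f t s := by
  unfold Ends at *; tauto

theorem ends_of {f : Ed d} {s : V d} (h : s = f.1 ∨ s = tg f) : ∃ t, Ends f s t := by
  rcases h with h | h
  · exact ⟨tg f, Or.inl ⟨h, rfl⟩⟩
  · exact ⟨f.1, Or.inr ⟨h, rfl⟩⟩

theorem Br.ends {O : Set (Ed d)} {f : Ed d} (h : Br O f) {s t : V d} (he : Ends f s t) :
    ¬ (gr (O \ {f})).Reachable s t ∧ Inf (O \ {f}) s ∧ Inf (O \ {f}) t := by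
  obtain ⟨_, h1, h2, h3⟩ := h
  rcases he with ⟨rfl, rfl⟩ | ⟨rfl, rfl⟩
  · exact ⟨h1, h2, h3⟩
  · exact ⟨fun hh => h1 hh.symm, h3, h2⟩

/-- another open edge: both endpoints are on the same side -/
theorem ends_reach {O : Set (Ed d)} {f f' : Ed d} (hf' : f' ∈ O) (hne : f' ≠ f) {s t : V d}
    (he : Ends f' s t) : (gr (O \ {f})).Reachable s t := by
  have h : (gr (O \ {f})).Reachable f'.1 (tg f') :=
    (gr_adj (O := O \ {f}) (e := f') ⟨hf', hne⟩).reachable
  rcases he with ⟨rfl, rfl⟩ | ⟨rfl, rfl⟩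
  · exact h
  · exact h.symm

theorem side {O : Set (Ed d)} {f : Ed d} {s t : V d} (he : Ends f s t) {x : V d}
    (h : (gr O).Reachable s x) : (gr (O \ {f})).Reachable s x ∨ (gr (O \ {f})).Reachable t x := by
  refine reach_ind (P := fun x => (gr (O \ {f})).Reachable s x ∨ (gr (O \ {f})).Reachable t x)
    (Or.inl (SimpleGraph.Reachable.refl _)) ?_ h
  intro e heO _
  by_cases hef : e = f
  · subst hef
    rcases he with ⟨rfl, rfl⟩ | ⟨rfl, rfl⟩
    · exact ⟨fun _ => Or.inr (SimpleGraph.Reachable.refl _),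
        fun _ => Or.inl (SimpleGraph.Reachable.refl _)⟩
    · exact ⟨fun _ => Or.inl (SimpleGraph.Reachable.refl _),
        fun _ => Or.inr (SimpleGraph.Reachable.refl _)⟩
  · have hadj : (gr (O \ {f})).Reachable e.1 (tg e) :=
      (gr_adj (O := O \ {f}) (e := e) ⟨heO, hef⟩).reachable
    exact ⟨fun h => h.imp (fun h => h.trans hadj) (fun h => h.trans hadj),
      fun h => h.imp (fun h => h.trans hadj.symm) (fun h => h.trans hadj.symm)⟩

theorem ext3 : S_EXT := by
  intro d O hT f s hB hs hns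
  classical
  set F : Finset (Ed d) := Finset.univ.image f with hF
  have hmem : ∀ i, f i ∈ F := fun i => mem_image_of_mem f (mem_univ i)
  have key : ∀ i, ∀ u, (gr (O \ {f i})).Reachable (s i) u → (gr (O \ ↑F)).Reachable (s i) u := by
    intro i u hu
    have h := reach_avoid (F := {e | ∃ j, j ≠ i ∧ e = f j}) hu (by
      rintro e ⟨j, hj, rfl⟩ _
      exact hns i j hj.symm)
    refine reach_mono ?_ h
    rintro e ⟨⟨he, hei⟩, hej⟩
    refine ⟨he, fun heF => ?_⟩
    rw [mem_coe, hF, mem_image] at heF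
    obtain ⟨j, _, rfl⟩ := heF
    by_cases hji : j = i
    · subst hji; exact hei rfl
    · exact hej ⟨j, hji, rfl⟩
  obtain ⟨i, j, hij, hr⟩ := hT F s (by
    intro i
    obtain ⟨t, ht⟩ := ends_of (hs i)
    exact Set.Infinite.mono (fun u hu => key i u hu) ((hB i).ends ht).2.1)
  have hr' : (gr (O \ {f i})).Reachable (s i) (s j) := by
    refine reach_mono ?_ hr
    rintro e ⟨he, heF⟩
    refine ⟨he, ?_⟩
    rintro rfl
    exact heF (hmem i)
  rcases hs j with h | h
  · rw [h] at hr'; exact (hns i j hij).1 hr'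
  · rw [h] at hr'; exact (hns i j hij).2 hr'

theorem inf_of_br {O : Set (Ed d)} {f : Ed d} (h : Br O f) : Inf O f.1 :=
  inf_mono Set.sdiff_subset h.2.2.1

theorem sep3 : S_SEP := by
  intro d O hT hU f hinj hB
  by_contra hno
  push Not at hno
  have key : ∀ j, ∃ s, (s = (f j).1 ∨ s = tg (f j)) ∧ ∀ i, j ≠ i →
      ¬ (gr (O \ {f j})).Reachable s (f i).1 ∧ ¬ (gr (O \ {f j})).Reachable s (tg (f i)) := by
    intro j
    have hcon : ∀ i, j ≠ i → ∀ s, ¬ (gr (O \ {f j})).Reachable s (f i).1 →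
        ¬ (gr (O \ {f j})).Reachable s (f i).1 ∧ ¬ (gr (O \ {f j})).Reachable s (tg (f i)) := by
      intro i hij s hs
      refine ⟨hs, fun h => hs (h.trans ?_)⟩
      exact ends_reach (hB i).1 (fun h => hij (hinj h).symm) (Or.inr ⟨rfl, rfl⟩)
    by_cases h : ∃ i, i ≠ j ∧ (gr (O \ {f j})).Reachable (f j).1 (f i).1
    · obtain ⟨i, hij, hr⟩ := h
      refine ⟨tg (f j), Or.inr rfl, fun k hk => hcon k hk _ ?_⟩
      intro hrk
      by_cases hki : k = i
      · subst hki
        exact (hB j).2.1 (hr.trans hrk.symm)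
      · exact hno i j k hij hk (fun h => hki h.symm) hr hrk
    · push Not at h
      exact ⟨(f j).1, Or.inl rfl, fun k hk => hcon k hk _ (h k hk.symm)⟩
  choose s hs1 hs2 using key
  exact ext3 d O hT f s hB hs1 hs2

theorem nox : S_NOX := by
  intro d O C hT hU hC ⟨f0, hf0⟩ hE w hw
  classical
  have hwO : Inf O w := inf_mono Set.sdiff_subset hw
  have hconn : (gr O).Reachable w f0.1 := hU w f0.1 hwO (inf_of_br (hC f0 hf0))
  -- the closest bridge
  obtain ⟨f, hf, s, t, hst, hws⟩ : ∃ f ∈ C, ∃ s t, Ends f s t ∧ (gr (O \ C)).Reachable w s := by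
    by_contra hno
    push Not at hno
    have key : ∀ x, (gr O).Reachable w x → (gr (O \ C)).Reachable w x := by
      intro x hx
      rw [SimpleGraph.reachable_iff_reflTransGen] at hx
      induction hx with
      | refl => exact SimpleGraph.Reachable.refl _
      | @tail a b _ hadj ih =>
        obtain ⟨e, he, hh⟩ := hadj
        have hne : e ∉ C := by
          intro hef
          exact hno e hef a b hh ih
        exact ih.trans (SimpleGraph.Adj.reachable ⟨e, ⟨he, hne⟩, hh⟩)
    exact hno f0 hf0 f0.1 (tg f0) (Or.inl ⟨rfl, rfl⟩) (key _ hconn)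
  have hBf := (hC f hf).ends hst
  -- another bridge on the side of `s`
  obtain ⟨f', hf', hne, hsf'⟩ : ∃ f' ∈ C, f' ≠ f ∧ (gr (O \ {f})).Reachable s f'.1 := by
    by_contra hno
    push Not at hno
    refine hE f ⟨hf, s, ?_, fun f' hf' hne => ⟨hno f' hf' hne, fun h => ?_⟩⟩
    · rcases hst with h | h
      · exact Or.inl h.1
      · exact Or.inr h.1
    · exact hno f' hf' hne (h.trans (ends_reach (hC f' hf').1 hne (Or.inr ⟨rfl, rfl⟩)))
  have hsf'2 : (gr (O \ {f})).Reachable s (tg f') :=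
    hsf'.trans (ends_reach (hC f' hf').1 hne (Or.inl ⟨rfl, rfl⟩))
  -- the side of `f'` not containing `f`
  have hss' : (gr O).Reachable f'.1 s := (reach_mono Set.sdiff_subset hsf').symm
  obtain ⟨s', t', hst', hs's⟩ : ∃ s' t', Ends f' s' t' ∧ (gr (O \ {f'})).Reachable s' s := by
    rcases side (f := f') (s := f'.1) (t := tg f') (Or.inl ⟨rfl, rfl⟩) hss' with h | h
    · exact ⟨f'.1, tg f', Or.inl ⟨rfl, rfl⟩, h⟩
    · exact ⟨tg f', f'.1, Or.inr ⟨rfl, rfl⟩, h⟩
  have hBf' := (hC f' hf').ends hst'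
  have hst2 : (gr (O \ {f'})).Reachable s t := ends_reach (hC f hf).1 hne.symm hst
  have ht's : ¬ (gr (O \ {f'})).Reachable t' s := fun h => hBf'.1 (hs's.trans h.symm)
  have ht't : ¬ (gr (O \ {f'})).Reachable t' t := fun h => ht's (h.trans hst2.symm)
  have hts' : ¬ (gr (O \ {f})).Reachable t f'.1 := fun h => hBf.1 (hsf'.trans h.symm)
  have hts'2 : ¬ (gr (O \ {f})).Reachable t (tg f') := fun h => hBf.1 (hsf'2.trans h.symm)
  set F : Finset (Ed d) := {f, f'} with hF
  have hFC : (↑F : Set (Ed d)) ⊆ C := by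
    intro e he
    rw [mem_coe, hF, mem_insert, mem_singleton] at he
    rcases he with rfl | rfl
    · exact hf
    · exact hf'
  have hFf : O \ ↑F ⊆ O \ {f} := by
    rintro e ⟨he, heF⟩
    refine ⟨he, ?_⟩
    rintro rfl
    exact heF (by rw [mem_coe, hF]; simp)
  have hFf' : O \ ↑F ⊆ O \ {f'} := by
    rintro e ⟨he, heF⟩
    refine ⟨he, ?_⟩
    rintro rfl
    exact heF (by rw [mem_coe, hF]; simp)
  have hFeq : (O \ {f}) \ {f'} ⊆ O \ ↑F := by
    rintro e ⟨⟨he, h1⟩, h2⟩
    refine ⟨he, fun h => ?_⟩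
    rw [mem_coe, hF, mem_insert, mem_singleton] at h
    rcases h with h | h
    · exact h1 h
    · exact h2 h
  have hFeq' : (O \ {f'}) \ {f} ⊆ O \ ↑F := by
    rintro e ⟨⟨he, h1⟩, h2⟩
    refine ⟨he, fun h => ?_⟩
    rw [mem_coe, hF, mem_insert, mem_singleton] at h
    rcases h with h | h
    · exact h2 h
    · exact h1 h
  have i1 : Inf (O \ ↑F) t := by
    refine Set.Infinite.mono (fun u hu => reach_mono hFeq (reach_avoid hu ?_)) hBf.2.2
    rintro e rfl _
    exact ⟨hts', hts'2⟩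
  have i2 : Inf (O \ ↑F) t' := by
    refine Set.Infinite.mono (fun u hu => reach_mono hFeq' (reach_avoid hu ?_)) hBf'.2.2
    rintro e rfl _
    rcases hst with ⟨h1, h2⟩ | ⟨h1, h2⟩
    · rw [← h1, ← h2]; exact ⟨ht's, ht't⟩
    · rw [← h1, ← h2]; exact ⟨ht't, ht's⟩
  have i3 : Inf (O \ ↑F) w := inf_mono (Set.sdiff_subset_sdiff_right hFC) hw
  have n12 : ¬ (gr (O \ ↑F)).Reachable t t' := fun h => ht't (reach_mono hFf' h).symm
  have hwsf : (gr (O \ {f})).Reachable w s :=
    reach_mono (Set.sdiff_subset_sdiff_right (by simpa using hf)) hws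
  have hwsf' : (gr (O \ {f'})).Reachable w s :=
    reach_mono (Set.sdiff_subset_sdiff_right (by simpa using hf')) hws
  have n13 : ¬ (gr (O \ ↑F)).Reachable t w := fun h =>
    hBf.1 ((reach_mono hFf h).trans hwsf).symm
  have n23 : ¬ (gr (O \ ↑F)).Reachable t' w := fun h =>
    ht's ((reach_mono hFf' h).trans hwsf')
  obtain ⟨i, j, hij, hr⟩ := hT F ![t, t', w] (by
    intro i
    fin_cases i
    · exact i1
    · exact i2
    · exact i3)
  fin_cases i <;> fin_cases j
  · exact hij rfl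
  · exact n12 hr
  · exact n13 hr
  · exact n12 hr.symm
  · exact hij rfl
  · exact n23 hr
  · exact n13 hr.symm
  · exact n23 hr.symm
  · exact hij rfl

end Pool.Agent.L7h96.RC
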