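import Pool.Agent.L7h96.RC.Inv
import Pool.Agent.L7h96.RC.Det
import Pool.Agent.L7h96.RC.BK
import Pool.Agent.L7h70.RC.Ti

set_option autoImplicit false
set_option linter.unusedSectionVars false
set_option linter.unusedSimpArgs false

open Finset MeasureTheory Filter Topology

namespace Pool.Agent.L7h96.RC

variable {d : ℕ}

/-- quasi-invariance of `P` -/
def QI (P : Measure (Om d)) : Prop :=
  ∀ K₁ K₂ U C : Finset (Ed d), bd DB K₁ = 0 → bd DB K₂ = 0 →
      ∃ c : ℝ, ∀ A : Set (Om d), MeasurableSet A → P.real (gm K₁ K₂ U C ⁻¹' A) ≤ c * P.real A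

theorem opn_eq (n : ℕ) : (opn n : Om d → Om d) = gm ∅ ∅ (edg d n) ∅ := by
  funext σ e
  unfold opn gm
  by_cases h : e ∈ edg d n
  · rw [if_pos h, if_pos (by simp [h])]
    simp [h]
  · rw [if_neg h, if_neg (by simp [h])]

theorem Op_opn (n : ℕ) (σ : Om d) : Op (opn n σ) = Op σ ∪ ↑(edg d n) := by
  ext e
  unfold Op opn
  by_cases h : e ∈ edg d n
  · simp [h]
  · simp [h]

theorem real_zero_iff {P : Measure (Om d)} [IsFiniteMeasure P] {A : Set (Om d)} :
    P.real A = 0 ↔ ∀ᵐ σ ∂P, σ ∉ A := by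
  rw [ae_iff]
  simp only [not_not]
  exact measureReal_eq_zero_iff

theorem qi_null {P : Measure (Om d)} [IsFiniteMeasure P] (hQ : QI P) {K₁ K₂ U C : Finset (Ed d)}
    (h1 : bd DB K₁ = 0) (h2 : bd DB K₂ = 0) {A : Set (Om d)} (hA : MeasurableSet A)
    (h : P.real A = 0) : P.real (gm K₁ K₂ U C ⁻¹' A) = 0 := by
  obtain ⟨c, hc⟩ := hQ K₁ K₂ U C h1 h2
  refine le_antisymm ?_ measureReal_nonneg
  have := hc A hA
  rwa [h, mul_zero] at this

/-- merging two infinite clusters by a box -/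
theorem merge {O : Set (Ed d)} (hT : T3 O) {u v : V d} {n : ℕ} (hu : u ∈ box d n)
    (hv : v ∈ box d n) (iu : Inf O u) (iv : Inf O v) (hn : ¬ (gr O).Reachable u v) :
    Uq (O ∪ ↑(edg d n)) := by
  intro x y hx hy
  by_contra hxy
  set O' := O ∪ ↑(edg d n) with hO'
  have hbox : ∀ a ∈ box d n, ∀ c ∈ box d n, (gr O').Reachable a c := fun a ha c hc =>
    reach_mono Set.subset_union_right (Pool.Agent.L7h90.RC.box_reach ha hc)
  -- a cluster of `O'` that avoids the box
  have key : ∀ z, Inf O' z → (¬ (gr O').Reachable z u) → False := by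
    intro z hz hzu
    have hav : ∀ w ∈ box d n, ¬ (gr O').Reachable z w := fun w hw h =>
      hzu (h.trans (hbox w hw u hu))
    have hsame : ∀ w, (gr O').Reachable z w → (gr O).Reachable z w := by
      intro w hw
      have h := reach_avoid (F := ↑(edg d n)) hw (by
        intro e he _
        rw [mem_coe, mem_edg] at he
        exact ⟨hav _ he.1, hav _ he.2⟩)
      refine reach_mono ?_ h
      rintro e ⟨he1, he2⟩
      rcases he1 with he1 | he1
      · exact he1
      · exact absurd he1 he2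
    have iz : Inf O z := Set.Infinite.mono (fun w hw => hsame w hw) hz
    obtain ⟨i, j, hij, hr⟩ := hT ∅ ![u, v, z] (by
      intro i
      rw [coe_empty, Set.sdiff_empty]
      fin_cases i
      · exact iu
      · exact iv
      · exact iz)
    rw [coe_empty, Set.sdiff_empty] at hr
    have nuz : ¬ (gr O).Reachable u z := fun h =>
      hav u hu (reach_mono Set.subset_union_left h).symm
    have nvz : ¬ (gr O).Reachable v z := fun h =>
      hav v hv (reach_mono Set.subset_union_left h).symm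
    fin_cases i <;> fin_cases j
    · exact hij rfl
    · exact hn hr
    · exact nuz hr
    · exact hn hr.symm
    · exact hij rfl
    · exact nvz hr
    · exact nuz hr.symm
    · exact nvz hr.symm
    · exact hij rfl
  by_cases h1 : (gr O').Reachable x u
  · by_cases h2 : (gr O').Reachable y u
    · exact hxy (h1.trans h2.symm)
    · exact key y hy h2
  · exact key x hx h1

theorem uq_ae {P : Measure (Om d)} [IsProbabilityMeasure P] (hT : TI P) (hQ : QI P)
    (hT3 : ∀ᵐ σ ∂P, T3 (Op σ)) (j : Fin d) : ∀ᵐ σ ∂P, Uq (Op σ) := by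
  have hD : MeasurableSet {σ : Om d | ¬ Uq (Op σ)} := (meas_uq meas_Op).compl
  have hinv : ∀ v : V d, th v ⁻¹' {σ : Om d | ¬ Uq (Op σ)} = {σ : Om d | ¬ Uq (Op σ)} := by
    intro v
    ext σ
    show ¬ Uq (Op (th v σ)) ↔ ¬ Uq (Op σ)
    rw [uq_th_iff (v := v) (O := Op (th v σ)) (O' := Op σ) (fun e => Iff.rfl)]
  have key : ∀ u v : V d, ∀ᵐ σ ∂P, Inf (Op σ) u → Inf (Op σ) v → (gr (Op σ)).Reachable u v := by
    intro u v
    obtain ⟨n, hn⟩ := exists_box_finset {u, v}
    have hu : u ∈ box d n := hn (by simp)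
    have hv : v ∈ box d n := hn (by simp)
    obtain ⟨c, hc⟩ := hQ ∅ ∅ (edg d n) ∅ (bd_empty _) (bd_empty _)
    rw [← opn_eq] at hc
    have hc0 : ∀ A, MeasurableSet A → P.real (opn n ⁻¹' A) ≤ |c| * P.real A := fun A hA =>
      (hc A hA).trans (mul_le_mul_of_nonneg_right (le_abs_self c) measureReal_nonneg)
    have h0 := inv_local hT j (g := opn n) (K := edg d n) (fun σ e he => by
      unfold opn; rw [if_neg he]) (abs_nonneg c) hc0 hD hinv
    rw [real_zero_iff] at h0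
    filter_upwards [h0, hT3] with σ h1 h2 iu iv
    by_contra hn
    apply h1
    refine Or.inl ⟨?_, ?_⟩
    · intro hU
      exact hn (hU u v iu iv)
    · intro hU
      apply hU
      rw [Op_opn]
      exact merge h2 hu hv iu iv hn
  have h2 : ∀ᵐ σ ∂P, ∀ u v : V d, Inf (Op σ) u → Inf (Op σ) v → (gr (Op σ)).Reachable u v :=
    ae_all_iff.2 fun u => ae_all_iff.2 fun v => key u v
  exact h2

/-! ### cut events -/

/-- local version of `Br` -/
def BrK (e : Ed d) (k : ℕ) (O : Set (Ed d)) : Prop :=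
  e ∈ O ∧ ¬ (gr ((O \ {e}) ∩ ↑(edg d k))).Reachable e.1 (tg e) ∧ Rch (O \ {e}) e.1 k ∧
    Rch (O \ {e}) (tg e) k

theorem brK_dep (e : Ed d) (k : ℕ) :
    DepO (insert e (edg d k ∪ (wedg e.1 k ∪ wedg (tg e) k))) (BrK e k) := by
  intro O O' h
  have h0 : e ∈ O ↔ e ∈ O' := h e (mem_insert_self _ _)
  have hS : ∀ S : Finset (Ed d), S ⊆ insert e (edg d k ∪ (wedg e.1 k ∪ wedg (tg e) k)) →
      (O \ {e}) ∩ (↑S : Set (Ed d)) = (O' \ {e}) ∩ ↑S := by
    intro S hS
    ext x
    simp only [Set.mem_inter_iff, Set.mem_sdiff, mem_coe]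
    constructor
    · rintro ⟨⟨a, b⟩, c⟩; exact ⟨⟨(h x (hS c)).1 a, b⟩, c⟩
    · rintro ⟨⟨a, b⟩, c⟩; exact ⟨⟨(h x (hS c)).2 a, b⟩, c⟩
  have h1 := hS (edg d k) (subset_union_left.trans (subset_insert _ _))
  have h2 := hS (wedg e.1 k) ((subset_union_left.trans subset_union_right).trans
    (subset_insert _ _))
  have h3 := hS (wedg (tg e) k) ((subset_union_right.trans subset_union_right).trans
    (subset_insert _ _))
  unfold BrK Rch
  rw [h0, h1, h2, h3]

theorem rch_anti {O : Set (Ed d)} {z : V d} {k m : ℕ} (hkm : k ≤ m) (h : Rch O z m) :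
    Rch O z k := by
  obtain ⟨w, ⟨j, hj⟩, hr⟩ := h
  refine rch_of_reach (w := w) ⟨j, ?_⟩ (reach_mono Set.inter_subset_left hr)
  have : (k : ℤ) ≤ m := by exact_mod_cast hkm
  linarith

theorem brK_anti (e : Ed d) {k m : ℕ} (hkm : k ≤ m) {O : Set (Ed d)} (h : BrK e m O) :
    BrK e k O :=
  ⟨h.1, fun hr => h.2.1 (reach_box_mono hkm hr), rch_anti hkm h.2.2.1, rch_anti hkm h.2.2.2⟩

theorem br_iff (e : Ed d) (O : Set (Ed d)) : Br O e ↔ ∀ k, BrK e k O := by
  constructor
  · rintro ⟨h1, h2, h3, h4⟩ k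
    exact ⟨h1, fun hr => h2 (reach_mono Set.inter_subset_left hr), rch_of_inf h3 k,
      rch_of_inf h4 k⟩
  · intro h
    refine ⟨(h 0).1, fun hr => ?_, inf_of_rch fun R => (h R).2.2.1, inf_of_rch fun R =>
      (h R).2.2.2⟩
    obtain ⟨n, hn⟩ := reach_fin hr
    exact (h n).2.1 hn

theorem tendsto_anti {P : Measure (Om d)} [IsFiniteMeasure P] {S : ℕ → Set (Om d)}
    (hS : ∀ n, MeasurableSet (S n)) (hm : Antitone S) :
    Tendsto (fun n => P.real (S n)) atTop (𝓝 (P.real (⋂ n, S n))) := by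
  have := tendsto_measure_iInter_atTop (μ := P) (fun n => (hS n).nullMeasurableSet) hm
    ⟨0, measure_ne_top _ _⟩
  exact (ENNReal.tendsto_toReal (measure_ne_top _ _)).comp this

theorem tendsto_brK {P : Measure (Om d)} [IsFiniteMeasure P] (e : Ed d)
    (s : Bool × Bool × Bool) :
    Tendsto (fun k => P.real {σ | σ e = s ∧ BrK e k (Op σ)}) atTop
      (𝓝 (P.real {σ | σ e = s ∧ Br (Op σ) e})) := by
  have h := tendsto_anti (P := P) (S := fun k => {σ | σ e = s ∧ BrK e k (Op σ)})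
    (fun k => (dep_Op (brK_dep e k) e s).meas) (fun k m hkm σ hσ => ⟨hσ.1, brK_anti e hkm hσ.2⟩)
  have h2 : (⋂ k, {σ : Om d | σ e = s ∧ BrK e k (Op σ)}) = {σ | σ e = s ∧ Br (Op σ) e} := by
    ext σ
    simp only [Set.mem_iInter, Set.mem_ofPred_eq, br_iff]
    exact ⟨fun h => ⟨(h 0).1, fun k => (h k).2⟩, fun h k => ⟨h.1, h.2 k⟩⟩
  rw [h2] at h
  exact h

theorem meas_cut (e : Ed d) (s : Bool × Bool × Bool) :
    MeasurableSet {σ : Om d | σ e = s ∧ Br (Op σ) e} :=
  (meas_state e s).inter (meas_br meas_Op e)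

theorem cut00 {P : Measure (Om d)} [IsProbabilityMeasure P] (hQ : QI P)
    (hU : ∀ᵐ σ ∂P, Uq (Op σ)) (e : Ed d) :
    P.real {σ | σ e = (true, false, false) ∧ Br (Op σ) e} = 0 := by
  have hD : MeasurableSet {σ : Om d | ¬ Uq (Op σ)} := (meas_uq meas_Op).compl
  have h0 : P.real {σ : Om d | ¬ Uq (Op σ)} = 0 := by
    rw [real_zero_iff]
    filter_upwards [hU] with σ h h'
    exact h' h
  have h1 := qi_null hQ (K₁ := ∅) (K₂ := ∅) (U := ∅) (C := {e}) (bd_empty _) (bd_empty _) hD h0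
  refine le_antisymm ((measureReal_mono ?_).trans h1.le) measureReal_nonneg
  rintro σ ⟨hs, hB⟩
  show ¬ Uq (Op (gm ∅ ∅ ∅ {e} σ))
  have hO : Op (gm ∅ ∅ ∅ {e} σ) = Op σ \ {e} := by
    ext x
    unfold Op gm
    by_cases hx : x = e
    · subst hx
      simp [hs]
    · simp [hx]
  rw [hO]
  intro hU'
  exact hB.2.1 (hU' _ _ hB.2.2.1 hB.2.2.2)

theorem cut11 {b : ℝ} {P : Measure (Om d)} (h : IsLim b P) (hb0 : 0 < b) (hb1 : b < 1)
    (hQ : QI P) (hU : ∀ᵐ σ ∂P, Uq (Op σ)) (e : Ed d) :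
    P.real {σ | σ e = (true, true, true) ∧ Br (Op σ) e} = 0 := by
  have := h.prob
  refine le_antisymm ?_ measureReal_nonneg
  rw [← cut00 hQ hU e]
  exact le_of_tendsto_of_tendsto' (tendsto_brK e _) (tendsto_brK e _) fun k =>
    h.flux11 hb0 hb1 (brK_dep e k) e

theorem cut01_le {b : ℝ} {P : Measure (Om d)} (h : IsLim b P) (hb0 : 0 < b) (hb1 : b < 1)
    (e : Ed d) :
    P.real {σ | σ e = (true, false, true) ∧ Br (Op σ) e} ≤
      P.real {σ | σ e = (true, true, false) ∧ Br (Op σ) e} := by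
  have := h.prob
  exact le_of_tendsto_of_tendsto' (tendsto_brK e _) (tendsto_brK e _) fun k =>
    h.flux01 hb0 hb1 (brK_dep e k) e

/-- counting bound -/
theorem count_bound {P : Measure (Om d)} [IsProbabilityMeasure P] {m : ℕ}
    {A : ℕ → Set (Om d)} (hA : ∀ i, MeasurableSet (A i)) {f : Om d → ℝ} (hf : Integrable f P)
    (h : ∀ᵐ σ ∂P, ∑ i ∈ range m, (A i).indicator (fun _ => (1:ℝ)) σ ≤ f σ) :
    ∑ i ∈ range m, P.real (A i) ≤ ∫ σ, f σ ∂P := by
  have h1 : ∑ i ∈ range m, P.real (A i) =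
      ∫ σ, ∑ i ∈ range m, (A i).indicator (fun _ => (1:ℝ)) σ ∂P := by
    rw [integral_finsetSum]
    · refine sum_congr rfl fun i _ => ?_
      rw [integral_indicator_const _ (hA i), smul_eq_mul, mul_one]
    · intro i _
      exact (integrable_const (1:ℝ)).indicator (hA i)
  rw [h1]
  refine integral_mono_ae ?_ hf h
  exact integrable_finsetSum _ fun i _ => (integrable_const (1:ℝ)).indicator (hA i)

end Pool.Agent.L7h96.RC
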