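import Pool.Agent.L7h96.RC.Cut

set_option autoImplicit false
set_option linter.unusedSectionVars false
set_option linter.unusedSimpArgs false

open Finset MeasureTheory Filter Topology

namespace Pool.Agent.L7h96.RC

variable {d : ℕ}

theorem ext_th_iff {O O' C C' : Set (Ed d)} {v : V d} (h : ∀ e, e ∈ O ↔ shE v e ∈ O')
    (hC : ∀ e, e ∈ C ↔ shE v e ∈ C') (f : Ed d) : Ext O C f ↔ Ext O' C' (shE v f) := by
  have hinj : ∀ e f : Ed d, shE v e = shE v f ↔ e = f := fun e f => (shEq v).injective.eq_iff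
  unfold Ext
  rw [hC f, tg_shE, shE_fst]
  refine and_congr Iff.rfl ?_
  constructor
  · rintro ⟨s, hs, hs2⟩
    refine ⟨s + v, by rcases hs with rfl | rfl <;> simp, fun f' hf' hne => ?_⟩
    obtain ⟨g, rfl⟩ : ∃ g, shE v g = f' := ⟨shE (-v) f', by rw [shE_shE]; simp⟩
    have hne' : g ≠ f := fun h => hne (by rw [h])
    have := hs2 g ((hC g).2 hf') hne'
    rw [reach_th_iff (diff_th h f), reach_th_iff (diff_th h f)] at this
    rw [tg_shE, shE_fst]
    exact this
  · rintro ⟨s, hs, hs2⟩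
    refine ⟨s - v, ?_, fun f' hf' hne => ?_⟩
    · rcases hs with rfl | rfl <;> simp
    · have := hs2 (shE v f') ((hC f').1 hf') (by rw [Ne, hinj]; exact hne)
      rw [reach_th_iff (diff_th h f), reach_th_iff (diff_th h f), sub_add_cancel]
      rw [tg_shE, shE_fst] at this
      exact this

theorem meas_ext {Ω : Type*} [MeasurableSpace Ω] {O C : Ω → Set (Ed d)}
    (hO : ∀ e, MeasurableSet {x | e ∈ O x}) (hC : ∀ e, MeasurableSet {x | e ∈ C x}) (f : Ed d) :
    MeasurableSet {x | Ext (O x) (C x) f} := by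
  have h1 : ∀ s, MeasurableSet {x | ∀ f', f' ∈ C x → f' ≠ f →
      ¬ (gr (O x \ {f})).Reachable s f'.1 ∧ ¬ (gr (O x \ {f})).Reachable s (tg f')} := by
    intro s
    have : {x | ∀ f', f' ∈ C x → f' ≠ f →
      ¬ (gr (O x \ {f})).Reachable s f'.1 ∧ ¬ (gr (O x \ {f})).Reachable s (tg f')} =
      ⋂ f' : Ed d, ({x | f' ∈ C x}ᶜ ∪ ({x | f' ≠ f}ᶜ ∪
        ({x | (gr (O x \ {f})).Reachable s f'.1}ᶜ ∩
          {x | (gr (O x \ {f})).Reachable s (tg f')}ᶜ))) := by
      ext x
      simp only [Set.mem_ofPred_eq, Set.mem_iInter, Set.mem_union, Set.mem_compl_iff,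
        Set.mem_inter_iff]
      exact forall_congr' fun f' => by tauto
    rw [this]
    exact MeasurableSet.iInter fun f' => (hC f').compl.union ((MeasurableSet.const _).compl.union
      ((meas_reach (meas_diff hO {f}) _ _).compl.inter
        (meas_reach (meas_diff hO {f}) _ _).compl))
  have h2 : {x | Ext (O x) (C x) f} = {x | f ∈ C x} ∩ ({x | ∀ f', f' ∈ C x → f' ≠ f →
      ¬ (gr (O x \ {f})).Reachable f.1 f'.1 ∧ ¬ (gr (O x \ {f})).Reachable f.1 (tg f')} ∪
      {x | ∀ f', f' ∈ C x → f' ≠ f → ¬ (gr (O x \ {f})).Reachable (tg f) f'.1 ∧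
        ¬ (gr (O x \ {f})).Reachable (tg f) (tg f')}) := by
    ext x
    simp only [Set.mem_ofPred_eq, Set.mem_inter_iff, Set.mem_union, Ext]
    refine and_congr Iff.rfl ?_
    constructor
    · rintro ⟨s, rfl | rfl, h⟩
      · exact Or.inl h
      · exact Or.inr h
    · rintro (h | h)
      · exact ⟨_, Or.inl rfl, h⟩
      · exact ⟨_, Or.inr rfl, h⟩
  rw [h2]
  exact (hC f).inter ((h1 _).union (h1 _))

/-- translates of `e₀` in state `(0,1)` that are bridges with two infinite sides -/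
def CC (e₀ : Ed d) (σ : Om d) : Set (Ed d) :=
  {e | (∃ v, e = shE v e₀) ∧ σ e = (true, false, true) ∧ Br (Op σ) e}

theorem CC_th (e₀ : Ed d) (v : V d) (σ : Om d) (e : Ed d) :
    e ∈ CC e₀ (th v σ) ↔ shE v e ∈ CC e₀ σ := by
  unfold CC
  simp only [Set.mem_ofPred_eq]
  refine and_congr ?_ (and_congr Iff.rfl
    (br_th_iff (O := Op (th v σ)) (O' := Op σ) (v := v) (fun e => Iff.rfl) e))
  constructor
  · rintro ⟨w, rfl⟩; exact ⟨w + v, shE_shE _ _ _⟩
  · rintro ⟨w, hw⟩
    refine ⟨w + -v, ?_⟩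
    have := congrArg (shE (-v)) hw
    rw [shE_shE, shE_shE, add_neg_cancel, shE_zero] at this
    exact this

theorem meas_CC (e₀ e : Ed d) : MeasurableSet {σ : Om d | e ∈ CC e₀ σ} := by
  have : {σ : Om d | e ∈ CC e₀ σ} = {σ | ∃ v, e = shE v e₀} ∩
      {σ | σ e = (true, false, true) ∧ Br (Op σ) e} := by
    ext σ; rfl
  rw [this]
  exact (MeasurableSet.const _).inter (meas_cut e _)

theorem sum_ind_le_two {m : ℕ} {A : ℕ → Set (Om d)} {σ : Om d}
    (h : ∀ i j k, i < m → j < m → k < m → i ≠ j → j ≠ k → i ≠ k →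
      ¬ (σ ∈ A i ∧ σ ∈ A j ∧ σ ∈ A k)) :
    ∑ i ∈ range m, (A i).indicator (fun _ => (1:ℝ)) σ ≤ 2 := by
  classical
  have h1 : ∑ i ∈ range m, (A i).indicator (fun _ => (1:ℝ)) σ =
      ((range m).filter (fun i => σ ∈ A i)).card := by
    rw [card_filter]
    push_cast
    refine sum_congr rfl fun i _ => ?_
    rw [Set.indicator_apply]
  rw [h1]
  have h2 : ((range m).filter (fun i => σ ∈ A i)).card ≤ 2 := by
    by_contra hc
    push Not at hc
    obtain ⟨i, j, k, hi, hj, hk, hij, hik, hjk⟩ := two_lt_card_iff.1 hc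
    rw [mem_filter, mem_range] at hi hj hk
    exact h i j k hi.1 hj.1 hk.1 hij hjk hik ⟨hi.2, hj.2, hk.2⟩
  exact_mod_cast h2

theorem shE_inj_left {e : Ed d} {u v : V d} (h : shE u e = shE v e) : u = v := by
  have := congrArg Prod.fst h
  simpa [shE] using this

theorem ext_null {P : Measure (Om d)} [IsProbabilityMeasure P] (hT : TI P)
    (hT3 : ∀ᵐ σ ∂P, T3 (Op σ)) (j : Fin d) (e₀ : Ed d) :
    ∀ᵐ σ ∂P, ∀ f, ¬ Ext (Op σ) (CC e₀ σ) f := by
  set A : V d → Set (Om d) := fun v => {σ | Ext (Op σ) (CC e₀ σ) (shE v e₀)} with hA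
  have hAm : ∀ v, MeasurableSet (A v) := fun v => meas_ext meas_Op (meas_CC e₀) _
  have hAv : ∀ v, P.real (A v) = P.real (A 0) := by
    intro v
    rw [← hT.real v (hAm 0)]
    congr 1
    ext σ
    show Ext (Op σ) (CC e₀ σ) (shE v e₀) ↔ Ext (Op (th v σ)) (CC e₀ (th v σ)) (shE 0 e₀)
    rw [shE_zero, ext_th_iff (O := Op (th v σ)) (O' := Op σ) (v := v) (fun e => Iff.rfl)
      (CC_th e₀ v σ)]
  have hsum : ∀ m : ℕ, (m : ℝ) * P.real (A 0) ≤ 2 := by
    intro m
    have h1 := count_bound (P := P) (m := m) (A := fun i : ℕ => A (Pi.single j (i : ℤ)))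
      (fun i => hAm _) (f := fun _ => 2) (integrable_const _) (by
        filter_upwards [hT3] with σ hσ
        refine sum_ind_le_two fun i j' k _ _ _ hij hjk hik => ?_
        rintro ⟨h1, h2, h3⟩
        have hne : ∀ a c : ℕ, a ≠ c → shE (Pi.single j (a : ℤ)) e₀ ≠ shE (Pi.single j (c : ℤ)) e₀ := by
          intro a c hac h
          have := shE_inj_left h
          have := congrFun this j
          simp only [Pi.single_eq_same] at this
          exact hac (by exact_mod_cast this)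
        obtain ⟨m1, s1, a1, b1⟩ := h1
        obtain ⟨m2, s2, a2, b2⟩ := h2
        obtain ⟨m3, s3, a3, b3⟩ := h3
        refine ext3 d (Op σ) hσ ![shE (Pi.single j (i : ℤ)) e₀, shE (Pi.single j (j' : ℤ)) e₀,
          shE (Pi.single j (k : ℤ)) e₀] ![s1, s2, s3] ?_ ?_ ?_
        · intro l
          fin_cases l
          · exact m1.2.2
          · exact m2.2.2
          · exact m3.2.2
        · intro l
          fin_cases l
          · exact a1
          · exact a2
          · exact a3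
        · intro l l' hll
          fin_cases l <;> fin_cases l'
          · exact absurd rfl hll
          · exact b1 _ m2 (hne _ _ hij.symm)
          · exact b1 _ m3 (hne _ _ hik.symm)
          · exact b2 _ m1 (hne _ _ hij)
          · exact absurd rfl hll
          · exact b2 _ m3 (hne _ _ hjk.symm)
          · exact b3 _ m1 (hne _ _ hik)
          · exact b3 _ m2 (hne _ _ hjk)
          · exact absurd rfl hll)
    simp only [hAv] at h1
    rw [sum_const, card_range, nsmul_eq_mul] at h1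
    simpa using h1
  have h0 : P.real (A 0) = 0 := by
    by_contra hne
    have hpos : 0 < P.real (A 0) := lt_of_le_of_ne measureReal_nonneg (Ne.symm hne)
    obtain ⟨m, hm⟩ := exists_nat_gt (2 / P.real (A 0))
    rw [div_lt_iff₀ hpos] at hm
    exact absurd (hsum m) (not_le.2 hm)
  have h1 : ∀ᵐ σ ∂P, ∀ v, σ ∉ A v := ae_all_iff.2 fun v => by
    rw [← real_zero_iff, hAv v, h0]
  filter_upwards [h1] with σ hσ f hf
  obtain ⟨v, rfl⟩ := hf.1.1
  exact hσ v hf

theorem cut01 (hZO : S_ZO) {b : ℝ} {P : Measure (Om d)} (h : IsLim b P) (hb0 : 0 < b)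
    (hb1 : b < 1) (hT : TI P) (hT3 : ∀ᵐ σ ∂P, T3 (Op σ)) (hU : ∀ᵐ σ ∂P, Uq (Op σ)) (e : Ed d) :
    P.real {σ | σ e = (true, false, true) ∧ Br (Op σ) e} = 0 := by
  have := h.prob
  by_contra hne
  have hpos : 0 < P.real {σ | σ e = (true, false, true) ∧ Br (Op σ) e} :=
    lt_of_le_of_ne measureReal_nonneg (Ne.symm hne)
  have hpos2 := lt_of_lt_of_le hpos (cut01_le h hb0 hb1 e)
  set D : Set (Ed d → Bool) := {x | ∃ w, Inf {e | x e = true} w} with hD
  have hmx : ∀ e' : Ed d, MeasurableSet {x : Ed d → Bool | e' ∈ {e | x e = true}} := by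
    intro e'
    have : {x : Ed d → Bool | e' ∈ {e | x e = true}} = (fun x : Ed d → Bool => x e') ⁻¹' {true} := by
      ext x; simp
    rw [this]
    exact measurable_pi_apply e' (MeasurableSet.singleton _)
  have hDm : MeasurableSet D := by
    have : D = ⋃ w : V d, {x : Ed d → Bool | Inf {e | x e = true} w} := by
      ext x; simp [hD]
    rw [this]
    exact MeasurableSet.iUnion fun w => meas_inf hmx w
  have hDi : ∀ v : V d, th v ⁻¹' D = D := by
    intro v
    ext x
    show (∃ w, Inf {e | th v x e = true} w) ↔ (∃ w, Inf {e | x e = true} w)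
    have h1 : ∀ e, e ∈ {e | th v x e = true} ↔ shE v e ∈ {e | x e = true} := fun e => Iff.rfl
    constructor
    · rintro ⟨w, hw⟩; exact ⟨w + v, (inf_th_iff h1).1 hw⟩
    · rintro ⟨w, hw⟩
      refine ⟨w - v, (inf_th_iff h1).2 ?_⟩
      rw [sub_add_cancel]; exact hw
  have hpr : P.real {σ | σ e = (true, true, false) ∧ Br (Op σ) e} ≤ P.real (pr ⁻¹' D) := by
    refine ENNReal.toReal_mono (measure_ne_top _ _) (measure_mono_ae ?_)
    filter_upwards [h.evP hb0 hb1, h.legit hb0 hb1] with σ hev hleg hσ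
    obtain ⟨hs, hB⟩ := hσ
    refine ⟨e.1, ?_⟩
    have hPe : e ∈ Pp σ := by unfold Pp; simp [hs]
    have hnr : ¬ (gr (Pp σ \ {e})).Reachable e.1 (tg e) := fun hr =>
      hB.2.1 (reach_mono (Set.sdiff_subset_sdiff_left hleg.1) hr)
    have := (inf_of_odd hev (Set.Subset.refl _) hPe hnr).1
    exact inf_mono Set.sdiff_subset this
  have h1 := hZO d e.2 b hb0 hb1 P h D hDm hDi (lt_of_lt_of_le hpos2 hpr)
  have h2 : ∀ᵐ σ ∂P, σ ∈ pr ⁻¹' D := by
    have hm : MeasurableSet (pr ⁻¹' D : Set (Om d)) := by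
      have : Measurable (pr : Om d → Ed d → Bool) := measurable_pi_lambda _ fun e' =>
        (measurable_fst.comp measurable_snd).comp (measurable_pi_apply e')
      exact this hDm
    have h3 : P.real (pr ⁻¹' D)ᶜ = 0 := by
      rw [measureReal_compl hm, h1]
      simp
    rw [real_zero_iff] at h3
    filter_upwards [h3] with σ hσ
    exact not_not.1 hσ
  have h4 := ext_null hT hT3 e.2 e
  apply hne
  rw [real_zero_iff]
  filter_upwards [h2, h4, hT3, hU, h.legit hb0 hb1] with σ hD' hE hT' hU' hleg hσ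
  obtain ⟨w, hw⟩ := hD'
  have hw' : Inf (Pp σ) w := hw
  refine nox d (Op σ) (CC e σ) hT' hU' (fun f hf => hf.2.2) ⟨e, ⟨0, (shE_zero e).symm⟩, hσ.1, hσ.2⟩
    hE w (inf_mono ?_ hw')
  intro x hx
  refine ⟨hleg.1 hx, fun hxC => ?_⟩
  have h5 := hxC.2.1
  unfold Pp at hx
  rw [Set.mem_ofPred_eq, h5] at hx
  exact absurd hx (by simp)

/-- the probability that `0` reaches distance `R` in a finite cluster tends to `0` -/
theorem rch_null {P : Measure (Om d)} [IsProbabilityMeasure P] :
    Tendsto (fun R => P.real {σ : Om d | Rch (Op σ) 0 R ∧ ¬ Inf (Op σ) 0}) atTop (𝓝 0) := by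
  have hm : ∀ R, MeasurableSet {σ : Om d | Rch (Op σ) 0 R ∧ ¬ Inf (Op σ) 0} := by
    intro R
    have h1 : MeasurableSet {σ : Om d | Rch (Op σ) 0 R} := by
      have : {σ : Om d | Rch (Op σ) 0 R} = ⋃ w : V d, ({σ | ∃ j, (R : ℤ) ≤ |w j - (0 : V d) j|} ∩
          {σ | (gr (Op σ ∩ (↑(wedg (0 : V d) R) : Set (Ed d)))).Reachable 0 w}) := by
        ext σ
        simp only [Set.mem_ofPred_eq, Set.mem_iUnion, Set.mem_inter_iff]
        rfl
      rw [this]
      exact MeasurableSet.iUnion fun w => (MeasurableSet.const _).inter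
        (meas_reach (meas_inter meas_Op _) _ _)
    exact h1.inter (meas_inf meas_Op 0).compl
  have h := tendsto_anti (P := P) hm (fun k m hkm σ hσ => ⟨rch_anti hkm hσ.1, hσ.2⟩)
  have h2 : (⋂ R, {σ : Om d | Rch (Op σ) 0 R ∧ ¬ Inf (Op σ) 0}) = ∅ := by
    ext σ
    simp only [Set.mem_iInter, Set.mem_ofPred_eq, Set.mem_empty_iff_false, iff_false]
    intro h
    exact (h 0).2 (inf_of_rch fun R => (h R).1)
  rw [h2, measureReal_empty] at h
  exact h

theorem cut10 (h2B : S_2B) {b : ℝ} {P : Measure (Om d)} (h : IsLim b P) (hb0 : 0 < b)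
    (hb1 : b < 1) (hT : TI P) (hT3 : ∀ᵐ σ ∂P, T3 (Op σ)) (hU : ∀ᵐ σ ∂P, Uq (Op σ))
    (h01 : ∀ e : Ed d, P.real {σ | σ e = (true, false, true) ∧ Br (Op σ) e} = 0) (e₀ : Ed d) :
    P.real {σ | σ e₀ = (true, true, false) ∧ Br (Op σ) e₀} = 0 := by
  have := h.prob
  by_contra hne
  set a := P.real {σ | σ e₀ = (true, true, false) ∧ Br (Op σ) e₀} with ha
  have hpos : 0 < a := lt_of_le_of_ne measureReal_nonneg (Ne.symm hne)
  have h01' : ∀ e : Ed d, P.real {σ | σ e = (true, false, true) ∧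
      ¬ (gr (Op σ \ {e})).Reachable e.1 (tg e)} = 0 := by
    intro e
    refine le_antisymm ?_ measureReal_nonneg
    rw [← h01 e]
    refine ENNReal.toReal_mono (measure_ne_top _ _) (measure_mono_ae ?_)
    filter_upwards [h.evQ hb0 hb1, h.legit hb0 hb1] with σ hev hleg hσ
    obtain ⟨hs, hB⟩ := hσ
    have hQe : e ∈ Qs σ := by unfold Qs; simp [hs]
    exact ⟨hs, hleg.2 hQe, hB, inf_of_odd hev hleg.2 hQe hB⟩
  set j := e₀.2
  obtain ⟨m, hm⟩ := exists_nat_gt (3 / a)
  rw [div_lt_iff₀ hpos] at hm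
  have hm0 : 0 < (m:ℝ) := by
    by_contra hm0
    have : (m:ℝ) * a ≤ 0 := mul_nonpos_of_nonpos_of_nonneg (not_lt.1 hm0) hpos.le
    linarith
  set κ := b / (1 - b ^ 2) with hκ
  have hκ0 : 0 < κ := div_pos hb0 (by nlinarith)
  -- choose `R` and `δ`
  set η : ℝ := 1 / (4 * κ * m ^ 4) with hη
  have hη0 : 0 < η := by positivity
  obtain ⟨R, hR⟩ := ((rch_null (P := P)).eventually_lt_const hη0).exists
  obtain ⟨L, hL⟩ := h2B d b hb0 hb1 P h hT hU e₀ h01' R η hη0
  set S : ℕ := L + ∑ i, (e₀.1 i).natAbs with hS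
  have hSj : |e₀.1 j| + L ≤ S := by
    have h1 : (e₀.1 j).natAbs ≤ ∑ i, (e₀.1 i).natAbs :=
      single_le_sum (f := fun i => (e₀.1 i).natAbs) (fun _ _ => Nat.zero_le _) (mem_univ j)
    rw [Int.abs_eq_natAbs, hS]
    push_cast
    have : ((e₀.1 j).natAbs : ℤ) ≤ ∑ i, ((e₀.1 i).natAbs : ℤ) := by exact_mod_cast h1
    linarith
  set u : ℕ → V d := fun i => Pi.single j (((S + 1) * i : ℕ) : ℤ) with hu
  have huj : ∀ i, u i j = ((S + 1) * i : ℕ) := fun i => by rw [hu]; simp
  have hdist : ∀ i k : ℕ, i ≠ k → (S : ℤ) + 1 ≤ |u i j - u k j| := by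
    intro i k hik
    rw [huj, huj]
    have : (1 : ℤ) ≤ |(i : ℤ) - k| := Int.one_le_abs (by omega)
    push_cast
    have e1 : ((S : ℤ) + 1) * i - (S + 1) * k = (S + 1) * (i - k) := by ring
    rw [e1, abs_mul, abs_of_nonneg (by positivity)]
    nlinarith
  set f : ℕ → Ed d := fun i => shE (u i) e₀ with hf
  have hfinj : ∀ i k, i ≠ k → f i ≠ f k := by
    intro i k hik h
    have h1 := shE_inj_left h
    have h2 := hdist i k hik
    rw [h1] at h2
    simp at h2
    omega
  set A : ℕ → Set (Om d) := fun i => {σ | σ (f i) = (true, true, false) ∧ Br (Op σ) (f i)} with hA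
  have hAm : ∀ i, MeasurableSet (A i) := fun i => meas_cut _ _
  have hAa : ∀ i, P.real (A i) = a := by
    intro i
    rw [ha, ← hT.real (u i) (meas_cut e₀ _)]
    congr 1
    ext σ
    show (σ (f i) = (true, true, false) ∧ Br (Op σ) (f i)) ↔
      (σ (shE (u i) e₀) = (true, true, false) ∧ Br (Op (th (u i) σ)) e₀)
    rw [br_th_iff (v := u i) (O := Op (th (u i) σ)) (O' := Op σ) (fun e => Iff.rfl)]
  -- the triples
  set Tr : Finset (ℕ × ℕ × ℕ) := (range m ×ˢ range m ×ˢ range m).filter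
    (fun t => t.1 ≠ t.2.1 ∧ t.2.1 ≠ t.2.2 ∧ t.1 ≠ t.2.2) with hTr
  set B : ℕ × ℕ × ℕ → Set (Om d) := fun t => SepEv (f t.2.1) (f t.1).1 (f t.2.2).1 with hB
  have hBm : ∀ t, MeasurableSet (B t) := by
    intro t
    exact (meas_state _ _).inter ((meas_reach (meas_diff meas_Op _) _ _).compl.inter
      ((meas_reach (meas_diff meas_Op _) _ _).inter (meas_reach (meas_diff meas_Op _) _ _)))
  have hBb : ∀ t ∈ Tr, P.real (B t) ≤ κ * (3 * η) := by
    intro t ht
    rw [hTr, mem_filter] at ht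
    obtain ⟨_, h12, h23, h13⟩ := ht
    have hfar : ∀ i k : ℕ, i ≠ k → Far L (u i) (e₀.1 + u k) := by
      intro i k hik
      refine ⟨j, ?_⟩
      have h1 := hdist i k hik
      simp only [Pi.add_apply]
      have h2 : |u i j - u k j| ≤ |u i j - (e₀.1 j + u k j)| + |e₀.1 j| := by
        have : u i j - u k j = (u i j - (e₀.1 j + u k j)) + e₀.1 j := by ring
        rw [this]
        exact abs_add_le _ _
      linarith
    have hfar2 : ∀ i k : ℕ, i ≠ k → Far L (e₀.1 + u i) (e₀.1 + u k) := by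
      intro i k hik
      refine ⟨j, ?_⟩
      have h1 := hdist i k hik
      simp only [Pi.add_apply]
      have : e₀.1 j + u i j - (e₀.1 j + u k j) = u i j - u k j := by ring
      rw [this]
      have := abs_nonneg (e₀.1 j)
      linarith
    have h1 := hL (u t.2.1) (e₀.1 + u t.1) (e₀.1 + u t.2.2) (hfar _ _ h12.symm) (hfar _ _ h23)
      (hfar2 _ _ h13)
    refine h1.trans ?_
    refine mul_le_mul_of_nonneg_left ?_ hκ0.le
    linarith
  have hpt : ∀ᵐ σ ∂P, ∑ i ∈ range m, (A i).indicator (fun _ => (1:ℝ)) σ ≤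
      2 + m * ∑ t ∈ Tr, (B t).indicator (fun _ => (1:ℝ)) σ := by
    filter_upwards [hT3, hU] with σ hT' hU'
    by_cases htr : ∃ t ∈ Tr, σ ∈ B t
    · obtain ⟨t, ht, hσ⟩ := htr
      have h1 : (1:ℝ) ≤ ∑ t ∈ Tr, (B t).indicator (fun _ => (1:ℝ)) σ := by
        have h2 : (B t).indicator (fun _ => (1:ℝ)) σ ≤
            ∑ t ∈ Tr, (B t).indicator (fun _ => (1:ℝ)) σ :=
          single_le_sum (f := fun t => (B t).indicator (fun _ => (1:ℝ)) σ)
            (fun t _ => Set.indicator_nonneg (fun _ _ => zero_le_one) σ) ht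
        rwa [Set.indicator_of_mem hσ] at h2
      have h3 : ∑ i ∈ range m, (A i).indicator (fun _ => (1:ℝ)) σ ≤ m := by
        calc _ ≤ ∑ i ∈ range m, (1:ℝ) := sum_le_sum fun i _ => by
              classical
              rw [Set.indicator_apply]; split_ifs <;> norm_num
          _ = m := by simp
      nlinarith
    · have h1 : ∑ t ∈ Tr, (B t).indicator (fun _ => (1:ℝ)) σ = 0 := by
        refine sum_eq_zero fun t ht => ?_
        rw [Set.indicator_of_notMem]
        exact fun h => htr ⟨t, ht, h⟩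
      rw [h1, mul_zero, add_zero]
      refine sum_ind_le_two fun i k l hi hk hl hik hkl hil => ?_
      rintro ⟨x1, x2, x3⟩
      have hinj : Function.Injective ![f i, f k, f l] := by
        intro p q hpq
        fin_cases p <;> fin_cases q
        · rfl
        · exact absurd hpq (hfinj _ _ hik)
        · exact absurd hpq (hfinj _ _ hil)
        · exact absurd hpq (hfinj _ _ hik.symm)
        · rfl
        · exact absurd hpq (hfinj _ _ hkl)
        · exact absurd hpq (hfinj _ _ hil.symm)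
        · exact absurd hpq (hfinj _ _ hkl.symm)
        · rfl
      obtain ⟨p, q, r, hpq, hqr, hpr, r1, r2⟩ := sep3 d (Op σ) hT' hU' ![f i, f k, f l] hinj (by
        intro p
        fin_cases p
        · exact x1.2
        · exact x2.2
        · exact x3.2)
      -- indices
      set w : Fin 3 → ℕ := ![i, k, l] with hw
      have hwf : ∀ p, ![f i, f k, f l] p = f (w p) := by
        intro p; fin_cases p <;> rfl
      have hwm : ∀ p, w p < m := by
        intro p; fin_cases p
        · exact hi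
        · exact hk
        · exact hl
      have hwinj : ∀ p q, p ≠ q → w p ≠ w q := by
        intro p q hpq h
        apply hpq
        apply hinj
        rw [hwf, hwf, h]
      have hws : ∀ p, σ (f (w p)) = (true, true, false) ∧ Br (Op σ) (f (w p)) := by
        intro p; fin_cases p
        · exact x1
        · exact x2
        · exact x3
      rw [hwf, hwf] at r1 r2
      apply htr
      refine ⟨(w p, w q, w r), ?_, (hws q).1, (hws q).2.2.1, r1, r2⟩
      rw [hTr, mem_filter, mem_product, mem_product]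
      exact ⟨⟨mem_range.2 (hwm p), mem_range.2 (hwm q), mem_range.2 (hwm r)⟩, hwinj _ _ hpq,
        hwinj _ _ hqr, hwinj _ _ hpr⟩
  have hint : Integrable (fun σ => 2 + (m:ℝ) * ∑ t ∈ Tr, (B t).indicator (fun _ => (1:ℝ)) σ) P :=
    (integrable_const _).add ((integrable_finsetSum _ fun t _ =>
      (integrable_const (1:ℝ)).indicator (hBm t)).const_mul _)
  have h1 := count_bound hAm hint hpt
  simp only [hAa] at h1
  rw [sum_const, card_range, nsmul_eq_mul] at h1
  have h2 : ∫ σ, (2 + (m:ℝ) * ∑ t ∈ Tr, (B t).indicator (fun _ => (1:ℝ)) σ) ∂P =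
      2 + m * ∑ t ∈ Tr, P.real (B t) := by
    rw [integral_add (integrable_const _) ((integrable_finsetSum _ fun t _ =>
      (integrable_const (1:ℝ)).indicator (hBm t)).const_mul _), integral_const_mul,
      integral_finsetSum _ fun t _ => (integrable_const (1:ℝ)).indicator (hBm t)]
    simp only [integral_const, probReal_univ, smul_eq_mul, one_mul]
    congr 2
    refine sum_congr rfl fun t _ => ?_
    rw [integral_indicator_const _ (hBm t), smul_eq_mul, mul_one]
  rw [h2] at h1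
  have h3 : ∑ t ∈ Tr, P.real (B t) ≤ m ^ 3 * (κ * (3 * η)) := by
    have hc : (Tr.card : ℝ) ≤ m ^ 3 := by
      have : Tr.card ≤ m * (m * m) := by
        refine (card_filter_le _ _).trans ?_
        rw [card_product, card_product, card_range]
      have h' : (Tr.card : ℝ) ≤ ((m * (m * m) : ℕ) : ℝ) := by exact_mod_cast this
      refine h'.trans (le_of_eq ?_)
      push_cast; ring
    calc _ ≤ ∑ t ∈ Tr, κ * (3 * η) := sum_le_sum hBb
      _ = Tr.card * (κ * (3 * η)) := by rw [sum_const, nsmul_eq_mul]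
      _ ≤ _ := mul_le_mul_of_nonneg_right hc (by positivity)
  have h4 : (m:ℝ) * (m ^ 3 * (κ * (3 * η))) = 3 / 4 := by
    rw [hη]
    field_simp
  have h5 := mul_le_mul_of_nonneg_left h3 hm0.le
  rw [h4] at h5
  linarith

end Pool.Agent.L7h96.RC
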