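import Pool.Agent.L7h96.RC.Alg

set_option autoImplicit false

open Finset

namespace Pool.Agent.L7h96.RC

/-- vertices of the lattice -/
abbrev V (d : ℕ) : Type := Fin d → ℤ

/-- edges: `(x, i)` joins `x` and `x + e_i` -/
abbrev Ed (d : ℕ) : Type := V d × Fin d

/-- chains mod 2 -/
abbrev X (d : ℕ) : Type := V d →₀ ZMod 2

variable {d : ℕ}

/-- the second endpoint -/
def tg (e : Ed d) : V d := e.1 + Pi.single e.2 1

/-- the box `{-n,…,n}^d` -/
noncomputable def box (d n : ℕ) : Finset (V d) := Finset.Icc (fun _ => -(n : ℤ)) (fun _ => (n : ℤ))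

/-- the edges of the box -/
noncomputable def edg (d n : ℕ) : Finset (Ed d) :=
  ((box d n) ×ˢ (Finset.univ : Finset (Fin d))).filter (fun e => tg e ∈ box d n)

/-- the graph of a set of edges -/
def gr (O : Set (Ed d)) : SimpleGraph (V d) where
  Adj x y := ∃ e ∈ O, (x = e.1 ∧ y = tg e) ∨ (x = tg e ∧ y = e.1)
  symm := ⟨fun x y ⟨e, he, h⟩ => ⟨e, he, by tauto⟩⟩
  loopless := ⟨fun x ⟨e, _, h⟩ => by
    have h1 : e.1 = tg e := by rcases h with ⟨a, b⟩ | ⟨a, b⟩ <;> rw [← a, ← b]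
    have h2 := congrFun h1 e.2
    simp [tg] at h2⟩

/-- the open cluster of `u` is infinite -/
def Inf (O : Set (Ed d)) (u : V d) : Prop := {w | (gr O).Reachable u w}.Infinite

/-- removing finitely many edges never leaves three infinite clusters -/
def T3 (O : Set (Ed d)) : Prop :=
  ∀ (F : Finset (Ed d)) (u : Fin 3 → V d), (∀ i, Inf (O \ ↑F) (u i)) →
    ∃ i j, i ≠ j ∧ (gr (O \ ↑F)).Reachable (u i) (u j)

/-- the infinite cluster is unique -/
def Uq (O : Set (Ed d)) : Prop := ∀ u v, Inf O u → Inf O v → (gr O).Reachable u v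

/-- `e` is a bridge of `O` with both sides infinite -/
def Br (O : Set (Ed d)) (e : Ed d) : Prop :=
  e ∈ O ∧ ¬ (gr (O \ {e})).Reachable e.1 (tg e) ∧ Inf (O \ {e}) e.1 ∧ Inf (O \ {e}) (tg e)

/-- the boundary of an edge -/
noncomputable def DB (e : Ed d) : X d := Finsupp.single e.1 1 + Finsupp.single (tg e) 1

/-- one-endedness of the clusters of `O` -/
def OneEnd (O : Set (Ed d)) : Prop :=
  ∀ (F : Finset (V d)) (u v : V d), (gr O).Reachable u v →
    Inf (O \ {e | e.1 ∈ F ∨ tg e ∈ F}) u → Inf (O \ {e | e.1 ∈ F ∨ tg e ∈ F}) v →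
    (gr (O \ {e | e.1 ∈ F ∨ tg e ∈ F})).Reachable u v

end Pool.Agent.L7h96.RC
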