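import Pool.Agent.L7h96.RC.Cut
import Pool.Agent.L7h70.RC.MX2

set_option autoImplicit false
set_option linter.unusedSectionVars false
set_option linter.unusedSimpArgs false

open Finset MeasureTheory Filter Topology

namespace Pool.Agent.L7h96.RC

variable {d : ℕ}

theorem ind_E (E : Set (Ed d) → Prop) (ω p q : Finset (Ed d)) [Decidable (E ↑ω)] :
    ind {σ : Om d | E (Op σ)} ω p q = if E ↑ω then 1 else 0 := by
  unfold ind
  have : (conf ω p q ∈ {σ : Om d | E (Op σ)}) ↔ E ↑ω := by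
    simp only [Set.mem_ofPred_eq, Op_conf]
  simp only [this]

theorem dep_E {F : Finset (Ed d)} {E : Set (Ed d) → Prop} (h : DepO F E) :
    Dep F {σ : Om d | E (Op σ)} := by
  intro x y hxy
  exact h _ _ fun e' he' => by
    unfold Op
    simp only [Set.mem_ofPred_eq, hxy e' he']

theorem sp_iff (ω : Finset (Ed d)) (z z' : V d) :
    Sp DB ω (Finsupp.single z 1 + Finsupp.single z' 1) ↔
      (gr (↑ω : Set (Ed d))).Reachable z z' := by
  rw [reach_iff_chain]
  unfold Sp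
  constructor
  · rintro ⟨q, hq, hb⟩
    exact ⟨q, hb, fun e he => mem_powerset.1 hq he⟩
  · rintro ⟨K, hb, hK⟩
    exact ⟨K, mem_powerset.2 fun e he => hK e he, hb⟩

/-- two-point function of the double current -/
theorem EM_conn {b g : ℝ} (n : ℕ) (A : X d) (z z' : V d) :
    EM b g n A (ind {σ : Om d | (gr (Op σ)).Reachable z z'}) =
      c1 b g n (A + (Finsupp.single z 1 + Finsupp.single z' 1)) *
        c2 b n (Finsupp.single z 1 + Finsupp.single z' 1) := by
  classical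
  set B : X d := Finsupp.single z 1 + Finsupp.single z' 1 with hB
  have h1 := switch DB (fun _ => b) (edg d n) (Gf n g) (A + B) B (fun _ _ => 1)
  have h2 : A + B + B = A := by rw [add_assoc, add_self', add_zero]
  rw [h2] at h1
  have h3 : Y DB (fun _ => b) (edg d n) (Gf n g) (A + B) B (fun _ _ _ => 1) =
      zz DD (tt b g) (II d n) (A + B) * zz DB (fun _ => b) (edg d n) B := by
    rw [Y_one, zG_Gf]
  have h4 : Y DB (fun _ => b) (edg d n) (Gf n g) A 0
      (ind {σ : Om d | (gr (Op σ)).Reachable z z'}) =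
      zz DD (tt b g) (II d n) (A + B) * zz DB (fun _ => b) (edg d n) B := by
    rw [← h3, h1]
    refine Y_congr fun ω p q _ _ _ => ?_
    rw [one_mul, ind_E (fun O => (gr O).Reachable z z')]
    exact if_congr (sp_iff ω z z').symm rfl rfl
  unfold EM c1 c2 corr Zn
  rw [h4, div_mul_div_comm]

section fin

variable {b g : ℝ} (hb0 : 0 ≤ b) (hb1 : b < 1) (hg0 : 0 ≤ g) (hg1 : g ≤ 1)
include hb0 hb1 hg0 hg1

theorem EM_compl (n : ℕ) (A : X d) (S : Set (Om d)) :
    EM b g n A (ind Sᶜ) = c1 b g n A - EM b g n A (ind S) := by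
  classical
  rw [← EM_one hb0 hb1 hg0 hg1, ← EM_sub]
  refine EM_congr fun ω p q _ _ _ => ?_
  unfold ind
  by_cases h : conf ω p q ∈ S <;> simp [h]

theorem EM_nconn_le (n : ℕ) (A : X d) (z z' : V d) :
    EM b g n A (ind {σ : Om d | ¬ (gr (Op σ)).Reachable z z'}) ≤
      c1 b g n A * EM b g n 0 (ind {σ : Om d | ¬ (gr (Op σ)).Reachable z z'}) := by
  have e : {σ : Om d | ¬ (gr (Op σ)).Reachable z z'} =
    {σ : Om d | (gr (Op σ)).Reachable z z'}ᶜ := rfl
  rw [e, EM_compl hb0 hb1 hg0 hg1, EM_compl hb0 hb1 hg0 hg1, EM_conn, EM_conn, zero_add]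
  have h0 : c1 b g n (0 : X d) = 1 := corr_zero (tt_nonneg hb0 hg0) _
  rw [h0]
  have h1 := corr_gks (tt_nonneg hb0 hg0) (tt_le_one hb1.le hg1) (D := DD) (II d n) A
    (Finsupp.single z 1 + Finsupp.single z' 1)
  have h2 := c2_nonneg hb0 hb1.le n (Finsupp.single z 1 + Finsupp.single z' 1 : X d)
  have h3 := mul_le_mul_of_nonneg_right h1 h2
  unfold c1
  linarith

end fin

theorem S3_zero {ι : Type} [DecidableEq ι] (I : Finset ι) : S3 I (fun _ _ _ => (0:ℝ)) = 0 := by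
  simp [S3]

/-- opening an odd edge of the first current = inserting a source -/
theorem EM_source {b g : ℝ} (hb0 : 0 ≤ b) (hb1 : b < 1) {n : ℕ} {e : Ed d} (he : e ∈ edg d n)
    (E : Set (Ed d) → Prop) :
    EM b g n 0 (ind {σ : Om d | σ e = (true, true, false) ∧ E (Op σ \ {e})}) =
      b / (1 - b ^ 2) * EM b g n (DB e) (ind {σ : Om d | e ∉ Op σ ∧ E (Op σ \ {e})}) := by
  classical
  obtain ⟨I, hI, hins⟩ : ∃ I, e ∉ I ∧ insert e I = edg d n :=
    ⟨(edg d n).erase e, notMem_erase e _, insert_erase he⟩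
  have hk : (1 - b ^ 2) ≠ 0 := by nlinarith
  set T : ℝ := S3 I (fun ω p q => W (fun _ => b) I ω p q * (if E ↑ω then 1 else 0) *
    Gf n g (DB e + bd DB p) * (if bd DB q = 0 then 1 else 0)) with hT
  have hset : ∀ ω : Finset (Ed d), e ∉ ω → ((↑ω : Set (Ed d)) \ {e}) = ↑ω := by
    intro ω hω
    ext x
    simp only [Set.mem_sdiff, Set.mem_singleton_iff, mem_coe]
    exact ⟨fun h => h.1, fun h => ⟨h, fun hx => hω (hx ▸ h)⟩⟩
  have hset2 : ∀ ω : Finset (Ed d), e ∉ ω → ((↑(insert e ω) : Set (Ed d)) \ {e}) = ↑ω := by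
    intro ω hω
    ext x
    simp only [Set.mem_sdiff, Set.mem_singleton_iff, mem_coe, mem_insert]
    exact ⟨fun h => h.1.resolve_left h.2, fun h => ⟨Or.inr h, fun hx => hω (hx ▸ h)⟩⟩
  have h1 : Y DB (fun _ => b) (edg d n) (Gf n g) 0 0
      (ind {σ : Om d | σ e = (true, true, false) ∧ E (Op σ \ {e})}) = b * T := by
    unfold Y
    rw [← hins, S3_insert hI, hT, ← S3_mul_left]
    refine S3_congr fun ω p q hω hp hq => ?_
    have heω : e ∉ ω := fun h => hI (hω h)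
    have hep : e ∉ p := fun h => heω (hp h)
    have heq : e ∉ q := fun h => heω (hq h)
    simp only [ind_state e (fun O => E (O \ {e}))]
    have hWi := W_insert_in (ω := ω) (p := p) (q := q) (p' := insert e p) (q' := q) (fun _ => b) hI
      (fun j hj => by simp [hj]) (fun j _ => Iff.rfl)
    rw [hWi, hset2 ω heω, bd_insert DB hep]
    simp [heω, hep, heq]
    by_cases c1 : bd DB q = 0 <;> by_cases c2 : E ↑ω <;> simp [c1, c2] <;> ring
  have h2 : Y DB (fun _ => b) (edg d n) (Gf n g) (DB e) 0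
      (ind {σ : Om d | e ∉ Op σ ∧ E (Op σ \ {e})}) = (1 - b ^ 2) * T := by
    unfold Y
    rw [← hins, S3_insert hI, hT, ← S3_mul_left]
    refine S3_congr fun ω p q hω hp hq => ?_
    have heω : e ∉ ω := fun h => hI (hω h)
    simp only [ind_E (fun O => e ∉ O ∧ E (O \ {e}))]
    rw [W_insert_out (fun _ => b) hI hω, hset ω heω]
    simp [heω]
    by_cases c1 : bd DB q = 0 <;> by_cases c2 : E ↑ω <;> simp [c1, c2] <;> ring
  unfold EM
  rw [h1, h2]
  field_simp

/-- local disconnection -/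
def Dk (e : Ed d) (k : ℕ) (O : Set (Ed d)) : Prop :=
  ¬ (gr ((O \ {e}) ∩ ↑(edg d k))).Reachable e.1 (tg e)

/-- local connections -/
def Gk (e : Ed d) (z z' : V d) (k : ℕ) (O : Set (Ed d)) : Prop :=
  (gr ((O \ {e}) ∩ ↑(edg d k))).Reachable e.1 z ∧
    (gr ((O \ {e}) ∩ ↑(edg d k))).Reachable (tg e) z'

theorem dk_set {e : Ed d} {k : ℕ} {O O' : Set (Ed d)} (h : ∀ x ∈ edg d k, (x ∈ O ↔ x ∈ O')) :
    (O \ {e}) ∩ (↑(edg d k) : Set (Ed d)) = (O' \ {e}) ∩ ↑(edg d k) := by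
  ext x
  simp only [Set.mem_inter_iff, Set.mem_sdiff, mem_coe]
  constructor
  · rintro ⟨⟨a, b⟩, c⟩; exact ⟨⟨(h x c).1 a, b⟩, c⟩
  · rintro ⟨⟨a, b⟩, c⟩; exact ⟨⟨(h x c).2 a, b⟩, c⟩

theorem depDk (e : Ed d) (k : ℕ) : DepO (edg d k) (Dk e k) := by
  intro O O' h
  unfold Dk
  rw [dk_set h]

theorem depDG (e : Ed d) (z z' : V d) (k : ℕ) :
    DepO (edg d k) (fun O => Dk e k O ∧ Gk e z z' k O) := by
  intro O O' h
  unfold Dk Gk
  beta_reduce
  rw [dk_set h]

/-- step (1): exchanging the flux -/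
theorem EM_step1 {b g : ℝ} (hb0 : 0 ≤ b) (hb1 : b < 1) (hg0 : 0 ≤ g) (hg1 : g ≤ 1) {n k : ℕ}
    {e : Ed d} (z z' : V d) :
    EM b g n 0 (ind {σ : Om d | σ e = (true, true, false) ∧ (Dk e k (Op σ) ∧ Gk e z z' k (Op σ))}) ≤
      EM b g n 0 (ind {σ : Om d | σ e = (true, true, false) ∧
        (¬ (gr (Op σ \ {e})).Reachable e.1 (tg e) ∧ Gk e z z' k (Op σ))}) +
      EM b g n 0 (ind {σ : Om d | σ e = (true, false, true) ∧ Dk e k (Op σ)}) := by
  classical
  have hZ := (Zn_pos (d := d) hb0 hb1 hg0 hg1 n).le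
  set F : Finset (Ed d) → Finset (Ed d) → ℝ := fun ω r =>
    if e ∈ ω ∧ e ∈ r ∧ Dk e k ↑ω ∧ Gk e z z' k ↑ω ∧ (gr ((↑ω : Set (Ed d)) \ {e})).Reachable e.1 (tg e)
    then 1 else 0 with hF
  have hfl := flux_eq (D := DB (d := d)) (t := fun _ => b) (I := edg d n) (G := Gf n g) (A := 0)
    (F := F) e (by
      intro ω r _ _ hne
      rw [hF] at hne
      simp only [ne_eq, ite_eq_right_iff, one_ne_zero, imp_false, not_not] at hne
      obtain ⟨h1, _, _, _, h2⟩ := hne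
      obtain ⟨K, hK, hb⟩ := reach_chain h2
      have heK : e ∉ K := fun h => (hK h).2 rfl
      refine ⟨insert e K, ?_, ?_, mem_insert_self _ _⟩
      · rw [mem_powerset, insert_subset_iff]
        exact ⟨h1, fun x hx => (hK hx).1⟩
      · rw [bd_insert DB heK, hb]
        exact add_self' _)
  have h1 : EM b g n 0 (ind {σ : Om d | σ e = (true, true, false) ∧
      (Dk e k (Op σ) ∧ Gk e z z' k (Op σ))}) ≤
      EM b g n 0 (ind {σ : Om d | σ e = (true, true, false) ∧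
        (¬ (gr (Op σ \ {e})).Reachable e.1 (tg e) ∧ Gk e z z' k (Op σ))}) +
      EM b g n 0 (fun ω p q => F ω (symmDiff p q) * if e ∈ q then 0 else 1) := by
    rw [← EM_add]
    refine EM_mono hb0 hb1 hg0 hg1 fun ω p q hω hp hq => ?_
    rw [ind_state e (fun O => Dk e k O ∧ Gk e z z' k O),
      ind_state e (fun O => ¬ (gr (O \ {e})).Reachable e.1 (tg e) ∧ Gk e z z' k O)]
    rw [hF]
    by_cases a1 : e ∈ ω <;> by_cases a2 : e ∈ p <;> by_cases a3 : e ∈ q <;>
      by_cases a4 : Dk e k ↑ω <;> by_cases a5 : Gk e z z' k ↑ω <;>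
      by_cases a6 : (gr ((↑ω : Set (Ed d)) \ {e})).Reachable e.1 (tg e) <;>
      simp [a1, a2, a3, a4, a5, a6, mem_symmDiff]
  have h2 : EM b g n 0 (fun ω p q => F ω (symmDiff p q) * if e ∈ q then 0 else 1) =
      EM b g n 0 (fun ω p q => F ω (symmDiff p q) * if e ∈ q then 1 else 0) := by
    unfold EM
    rw [hfl]
  have h3 : EM b g n 0 (fun ω p q => F ω (symmDiff p q) * if e ∈ q then 1 else 0) ≤
      EM b g n 0 (ind {σ : Om d | σ e = (true, false, true) ∧ Dk e k (Op σ)}) := by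
    refine EM_mono hb0 hb1 hg0 hg1 fun ω p q hω hp hq => ?_
    rw [ind_state e (fun O => Dk e k O)]
    rw [hF]
    by_cases a1 : e ∈ ω <;> by_cases a2 : e ∈ p <;> by_cases a3 : e ∈ q <;>
      by_cases a4 : Dk e k ↑ω <;> by_cases a5 : Gk e z z' k ↑ω <;>
      by_cases a6 : (gr ((↑ω : Set (Ed d)) \ {e})).Reachable e.1 (tg e) <;>
      simp [a1, a2, a3, a4, a5, a6, mem_symmDiff]
  linarith

/-- the event that one of two points does not reach distance `R` -/
def NRc (z z' : V d) (R : ℕ) : Set (Om d) := {σ | ¬ (Rch (Op σ) z R ∧ Rch (Op σ) z' R)}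

theorem depNRc (z z' : V d) (R : ℕ) : Dep (wedg z R ∪ wedg z' R) (NRc z z' R) := by
  refine dep_E (E := fun O => ¬ (Rch O z R ∧ Rch O z' R)) ?_
  intro O O' h
  have h1 : O ∩ (↑(wedg z R) : Set (Ed d)) = O' ∩ ↑(wedg z R) := by
    ext x
    simp only [Set.mem_inter_iff, mem_coe]
    constructor
    · rintro ⟨a, c⟩; exact ⟨(h x (mem_union_left _ c)).1 a, c⟩
    · rintro ⟨a, c⟩; exact ⟨(h x (mem_union_left _ c)).2 a, c⟩
  have h2 : O ∩ (↑(wedg z' R) : Set (Ed d)) = O' ∩ ↑(wedg z' R) := by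
    ext x
    simp only [Set.mem_inter_iff, mem_coe]
    constructor
    · rintro ⟨a, c⟩; exact ⟨(h x (mem_union_right _ c)).1 a, c⟩
    · rintro ⟨a, c⟩; exact ⟨(h x (mem_union_right _ c)).2 a, c⟩
  unfold Rch
  beta_reduce
  rw [h1, h2]

/-- steps (2)-(4) -/
theorem EM_step2 {b g : ℝ} (hb0 : 0 ≤ b) (hb1 : b < 1) (hg0 : 0 ≤ g) (hg1 : g ≤ 1) {n k R : ℕ}
    {e : Ed d} (he : e ∈ edg d n) {z z' : V d} (hz : ∃ j, (R : ℤ) ≤ |e.1 j - z j|)
    (hz' : ∃ j, (R : ℤ) ≤ |tg e j - z' j|) (hzz : ∃ j, (R : ℤ) ≤ |z' j - z j|) :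
    EM b g n 0 (ind {σ : Om d | σ e = (true, true, false) ∧
        (¬ (gr (Op σ \ {e})).Reachable e.1 (tg e) ∧ Gk e z z' k (Op σ))}) ≤
      b / (1 - b ^ 2) * (c1 b g n (DB e) *
        EM b g n 0 (ind {σ : Om d | ¬ (gr (Op σ)).Reachable z z'}) -
          EM b g n (DB e) (ind (NRc z z' R))) := by
  classical
  have hκ : 0 ≤ b / (1 - b ^ 2) := div_nonneg hb0 (by nlinarith)
  have h1 := EM_source (g := g) hb0 hb1 he
    (fun O => ¬ (gr O).Reachable e.1 (tg e) ∧ ((gr (O ∩ ↑(edg d k))).Reachable e.1 z ∧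
    (gr (O ∩ ↑(edg d k))).Reachable (tg e) z'))
  have h0 : {σ : Om d | σ e = (true, true, false) ∧
        (¬ (gr (Op σ \ {e})).Reachable e.1 (tg e) ∧ Gk e z z' k (Op σ))} =
      {σ : Om d | σ e = (true, true, false) ∧ (fun O => ¬ (gr O).Reachable e.1 (tg e) ∧
        ((gr (O ∩ ↑(edg d k))).Reachable e.1 z ∧
          (gr (O ∩ ↑(edg d k))).Reachable (tg e) z')) (Op σ \ {e})} := rfl
  rw [h0, h1]
  refine mul_le_mul_of_nonneg_left ?_ hκ
  have h2 : EM b g n (DB e) (ind {σ : Om d | e ∉ Op σ ∧ (fun O => ¬ (gr O).Reachable e.1 (tg e) ∧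
        ((gr (O ∩ ↑(edg d k))).Reachable e.1 z ∧
          (gr (O ∩ ↑(edg d k))).Reachable (tg e) z')) (Op σ \ {e})}) ≤
      EM b g n (DB e) (ind {σ : Om d | ¬ (gr (Op σ)).Reachable z z'}) -
        EM b g n (DB e) (ind (NRc z z' R)) := by
    rw [← EM_sub]
    refine EM_mono hb0 hb1 hg0 hg1 fun ω p q hω hp hq => ?_
    set O : Set (Ed d) := ↑ω with hO
    have i1 := ind_E (fun O => e ∉ O ∧ (fun O => ¬ (gr O).Reachable e.1 (tg e) ∧
        ((gr (O ∩ ↑(edg d k))).Reachable e.1 z ∧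
          (gr (O ∩ ↑(edg d k))).Reachable (tg e) z')) (O \ {e})) ω p q
    have i2 := ind_E (fun O => ¬ (gr O).Reachable z z') ω p q
    have i3 := ind_E (fun O => ¬ (Rch O z R ∧ Rch O z' R)) ω p q
    unfold NRc
    rw [i1, i2, i3]
    -- N implies not connected
    have hN : ¬ (Rch O z R ∧ Rch O z' R) → ¬ (gr O).Reachable z z' := by
      intro hn hr
      apply hn
      refine ⟨rch_of_reach hzz hr, rch_of_reach ?_ hr.symm⟩
      obtain ⟨j, hj⟩ := hzz
      exact ⟨j, by rwa [abs_sub_comm]⟩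
    have hE : (e ∉ O ∧ (¬ (gr (O \ {e})).Reachable e.1 (tg e) ∧
        ((gr ((O \ {e}) ∩ ↑(edg d k))).Reachable e.1 z ∧
          (gr ((O \ {e}) ∩ ↑(edg d k))).Reachable (tg e) z'))) →
        (¬ (gr O).Reachable z z' ∧ (Rch O z R ∧ Rch O z' R)) := by
      rintro ⟨he', hn, r1, r2⟩
      have hOe : O \ {e} = O := by
        ext x
        simp only [Set.mem_sdiff, Set.mem_singleton_iff]
        exact ⟨fun h => h.1, fun h => ⟨h, fun hx => he' (hx ▸ h)⟩⟩
      rw [hOe] at hn r1 r2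
      have r1' := reach_mono Set.inter_subset_left r1
      have r2' := reach_mono Set.inter_subset_left r2
      refine ⟨fun hr => hn (r1'.trans (hr.trans r2'.symm)), rch_of_reach hz r1'.symm,
        rch_of_reach hz' r2'.symm⟩
    by_cases a1 : (e ∉ O ∧ (¬ (gr (O \ {e})).Reachable e.1 (tg e) ∧
        ((gr ((O \ {e}) ∩ ↑(edg d k))).Reachable e.1 z ∧
          (gr ((O \ {e}) ∩ ↑(edg d k))).Reachable (tg e) z')))
    · have a2 := hE a1
      rw [if_pos a1, if_pos a2.1, if_neg (not_not.2 a2.2)]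
      norm_num
    · rw [if_neg a1]
      by_cases a2 : ¬ (Rch O z R ∧ Rch O z' R)
      · rw [if_pos a2, if_pos (hN a2)]
        norm_num
      · rw [if_neg a2]
        split_ifs <;> norm_num
  have h3 := EM_nconn_le hb0 hb1 hg0 hg1 n (DB e) z z'
  linarith

theorem tendsto_mono {P : Measure (Om d)} [IsFiniteMeasure P] {S : ℕ → Set (Om d)}
    (hm : Monotone S) : Tendsto (fun n => P.real (S n)) atTop (𝓝 (P.real (⋃ n, S n))) := by
  have := tendsto_measure_iUnion_atTop (μ := P) hm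
  exact (ENNReal.tendsto_toReal (measure_ne_top _ _)).comp this

theorem conn_le {b : ℝ} {P : Measure (Om d)} (h : IsLim b P) (hb0 : 0 < b) (hb1 : b < 1)
    (z z' : V d) :
    1 - cp b (Finsupp.single z 1 + Finsupp.single z' 1) *
      c0 b (Finsupp.single z 1 + Finsupp.single z' 1) ≤
        P.real {σ | ¬ (gr (Op σ)).Reachable z z'} := by
  have := h.prob
  have hm : MeasurableSet {σ : Om d | (gr (Op σ)).Reachable z z'} := meas_reach meas_Op z z'
  have e : {σ : Om d | ¬ (gr (Op σ)).Reachable z z'} =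
    {σ : Om d | (gr (Op σ)).Reachable z z'}ᶜ := rfl
  rw [e, measureReal_compl hm, probReal_univ]
  refine sub_le_sub_left ?_ _
  have h1 : Tendsto (fun k => P.real {σ : Om d | (gr (Op σ ∩ ↑(edg d k))).Reachable z z'}) atTop
      (𝓝 (P.real (⋃ k, {σ : Om d | (gr (Op σ ∩ ↑(edg d k))).Reachable z z'}))) :=
    tendsto_mono fun k m hkm σ hσ => reach_box_mono hkm hσ
  have h2 : (⋃ k, {σ : Om d | (gr (Op σ ∩ ↑(edg d k))).Reachable z z'}) =
      {σ : Om d | (gr (Op σ)).Reachable z z'} := by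
    ext σ
    simp only [Set.mem_iUnion, Set.mem_ofPred_eq]
    exact ⟨fun ⟨k, hk⟩ => reach_mono Set.inter_subset_left hk, fun h => reach_fin h⟩
  rw [h2] at h1
  refine le_of_tendsto' h1 fun k => ?_
  have hdep : Dep (edg d k) {σ : Om d | (gr (Op σ ∩ ↑(edg d k))).Reachable z z'} := by
    refine dep_E (E := fun O => (gr (O ∩ ↑(edg d k))).Reachable z z') ?_
    intro O O' h
    have h1 : O ∩ (↑(edg d k) : Set (Ed d)) = O' ∩ ↑(edg d k) := by
      ext x
      simp only [Set.mem_inter_iff, mem_coe]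
      constructor
      · rintro ⟨a, c⟩; exact ⟨(h x c).1 a, c⟩
      · rintro ⟨a, c⟩; exact ⟨(h x c).2 a, c⟩
    beta_reduce
    rw [h1]
  have h3 := h.tendsto hb0 hb1 hdep
  have h4 : Tendsto (fun x : ℝ × ℕ => EM b x.1 x.2 0
      (ind {σ : Om d | (gr (Op σ)).Reachable z z'})) FF
      (𝓝 (cp b (Finsupp.single z 1 + Finsupp.single z' 1) *
        c0 b (Finsupp.single z 1 + Finsupp.single z' 1))) := by
    have h5 := (c1_FF hb0.le hb1 (Finsupp.single z 1 + Finsupp.single z' 1 : X d)).mul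
      (c2_FF hb0.le hb1 (Finsupp.single z 1 + Finsupp.single z' 1 : X d))
    refine h5.congr fun x => ?_
    rw [EM_conn, zero_add]
  refine le_of_tendsto_of_tendsto h3 h4 ?_
  filter_upwards [FF_good hb0.le hb1 0] with x hx
  refine EM_mono hb0.le hb1 hx.1.1.le hx.1.2.le fun ω p q _ _ _ => ?_
  classical
  rw [ind_E (fun O => (gr (O ∩ ↑(edg d k))).Reachable z z'),
    ind_E (fun O => (gr O).Reachable z z')]
  by_cases a : (gr ((↑ω : Set (Ed d)) ∩ ↑(edg d k))).Reachable z z'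
  · rw [if_pos a, if_pos (reach_mono Set.inter_subset_left a)]
  · rw [if_neg a]
    split_ifs <;> norm_num

theorem twoB_of (hM : S_MX2) : S_2B := by
  intro d b hb0 hb1 P h hT hU e₀ h01 R δ hδ
  have := h.prob
  have hκ : 0 ≤ b / (1 - b ^ 2) := div_nonneg hb0.le (by nlinarith)
  obtain ⟨L0, hL0⟩ := hM d b hb0 hb1 e₀ R δ hδ
  set ρ : ℕ := ∑ i, (e₀.1 i).natAbs with hρ
  have hρi : ∀ i, |e₀.1 i| ≤ ρ := by
    intro i
    have h1 : (e₀.1 i).natAbs ≤ ∑ i, (e₀.1 i).natAbs :=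
      single_le_sum (f := fun i => (e₀.1 i).natAbs) (fun _ _ => Nat.zero_le _) (mem_univ i)
    rw [Int.abs_eq_natAbs, hρ]
    exact_mod_cast h1
  refine ⟨L0 + R + ρ + 1, fun u₀ u₁ u₂ f01 f02 f12 => ?_⟩
  have hmono : ∀ u v : V d, Far (L0 + R + ρ + 1) u v → Far L0 u v := by
    rintro u v ⟨j, hj⟩
    exact ⟨j, by push_cast at hj; linarith [Int.natCast_nonneg R, Int.natCast_nonneg ρ]⟩
  have hM' := hL0 u₀ u₁ u₂ (hmono _ _ f01) (hmono _ _ f02) (hmono _ _ f12)
    (NRc u₁ u₂ R) (depNRc u₁ u₂ R)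
  rw [← h.loc _ _ (depNRc u₁ u₂ R)] at hM'
  set e := shE u₀ e₀ with he
  have hzj : ∃ j, (R : ℤ) ≤ |e.1 j - u₁ j| := by
    obtain ⟨j, hj⟩ := f01
    refine ⟨j, ?_⟩
    have h1 := hρi j
    have h2 : |u₀ j - u₁ j| ≤ |e.1 j - u₁ j| + |e₀.1 j| := by
      have : u₀ j - u₁ j = (e.1 j - u₁ j) + (-e₀.1 j) := by
        rw [he, shE_fst]; simp only [Pi.add_apply]; ring
      rw [this]
      refine (abs_add_le _ _).trans ?_
      rw [abs_neg]
    push_cast at hj
    linarith [Int.natCast_nonneg L0]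
  have hzj' : ∃ j, (R : ℤ) ≤ |tg e j - u₂ j| := by
    obtain ⟨j, hj⟩ := f02
    refine ⟨j, ?_⟩
    have h1 := hρi j
    have h3 := tg_sub e₀ j
    have h2 : |u₀ j - u₂ j| ≤ |tg e j - u₂ j| + |e₀.1 j| + |tg e₀ j - e₀.1 j| := by
      have : u₀ j - u₂ j = ((tg e j - u₂ j) + (-e₀.1 j)) + (-(tg e₀ j - e₀.1 j)) := by
        rw [he, tg_shE]; simp only [Pi.add_apply]; ring
      rw [this]
      refine (abs_add_le _ _).trans ?_
      rw [abs_neg]
      have := abs_add_le (tg e j - u₂ j) (-e₀.1 j)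
      rw [abs_neg] at this
      linarith
    push_cast at hj
    linarith [Int.natCast_nonneg L0]
  have hzz : ∃ j, (R : ℤ) ≤ |u₂ j - u₁ j| := by
    obtain ⟨j, hj⟩ := f12
    refine ⟨j, ?_⟩
    rw [abs_sub_comm]
    push_cast at hj
    linarith [Int.natCast_nonneg L0, Int.natCast_nonneg ρ]
  set Q := P.real {σ : Om d | Rch (Op σ) 0 R ∧ ¬ Inf (Op σ) 0} with hQ
  -- the bound in infinite volume
  have hNm : MeasurableSet (NRc u₁ u₂ R) := (depNRc u₁ u₂ R).meas
  have hrm : ∀ z, MeasurableSet {σ : Om d | Rch (Op σ) z R ∧ ¬ Inf (Op σ) z} := by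
    intro z
    have h1 : MeasurableSet {σ : Om d | Rch (Op σ) z R} := by
      have : {σ : Om d | Rch (Op σ) z R} = ⋃ w : V d, ({σ | ∃ j, (R : ℤ) ≤ |w j - z j|} ∩
          {σ | (gr (Op σ ∩ (↑(wedg z R) : Set (Ed d)))).Reachable z w}) := by
        ext σ
        simp only [Set.mem_ofPred_eq, Set.mem_iUnion, Set.mem_inter_iff]
        rfl
      rw [this]
      exact MeasurableSet.iUnion fun w => (MeasurableSet.const _).inter
        (meas_reach (meas_inter meas_Op _) _ _)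
    exact h1.inter (meas_inf meas_Op z).compl
  have hrz : ∀ z, P.real {σ : Om d | Rch (Op σ) z R ∧ ¬ Inf (Op σ) z} = Q := by
    intro z
    rw [hQ, ← hT.real z (hrm 0)]
    congr 1
    ext σ
    show (Rch (Op σ) z R ∧ ¬ Inf (Op σ) z) ↔ (Rch (Op (th z σ)) 0 R ∧ ¬ Inf (Op (th z σ)) 0)
    have h1 : Inf (Op (th z σ)) 0 ↔ Inf (Op σ) z := by
      rw [inf_th_iff (O := Op (th z σ)) (O' := Op σ) (v := z) (fun e => Iff.rfl), zero_add]
    have h2 : Rch (Op (th z σ)) 0 R ↔ Rch (Op σ) z R := by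
      have key : ∀ w, (gr (Op (th z σ) ∩ ↑(wedg (0 : V d) R))).Reachable 0 w ↔
          (gr (Op σ ∩ ↑(wedg z R))).Reachable z (w + z) := by
        intro w
        rw [reach_th_iff (O := Op (th z σ) ∩ ↑(wedg (0 : V d) R)) (O' := Op σ ∩ ↑(wedg z R))
          (v := z), zero_add]
        intro e'
        simp only [Set.mem_inter_iff, mem_coe, mem_wedg, tg_shE, shE_fst, Pi.add_apply,
          Pi.zero_apply, sub_zero, add_sub_cancel_right]
        rfl
      unfold Rch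
      constructor
      · rintro ⟨w, ⟨j, hj⟩, hr⟩
        refine ⟨w + z, ⟨j, ?_⟩, (key w).1 hr⟩
        simpa using hj
      · rintro ⟨w, ⟨j, hj⟩, hr⟩
        refine ⟨w - z, ⟨j, ?_⟩, (key (w - z)).2 (by rwa [sub_add_cancel])⟩
        simpa using hj
    rw [h1, h2]
  have hstep : P.real {σ : Om d | ¬ (gr (Op σ)).Reachable u₁ u₂} - P.real (NRc u₁ u₂ R) ≤
      2 * Q := by
    have h1 : P.real {σ : Om d | ¬ (gr (Op σ)).Reachable u₁ u₂} ≤ P.real (NRc u₁ u₂ R) +
        (P.real {σ : Om d | Rch (Op σ) u₁ R ∧ ¬ Inf (Op σ) u₁} +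
          P.real {σ : Om d | Rch (Op σ) u₂ R ∧ ¬ Inf (Op σ) u₂}) := by
      have h2 : P.real {σ : Om d | ¬ (gr (Op σ)).Reachable u₁ u₂} ≤
          P.real (NRc u₁ u₂ R ∪ ({σ : Om d | Rch (Op σ) u₁ R ∧ ¬ Inf (Op σ) u₁} ∪
            {σ : Om d | Rch (Op σ) u₂ R ∧ ¬ Inf (Op σ) u₂})) := by
        refine ENNReal.toReal_mono (measure_ne_top _ _) (measure_mono_ae ?_)
        filter_upwards [hU] with σ hu hσ
        by_cases a : σ ∈ NRc u₁ u₂ R
        · exact Or.inl a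
        · have a' : Rch (Op σ) u₁ R ∧ Rch (Op σ) u₂ R := not_not.1 a
          by_cases i1 : Inf (Op σ) u₁
          · by_cases i2 : Inf (Op σ) u₂
            · exact absurd (hu _ _ i1 i2) hσ
            · exact Or.inr (Or.inr ⟨a'.2, i2⟩)
          · exact Or.inr (Or.inl ⟨a'.1, i1⟩)
      exact h2.trans ((measureReal_union_le _ _).trans
        (add_le_add_right (measureReal_union_le _ _) _))
    rw [hrz, hrz] at h1
    linarith
  -- the bound for the local events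
  have hk : ∀ k, P.real {σ : Om d | σ e = (true, true, false) ∧
      (Dk e k (Op σ) ∧ Gk e u₁ u₂ k (Op σ))} ≤ b / (1 - b ^ 2) * (2 * Q + δ) +
      P.real {σ : Om d | σ e = (true, false, true) ∧ Dk e k (Op σ)} := by
    intro k
    have l1 := h.tendsto hb0 hb1 (dep_Op (depDG e u₁ u₂ k) e (true, true, false))
    have l2 := h.tendsto hb0 hb1 (dep_Op (depDk e k) e (true, false, true))
    have l3 := EM_FF_ind hb0.le hb1 (depNRc u₁ u₂ R) (DB e)
    have l4 : Tendsto (fun x : ℝ × ℕ => EM b x.1 x.2 0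
        (ind {σ : Om d | ¬ (gr (Op σ)).Reachable u₁ u₂})) FF
        (𝓝 (1 - cp b (Finsupp.single u₁ 1 + Finsupp.single u₂ 1) *
          c0 b (Finsupp.single u₁ 1 + Finsupp.single u₂ 1))) := by
      have h5 := ((c1_FF hb0.le hb1 (Finsupp.single u₁ 1 + Finsupp.single u₂ 1 : X d)).mul
        (c2_FF hb0.le hb1 (Finsupp.single u₁ 1 + Finsupp.single u₂ 1 : X d))).const_sub 1
      refine h5.congr' ?_
      filter_upwards [FF_good hb0.le hb1 0] with x hx
      have e1 : {σ : Om d | ¬ (gr (Op σ)).Reachable u₁ u₂} =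
        {σ : Om d | (gr (Op σ)).Reachable u₁ u₂}ᶜ := rfl
      rw [e1, EM_compl hb0.le hb1 hx.1.1.le hx.1.2.le, EM_conn, zero_add]
      have h0 : c1 b x.1 x.2 (0 : X d) = 1 := corr_zero (tt_nonneg hb0.le hx.1.1.le) _
      rw [h0]
    have l5 := c1_FF hb0.le hb1 (DB e)
    have l6 := ((l5.mul l4).sub l3).const_mul (b / (1 - b ^ 2))
    have hlim := le_of_tendsto_of_tendsto l1 (l6.add l2) (by
      obtain ⟨n, hn⟩ := exists_edg_finset {e}
      filter_upwards [FF_good hb0.le hb1 (max n k)] with x hx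
      have hen : e ∈ edg d x.2 := edg_mono ((le_max_left n k).trans hx.2)
        (hn (mem_singleton_self e))
      refine (EM_step1 hb0.le hb1 hx.1.1.le hx.1.2.le u₁ u₂).trans ?_
      refine add_le_add_left ?_ _
      exact EM_step2 hb0.le hb1 hx.1.1.le hx.1.2.le hen hzj hzj' hzz)
    refine hlim.trans (add_le_add_left (mul_le_mul_of_nonneg_left ?_ hκ) _)
    have hc0 := cp_nonneg hb0.le hb1.le (DB e)
    have hc1 := cp_le_one hb0.le hb1.le (DB e)
    have h6 := conn_le h hb0 hb1 u₁ u₂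
    have h7 := mul_le_mul_of_nonneg_left h6 hc0
    have hNr : P.real (NRc u₁ u₂ R) ≤ P.real {σ : Om d | ¬ (gr (Op σ)).Reachable u₁ u₂} := by
      refine measureReal_mono ?_
      intro σ hσ hr
      apply hσ
      refine ⟨rch_of_reach hzz hr, rch_of_reach ?_ hr.symm⟩
      obtain ⟨j, hj⟩ := hzz
      exact ⟨j, by rwa [abs_sub_comm]⟩
    have h8 : cp b (DB e) * (P.real {σ : Om d | ¬ (gr (Op σ)).Reachable u₁ u₂} -
        P.real (NRc u₁ u₂ R)) ≤ 1 * (2 * Q) :=
      mul_le_mul hc1 hstep (by linarith) zero_le_one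
    rw [mul_sub] at h8
    linarith
  -- the limit `k → ∞`
  have hsep : Tendsto (fun k => P.real (SepEv e u₁ u₂ ∩ {σ | Gk e u₁ u₂ k (Op σ)})) atTop
      (𝓝 (P.real (SepEv e u₁ u₂))) := by
    have h1 := tendsto_mono (P := P) (S := fun k => SepEv e u₁ u₂ ∩ {σ | Gk e u₁ u₂ k (Op σ)})
      (fun k m hkm σ hσ => ⟨hσ.1, reach_box_mono hkm hσ.2.1, reach_box_mono hkm hσ.2.2⟩)
    have h2 : (⋃ k, SepEv e u₁ u₂ ∩ {σ | Gk e u₁ u₂ k (Op σ)}) = SepEv e u₁ u₂ := by
      ext σ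
      simp only [Set.mem_iUnion, Set.mem_inter_iff, Set.mem_ofPred_eq]
      constructor
      · rintro ⟨k, h, _⟩; exact h
      · intro h
        obtain ⟨k1, hk1⟩ := reach_fin h.2.2.1
        obtain ⟨k2, hk2⟩ := reach_fin h.2.2.2
        exact ⟨max k1 k2, h, reach_box_mono (le_max_left _ _) hk1,
          reach_box_mono (le_max_right _ _) hk2⟩
    rw [h2] at h1
    exact h1
  have hD : Tendsto (fun k => P.real {σ : Om d | σ e = (true, false, true) ∧ Dk e k (Op σ)}) atTop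
      (𝓝 0) := by
    have h1 := tendsto_anti (P := P)
      (S := fun k => {σ : Om d | σ e = (true, false, true) ∧ Dk e k (Op σ)})
      (fun k => (dep_Op (depDk e k) e _).meas)
      (fun k m hkm σ hσ => ⟨hσ.1, fun hr => hσ.2 (reach_box_mono hkm hr)⟩)
    have h2 : P.real (⋂ k, {σ : Om d | σ e = (true, false, true) ∧ Dk e k (Op σ)}) = 0 := by
      refine le_antisymm ?_ measureReal_nonneg
      rw [← h01 e]
      refine measureReal_mono ?_
      intro σ hσ
      simp only [Set.mem_iInter, Set.mem_ofPred_eq] at hσ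
      refine ⟨(hσ 0).1, fun hr => ?_⟩
      obtain ⟨k, hk⟩ := reach_fin hr
      exact (hσ k).2 hk
    rw [h2] at h1
    exact h1
  have hfin := le_of_tendsto_of_tendsto' hsep
    (hD.const_add (b / (1 - b ^ 2) * (2 * Q + δ))) (fun k => by
      refine le_trans (measureReal_mono ?_) (hk k)
      rintro σ ⟨hσ, hG⟩
      exact ⟨hσ.1, fun hr => hσ.2.1 (reach_mono Set.inter_subset_left hr), hG⟩)
  rwa [add_zero] at hfin

end Pool.Agent.L7h96.RC
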