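import Pool.Agent.L7h96.RC.Cut2
import Pool.Agent.L7h96.RC.TwoB
import Pool.Agent.L7h96.RC.Cur
import Pool.Agent.L7h90.RC.Surg
import Pool.Agent.L7h96.RC.BK
import Pool.Agent.L7h70.RC.QI
import Pool.Agent.L7h70.RC.ZO

set_option autoImplicit false
set_option linter.unusedSectionVars false
set_option linter.unusedSimpArgs false

open Finset MeasureTheory Filter Topology

namespace Pool.Agent.L7h96.RC

variable {d : ℕ}

theorem Op_gm {K₁ K₂ U C : Finset (Ed d)} {σ : Om d} (h1 : Pp σ ⊆ Op σ) (h2 : Qs σ ⊆ Op σ) :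
    Op (gm K₁ K₂ U C σ) =
      (Op σ ∪ ↑U) \ ↑C ∪ symmDiff (Pp σ) ↑K₁ ∪ symmDiff (Qs σ) ↑K₂ := by
  ext e
  have h1' : (σ e).2.1 = true → (σ e).1 = true := fun h => h1 h
  have h2' : (σ e).2.2 = true → (σ e).1 = true := fun h => h2 h
  unfold Op Pp Qs gm
  simp only [Set.mem_ofPred_eq, Set.mem_union, Set.mem_sdiff, Set.mem_symmDiff, mem_coe,
    mem_union]
  by_cases a1 : e ∈ K₁ <;> by_cases a2 : e ∈ K₂ <;> by_cases a3 : e ∈ U <;> by_cases a4 : e ∈ C <;>
    rcases hs : σ e with ⟨x, y, z⟩ <;> rw [hs] at h1' h2' <;>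
    cases x <;> cases y <;> cases z <;> simp_all

/-- the main theorem for the infinite volume law -/
theorem oneEnd_ae {b : ℝ} (hb0 : 0 < b) (hb1 : b < 1) {P : Measure (Om d)}
    (h : IsLim b P) (j : Fin d) : ∀ᵐ σ ∂P, OneEnd (Op σ) := by
  have := h.prob
  have hT : TI P := h.ti hb0.le hb1.le
  have hQ : QI P := fun K₁ K₂ U C h1 h2 => qi d b hb0 hb1 P h K₁ K₂ U C h1 h2
  have hT3 : ∀ᵐ σ ∂P, T3 (Op σ) := BKN.bk d P hT fun n => by
    obtain ⟨c, hc⟩ := hQ ∅ ∅ (edg d n) ∅ (bd_empty _) (bd_empty _)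
    exact ⟨c, fun A hA => by rw [opn_eq]; exact hc A hA⟩
  have hU := uq_ae hT hQ hT3 j
  have c01 := cut01 zo h hb0 hb1 hT hT3 hU
  have c10 := cut10 (twoB_of mx2) h hb0 hb1 hT hT3 hU c01
  have c11 := cut11 h hb0 hb1 hQ hU
  have c00 := cut00 hQ hU
  have hbr : ∀ᵐ σ ∂P, ∀ e, ¬ Br (Op σ) e := by
    refine ae_all_iff.2 fun e => ?_
    have a01 := real_zero_iff.1 (c01 e)
    have a10 := real_zero_iff.1 (c10 e)
    have a11 := real_zero_iff.1 (c11 e)
    have a00 := real_zero_iff.1 (c00 e)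
    filter_upwards [a01, a10, a11, a00] with σ s01 s10 s11 s00 hB
    have he : (σ e).1 = true := hB.1
    rcases hs : σ e with ⟨x, y, z⟩
    rw [hs] at he
    have hx : x = true := he
    subst hx
    cases y <;> cases z
    · exact s00 ⟨hs, hB⟩
    · exact s01 ⟨hs, hB⟩
    · exact s10 ⟨hs, hB⟩
    · exact s11 ⟨hs, hB⟩
  -- the good event
  set N : Set (Om d) := {σ | ¬ (Uq (Op σ) ∧ ∀ e, ¬ Br (Op σ) e)} with hN
  have hNm : MeasurableSet N := by
    have : {σ : Om d | Uq (Op σ) ∧ ∀ e, ¬ Br (Op σ) e} =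
        {σ | Uq (Op σ)} ∩ ⋂ e, {σ | Br (Op σ) e}ᶜ := by
      ext σ
      simp only [Set.mem_ofPred_eq, Set.mem_inter_iff, Set.mem_iInter, Set.mem_compl_iff]
    have h2 : MeasurableSet {σ : Om d | Uq (Op σ) ∧ ∀ e, ¬ Br (Op σ) e} := by
      rw [this]
      exact (meas_uq meas_Op).inter (MeasurableSet.iInter fun e => (meas_br meas_Op e).compl)
    exact h2.compl
  have hN0 : P.real N = 0 := by
    rw [real_zero_iff]
    filter_upwards [hU, hbr] with σ h1 h2 h3
    exact h3 ⟨h1, h2⟩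
  have hall : ∀ᵐ σ ∂P, ∀ K₁ K₂ U C : Finset (Ed d), bd DB K₁ = 0 → bd DB K₂ = 0 →
      gm K₁ K₂ U C σ ∉ N := by
    refine ae_all_iff.2 fun K₁ => ae_all_iff.2 fun K₂ => ae_all_iff.2 fun U =>
      ae_all_iff.2 fun C => ?_
    by_cases h1 : bd DB K₁ = 0
    · by_cases h2 : bd DB K₂ = 0
      · have := qi_null hQ (U := U) (C := C) h1 h2 hNm hN0
        rw [real_zero_iff] at this
        filter_upwards [this] with σ hσ _ _
        exact hσ
      · exact Eventually.of_forall fun σ _ h => absurd h h2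
    · exact Eventually.of_forall fun σ h => absurd h h1
  filter_upwards [hall, h.legit hb0 hb1] with σ hσ hleg
  by_contra hno
  obtain ⟨K₁, K₂, U, C, h1, h2, h3⟩ := Pool.Agent.L7h90.RC.surg d (Op σ) (Pp σ) (Qs σ)
    hleg.1 hleg.2 hno
  apply hσ K₁ K₂ U C h1 h2
  rintro ⟨g1, g2⟩
  rw [Op_gm hleg.1 hleg.2] at g1 g2
  rcases h3 with h3 | ⟨e, he⟩
  · exact h3 g1
  · exact g2 e he

/-! ### identification of the law -/

theorem tanh_pos {x : ℝ} (hx : 0 < x) : 0 < Real.tanh x := by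
  rw [Real.tanh_eq_sinh_div_cosh]
  exact div_pos (Real.sinh_pos_iff.2 hx) (Real.cosh_pos x)

theorem tendsto_tanh {β : ℝ} (hβ : 0 < β) :
    Tendsto (fun h : ℝ => Real.tanh (β * h)) (𝓝[>] 0) (𝓝[>] 0) := by
  refine tendsto_nhdsWithin_iff.2 ⟨?_, ?_⟩
  · have h1 : Continuous (fun h : ℝ => Real.tanh (β * h)) := by
      have : (fun h : ℝ => Real.tanh (β * h)) = fun h => Real.sinh (β * h) / Real.cosh (β * h) := by
        funext h; exact Real.tanh_eq_sinh_div_cosh _
      rw [this]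
      exact (Real.continuous_sinh.comp (continuous_const.mul continuous_id)).div
        (Real.continuous_cosh.comp (continuous_const.mul continuous_id))
        (fun h => (Real.cosh_pos _).ne')
    have h2 := h1.tendsto 0
    simp only [mul_zero, Real.tanh_zero] at h2
    exact h2.mono_left nhdsWithin_le_nhds
  · filter_upwards [self_mem_nhdsWithin] with h hh
    exact tanh_pos (mul_pos hβ hh)

/-- the event that the trace is `η` on `F` -/
def Tr (F η : Finset (Ed d)) : Set (Om d) := {σ | Op σ ∩ ↑F = (↑η : Set (Ed d))}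

theorem dep_Tr (F η : Finset (Ed d)) : Dep F (Tr F η) := by
  intro x y hxy
  unfold Tr
  have : Op x ∩ ↑F = Op y ∩ ↑F := by
    ext e
    simp only [Set.mem_inter_iff, mem_coe]
    constructor
    · rintro ⟨a, c⟩; refine ⟨?_, c⟩; unfold Op at a ⊢; simpa [← hxy e c] using a
    · rintro ⟨a, c⟩; refine ⟨?_, c⟩; unfold Op at a ⊢; simpa [hxy e c] using a
  simp only [Set.mem_ofPred_eq, this]

theorem pn_eq {β h : ℝ} (hβ : 0 < β) (hh : 0 ≤ h) (n : ℕ) {F η : Finset (Ed d)} (hη : η ⊆ F) :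
    pn d n β h F η = EM (Real.tanh β) (Real.tanh (β * h)) n 0 (ind (Tr F η)) := by
  classical
  rw [CurN.cur d n β h hβ hh F η hη]
  unfold EM Zn Y
  congr 1
  refine S3_congr fun ω p q _ _ _ => ?_
  have : ind (Tr F η) ω p q = if ω ∩ F = η then 1 else 0 := by
    have h1 := ind_E (fun O => O ∩ ↑F = (↑η : Set (Ed d))) ω p q
    unfold Tr
    rw [h1]
    refine if_congr ?_ rfl rfl
    rw [← coe_inter, coe_inj]
  rw [this, zero_add]

theorem pn_lim {β h : ℝ} (hβ : 0 < β) (hh : 0 < h) {F η : Finset (Ed d)} (hη : η ⊆ F) :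
    Tendsto (fun n => pn d n β h F η) atTop
      (𝓝 (Loc DB (fun _ => Real.tanh β) F (cg (Real.tanh β) (Real.tanh (β * h)))
        (c0 (Real.tanh β)) 0 (ind (Tr F η)))) := by
  have hb0 := tanh_pos hβ
  have hb1 := Real.tanh_lt_one β
  have hg0 := tanh_pos (mul_pos hβ hh)
  have hg1 := Real.tanh_lt_one (β * h)
  have h1 := tendsto_Loc (D := DB (d := d)) (t := fun _ => Real.tanh β) (F := F)
    (c1_tendsto (d := d) hb0.le hb1.le hg0.le hg1.le) (c2_tendsto (d := d) hb0.le hb1.le) 0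
    (ind (Tr F η))
  refine h1.congr' ?_
  obtain ⟨m, hm⟩ := exists_edg_finset F
  filter_upwards [eventually_ge_atTop m] with n hn
  rw [pn_eq hβ hh.le n hη, ← EM_loc hb0.le hb1 hg0.le hg1.le (hm.trans (edg_mono hn))]
  refine EM_congr fun ω p q _ _ _ => ?_
  exact ind_dep (dep_Tr F η) ω p q

theorem loc_lim {β : ℝ} (hβ : 0 < β) (F η : Finset (Ed d)) :
    Tendsto (fun h => Loc DB (fun _ => Real.tanh β) F (cg (Real.tanh β) (Real.tanh (β * h)))
        (c0 (Real.tanh β)) 0 (ind (Tr F η))) (𝓝[>] 0)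
      (𝓝 (Loc DB (fun _ => Real.tanh β) F (cp (Real.tanh β)) (c0 (Real.tanh β)) 0
        (ind (Tr F η)))) := by
  have hb0 := tanh_pos hβ
  have hb1 := Real.tanh_lt_one β
  have h1 : ∀ C : X d, Tendsto (fun h : ℝ => cg (Real.tanh β) (Real.tanh (β * h)) C) (𝓝[>] 0)
      (𝓝 (cp (Real.tanh β) C)) := fun C => (cg_tendsto hb0.le hb1.le C).comp (tendsto_tanh hβ)
  have h2 : ∀ C : X d, Tendsto (fun _ : ℝ => c0 (Real.tanh β) C) (𝓝[>] 0)
      (𝓝 (c0 (Real.tanh β) C)) := fun C => tendsto_const_nhds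
  exact tendsto_Loc (D := DB (d := d)) (t := fun _ => Real.tanh β) (F := F)
    (u1 := fun h : ℝ => cg (Real.tanh β) (Real.tanh (β * h))) (u2 := fun _ : ℝ => c0 (Real.tanh β))
    h1 h2 0 (ind (Tr F η))

/-- two probability measures on `Ed → Bool` with the same cylinder probabilities -/
theorem measure_eq {μ ν : Measure (Ed d → Bool)} [IsProbabilityMeasure μ] [IsProbabilityMeasure ν]
    (h : ∀ F η : Finset (Ed d), η ⊆ F →
      μ.real {x | {e | x e = true} ∩ ↑F = (↑η : Set (Ed d))} =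
      ν.real {x | {e | x e = true} ∩ ↑F = (↑η : Set (Ed d))}) : μ = ν := by
  classical
  set T : Finset (Ed d) → Finset (Ed d) → Set (Ed d → Bool) := fun F η =>
    {x | {e | x e = true} ∩ ↑F = (↑η : Set (Ed d))} with hT
  have hTd : ∀ F η, Dep F (T F η) := by
    intro F η x y hxy
    have : {e | x e = true} ∩ (↑F : Set (Ed d)) = {e | y e = true} ∩ ↑F := by
      ext e
      simp only [Set.mem_inter_iff, mem_coe, Set.mem_ofPred_eq]
      constructor
      · rintro ⟨a, c⟩; exact ⟨by rw [← hxy e c]; exact a, c⟩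
      · rintro ⟨a, c⟩; exact ⟨by rw [hxy e c]; exact a, c⟩
    simp only [hT, Set.mem_ofPred_eq, this]
  have key : ∀ (ρ : Measure (Ed d → Bool)) [IsProbabilityMeasure ρ] (F : Finset (Ed d))
      (A : Set (Ed d → Bool)), Dep F A → ρ.real A =
      ∑ η ∈ F.powerset.filter (fun η => (fun e => decide (e ∈ η)) ∈ A), ρ.real (T F η) := by
    intro ρ _ F A hA
    rw [← measureReal_biUnion_finset]
    · congr 1
      ext x
      simp only [Set.mem_iUnion, mem_filter, mem_powerset, exists_prop]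
      constructor
      · intro hx
        refine ⟨F.filter (fun e => x e = true), ⟨filter_subset _ _, ?_⟩, ?_⟩
        · refine (hA x _ fun e he => ?_).1 hx
          by_cases hxe : x e = true
          · rw [hxe]; simp [he, hxe]
          · have : x e = false := by simpa using hxe
            rw [this]; simp [he, this]
        · simp only [hT, Set.mem_ofPred_eq]
          ext e
          simp only [Set.mem_inter_iff, Set.mem_ofPred_eq, mem_coe, mem_filter]
          tauto
      · rintro ⟨η, ⟨hη, hηA⟩, hx⟩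
        refine (hA x _ fun e he => ?_).2 hηA
        simp only [hT, Set.mem_ofPred_eq] at hx
        have h1 : (e ∈ {e | x e = true} ∩ (↑F : Set (Ed d))) ↔ e ∈ (↑η : Set (Ed d)) := by rw [hx]
        simp only [Set.mem_inter_iff, Set.mem_ofPred_eq, mem_coe, he, and_true] at h1
        by_cases hxe : x e = true
        · rw [hxe]; simp [h1.1 hxe]
        · have h2 : x e = false := by simpa using hxe
          rw [h2]
          have h3 : e ∉ η := fun h => hxe (h1.2 h)
          simp [h3]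
    · intro η _ η' _ hne
      rw [Function.onFun, Set.disjoint_left]
      intro x hx hx'
      apply hne
      simp only [hT, Set.mem_ofPred_eq] at hx hx'
      rw [hx] at hx'
      exact coe_inj.1 hx'
    · intro η _
      exact (hTd F η).meas
  have heq : ∀ (F : Finset (Ed d)) (A : Set (Ed d → Bool)), Dep F A → μ.real A = ν.real A := by
    intro F A hA
    rw [key μ F A hA, key ν F A hA]
    refine sum_congr rfl fun η hη => ?_
    rw [mem_filter, mem_powerset] at hη
    exact h F η hη.1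
  ext s hs
  have h1 := le_of_dep μ ν (fun F A hA => (heq F A hA).le) hs
  have h2 := le_of_dep ν μ (fun F A hA => (heq F A hA).ge) hs
  have h3 : μ.real s = ν.real s := le_antisymm h1 h2
  exact (measureReal_eq_measureReal_iff).1 h3

end Pool.Agent.L7h96.RC
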