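import Pool.Agent.L7h96.RC.Mble

set_option autoImplicit false
set_option linter.unusedSectionVars false
set_option linter.unusedSimpArgs false

open Finset MeasureTheory Filter Topology

namespace Pool.Agent.L7h96.RC

variable {d : ℕ}

/-- the finite volume expectation converges to the probability -/
theorem IsLim.tendsto {b : ℝ} {P : Measure (Om d)} (h : IsLim b P) (hb0 : 0 < b) (hb1 : b < 1)
    {F : Finset (Ed d)} {S : Set (Om d)} (hS : Dep F S) :
    Tendsto (fun x : ℝ × ℕ => EM b x.1 x.2 0 (ind S)) FF (𝓝 (P.real S)) := by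
  rw [h.loc F S hS]
  exact EM_FF_ind hb0.le hb1 hS 0

theorem Op_conf (ω p q : Finset (Ed d)) : Op (conf ω p q) = ↑ω := by
  ext e
  unfold Op conf
  simp

theorem Pp_conf (ω p q : Finset (Ed d)) : Pp (conf ω p q) = ↑p := by
  ext e
  unfold Pp conf
  simp

theorem Qs_conf (ω p q : Finset (Ed d)) : Qs (conf ω p q) = ↑q := by
  ext e
  unfold Qs conf
  simp

/-- a property of the state of one edge, as a local event -/
theorem dep_state (e : Ed d) (T : Set (Bool × Bool × Bool)) :
    Dep {e} {σ : Om d | σ e ∈ T} := by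
  intro x y h
  have := h e (mem_singleton_self e)
  simp only [Set.mem_ofPred_eq, this]

theorem IsLim.legit {b : ℝ} {P : Measure (Om d)} (h : IsLim b P) (hb0 : 0 < b) (hb1 : b < 1) :
    ∀ᵐ σ ∂P, Pp σ ⊆ Op σ ∧ Qs σ ⊆ Op σ := by
  have := h.prob
  have key : ∀ e : Ed d, P {σ | σ e ∈ {s : Bool × Bool × Bool | s.1 = false ∧
      (s.2.1 = true ∨ s.2.2 = true)}} = 0 := by
    intro e
    have h1 := dep_state e {s : Bool × Bool × Bool | s.1 = false ∧ (s.2.1 = true ∨ s.2.2 = true)}
    have h2 := h.tendsto hb0 hb1 h1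
    have h3 : ∀ x : ℝ × ℕ, EM b x.1 x.2 0 (ind {σ : Om d | σ e ∈ {s : Bool × Bool × Bool |
        s.1 = false ∧ (s.2.1 = true ∨ s.2.2 = true)}}) = 0 := by
      intro x
      have : EM b x.1 x.2 0 (ind {σ : Om d | σ e ∈ {s : Bool × Bool × Bool |
        s.1 = false ∧ (s.2.1 = true ∨ s.2.2 = true)}}) = EM b x.1 x.2 (0 : X d) (fun _ _ _ => 0) := by
        refine EM_congr fun ω p q hω hp hq => ?_
        unfold ind
        rw [if_neg]
        rintro ⟨h1, h2⟩
        unfold conf at h1 h2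
        simp only [decide_eq_false_iff_not, decide_eq_true_eq] at h1 h2
        rcases h2 with h2 | h2
        · exact h1 (hp h2)
        · exact h1 (hq h2)
      rw [this]
      unfold EM Y
      simp [S3]
    simp only [h3] at h2
    have h4 := tendsto_nhds_unique h2 tendsto_const_nhds
    rw [Measure.real, ENNReal.toReal_eq_zero_iff] at h4
    rcases h4 with h4 | h4
    · exact h4
    · exact absurd h4 (measure_ne_top _ _)
  have h2 : ∀ᵐ σ ∂P, ∀ e : Ed d, ¬ (σ e ∈ {s : Bool × Bool × Bool | s.1 = false ∧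
      (s.2.1 = true ∨ s.2.2 = true)}) := ae_all_iff.2 fun e => by
    rw [ae_iff]
    simp only [not_not]
    exact key e
  filter_upwards [h2] with σ hσ
  constructor
  · intro e he
    by_contra hn
    apply hσ e
    refine ⟨?_, Or.inl he⟩
    unfold Op at hn
    simpa using hn
  · intro e he
    by_contra hn
    apply hσ e
    refine ⟨?_, Or.inr he⟩
    unfold Op at hn
    simpa using hn

theorem evAt_iff (p : Set (Ed d)) (K : Finset (Ed d)) (h : p = ↑K) (v : V d) :
    EvAt p v ↔ bd DB K v = 0 := by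
  classical
  unfold EvAt
  rw [bd_apply_inc p K v (fun e _ => by rw [h, mem_coe])]

theorem dep_ev (f : Bool × Bool × Bool → Bool) (v : V d) :
    Dep (inc v) {σ : Om d | ¬ EvAt {e | f (σ e) = true} v} := by
  classical
  intro x y h
  simp only [Set.mem_ofPred_eq]
  unfold EvAt
  refine not_congr (Eq.congr_left (sum_congr rfl fun e he => ?_))
  have hm : (e ∈ {e | f (x e) = true}) ↔ (e ∈ {e | f (y e) = true}) := by
    simp only [Set.mem_ofPred_eq, h e he]
  by_cases hf : e ∈ {e | f (x e) = true}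
  · rw [if_pos hf, if_pos (hm.1 hf)]
  · rw [if_neg hf, if_neg (fun h => hf (hm.2 h))]

theorem IsLim.evQ {b : ℝ} {P : Measure (Om d)} (h : IsLim b P) (hb0 : 0 < b) (hb1 : b < 1) :
    ∀ᵐ σ ∂P, Evn (Qs σ) := by
  have := h.prob
  refine ae_all_iff.2 fun v => ?_
  have h1 : Dep (inc v) {σ : Om d | ¬ EvAt (Qs σ) v} := dep_ev (fun s => s.2.2) v
  have h2 := h.tendsto hb0 hb1 h1
  have h3 : ∀ x : ℝ × ℕ, EM b x.1 x.2 0 (ind {σ : Om d | ¬ EvAt (Qs σ) v}) = 0 := by
    intro x
    unfold EM Y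
    have : S3 (edg d x.2) (fun ω p q => W (fun _ => b) (edg d x.2) ω p q *
        ind {σ : Om d | ¬ EvAt (Qs σ) v} ω p q * Gf x.2 x.1 (0 + bd DB p) *
        (if bd DB q = 0 then 1 else 0)) = S3 (edg d x.2) (fun _ _ _ => (0:ℝ)) := by
      refine S3_congr fun ω p q _ _ _ => ?_
      by_cases hq : bd DB q = 0
      · have : ind {σ : Om d | ¬ EvAt (Qs σ) v} ω p q = 0 := by
          unfold ind
          rw [if_neg]
          intro hn
          apply hn
          rw [evAt_iff _ q (Qs_conf ω p q), hq]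
          rfl
        rw [this]
        ring
      · rw [if_neg hq, mul_zero]
    rw [this]
    simp [S3]
  simp only [h3] at h2
  have h4 := tendsto_nhds_unique h2 tendsto_const_nhds
  rw [Measure.real, ENNReal.toReal_eq_zero_iff] at h4
  rw [ae_iff]
  rcases h4 with h4 | h4
  · exact h4
  · exact absurd h4 (measure_ne_top _ _)

/-- the boundary of a set of ghost edges -/
theorem bd_DG_apply (s : Finset (V d)) (v : V d) : bd DG s v = if v ∈ s then 1 else 0 := by
  classical
  unfold bd DG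
  rw [Finsupp.finsetSum_apply]
  simp only [Finsupp.single_apply]
  rw [sum_ite_eq' s v]

theorem Gf_odd {g : ℝ} {n : ℕ} {v : V d} (hv : v ∈ box d n) {C : X d} (hC : C v ≠ 0) :
    Gf n g C = g * zz DG (fun _ => g) ((box d n).erase v) (C + DG v) := by
  classical
  unfold Gf
  conv_lhs => rw [← insert_erase hv]
  rw [zz_insert DG _ (notMem_erase v _)]
  have : zz DG (fun _ => g) ((box d n).erase v) C = 0 := by
    unfold zz
    refine sum_eq_zero fun s hs => ?_
    rw [if_neg]
    intro h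
    apply hC
    rw [← h, bd_DG_apply, if_neg]
    intro hvs
    exact notMem_erase v _ (mem_powerset.1 hs hvs)
  rw [this, zero_add]

theorem evP_bound {b g : ℝ} (hb0 : 0 ≤ b) (hb1 : b < 1) (hg0 : 0 ≤ g) (hg1 : g ≤ 1) {n : ℕ}
    {v : V d} (hv : v ∈ box d n) :
    EM b g n 0 (ind {σ : Om d | ¬ EvAt (Pp σ) v}) ≤ g := by
  classical
  have hZ := Zn_pos (d := d) hb0 hb1 hg0 hg1 n
  unfold EM
  rw [div_le_iff₀ hZ]
  set G' : X d → ℝ := zz DG (fun _ => g) ((box d n).erase v) with hG'
  have h1 : Y DB (fun _ => b) (edg d n) (Gf n g) 0 0 (ind {σ : Om d | ¬ EvAt (Pp σ) v}) ≤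
      Y DB (fun _ => b) (edg d n) (fun C => g * G' C) (DG v) 0 (fun _ _ _ => 1) := by
    unfold Y
    refine S3_le fun ω p q _ _ _ => ?_
    have hW := W_nonneg (fun (_ : Ed d) => hb0) (fun _ => hb1.le) (edg d n) ω p q
    have hG0 : 0 ≤ g * G' (DG v + bd DB p) := mul_nonneg hg0 (zz_nonneg (fun _ => hg0) _)
    have key : ind {σ : Om d | ¬ EvAt (Pp σ) v} ω p q * Gf n g (0 + bd DB p) ≤
        g * G' (DG v + bd DB p) := by
      by_cases hp : bd DB p v = 0
      · have : ind {σ : Om d | ¬ EvAt (Pp σ) v} ω p q = 0 := by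
          unfold ind
          rw [if_neg]
          intro hn
          apply hn
          rw [evAt_iff _ p (Pp_conf ω p q), hp]
        rw [this, zero_mul]
        exact hG0
      · rw [zero_add, Gf_odd hv hp, add_comm (DG v)]
        rw [add_comm (DG v)] at hG0
        have h1 := ind_le_one {σ : Om d | ¬ EvAt (Pp σ) v} ω p q
        calc _ ≤ 1 * (g * zz DG (fun _ => g) ((box d n).erase v) (bd DB p + DG v)) :=
              mul_le_mul_of_nonneg_right h1 hG0
          _ = _ := by rw [one_mul]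
    have hlast : (0:ℝ) ≤ (if bd DB q = 0 then 1 else 0) := by split_ifs <;> norm_num
    have := mul_le_mul_of_nonneg_left key hW
    have h3 := mul_le_mul_of_nonneg_right this hlast
    calc _ = W (fun _ => b) (edg d n) ω p q * (ind {σ : Om d | ¬ EvAt (Pp σ) v} ω p q *
          Gf n g (0 + bd DB p)) * (if bd DB q = 0 then 1 else 0) := by ring
      _ ≤ _ := h3
      _ = _ := by ring
  refine h1.trans ?_
  rw [Y_one]
  have h2 : zG DB (fun _ => b) (edg d n) (fun C => g * G' C) (DG v) =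
      g * zz DD (tt b g) ((edg d n).disjSum ((box d n).erase v)) (DG v) := by
    rw [← zG_zz]
    unfold zG
    rw [mul_sum]
    refine sum_congr rfl fun p _ => ?_
    rw [hG']
    ring
  rw [h2]
  have h3 : zz DD (tt b g) ((edg d n).disjSum ((box d n).erase v)) (DG v) ≤
      zz DD (tt b g) (II d n) 0 := by
    have h4 : zz DD (tt b g) ((edg d n).disjSum ((box d n).erase v)) (DG v) ≤
        zz DD (tt b g) ((edg d n).disjSum ((box d n).erase v)) 0 :=
      zz_le_zero (tt_nonneg hb0 hg0) (tt_le_one hb1.le hg1) _ _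
    refine h4.trans ?_
    have h5 : (edg d n).disjSum ((box d n).erase v) ⊆ II d n :=
      disjSum_mono (Subset.refl _) (erase_subset _ _)
    unfold zz
    refine sum_le_sum_of_subset_of_nonneg (powerset_mono.2 h5) fun p _ _ => ?_
    split_ifs
    · exact tw_nonneg fun i _ => tt_nonneg hb0 hg0 i
    · exact le_rfl
  have h6 : 0 ≤ zz DB (fun _ => b) (edg d n) 0 := zz_nonneg (fun _ => hb0) _
  unfold Zn
  calc g * zz DD (tt b g) ((edg d n).disjSum ((box d n).erase v)) (DG v) *
      zz DB (fun _ => b) (edg d n) 0 ≤ g * zz DD (tt b g) (II d n) 0 *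
      zz DB (fun _ => b) (edg d n) 0 :=
        mul_le_mul_of_nonneg_right (mul_le_mul_of_nonneg_left h3 hg0) h6
    _ = _ := by ring

theorem FF_fst : Tendsto (fun x : ℝ × ℕ => x.1) FF (𝓝 0) :=
  FF_tendsto (u := fun g _ => g) (v := fun g => g)
    (Eventually.of_forall fun _ => tendsto_const_nhds) (tendsto_nhdsWithin_of_tendsto_nhds tendsto_id)

theorem IsLim.evP {b : ℝ} {P : Measure (Om d)} (h : IsLim b P) (hb0 : 0 < b) (hb1 : b < 1) :
    ∀ᵐ σ ∂P, Evn (Pp σ) := by
  have := h.prob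
  refine ae_all_iff.2 fun v => ?_
  have h1 : Dep (inc v) {σ : Om d | ¬ EvAt (Pp σ) v} := dep_ev (fun s => s.2.1) v
  have h2 := h.tendsto hb0 hb1 h1
  obtain ⟨n, hn⟩ := exists_box v
  have h3 : P.real {σ : Om d | ¬ EvAt (Pp σ) v} ≤ 0 := by
    refine le_of_tendsto_of_tendsto h2 FF_fst ?_
    filter_upwards [FF_good hb0.le hb1 n] with x hx
    exact evP_bound hb0.le hb1 hx.1.1.le hx.1.2.le (box_mono hx.2 hn)
  have h4 : P.real {σ : Om d | ¬ EvAt (Pp σ) v} = 0 := le_antisymm h3 measureReal_nonneg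
  rw [Measure.real, ENNReal.toReal_eq_zero_iff] at h4
  rw [ae_iff]
  rcases h4 with h4 | h4
  · exact h4
  · exact absurd h4 (measure_ne_top _ _)

/-- a property of the open edges in `F` -/
def DepO (F : Finset (Ed d)) (E : Set (Ed d) → Prop) : Prop :=
  ∀ O O' : Set (Ed d), (∀ e ∈ F, (e ∈ O ↔ e ∈ O')) → (E O ↔ E O')

theorem dep_Op {F : Finset (Ed d)} {E : Set (Ed d) → Prop} (h : DepO F E) (e : Ed d)
    (s : Bool × Bool × Bool) : Dep (insert e F) {σ : Om d | σ e = s ∧ E (Op σ)} := by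
  intro x y hxy
  have h1 : x e = y e := hxy e (mem_insert_self e F)
  have h2 : E (Op x) ↔ E (Op y) := h _ _ fun e' he' => by
    unfold Op
    simp only [Set.mem_ofPred_eq, hxy e' (mem_insert_of_mem he')]
  simp only [Set.mem_ofPred_eq, h1, h2]

theorem ind_state (e : Ed d) (E : Set (Ed d) → Prop) (s : Bool × Bool × Bool)
    (ω p q : Finset (Ed d)) [Decidable (E ↑ω)] :
    ind {σ : Om d | σ e = s ∧ E (Op σ)} ω p q =
      if ((decide (e ∈ ω), decide (e ∈ p), decide (e ∈ q)) = s ∧ E ↑ω) then 1 else 0 := by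
  unfold ind
  have : (conf ω p q ∈ {σ : Om d | σ e = s ∧ E (Op σ)}) ↔
      ((decide (e ∈ ω), decide (e ∈ p), decide (e ∈ q)) = s ∧ E ↑ω) := by
    simp only [Set.mem_ofPred_eq, Op_conf]
    rfl
  simp only [this]

theorem IsLim.flux01 {b : ℝ} {P : Measure (Om d)} (h : IsLim b P) (hb0 : 0 < b) (hb1 : b < 1)
    {F : Finset (Ed d)} {E : Set (Ed d) → Prop} (hE : DepO F E) (e : Ed d) :
    P.real {σ | σ e = (true, false, true) ∧ E (Op σ)} ≤
      P.real {σ | σ e = (true, true, false) ∧ E (Op σ)} := by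
  classical
  refine le_of_tendsto_of_tendsto (h.tendsto hb0 hb1 (dep_Op hE e _))
    (h.tendsto hb0 hb1 (dep_Op hE e _)) ?_
  filter_upwards [FF_good hb0.le hb1 0] with x hx
  unfold EM
  refine div_le_div_of_nonneg_right ?_ (Zn_pos hb0.le hb1 hx.1.1.le hx.1.2.le x.2).le
  have hf := flux_le (D := DB (d := d)) (t := fun _ => b) (fun _ => hb0.le) (fun _ => hb1.le)
    (I := edg d x.2) (Gf_nonneg hx.1.1.le x.2) (A := 0)
    (F := fun ω r => if e ∈ ω ∧ e ∈ r ∧ E ↑ω then 1 else 0)
    (fun ω r => by split_ifs <;> norm_num) e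
  refine le_trans (le_of_eq ?_) (hf.trans (le_of_eq ?_))
  · refine Y_congr fun ω p q _ hp hq => ?_
    rw [ind_state]
    by_cases h1 : e ∈ ω <;> by_cases h2 : e ∈ p <;> by_cases h3 : e ∈ q <;>
      simp [h1, h2, h3, mem_symmDiff]
  · refine Y_congr fun ω p q _ hp hq => ?_
    rw [ind_state]
    by_cases h1 : e ∈ ω <;> by_cases h2 : e ∈ p <;> by_cases h3 : e ∈ q <;>
      simp [h1, h2, h3, mem_symmDiff]

theorem IsLim.flux11 {b : ℝ} {P : Measure (Om d)} (h : IsLim b P) (hb0 : 0 < b) (hb1 : b < 1)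
    {F : Finset (Ed d)} {E : Set (Ed d) → Prop} (hE : DepO F E) (e : Ed d) :
    P.real {σ | σ e = (true, true, true) ∧ E (Op σ)} ≤
      P.real {σ | σ e = (true, false, false) ∧ E (Op σ)} := by
  classical
  refine le_of_tendsto_of_tendsto (h.tendsto hb0 hb1 (dep_Op hE e _))
    (h.tendsto hb0 hb1 (dep_Op hE e _)) ?_
  filter_upwards [FF_good hb0.le hb1 0] with x hx
  unfold EM
  refine div_le_div_of_nonneg_right ?_ (Zn_pos hb0.le hb1 hx.1.1.le hx.1.2.le x.2).le
  have hf := flux_le (D := DB (d := d)) (t := fun _ => b) (fun _ => hb0.le) (fun _ => hb1.le)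
    (I := edg d x.2) (Gf_nonneg hx.1.1.le x.2) (A := 0)
    (F := fun ω r => if e ∈ ω ∧ e ∉ r ∧ E ↑ω then 1 else 0)
    (fun ω r => by split_ifs <;> norm_num) e
  refine le_trans (le_of_eq ?_) (hf.trans (le_of_eq ?_))
  · refine Y_congr fun ω p q _ hp hq => ?_
    rw [ind_state]
    by_cases h1 : e ∈ ω <;> by_cases h2 : e ∈ p <;> by_cases h3 : e ∈ q <;>
      simp [h1, h2, h3, mem_symmDiff]
  · refine Y_congr fun ω p q _ hp hq => ?_
    rw [ind_state]
    by_cases h1 : e ∈ ω <;> by_cases h2 : e ∈ p <;> by_cases h3 : e ∈ q <;>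
      simp [h1, h2, h3, mem_symmDiff]

end Pool.Agent.L7h96.RC
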