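import Pool.Agent.L7h96.RC.Defs

set_option autoImplicit false

open Finset MeasureTheory

namespace Pool.Agent.L7h96.RC

variable {d : ℕ}

/-- the weights `J^k/k!` on `ℕ` -/
noncomputable def wm (J : ℝ) : Measure ℕ :=
  Measure.sum (fun k => ENNReal.ofReal (J ^ k / k.factorial) • Measure.dirac k)

/-- currents on the edges of the box and on the ghost edges -/
abbrev Cur (d n : ℕ) : Type := (↥(edg d n) → ℕ) × (↥(box d n) → ℕ)

/-- sourceless currents -/
def Srcless (d n : ℕ) : Set (Cur d n) :=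
  {m | ∀ x : ↥(box d n),
    Even ((∑ e : ↥(edg d n), if e.1.1 = x.1 ∨ tg e.1 = x.1 then m.1 e else 0) + m.2 x)}

/-- the law of a sourceless current -/
noncomputable def PC (d n : ℕ) (β h : ℝ) : Measure (Cur d n) :=
  ProbabilityTheory.cond
    ((Measure.pi fun _ => wm β).prod (Measure.pi fun _ => wm (β * h))) (Srcless d n)

/-- the trace on the edges of the box of the sum of two currents -/
def trace {n : ℕ} (m : Cur d n × Cur d n) : Set (Ed d) :=
  {e | ∃ h : e ∈ edg d n, 0 < m.1.1 ⟨e, h⟩ + m.2.1 ⟨e, h⟩}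

/-- the probability that the trace coincides with `η` on `F` -/
noncomputable def pn (d n : ℕ) (β h : ℝ) (F η : Finset (Ed d)) : ℝ :=
  ((PC d n β h).prod (PC d n β 0)).real {m | trace m ∩ ↑F = (↑η : Set (Ed d))}

/-- boundary of a ghost edge -/
noncomputable def DG (x : V d) : X d := Finsupp.single x 1

/-- ghost weight: sum over sets of ghost edges with given boundary -/
noncomputable def Gf (n : ℕ) (g : ℝ) (C : X d) : ℝ := zz DG (fun _ => g) (box d n) C

/-- hyperedges: edges and ghost edges -/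
abbrev HE (d : ℕ) : Type := Ed d ⊕ V d

/-- boundary of a hyperedge -/
noncomputable def DD : HE d → X d := Sum.elim DB DG

/-- all hyperedges of the box -/
noncomputable def II (d n : ℕ) : Finset (HE d) := (edg d n).disjSum (box d n)

/-- weights of the hyperedges -/
def tt (b g : ℝ) : HE d → ℝ := Sum.elim (fun _ => b) (fun _ => g)

/-- statement of the dictionary between integer currents and their parities -/
def S_CUR : Prop :=
  ∀ (d n : ℕ) (β h : ℝ), 0 < β → 0 ≤ h → ∀ F η : Finset (Ed d), η ⊆ F →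
    pn d n β h F η =
      S3 (edg d n) (fun ω p q => W (fun _ => Real.tanh β) (edg d n) ω p q *
        (if ω ∩ F = η then 1 else 0) * Gf n (Real.tanh (β * h)) (bd DB p) *
        (if bd DB q = 0 then 1 else 0)) /
      (zz DD (tt (Real.tanh β) (Real.tanh (β * h))) (II d n) 0 *
        zz DB (fun _ => Real.tanh β) (edg d n) 0)

/-- statement of the mixing inequality in finite volume -/
def S_MIX : Prop :=
  ∀ (d n : ℕ) (b g : ℝ), 0 ≤ b → b ≤ 1 → 0 ≤ g → g ≤ 1 → ∀ (A B : X d) (r : ℕ),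
    (∀ x ∈ A.support, ∀ y ∈ B.support, ∃ j, (r : ℤ) ≤ |x j - y j|) →
    zz DD (tt b g) (II d n) (A + B) * zz DD (tt b g) (II d n) 0 -
        zz DD (tt b g) (II d n) A * zz DD (tt b g) (II d n) B ≤
      A.support.card * (1 - g ^ 2) ^ r *
        (zz DD (tt b g) (II d n) (A + B) * zz DD (tt b g) (II d n) 0)

/-- statement of the surgery -/
def S_SURG : Prop :=
  ∀ (d : ℕ) (O p q : Set (Ed d)), p ⊆ O → q ⊆ O → ¬ OneEnd O →
    ∃ K₁ K₂ U C : Finset (Ed d), bd DB K₁ = 0 ∧ bd DB K₂ = 0 ∧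
      (¬ Uq ((O ∪ ↑U) \ ↑C ∪ symmDiff p ↑K₁ ∪ symmDiff q ↑K₂) ∨
        ∃ e, Br ((O ∪ ↑U) \ ↑C ∪ symmDiff p ↑K₁ ∪ symmDiff q ↑K₂) e)

end Pool.Agent.L7h96.RC
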