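import Pool.Agent.L7h96.RC.Alg2
import Pool.Agent.L7h96.RC.Conn
import Pool.Agent.L7h96.RC.Model

set_option autoImplicit false
set_option linter.unusedSectionVars false
set_option linter.unusedSimpArgs false

open Finset Filter Topology

namespace Pool.Agent.L7h96.RC

theorem zz_map {ι ι' X X' : Type} [DecidableEq ι] [DecidableEq ι'] [AddCommGroup X]
    [AddCommGroup X'] [DecidableEq X] [DecidableEq X'] [E2 X] [E2 X']
    {D : ι → X} {D' : ι' → X'} {t : ι → ℝ} {t' : ι' → ℝ} (φ : ι ↪ ι') (ψ : X →+ X')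
    (hψ : Function.Injective ψ) (hD : ∀ i, D' (φ i) = ψ (D i)) (ht : ∀ i, t' (φ i) = t i)
    (I : Finset ι) (A : X) : zz D' t' (I.map φ) (ψ A) = zz D t I A := by
  induction I using Finset.induction_on generalizing A with
  | empty =>
    unfold zz
    rw [map_empty, powerset_empty, sum_singleton, powerset_empty, sum_singleton, bd_empty,
      bd_empty]
    by_cases h : (0 : X) = A
    · rw [if_pos h, if_pos (by rw [← h, map_zero])]; simp
    · rw [if_neg h, if_neg]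
      intro h'
      apply h
      apply hψ
      rw [← h', map_zero]
  | @insert i I hi ih =>
    rw [map_insert, zz_insert D' t' (by simpa using hi), zz_insert D t hi, hD, ← map_add, ih, ih,
      ht]

variable {d : ℕ}

/-- shift of chains -/
noncomputable def shX (v : V d) : X d →+ X d :=
  Finsupp.mapDomain.addMonoidHom (fun w => w + v)

theorem shX_single (v w : V d) (a : ZMod 2) :
    shX v (Finsupp.single w a) = Finsupp.single (w + v) a := by
  unfold shX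
  exact Finsupp.mapDomain_single

theorem shX_inj (v : V d) : Function.Injective (shX v) :=
  Finsupp.mapDomain_injective (add_left_injective v)

theorem shX_DB (v : V d) (e : Ed d) : shX v (DB e) = DB (shE v e) := by
  unfold DB
  rw [map_add, shX_single, shX_single, tg_shE]
  rfl

theorem shX_DG (v x : V d) : shX v (DG x) = DG (x + v) := shX_single _ _ _

theorem shX_shX (u v : V d) (A : X d) : shX u (shX v A) = shX (v + u) A := by
  induction A using Finsupp.induction_linear with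
  | zero => simp
  | add f g hf hg => simp only [map_add, hf, hg]
  | single w a => rw [shX_single, shX_single, shX_single, add_assoc]

theorem shX_zero (A : X d) : shX 0 A = A := by
  induction A using Finsupp.induction_linear with
  | zero => simp
  | add f g hf hg => simp only [map_add, hf, hg]
  | single w a => rw [shX_single, add_zero]

/-- correlations with the ghost -/
noncomputable def c1 (b g : ℝ) (n : ℕ) (A : X d) : ℝ := corr DD (tt b g) (II d n) A

/-- correlations without the ghost -/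
noncomputable def c2 (b : ℝ) (n : ℕ) (A : X d) : ℝ := corr DB (fun _ => b) (edg d n) A

/-- infinite volume correlations with the ghost -/
noncomputable def cg (b g : ℝ) (A : X d) : ℝ := ⨆ n, c1 b g n A

/-- infinite volume correlations without the ghost -/
noncomputable def c0 (b : ℝ) (A : X d) : ℝ := ⨆ n, c2 b n A

/-- limit of the ghost weight to `0` -/
noncomputable def cp (b : ℝ) (A : X d) : ℝ := sInf ((fun g => cg b g A) '' Set.Ioo 0 1)

theorem II_mono {m n : ℕ} (h : m ≤ n) : II d m ⊆ II d n :=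
  disjSum_mono (edg_mono h) (box_mono h)

theorem tt_nonneg {b g : ℝ} (hb : 0 ≤ b) (hg : 0 ≤ g) (i : HE d) : 0 ≤ tt b g i := by
  cases i <;> assumption

theorem tt_le_one {b g : ℝ} (hb : b ≤ 1) (hg : g ≤ 1) (i : HE d) : tt b g i ≤ 1 := by
  cases i <;> assumption

section bounds

variable {b g : ℝ} (hb0 : 0 ≤ b) (hb1 : b ≤ 1) (hg0 : 0 ≤ g) (hg1 : g ≤ 1)
include hb0 hb1

theorem c2_nonneg (n : ℕ) (A : X d) : 0 ≤ c2 b n A := corr_nonneg (fun _ => hb0) _ _

theorem c2_le_one (n : ℕ) (A : X d) : c2 b n A ≤ 1 := corr_le_one (fun _ => hb0) (fun _ => hb1) _ _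

theorem c2_mono (A : X d) : Monotone (fun n => c2 b n A) := fun _ _ h =>
  corr_subset_le (fun _ => hb0) (fun _ => hb1) (edg_mono h) A

theorem c2_tendsto (A : X d) : Tendsto (fun n => c2 b n A) atTop (𝓝 (c0 b A)) :=
  tendsto_atTop_ciSup (c2_mono hb0 hb1 A) ⟨1, by rintro _ ⟨n, rfl⟩; exact c2_le_one hb0 hb1 n A⟩

theorem c2_le_c0 (n : ℕ) (A : X d) : c2 b n A ≤ c0 b A :=
  (c2_mono hb0 hb1 A).ge_of_tendsto (c2_tendsto hb0 hb1 A) n

theorem c0_nonneg (A : X d) : 0 ≤ c0 b A :=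
  ge_of_tendsto' (c2_tendsto hb0 hb1 A) fun n => c2_nonneg hb0 hb1 n A

theorem c0_le_one (A : X d) : c0 b A ≤ 1 :=
  le_of_tendsto' (c2_tendsto hb0 hb1 A) fun n => c2_le_one hb0 hb1 n A

include hg0 hg1

theorem c1_nonneg (n : ℕ) (A : X d) : 0 ≤ c1 b g n A := corr_nonneg (tt_nonneg hb0 hg0) _ _

theorem c1_le_one (n : ℕ) (A : X d) : c1 b g n A ≤ 1 :=
  corr_le_one (tt_nonneg hb0 hg0) (tt_le_one hb1 hg1) _ _

theorem c1_mono (A : X d) : Monotone (fun n => c1 b g n A) := fun _ _ h =>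
  corr_subset_le (tt_nonneg hb0 hg0) (tt_le_one hb1 hg1) (II_mono h) A

theorem c1_tendsto (A : X d) : Tendsto (fun n => c1 b g n A) atTop (𝓝 (cg b g A)) :=
  tendsto_atTop_ciSup (c1_mono hb0 hb1 hg0 hg1 A)
    ⟨1, by rintro _ ⟨n, rfl⟩; exact c1_le_one hb0 hb1 hg0 hg1 n A⟩

theorem c1_le_cg (n : ℕ) (A : X d) : c1 b g n A ≤ cg b g A :=
  (c1_mono hb0 hb1 hg0 hg1 A).ge_of_tendsto (c1_tendsto hb0 hb1 hg0 hg1 A) n

theorem cg_nonneg (A : X d) : 0 ≤ cg b g A :=
  ge_of_tendsto' (c1_tendsto hb0 hb1 hg0 hg1 A) fun n => c1_nonneg hb0 hb1 hg0 hg1 n A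

theorem cg_le_one (A : X d) : cg b g A ≤ 1 :=
  le_of_tendsto' (c1_tendsto hb0 hb1 hg0 hg1 A) fun n => c1_le_one hb0 hb1 hg0 hg1 n A

theorem cg_gks (A B : X d) : cg b g A * cg b g B ≤ cg b g (A + B) :=
  le_of_tendsto_of_tendsto' ((c1_tendsto hb0 hb1 hg0 hg1 A).mul (c1_tendsto hb0 hb1 hg0 hg1 B))
    (c1_tendsto hb0 hb1 hg0 hg1 (A + B)) fun n =>
      corr_gks (tt_nonneg hb0 hg0) (tt_le_one hb1 hg1) _ A B

theorem cg_zero : cg b g (0 : X d) = 1 :=
  tendsto_nhds_unique (c1_tendsto hb0 hb1 hg0 hg1 0)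
    ((tendsto_const_nhds).congr fun n => (corr_zero (tt_nonneg hb0 hg0) _).symm)

end bounds

theorem add_mem_box {m n : ℕ} {v w : V d} (hv : v ∈ box d m) (hw : w ∈ box d n) :
    w + v ∈ box d (n + m) := by
  rw [mem_box] at *
  intro j
  have := abs_add_le (w j) (v j)
  have h1 := hv j
  have h2 := hw j
  simp only [Pi.add_apply]
  push_cast
  linarith

/-- shift of hyperedges -/
def shH (v : V d) : HE d ↪ HE d where
  toFun := Sum.map (shE v) (fun w => w + v)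
  inj' := by
    apply Function.Injective.sumMap
    · exact (shEq v).injective
    · exact add_left_injective v

theorem c1_shift_le {b g : ℝ} (hb0 : 0 ≤ b) (hb1 : b ≤ 1) (hg0 : 0 ≤ g) (hg1 : g ≤ 1)
    {m : ℕ} {v : V d} (hv : v ∈ box d m) (n : ℕ) (A : X d) :
    c1 b g n A ≤ c1 b g (n + m) (shX v A) := by
  have h1 : ∀ C : X d, zz DD (tt b g) ((II d n).map (shH v)) (shX v C) =
      zz DD (tt b g) (II d n) C := by
    intro C
    refine zz_map (shH v) (shX v) (shX_inj v) ?_ ?_ _ _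
    · intro i
      cases i with
      | inl e => exact (shX_DB v e).symm
      | inr x => exact (shX_DG v x).symm
    · intro i
      cases i <;> rfl
  have h2 : c1 b g n A = corr DD (tt b g) ((II d n).map (shH v)) (shX v A) := by
    unfold c1 corr
    rw [h1]
    have := h1 0
    rw [map_zero] at this
    rw [this]
  rw [h2]
  refine corr_subset_le (tt_nonneg hb0 hg0) (tt_le_one hb1 hg1) ?_ _
  intro i hi
  rw [Finset.mem_map] at hi
  obtain ⟨k, hk, rfl⟩ := hi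
  cases k with
  | inl e =>
    have he : e ∈ edg d n := by simpa [II] using hk
    show Sum.inl (shE v e) ∈ II d (n + m)
    unfold II
    rw [inl_mem_disjSum, mem_edg, tg_shE, shE_fst]
    rw [mem_edg] at he
    exact ⟨add_mem_box hv he.1, add_mem_box hv he.2⟩
  | inr x =>
    have hx : x ∈ box d n := by simpa [II] using hk
    show Sum.inr (x + v) ∈ II d (n + m)
    unfold II
    rw [inr_mem_disjSum]
    exact add_mem_box hv hx

theorem c2_shift_le {b : ℝ} (hb0 : 0 ≤ b) (hb1 : b ≤ 1)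
    {m : ℕ} {v : V d} (hv : v ∈ box d m) (n : ℕ) (A : X d) :
    c2 b n A ≤ c2 b (n + m) (shX v A) := by
  have h1 : ∀ C : X d, zz DB (fun _ => b) ((edg d n).map (shEq v).toEmbedding) (shX v C) =
      zz DB (fun _ => b) (edg d n) C := by
    intro C
    refine zz_map (shEq v).toEmbedding (shX v) (shX_inj v) ?_ ?_ _ _
    · intro i; exact (shX_DB v i).symm
    · intro i; rfl
  have h2 : c2 b n A = corr DB (fun _ => b) ((edg d n).map (shEq v).toEmbedding) (shX v A) := by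
    unfold c2 corr
    rw [h1]
    have := h1 0
    rw [map_zero] at this
    rw [this]
  rw [h2]
  refine corr_subset_le (fun _ => hb0) (fun _ => hb1) ?_ _
  intro i hi
  rw [Finset.mem_map] at hi
  obtain ⟨e, he, rfl⟩ := hi
  show shE v e ∈ edg d (n + m)
  rw [mem_edg] at he
  rw [mem_edg, tg_shE, shE_fst]
  exact ⟨add_mem_box hv he.1, add_mem_box hv he.2⟩

theorem cg_shift {b g : ℝ} (hb0 : 0 ≤ b) (hb1 : b ≤ 1) (hg0 : 0 ≤ g) (hg1 : g ≤ 1)
    (v : V d) (A : X d) : cg b g (shX v A) = cg b g A := by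
  have key : ∀ (v : V d) (A : X d), cg b g A ≤ cg b g (shX v A) := by
    intro v A
    obtain ⟨m, hm⟩ := exists_box v
    refine le_of_tendsto' (c1_tendsto hb0 hb1 hg0 hg1 A) fun n => ?_
    exact (c1_shift_le hb0 hb1 hg0 hg1 hm n A).trans (c1_le_cg hb0 hb1 hg0 hg1 _ _)
  refine le_antisymm ?_ (key v A)
  have := key (-v) (shX v A)
  rwa [shX_shX, add_neg_cancel, shX_zero] at this

theorem c0_shift {b : ℝ} (hb0 : 0 ≤ b) (hb1 : b ≤ 1)
    (v : V d) (A : X d) : c0 b (shX v A) = c0 b A := by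
  have key : ∀ (v : V d) (A : X d), c0 b A ≤ c0 b (shX v A) := by
    intro v A
    obtain ⟨m, hm⟩ := exists_box v
    refine le_of_tendsto' (c2_tendsto hb0 hb1 A) fun n => ?_
    exact (c2_shift_le hb0 hb1 hm n A).trans (c2_le_c0 hb0 hb1 _ _)
  refine le_antisymm ?_ (key v A)
  have := key (-v) (shX v A)
  rwa [shX_shX, add_neg_cancel, shX_zero] at this

theorem cg_mono_g {b g g' : ℝ} (hb0 : 0 ≤ b) (hb1 : b ≤ 1) (hg0 : 0 ≤ g) (hgg : g ≤ g')
    (hg1 : g' ≤ 1) (A : X d) : cg b g A ≤ cg b g' A := by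
  refine le_of_tendsto_of_tendsto' (c1_tendsto hb0 hb1 hg0 (hgg.trans hg1) A)
    (c1_tendsto hb0 hb1 (hg0.trans hgg) hg1 A) fun n => ?_
  refine corr_mono (tt_nonneg hb0 hg0) (tt_le_one hb1 hg1) (fun i => ?_) _ _
  cases i
  · exact le_rfl
  · exact hgg

section cp

variable {b : ℝ} (hb0 : 0 ≤ b) (hb1 : b ≤ 1)
include hb0 hb1

theorem cg_tendsto (A : X d) : Tendsto (fun g => cg b g A) (𝓝[>] 0) (𝓝 (cp b A)) := by
  refine MonotoneOn.tendsto_nhdsWithin_Ioo_right (x := (0:ℝ)) (y := 1) ?_ ?_ ?_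
  · exact ⟨1/2, by norm_num, by norm_num⟩
  · intro x hx y hy hxy
    exact cg_mono_g hb0 hb1 hx.1.le hxy hy.2.le A
  · refine ⟨0, ?_⟩
    rintro _ ⟨g, hg, rfl⟩
    exact cg_nonneg hb0 hb1 hg.1.le hg.2.le A

theorem cp_le_cg {g : ℝ} (hg0 : 0 < g) (hg1 : g < 1) (A : X d) : cp b A ≤ cg b g A := by
  refine csInf_le ⟨0, ?_⟩ ⟨g, ⟨hg0, hg1⟩, rfl⟩
  rintro _ ⟨g, hg, rfl⟩
  exact cg_nonneg hb0 hb1 hg.1.le hg.2.le A

theorem ev_Ioo : ∀ᶠ g in 𝓝[>] (0:ℝ), g ∈ Set.Ioo (0:ℝ) 1 :=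
  Ioo_mem_nhdsGT one_pos

theorem cp_nonneg (A : X d) : 0 ≤ cp b A :=
  ge_of_tendsto (cg_tendsto hb0 hb1 A) ((ev_Ioo hb0 hb1).mono fun _ hg =>
    cg_nonneg hb0 hb1 hg.1.le hg.2.le A)

theorem cp_le_one (A : X d) : cp b A ≤ 1 :=
  le_of_tendsto (cg_tendsto hb0 hb1 A) ((ev_Ioo hb0 hb1).mono fun _ hg =>
    cg_le_one hb0 hb1 hg.1.le hg.2.le A)

theorem cp_gks (A B : X d) : cp b A * cp b B ≤ cp b (A + B) :=
  le_of_tendsto_of_tendsto ((cg_tendsto hb0 hb1 A).mul (cg_tendsto hb0 hb1 B))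
    (cg_tendsto hb0 hb1 (A + B)) ((ev_Ioo hb0 hb1).mono fun _ hg =>
      cg_gks hb0 hb1 hg.1.le hg.2.le A B)

theorem cp_zero : cp b (0 : X d) = 1 :=
  tendsto_nhds_unique (cg_tendsto hb0 hb1 0)
    ((tendsto_const_nhds).congr' ((ev_Ioo hb0 hb1).mono fun _ hg =>
      (cg_zero hb0 hb1 hg.1.le hg.2.le).symm))

theorem cp_shift (v : V d) (A : X d) : cp b (shX v A) = cp b A := by
  refine tendsto_nhds_unique (cg_tendsto hb0 hb1 (shX v A)) ?_
  refine (cg_tendsto hb0 hb1 A).congr' ((ev_Ioo hb0 hb1).mono fun _ hg => ?_)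
  exact (cg_shift hb0 hb1 hg.1.le hg.2.le v A).symm

theorem cg_mix (hm : S_MIX) {g : ℝ} (hg0 : 0 ≤ g) (hg1 : g ≤ 1) (A B : X d) (r : ℕ)
    (h : ∀ x ∈ A.support, ∀ y ∈ B.support, ∃ j, (r : ℤ) ≤ |x j - y j|) :
    cg b g (A + B) ≤ cg b g A * cg b g B + A.support.card * (1 - g ^ 2) ^ r := by
  refine le_of_tendsto_of_tendsto' (c1_tendsto hb0 hb1 hg0 hg1 (A + B))
    (((c1_tendsto hb0 hb1 hg0 hg1 A).mul (c1_tendsto hb0 hb1 hg0 hg1 B)).add_const _) fun n => ?_
  have h1 := hm d n b g hb0 hb1 hg0 hg1 A B r h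
  have hz := zz_pos (D := DD) (t := tt (d := d) b g) (tt_nonneg hb0 hg0) (II d n)
  have h2 : zz DD (tt b g) (II d n) (A + B) ≤ zz DD (tt b g) (II d n) 0 :=
    zz_le_zero (tt_nonneg hb0 hg0) (tt_le_one hb1 hg1) _ _
  have h3 : (0:ℝ) ≤ A.support.card * (1 - g ^ 2) ^ r := by
    have : 0 ≤ 1 - g ^ 2 := by nlinarith
    positivity
  unfold c1 corr
  set z := zz DD (tt b g) (II d n) (0 : X d) with hzdef
  set zA := zz DD (tt b g) (II d n) A
  set zB := zz DD (tt b g) (II d n) B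
  set zAB := zz DD (tt b g) (II d n) (A + B)
  set K := (A.support.card : ℝ) * (1 - g ^ 2) ^ r
  have h4 : zAB * z ≤ zA * zB + K * (z * z) := by
    have h5 : K * (zAB * z) ≤ K * (z * z) :=
      mul_le_mul_of_nonneg_left (mul_le_mul_of_nonneg_right h2 hz.le) h3
    linarith
  have h6 : zAB / z = (zAB * z) / (z * z) := by field_simp
  have h7 : zA / z * (zB / z) + K = (zA * zB + K * (z * z)) / (z * z) := by field_simp
  rw [h6, h7]
  gcongr

end cp

theorem supp_shX (v : V d) (A : X d) (x : V d) (hx : x ∈ (shX v A).support) :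
    x - v ∈ A.support := by
  classical
  have := Finsupp.mapDomain_support (f := fun w => w + v) (s := A) hx
  rw [mem_image] at this
  obtain ⟨w, hw, rfl⟩ := this
  simpa using hw

theorem supp_card_shX (v : V d) (A : X d) : (shX v A).support.card ≤ A.support.card := by
  classical
  exact (card_le_card (Finsupp.mapDomain_support (f := fun w => w + v) (s := A))).trans
    card_image_le

theorem mix3 (hm : S_MIX) {b : ℝ} (hb0 : 0 ≤ b) (hb1 : b ≤ 1) (A0 A1 A2 : X d) {ε : ℝ}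
    (hε : 0 < ε) :
    ∃ L : ℕ, ∀ u0 u1 u2 : V d, (∃ j, (L:ℤ) ≤ |u0 j - u1 j|) → (∃ j, (L:ℤ) ≤ |u0 j - u2 j|) →
      (∃ j, (L:ℤ) ≤ |u1 j - u2 j|) →
      cp b (shX u0 A0 + (shX u1 A1 + shX u2 A2)) ≤ cp b A0 * (cp b A1 * cp b A2) + ε := by
  classical
  set δ : ℝ := min 1 (ε / 9) with hδ
  have hδ0 : 0 < δ := lt_min one_pos (by positivity)
  have hδ1 : δ ≤ 1 := min_le_left _ _
  have hδ2 : 9 * δ ≤ ε := by
    have : δ ≤ ε / 9 := min_le_right _ _
    linarith
  have hev : ∀ A : X d, ∀ᶠ g in 𝓝[>] (0:ℝ), cg b g A < cp b A + δ := fun A =>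
    (cg_tendsto hb0 hb1 A).eventually_lt_const (by linarith)
  obtain ⟨g, ⟨⟨⟨hg0, hg1⟩, h0⟩, h1⟩, h2⟩ :=
    ((((ev_Ioo hb0 hb1).and (hev A0)).and (hev A1)).and (hev A2)).exists
  have hx0 : 0 ≤ 1 - g ^ 2 := by nlinarith
  have hx1 : 1 - g ^ 2 < 1 := by nlinarith
  obtain ⟨r, hr⟩ : ∃ r : ℕ, ((A0.support.card : ℝ) + A1.support.card) * (1 - g ^ 2) ^ r < δ := by
    have ht : Tendsto (fun r : ℕ => ((A0.support.card : ℝ) + A1.support.card) *
        (1 - g ^ 2) ^ r) atTop (𝓝 (((A0.support.card : ℝ) + A1.support.card) * 0)) :=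
      (tendsto_pow_atTop_nhds_zero_of_lt_one hx0 hx1).const_mul _
    rw [mul_zero] at ht
    exact (ht.eventually_lt_const hδ0).exists
  obtain ⟨ρ, hρ⟩ := exists_box_finset (A0.support ∪ (A1.support ∪ A2.support))
  refine ⟨r + 2 * ρ, fun u0 u1 u2 h01 h02 h12 => ?_⟩
  have hsep : ∀ (u u' : V d) (A A' : X d), A.support ⊆ box d ρ → A'.support ⊆ box d ρ →
      (∃ j, ((r + 2 * ρ : ℕ) : ℤ) ≤ |u j - u' j|) → ∀ x ∈ (shX u A).support,
      ∀ y ∈ (shX u' A').support, ∃ j, (r : ℤ) ≤ |x j - y j| := by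
    rintro u u' A A' hA hA' ⟨j, hj⟩ x hx y hy
    refine ⟨j, ?_⟩
    have h3 := (mem_box.1 (hA (supp_shX u A x hx))) j
    have h4 := (mem_box.1 (hA' (supp_shX u' A' y hy))) j
    simp only [Pi.sub_apply] at h3 h4
    push_cast at hj
    have h5 : |u j - u' j| ≤ |x j - u j| + |x j - y j| + |y j - u' j| := by
      have e : u j - u' j = (-(x j - u j) + (x j - y j)) + (y j - u' j) := by ring
      rw [e]
      refine (abs_add_le _ _).trans ?_
      have := abs_add_le (-(x j - u j)) (x j - y j)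
      rw [abs_neg] at this
      linarith
    linarith
  have hs0 : A0.support ⊆ box d ρ := subset_union_left.trans hρ
  have hs1 : A1.support ⊆ box d ρ := (subset_union_left.trans subset_union_right).trans hρ
  have hs2 : A2.support ⊆ box d ρ := (subset_union_right.trans subset_union_right).trans hρ
  have m1 := cg_mix hb0 hb1 hm hg0.le hg1.le (shX u1 A1) (shX u2 A2) r (hsep u1 u2 A1 A2 hs1 hs2 h12)
  have m0 := cg_mix hb0 hb1 hm hg0.le hg1.le (shX u0 A0) (shX u1 A1 + shX u2 A2) r (by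
    intro x hx y hy
    have hy' := Finsupp.support_add hy
    rw [mem_union] at hy'
    rcases hy' with hy' | hy'
    · exact hsep u0 u1 A0 A1 hs0 hs1 h01 x hx y hy'
    · exact hsep u0 u2 A0 A2 hs0 hs2 h02 x hx y hy')
  rw [cg_shift hb0 hb1 hg0.le hg1.le, cg_shift hb0 hb1 hg0.le hg1.le] at m1
  rw [cg_shift hb0 hb1 hg0.le hg1.le] at m0
  have c1' : ((shX u1 A1).support.card : ℝ) * (1 - g ^ 2) ^ r ≤
      (A1.support.card : ℝ) * (1 - g ^ 2) ^ r := by
    have : ((shX u1 A1).support.card : ℝ) ≤ A1.support.card := by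
      exact_mod_cast supp_card_shX u1 A1
    gcongr
  have c0' : ((shX u0 A0).support.card : ℝ) * (1 - g ^ 2) ^ r ≤
      (A0.support.card : ℝ) * (1 - g ^ 2) ^ r := by
    have : ((shX u0 A0).support.card : ℝ) ≤ A0.support.card := by
      exact_mod_cast supp_card_shX u0 A0
    gcongr
  have hle := cp_le_cg hb0 hb1 hg0 hg1 (shX u0 A0 + (shX u1 A1 + shX u2 A2))
  have a0 := cg_nonneg hb0 hb1 hg0.le hg1.le A0
  have a1 := cg_nonneg hb0 hb1 hg0.le hg1.le A1
  have a2 := cg_nonneg hb0 hb1 hg0.le hg1.le A2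
  have b0 := cg_le_one hb0 hb1 hg0.le hg1.le A0
  have p0 := cp_nonneg hb0 hb1 A0
  have p1 := cp_nonneg hb0 hb1 A1
  have p2 := cp_nonneg hb0 hb1 A2
  have q0 := cp_le_one hb0 hb1 A0
  have q1 := cp_le_one hb0 hb1 A1
  have q2 := cp_le_one hb0 hb1 A2
  set K0 := (A0.support.card : ℝ) * (1 - g ^ 2) ^ r
  set K1 := (A1.support.card : ℝ) * (1 - g ^ 2) ^ r
  have hK1 : 0 ≤ K1 := by positivity
  have hr' : K0 + K1 < δ := by
    have : K0 + K1 = ((A0.support.card : ℝ) + A1.support.card) * (1 - g ^ 2) ^ r := by ring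
    rw [this]; exact hr
  have s1 : cg b g A0 * cg b g (shX u1 A1 + shX u2 A2) ≤
      cg b g A0 * (cg b g A1 * cg b g A2) + K1 := by
    have := mul_le_mul_of_nonneg_left (m1.trans (add_le_add_right c1' _)) a0
    have h5 : cg b g A0 * (cg b g A1 * cg b g A2 + K1) ≤
        cg b g A0 * (cg b g A1 * cg b g A2) + K1 := by
      rw [mul_add]
      have := mul_le_mul_of_nonneg_right b0 hK1
      linarith
    exact this.trans h5
  have s2 : cg b g A0 * (cg b g A1 * cg b g A2) ≤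
      (cp b A0 + δ) * ((cp b A1 + δ) * (cp b A2 + δ)) :=
    mul_le_mul h0.le (mul_le_mul h1.le h2.le a2 (by linarith)) (mul_nonneg a1 a2) (by linarith)
  have s3 : (cp b A0 + δ) * ((cp b A1 + δ) * (cp b A2 + δ)) ≤
      cp b A0 * (cp b A1 * cp b A2) + 7 * δ := by
    have e : (cp b A0 + δ) * ((cp b A1 + δ) * (cp b A2 + δ)) = cp b A0 * (cp b A1 * cp b A2) +
        δ * (cp b A0 * cp b A1 + cp b A0 * cp b A2 + cp b A1 * cp b A2 +
          δ * (cp b A0 + cp b A1 + cp b A2) + δ * δ) := by ring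
    rw [e]
    have f1 : cp b A0 * cp b A1 ≤ 1 := mul_le_one₀ q0 p1 q1
    have f2 : cp b A0 * cp b A2 ≤ 1 := mul_le_one₀ q0 p2 q2
    have f3 : cp b A1 * cp b A2 ≤ 1 := mul_le_one₀ q1 p2 q2
    have f4 : δ * (cp b A0 + cp b A1 + cp b A2) ≤ 1 * 3 :=
      mul_le_mul hδ1 (by linarith) (by linarith) zero_le_one
    have f5 : δ * δ ≤ 1 := mul_le_one₀ hδ1 hδ0.le hδ1
    have f6 : δ * (cp b A0 * cp b A1 + cp b A0 * cp b A2 + cp b A1 * cp b A2 +
          δ * (cp b A0 + cp b A1 + cp b A2) + δ * δ) ≤ δ * 7 :=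
      mul_le_mul_of_nonneg_left (by linarith) hδ0.le
    linarith
  linarith

theorem mix2 (hm : S_MIX) {b : ℝ} (hb0 : 0 ≤ b) (hb1 : b ≤ 1) (A0 A1 : X d) {ε : ℝ}
    (hε : 0 < ε) :
    ∃ L : ℕ, ∀ u0 u1 : V d, (∃ j, (L:ℤ) ≤ |u0 j - u1 j|) →
      cp b (shX u0 A0 + shX u1 A1) ≤ cp b A0 * cp b A1 + ε := by
  obtain ⟨L, hL⟩ := mix3 hm hb0 hb1 A0 A1 0 hε
  refine ⟨L, fun u0 u1 h => ?_⟩
  have h' := h
  obtain ⟨j, hj⟩ := h'
  have := hL u0 u1 (fun k => |u0 k| + |u1 k| + L) h ⟨j, ?_⟩ ⟨j, ?_⟩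
  · rwa [map_zero, add_zero, cp_zero hb0 hb1, mul_one] at this
  · have h1 := le_abs_self (u0 j)
    have h2 := abs_nonneg (u1 j)
    rw [abs_of_nonpos (by linarith)]
    linarith
  · have h1 := le_abs_self (u1 j)
    have h2 := abs_nonneg (u0 j)
    rw [abs_of_nonpos (by linarith)]
    linarith

end Pool.Agent.L7h96.RC
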