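import Pool.Agent.L7h96.RC.Conn

set_option autoImplicit false
set_option linter.unusedSectionVars false
set_option linter.unusedSimpArgs false

open Finset MeasureTheory Filter Topology
open scoped ENNReal

namespace Pool.Agent.L7h96.RC

section gen

variable {E S : Type} [Countable E] [Fintype S] [MeasurableSpace S] [DiscreteMeasurableSpace S]

/-- `A` depends only on the coordinates in `F` -/
def Dep (F : Finset E) (A : Set (E → S)) : Prop :=
  ∀ x y : E → S, (∀ e ∈ F, x e = y e) → (x ∈ A ↔ y ∈ A)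

theorem Dep.mono {F G : Finset E} {A : Set (E → S)} (h : Dep F A) (hFG : F ⊆ G) : Dep G A :=
  fun x y hxy => h x y fun e he => hxy e (hFG he)

theorem Dep.compl {F : Finset E} {A : Set (E → S)} (h : Dep F A) : Dep F Aᶜ :=
  fun x y hxy => not_congr (h x y hxy)

theorem Dep.union [DecidableEq E] {F G : Finset E} {A B : Set (E → S)} (h : Dep F A)
    (h' : Dep G B) : Dep (F ∪ G) (A ∪ B) :=
  fun x y hxy => or_congr (h x y fun e he => hxy e (mem_union_left _ he))
    (h' x y fun e he => hxy e (mem_union_right _ he))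

theorem Dep.inter [DecidableEq E] {F G : Finset E} {A B : Set (E → S)} (h : Dep F A)
    (h' : Dep G B) : Dep (F ∪ G) (A ∩ B) :=
  fun x y hxy => and_congr (h x y fun e he => hxy e (mem_union_left _ he))
    (h' x y fun e he => hxy e (mem_union_right _ he))

theorem Dep.meas {F : Finset E} {A : Set (E → S)} (h : Dep F A) : MeasurableSet A := by
  have hm : Measurable (fun (x : E → S) (e : F) => x e) := by
    refine measurable_pi_lambda _ fun e => measurable_pi_apply _
  have : A = (fun (x : E → S) (e : F) => x e) ⁻¹' ((fun (x : E → S) (e : F) => x e) '' A) := by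
    ext x
    constructor
    · intro hx; exact ⟨x, hx, rfl⟩
    · rintro ⟨y, hy, hxy⟩
      refine (h y x fun e he => ?_).1 hy
      exact congrFun hxy ⟨e, he⟩
  rw [this]
  exact hm (Set.toFinite _).measurableSet

/-- the algebra of cylinder sets -/
def cylAlg (E S : Type) : Set (Set (E → S)) := {A | ∃ F : Finset E, Dep F A}

theorem cylAlg_isSetAlgebra : IsSetAlgebra (cylAlg E S) := by
  classical
  refine ⟨⟨∅, fun x y _ => Iff.rfl⟩, ?_, ?_⟩
  · rintro A ⟨F, h⟩; exact ⟨F, h.compl⟩
  · rintro A B ⟨F, h⟩ ⟨G, h'⟩; exact ⟨F ∪ G, h.union h'⟩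

theorem cylAlg_gen : (MeasurableSpace.pi : MeasurableSpace (E → S)) =
    MeasurableSpace.generateFrom (cylAlg E S) := by
  apply le_antisymm
  · refine iSup_le fun e => ?_
    rintro _ ⟨t, _, rfl⟩
    refine MeasurableSpace.measurableSet_generateFrom ⟨{e}, fun x y hxy => ?_⟩
    have := hxy e (mem_singleton_self e)
    simp only [Set.mem_preimage]
    rw [this]
  · refine MeasurableSpace.generateFrom_le ?_
    rintro A ⟨F, h⟩
    exact h.meas

theorem approx (μ : Measure (E → S)) [IsFiniteMeasure μ] {s : Set (E → S)}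
    (hs : MeasurableSet s) {ε : ℝ} (hε : 0 < ε) :
    ∃ (F : Finset E) (A : Set (E → S)), Dep F A ∧ μ.real (symmDiff s A) < ε := by
  have hd : μ.MeasureDense (cylAlg E S) :=
    Measure.MeasureDense.of_generateFrom_isSetAlgebra_finite _ cylAlg_isSetAlgebra cylAlg_gen
  obtain ⟨A, ⟨F, hF⟩, hA⟩ := hd.approx s hs (measure_ne_top μ s) ε hε
  refine ⟨F, A, hF, ?_⟩
  rw [Measure.real]
  exact (ENNReal.toReal_lt_of_lt_ofReal hA)

theorem real_le_add_symmDiff {Ω : Type} [MeasurableSpace Ω] (μ : Measure Ω) [IsFiniteMeasure μ]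
    (s t : Set Ω) : μ.real s ≤ μ.real t + μ.real (symmDiff s t) := by
  have h : s ⊆ t ∪ symmDiff s t := by
    intro x hx
    by_cases ht : x ∈ t
    · exact Or.inl ht
    · exact Or.inr (Or.inl ⟨hx, ht⟩)
  exact (measureReal_mono h).trans (measureReal_union_le _ _)

theorem le_of_dep (μ ν : Measure (E → S)) [IsFiniteMeasure μ] [IsFiniteMeasure ν]
    (h : ∀ (F : Finset E) (A : Set (E → S)), Dep F A → μ.real A ≤ ν.real A)
    {s : Set (E → S)} (hs : MeasurableSet s) : μ.real s ≤ ν.real s := by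
  refine le_of_forall_pos_le_add fun ε hε => ?_
  obtain ⟨F, A, hF, hA⟩ := approx (μ + ν) hs (half_pos hε)
  have h1 : μ.real (symmDiff s A) ≤ (μ + ν).real (symmDiff s A) := by
    rw [measureReal_add_apply]
    exact le_add_of_nonneg_right measureReal_nonneg
  have h2 : ν.real (symmDiff s A) ≤ (μ + ν).real (symmDiff s A) := by
    rw [measureReal_add_apply]
    exact le_add_of_nonneg_left measureReal_nonneg
  have h3 := real_le_add_symmDiff μ s A
  have h4 := real_le_add_symmDiff ν A s
  rw [symmDiff_comm] at h4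
  have h5 := h F A hF
  linarith

end gen

/-! ### translation invariant measures on configurations of the lattice -/

variable {d : ℕ} {S : Type} [Fintype S] [MeasurableSpace S] [DiscreteMeasurableSpace S]

/-- shift of configurations -/
def th (v : V d) (σ : Ed d → S) : Ed d → S := fun e => σ (shE v e)

theorem th_meas (v : V d) : Measurable (th v : (Ed d → S) → (Ed d → S)) :=
  measurable_pi_lambda _ fun _ => measurable_pi_apply _

/-- translation invariance -/
def TI (P : Measure (Ed d → S)) : Prop := ∀ v : V d, P.map (th v) = P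

theorem TI.real {P : Measure (Ed d → S)} (h : TI P) (v : V d) {A : Set (Ed d → S)}
    (hA : MeasurableSet A) : P.real (th v ⁻¹' A) = P.real A := by
  conv_rhs => rw [← h v]
  rw [Measure.real, Measure.real, Measure.map_apply (th_meas v) hA]

theorem dep_th {F : Finset (Ed d)} {A : Set (Ed d → S)} (h : Dep F A) (v : V d) :
    Dep (F.map (shEq v).toEmbedding) (th v ⁻¹' A) := by
  intro x y hxy
  refine h _ _ fun e he => ?_
  exact hxy (shE v e) (by
    have := mem_map_of_mem (shEq v).toEmbedding he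
    exact this)

theorem exists_far (j : Fin d) (F K : Finset (Ed d)) (L : ℕ) :
    ∃ v : V d, (∀ e ∈ F, shE v e ∉ K) ∧ (L : ℤ) ≤ v j := by
  obtain ⟨n, hn⟩ := exists_edg_finset F
  obtain ⟨m, hm⟩ := exists_edg_finset K
  refine ⟨fun _ => n + m + 1 + L, fun e he hk => ?_, by simp; omega⟩
  have h1 := (mem_box.1 (mem_edg.1 (hn he)).1) j
  have h2 := (mem_box.1 (mem_edg.1 (hm hk)).1) j
  simp only [shE_fst, Pi.add_apply] at h2
  rw [abs_le] at h1 h2
  omega

theorem inv_local {P : Measure (Ed d → S)} [IsProbabilityMeasure P] (hT : TI P) (j : Fin d)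
    {g : (Ed d → S) → (Ed d → S)} {K : Finset (Ed d)}
    (hK : ∀ σ e, e ∉ K → g σ e = σ e) {C : ℝ} (hC0 : 0 ≤ C)
    (hC : ∀ A, MeasurableSet A → P.real (g ⁻¹' A) ≤ C * P.real A)
    {D : Set (Ed d → S)} (hD : MeasurableSet D) (hinv : ∀ v, th v ⁻¹' D = D) :
    P.real (symmDiff D (g ⁻¹' D)) = 0 := by
  refine le_antisymm ?_ measureReal_nonneg
  refine le_of_forall_pos_le_add fun ε hε => ?_
  have hC1 : 0 < 1 + C := by linarith
  obtain ⟨F, A, hF, hA⟩ := approx P hD (div_pos hε hC1)
  obtain ⟨v, hv, _⟩ := exists_far j F K 0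
  set A' := th v ⁻¹' A with hA'
  have hA'd : Dep (F.map (shEq v).toEmbedding) A' := dep_th hF v
  have h1 : P.real (symmDiff D A') < ε / (1 + C) := by
    have : symmDiff D A' = th v ⁻¹' (symmDiff D A) := by
      conv_lhs => rw [← hinv v]
      rfl
    rw [this, hT.real v (hD.symmDiff hF.meas)]
    exact hA
  have h2 : g ⁻¹' A' = A' := by
    ext σ
    refine hA'd _ _ fun e he => ?_
    rw [Finset.mem_map] at he
    obtain ⟨e', he', rfl⟩ := he
    exact hK σ _ (hv e' he')
  have h3 : symmDiff D (g ⁻¹' D) ⊆ symmDiff D A' ∪ g ⁻¹' (symmDiff D A') := by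
    intro σ hσ
    have e : g ⁻¹' (symmDiff D A') = symmDiff (g ⁻¹' D) A' := by
      conv_rhs => rw [← h2]
      rfl
    rw [e]
    rcases hσ with ⟨a, b⟩ | ⟨a, b⟩
    · by_cases hx : σ ∈ A'
      · exact Or.inr (Or.inr ⟨hx, b⟩)
      · exact Or.inl (Or.inl ⟨a, hx⟩)
    · by_cases hx : σ ∈ A'
      · exact Or.inl (Or.inr ⟨hx, b⟩)
      · exact Or.inr (Or.inl ⟨a, hx⟩)
  have h4 := hC _ (hD.symmDiff hA'd.meas)
  have h5 : P.real (symmDiff D (g ⁻¹' D)) ≤ P.real (symmDiff D A') + C * P.real (symmDiff D A') :=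
    (measureReal_mono h3).trans ((measureReal_union_le _ _).trans (add_le_add_right h4 _))
  have h6 : (1 + C) * P.real (symmDiff D A') ≤ (1 + C) * (ε / (1 + C)) :=
    mul_le_mul_of_nonneg_left h1.le hC1.le
  rw [mul_div_cancel₀ _ hC1.ne'] at h6
  linarith

theorem zero_one {P : Measure (Ed d → S)} [IsProbabilityMeasure P] (hT : TI P)
    (hmix : ∀ (F : Finset (Ed d)) (A : Set (Ed d → S)), Dep F A → ∀ ε : ℝ, 0 < ε →
      ∃ v : V d, P.real (A ∩ th v ⁻¹' A) ≤ P.real A * P.real A + ε)
    {D : Set (Ed d → S)} (hD : MeasurableSet D) (hinv : ∀ v, th v ⁻¹' D = D)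
    (hpos : 0 < P.real D) : P.real D = 1 := by
  have key : P.real D ≤ P.real D * P.real D := by
    refine le_of_forall_pos_le_add fun ε hε => ?_
    obtain ⟨F, A, hF, hA⟩ := approx P hD (show 0 < min 1 (ε / 6) by positivity)
    set δ := min 1 (ε / 6) with hδ
    have hδ0 : 0 < δ := by positivity
    have hδ1 : δ ≤ 1 := min_le_left _ _
    have hδ2 : 6 * δ ≤ ε := by
      have : δ ≤ ε / 6 := min_le_right _ _
      linarith
    obtain ⟨v, hv⟩ := hmix F A hF δ hδ0
    have h1 : P.real (symmDiff D (th v ⁻¹' A)) < δ := by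
      have : symmDiff D (th v ⁻¹' A) = th v ⁻¹' (symmDiff D A) := by
        conv_lhs => rw [← hinv v]
        rfl
      rw [this, hT.real v (hD.symmDiff hF.meas)]
      exact hA
    have h2 : D ⊆ (A ∩ th v ⁻¹' A) ∪ (symmDiff D A ∪ symmDiff D (th v ⁻¹' A)) := by
      intro σ hσ
      by_cases ha : σ ∈ A
      · by_cases hb : σ ∈ th v ⁻¹' A
        · exact Or.inl ⟨ha, hb⟩
        · exact Or.inr (Or.inr (Or.inl ⟨hσ, hb⟩))
      · exact Or.inr (Or.inl (Or.inl ⟨hσ, ha⟩))
    have h3 : P.real D ≤ P.real (A ∩ th v ⁻¹' A) +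
        (P.real (symmDiff D A) + P.real (symmDiff D (th v ⁻¹' A))) :=
      (measureReal_mono h2).trans ((measureReal_union_le _ _).trans
        (add_le_add_right (measureReal_union_le _ _) _))
    have h4 := real_le_add_symmDiff P A D
    rw [symmDiff_comm] at h4
    have h5 : P.real A * P.real A ≤ P.real D * P.real D + 3 * δ := by
      have a1 : P.real A ≤ P.real D + δ := by linarith
      have a2 : P.real D ≤ 1 := measureReal_le_one
      have a3 : 0 ≤ P.real D := measureReal_nonneg
      have a4 : 0 ≤ P.real A := measureReal_nonneg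
      have a5 : P.real A * P.real A ≤ (P.real D + δ) * (P.real D + δ) :=
        mul_le_mul a1 a1 a4 (by linarith)
      have a6 : P.real D * δ ≤ 1 * δ := mul_le_mul_of_nonneg_right a2 hδ0.le
      have a7 : δ * δ ≤ 1 * δ := mul_le_mul_of_nonneg_right hδ1 hδ0.le
      nlinarith
    linarith
  have h1 : P.real D ≤ 1 := measureReal_le_one
  nlinarith

end Pool.Agent.L7h96.RC
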