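import Pool.Agent.L7h96.RC.Conn
import Pool.Agent.L7h96.RC.Meas

set_option autoImplicit false
set_option linter.unusedSectionVars false
set_option linter.unusedSimpArgs false

open Finset MeasureTheory

namespace Pool.Agent.L7h96.RC

variable {d : ℕ}

/-- configurations: `(open, in p, in q)` for every edge -/
abbrev Om (d : ℕ) : Type := Ed d → Bool × Bool × Bool

/-- open edges -/
def Op (σ : Om d) : Set (Ed d) := {e | (σ e).1 = true}

/-- edges of `p` -/
def Pp (σ : Om d) : Set (Ed d) := {e | (σ e).2.1 = true}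

/-- edges of `q` -/
def Qs (σ : Om d) : Set (Ed d) := {e | (σ e).2.2 = true}

open scoped Classical in
/-- open all the edges of the box -/
noncomputable def opn (n : ℕ) (σ : Om d) : Om d :=
  fun e => if e ∈ edg d n then (true, (σ e).2) else σ e

/-- Burton–Keane: no finite set of edges separates three infinite clusters -/
def S_BK : Prop :=
  ∀ (d : ℕ) (P : Measure (Om d)) [IsProbabilityMeasure P], TI P →
    (∀ n : ℕ, ∃ C : ℝ, ∀ A : Set (Om d), MeasurableSet A → P.real (opn n ⁻¹' A) ≤ C * P.real A) →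
    ∀ᵐ σ ∂P, T3 (Op σ)

/-- three bridges with both sides infinite, each with a side containing none of the others -/
def S_EXT : Prop :=
  ∀ (d : ℕ) (O : Set (Ed d)), T3 O → ∀ (f : Fin 3 → Ed d) (s : Fin 3 → V d),
    (∀ i, Br O (f i)) → (∀ i, s i = (f i).1 ∨ s i = tg (f i)) →
    (∀ i j, i ≠ j → ¬ (gr (O \ {f i})).Reachable (s i) (f j).1 ∧
      ¬ (gr (O \ {f i})).Reachable (s i) (tg (f j))) → False

/-- among three bridges with both sides infinite one separates the other two -/
def S_SEP : Prop :=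
  ∀ (d : ℕ) (O : Set (Ed d)), T3 O → Uq O → ∀ (f : Fin 3 → Ed d), Function.Injective f →
    (∀ i, Br O (f i)) →
    ∃ i j k, i ≠ j ∧ j ≠ k ∧ i ≠ k ∧ (gr (O \ {f j})).Reachable (f j).1 (f i).1 ∧
      (gr (O \ {f j})).Reachable (tg (f j)) (f k).1

/-- `f` is an extreme element of the set of bridges `C` -/
def Ext (O C : Set (Ed d)) (f : Ed d) : Prop :=
  f ∈ C ∧ ∃ s : V d, (s = f.1 ∨ s = tg f) ∧ ∀ f' ∈ C, f' ≠ f →
    ¬ (gr (O \ {f})).Reachable s f'.1 ∧ ¬ (gr (O \ {f})).Reachable s (tg f')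

/-- a set of bridges without extreme elements leaves no infinite cluster when it is removed -/
def S_NOX : Prop :=
  ∀ (d : ℕ) (O C : Set (Ed d)), T3 O → Uq O → (∀ f ∈ C, Br O f) → C.Nonempty →
    (∀ f, ¬ Ext O C f) → ∀ w, ¬ Inf (O \ C) w

end Pool.Agent.L7h96.RC
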