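import Pool.Agent.L7h96.RC.Lim
import Pool.Agent.L7h96.RC.Stm

set_option autoImplicit false
set_option linter.unusedSectionVars false
set_option linter.unusedSimpArgs false

open Finset Filter Topology MeasureTheory

namespace Pool.Agent.L7h96.RC

section gen

variable {ι X : Type} [DecidableEq ι] [AddCommGroup X] [DecidableEq X]

theorem zG_insert (D : ι → X) (t : ι → ℝ) {I : Finset ι} {i : ι} (hi : i ∉ I) (G : X → ℝ)
    (A : X) : zG D t (insert i I) G A = zG D t I G A + t i * zG D t I G (A + D i) := by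
  unfold zG
  rw [sum_powerset_insert hi, mul_sum]
  congr 1
  refine sum_congr rfl fun p hp => ?_
  have hip : i ∉ p := fun h => hi (mem_powerset.1 hp h)
  rw [bd_insert D hip, tw_insert t hip, add_assoc]
  ring

theorem zG_inv [E2 X] (D : ι → X) (t : ι → ℝ) {F I : Finset ι} (h : Disjoint F I) (G : X → ℝ)
    (A : X) :
    (∏ i ∈ F, (1 - t i ^ 2)) * zG D t I G A =
      ∑ K ∈ F.powerset, (-1) ^ K.card * tw t K * zG D t (F ∪ I) G (A + bd D K) := by
  induction F using Finset.induction_on generalizing A with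
  | empty => simp
  | @insert i F hi ih =>
    have hiI : i ∉ I := fun h' => disjoint_left.1 h (mem_insert_self i F) h'
    have hd : Disjoint F I := h.mono_left (subset_insert i F)
    have hiU : i ∉ F ∪ I := by simp [hi, hiI]
    rw [prod_insert hi, sum_powerset_insert hi, mul_assoc, ih hd, mul_sum, ← sum_add_distrib]
    refine sum_congr rfl fun K hK => ?_
    have hiK : i ∉ K := fun h => hi (mem_powerset.1 hK h)
    rw [insert_union, bd_insert D hiK, tw_insert t hiK, card_insert_of_notMem hiK, pow_succ,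
      zG_insert D t hiU, zG_insert D t hiU]
    have e1 : A + (D i + bd D K) + D i = A + bd D K := by
      have : A + (D i + bd D K) + D i = A + bd D K + (D i + D i) := by abel
      rw [this, add_self', add_zero]
    have e2 : A + (D i + bd D K) = A + bd D K + D i := by abel
    rw [e1, e2]
    ring

theorem sum_powerset_map {κ M : Type} [DecidableEq κ] [AddCommMonoid M] (φ : ι ↪ κ)
    (I : Finset ι) (f : Finset κ → M) :
    ∑ p ∈ (I.map φ).powerset, f p = ∑ p ∈ I.powerset, f (p.map φ) := by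
  induction I using Finset.induction_on generalizing f with
  | empty => simp
  | @insert i I hi ih =>
    rw [map_insert, sum_powerset_insert (by simpa using hi), sum_powerset_insert hi, ih, ih]
    simp only [map_insert]

theorem S3_map {κ M : Type} [DecidableEq κ] [AddCommMonoid M] (φ : ι ↪ κ)
    (I : Finset ι) (f : Finset κ → Finset κ → Finset κ → M) :
    S3 (I.map φ) f = S3 I (fun ω p q => f (ω.map φ) (p.map φ) (q.map φ)) := by
  unfold S3
  rw [sum_powerset_map]
  simp only [sum_powerset_map]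

/-- inversion functional -/
noncomputable def iv (D : ι → X) (t : ι → ℝ) (F : Finset ι) (u : X → ℝ) (A : X) : ℝ :=
  (∏ i ∈ F, (1 - t i ^ 2))⁻¹ * ∑ K ∈ F.powerset, (-1) ^ K.card * tw t K * u (A + bd D K)

/-- local formula -/
noncomputable def Loc (D : ι → X) (t : ι → ℝ) (F : Finset ι) (u1 u2 : X → ℝ) (A : X)
    (φ : Finset ι → Finset ι → Finset ι → ℝ) : ℝ :=
  S3 F (fun α a a' => W t F α a a' * φ α a a' * (iv D t F u1 (A + bd D a) * iv D t F u2 (bd D a')))

theorem Y_loc [E2 X] (D : ι → X) {t : ι → ℝ} (ht0 : ∀ i, 0 ≤ t i) (ht1 : ∀ i, t i < 1)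
    {I F : Finset ι} (hF : F ⊆ I) (G : X → ℝ) (A : X) (φ : Finset ι → Finset ι → Finset ι → ℝ)
    (c1 c2 : ℝ) :
    Y D t I G A 0 (fun ω p q => φ (ω ∩ F) (p ∩ F) (q ∩ F)) / (c1 * c2) =
      Loc D t F (fun C => zG D t I G C / c1) (fun C => zz D t I C / c2) A φ := by
  have hd : Disjoint F (I \ F) := disjoint_sdiff
  have hU : F ∪ (I \ F) = I := union_sdiff_of_subset hF
  have hprod : (∏ i ∈ F, (1 - t i ^ 2)) ≠ 0 := by
    refine prod_ne_zero_iff.2 fun i _ => ?_
    have h0 := ht0 i
    have h1 := ht1 i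
    nlinarith
  have hG : ∀ C, zG D t (I \ F) G C / c1 = iv D t F (fun C => zG D t I G C / c1) C := by
    intro C
    unfold iv
    have := zG_inv D t hd G C
    rw [hU] at this
    rw [eq_inv_mul_iff_mul_eq₀ hprod, ← mul_div_assoc, this, sum_div]
    refine sum_congr rfl fun K _ => ?_
    ring
  have hz : ∀ C, zz D t (I \ F) C / c2 = iv D t F (fun C => zz D t I C / c2) C := by
    intro C
    unfold iv
    have := zz_inv D t hd C
    rw [hU] at this
    rw [eq_inv_mul_iff_mul_eq₀ hprod, ← mul_div_assoc, this, sum_div]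
    refine sum_congr rfl fun K _ => ?_
    ring
  unfold Loc Y
  conv_lhs => rw [← hU]
  rw [S3_union hd, div_eq_inv_mul, ← S3_mul_left]
  refine S3_congr fun α a a' hα ha ha' => ?_
  have hin : S3 (I \ F) (fun ω p q => W t (F ∪ I \ F) (α ∪ ω) (a ∪ p) (a' ∪ q) *
      φ ((α ∪ ω) ∩ F) ((a ∪ p) ∩ F) ((a' ∪ q) ∩ F) * G (A + bd D (a ∪ p)) *
      (if bd D (a' ∪ q) = 0 then 1 else 0)) =
      W t F α a a' * φ α a a' * (zG D t (I \ F) G (A + bd D a) * zz D t (I \ F) (bd D a')) := by
    rw [← Y_one]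
    unfold Y
    rw [← S3_mul_left]
    refine S3_congr fun ω p q hω hp hq => ?_
    have dω : Disjoint ω F := (disjoint_sdiff.mono_right hω).symm
    have dp : Disjoint p F := dω.mono_left hp
    have dq : Disjoint q F := dω.mono_left hq
    have x1 : (α ∪ ω) ∩ F = α := by
      rw [union_inter_distrib_right, disjoint_iff_inter_eq_empty.1 dω, union_empty,
        inter_eq_left.2 hα]
    have x2 : (a ∪ p) ∩ F = a := by
      rw [union_inter_distrib_right, disjoint_iff_inter_eq_empty.1 dp, union_empty,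
        inter_eq_left.2 (ha.trans hα)]
    have x3 : (a' ∪ q) ∩ F = a' := by
      rw [union_inter_distrib_right, disjoint_iff_inter_eq_empty.1 dq, union_empty,
        inter_eq_left.2 (ha'.trans hα)]
    rw [x1, x2, x3, W_union t hd hα ha ha' hω hp hq,
      bd_union D (dp.symm.mono_left (ha.trans hα)), bd_union D (dq.symm.mono_left (ha'.trans hα))]
    have y1 : A + (bd D a + bd D p) = A + bd D a + bd D p := by abel
    have y2 : (bd D a' + bd D q = 0) ↔ (bd D q = bd D a') := by
      rw [eq_add_iff, zero_add]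
    rw [y1]
    simp only [y2]
    split_ifs <;> ring
  rw [hin, ← hG, ← hz]
  rw [mul_inv]
  ring

theorem Loc_congr {D : ι → X} {t : ι → ℝ} {F : Finset ι} {u1 u2 : X → ℝ} {A : X}
    {φ ψ : Finset ι → Finset ι → Finset ι → ℝ}
    (h : ∀ α a a', α ⊆ F → a ⊆ α → a' ⊆ α → φ α a a' = ψ α a a') :
    Loc D t F u1 u2 A φ = Loc D t F u1 u2 A ψ := by
  refine S3_congr fun α a a' h1 h2 h3 => ?_
  rw [h α a a' h1 h2 h3]

theorem tendsto_S3 {α : Type} {l : Filter α} {F : Finset ι}
    {f : α → Finset ι → Finset ι → Finset ι → ℝ} {g : Finset ι → Finset ι → Finset ι → ℝ}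
    (h : ∀ ω p q, Tendsto (fun x => f x ω p q) l (𝓝 (g ω p q))) :
    Tendsto (fun x => S3 F (f x)) l (𝓝 (S3 F g)) := by
  unfold S3
  exact tendsto_finsetSum _ fun ω _ => tendsto_finsetSum _ fun p _ =>
    tendsto_finsetSum _ fun q _ => h ω p q

theorem tendsto_iv {α : Type} {l : Filter α} {D : ι → X} {t : ι → ℝ} {F : Finset ι}
    {u : α → X → ℝ} {v : X → ℝ} (h : ∀ C, Tendsto (fun x => u x C) l (𝓝 (v C))) (A : X) :
    Tendsto (fun x => iv D t F (u x) A) l (𝓝 (iv D t F v A)) := by
  unfold iv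
  exact (tendsto_finsetSum _ fun K _ => (h _).const_mul _).const_mul _

theorem tendsto_Loc {α : Type} {l : Filter α} {D : ι → X} {t : ι → ℝ} {F : Finset ι}
    {u1 u2 : α → X → ℝ} {v1 v2 : X → ℝ} (h1 : ∀ C, Tendsto (fun x => u1 x C) l (𝓝 (v1 C)))
    (h2 : ∀ C, Tendsto (fun x => u2 x C) l (𝓝 (v2 C))) (A : X)
    (φ : Finset ι → Finset ι → Finset ι → ℝ) :
    Tendsto (fun x => Loc D t F (u1 x) (u2 x) A φ) l (𝓝 (Loc D t F v1 v2 A φ)) := by
  unfold Loc
  refine tendsto_S3 fun α a a' => ?_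
  exact ((tendsto_iv h1 _).mul (tendsto_iv h2 _)).const_mul _

/-- the local formula is invariant under relabelling -/
theorem Loc_map {κ : Type} [DecidableEq κ] {D : ι → X} {t : ι → ℝ} {D' : κ → X} {t' : κ → ℝ}
    (φ : ι ↪ κ) (ψ : X →+ X) (hD : ∀ i, D' (φ i) = ψ (D i)) (ht : ∀ i, t' (φ i) = t i)
    {u1 u2 : X → ℝ} (h1 : ∀ C, u1 (ψ C) = u1 C) (h2 : ∀ C, u2 (ψ C) = u2 C) (F : Finset ι)
    (A : X) (f : Finset κ → Finset κ → Finset κ → ℝ) :
    Loc D' t' (F.map φ) u1 u2 (ψ A) f =
      Loc D t F u1 u2 A (fun ω p q => f (ω.map φ) (p.map φ) (q.map φ)) := by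
  have hbd : ∀ K : Finset ι, bd D' (K.map φ) = ψ (bd D K) := by
    intro K
    unfold bd
    rw [sum_map, map_sum]
    exact sum_congr rfl fun i _ => hD i
  have htw : ∀ K : Finset ι, tw t' (K.map φ) = tw t K := by
    intro K
    unfold tw
    rw [prod_map]
    exact prod_congr rfl fun i _ => ht i
  have hiv : ∀ (u : X → ℝ), (∀ C, u (ψ C) = u C) → ∀ C, iv D' t' (F.map φ) u (ψ C) =
      iv D t F u C := by
    intro u hu C
    unfold iv
    rw [prod_map, sum_powerset_map]
    congr 1
    · congr 1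
      exact prod_congr rfl fun i _ => by rw [ht]
    · refine sum_congr rfl fun K _ => ?_
      rw [card_map, htw, hbd, ← map_add, hu]
  have hW : ∀ ω p q : Finset ι, W t' (F.map φ) (ω.map φ) (p.map φ) (q.map φ) = W t F ω p q := by
    intro ω p q
    unfold W
    rw [prod_map]
    refine prod_congr rfl fun i _ => ?_
    simp only [Finset.mem_map', ht]
  unfold Loc
  rw [S3_map]
  refine S3_congr fun ω p q _ _ _ => ?_
  rw [hW, hbd, hbd, ← map_add, hiv u1 h1, hiv u2 h2]

end gen

end Pool.Agent.L7h96.RC
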