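import Pool.Agent.L7h96.RC.Stm2

set_option autoImplicit false
set_option linter.unusedSectionVars false
set_option linter.unusedSimpArgs false

open Finset MeasureTheory

namespace Pool.Agent.L7h96.RC

variable {d : ℕ}

theorem reach_iff_chain {O : Set (Ed d)} {u v : V d} : (gr O).Reachable u v ↔
    ∃ K : Finset (Ed d), bd DB K = Finsupp.single u 1 + Finsupp.single v 1 ∧ ∀ e ∈ K, e ∈ O := by
  constructor
  · intro h
    obtain ⟨K, hK, hb⟩ := reach_chain h
    exact ⟨K, hb, fun e he => hK he⟩
  · rintro ⟨K, hb, hK⟩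
    exact chain_reach (fun e he => hK e he) hb

theorem inf_iff {O : Set (Ed d)} {u : V d} : Inf O u ↔
    ∀ n : ℕ, ∃ w, w ∉ box d n ∧ (gr O).Reachable u w := by
  constructor
  · intro h n
    by_contra hn
    push Not at hn
    apply h
    refine Set.Finite.subset (Finset.finite_toSet (box d n)) fun w hw => ?_
    by_contra hwn
    exact hn w hwn hw
  · intro h hfin
    obtain ⟨n, hn⟩ := exists_box_finset hfin.toFinset
    obtain ⟨w, hw, hr⟩ := h n
    exact hw (hn (hfin.mem_toFinset.2 hr))

section mble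

variable {Ω : Type*} [MeasurableSpace Ω] {O : Ω → Set (Ed d)}
  (hO : ∀ e, MeasurableSet {x | e ∈ O x})
include hO

theorem meas_reach (u v : V d) : MeasurableSet {x | (gr (O x)).Reachable u v} := by
  have : {x | (gr (O x)).Reachable u v} = ⋃ K : Finset (Ed d),
      {x | bd DB K = Finsupp.single u 1 + Finsupp.single v 1 ∧ ∀ e ∈ K, e ∈ O x} := by
    ext x
    simp only [Set.mem_ofPred_eq, Set.mem_iUnion, reach_iff_chain]
  rw [this]
  refine MeasurableSet.iUnion fun K => ?_
  have h2 : {x | bd DB K = Finsupp.single u 1 + Finsupp.single v 1 ∧ ∀ e ∈ K, e ∈ O x} =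
      {x | bd DB K = Finsupp.single u 1 + Finsupp.single v 1} ∩ ⋂ e ∈ K, {x | e ∈ O x} := by
    ext x; simp
  rw [h2]
  exact (MeasurableSet.const _).inter (Finset.measurableSet_biInter _ fun e _ => hO e)

theorem meas_inf (u : V d) : MeasurableSet {x | Inf (O x) u} := by
  have : {x | Inf (O x) u} = ⋂ n : ℕ, ⋃ w : V d,
      {x | w ∉ box d n ∧ (gr (O x)).Reachable u w} := by
    ext x
    simp only [Set.mem_ofPred_eq, Set.mem_iInter, Set.mem_iUnion, inf_iff]
  rw [this]
  refine MeasurableSet.iInter fun n => MeasurableSet.iUnion fun w => ?_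
  exact (MeasurableSet.const _).inter (meas_reach hO u w)

theorem meas_diff (F : Set (Ed d)) (e : Ed d) : MeasurableSet {x | e ∈ O x \ F} := by
  have : {x | e ∈ O x \ F} = {x | e ∈ O x} ∩ {x | e ∉ F} := by ext x; simp
  rw [this]
  exact (hO e).inter (MeasurableSet.const _)

theorem meas_inter (F : Set (Ed d)) (e : Ed d) : MeasurableSet {x | e ∈ O x ∩ F} := by
  have : {x | e ∈ O x ∩ F} = {x | e ∈ O x} ∩ {x | e ∈ F} := by ext x; simp
  rw [this]
  exact (hO e).inter (MeasurableSet.const _)

theorem meas_uq : MeasurableSet {x | Uq (O x)} := by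
  have : {x | Uq (O x)} = ⋂ u : V d, ⋂ v : V d,
      ({x | Inf (O x) u}ᶜ ∪ ({x | Inf (O x) v}ᶜ ∪ {x | (gr (O x)).Reachable u v})) := by
    ext x
    simp only [Set.mem_ofPred_eq, Set.mem_iInter, Uq, Set.mem_union, Set.mem_compl_iff]
    exact forall_congr' fun u => forall_congr' fun v => by tauto
  rw [this]
  exact MeasurableSet.iInter fun u => MeasurableSet.iInter fun v =>
    (meas_inf hO u).compl.union ((meas_inf hO v).compl.union (meas_reach hO u v))

theorem meas_br (e : Ed d) : MeasurableSet {x | Br (O x) e} := by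
  have : {x | Br (O x) e} = {x | e ∈ O x} ∩ ({x | (gr (O x \ {e})).Reachable e.1 (tg e)}ᶜ ∩
      ({x | Inf (O x \ {e}) e.1} ∩ {x | Inf (O x \ {e}) (tg e)})) := by
    ext x; rfl
  rw [this]
  exact (hO e).inter ((meas_reach (meas_diff hO {e}) _ _).compl.inter
    ((meas_inf (meas_diff hO {e}) _).inter (meas_inf (meas_diff hO {e}) _)))

theorem meas_oneEnd : MeasurableSet {x | OneEnd (O x)} := by
  have : {x | OneEnd (O x)} = ⋂ F : Finset (V d), ⋂ u : V d, ⋂ v : V d,
      ({x | (gr (O x)).Reachable u v}ᶜ ∪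
        ({x | Inf (O x \ {e | e.1 ∈ F ∨ tg e ∈ F}) u}ᶜ ∪
          ({x | Inf (O x \ {e | e.1 ∈ F ∨ tg e ∈ F}) v}ᶜ ∪
            {x | (gr (O x \ {e | e.1 ∈ F ∨ tg e ∈ F})).Reachable u v}))) := by
    ext x
    simp only [Set.mem_ofPred_eq, Set.mem_iInter, OneEnd, Set.mem_union, Set.mem_compl_iff]
    exact forall_congr' fun F => forall_congr' fun u => forall_congr' fun v => by tauto
  rw [this]
  refine MeasurableSet.iInter fun F => MeasurableSet.iInter fun u => MeasurableSet.iInter fun v => ?_
  exact (meas_reach hO u v).compl.union ((meas_inf (meas_diff hO _) u).compl.union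
    ((meas_inf (meas_diff hO _) v).compl.union (meas_reach (meas_diff hO _) u v)))

end mble

theorem meas_Op (e : Ed d) : MeasurableSet {σ : Om d | e ∈ Op σ} := by
  have : {σ : Om d | e ∈ Op σ} = (fun σ : Om d => σ e) ⁻¹' {s | s.1 = true} := rfl
  rw [this]
  exact measurable_pi_apply e (Set.toFinite _).measurableSet

theorem meas_Pp (e : Ed d) : MeasurableSet {σ : Om d | e ∈ Pp σ} := by
  have : {σ : Om d | e ∈ Pp σ} = (fun σ : Om d => σ e) ⁻¹' {s | s.2.1 = true} := rfl
  rw [this]
  exact measurable_pi_apply e (Set.toFinite _).measurableSet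

theorem meas_state (e : Ed d) (s : Bool × Bool × Bool) : MeasurableSet {σ : Om d | σ e = s} := by
  have : {σ : Om d | σ e = s} = (fun σ : Om d => σ e) ⁻¹' {s} := rfl
  rw [this]
  exact measurable_pi_apply e (MeasurableSet.singleton s)

theorem Op_th (v : V d) (σ : Om d) (e : Ed d) : e ∈ Op (th v σ) ↔ shE v e ∈ Op σ := Iff.rfl

/-- reachability in the shifted configuration -/
theorem reach_th_iff {O O' : Set (Ed d)} {v : V d} (h : ∀ e, e ∈ O ↔ shE v e ∈ O') {a b : V d} :
    (gr O).Reachable a b ↔ (gr O').Reachable (a + v) (b + v) := by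
  constructor
  · intro hr
    exact reach_shift (fun e he => (h e).1 he) hr
  · intro hr
    have := reach_shift (O := O') (O' := O) (v := -v) (fun e he => by
      rw [h, shE_shE]; simpa using he) hr
    simpa using this

theorem inf_th_iff {O O' : Set (Ed d)} {v : V d} (h : ∀ e, e ∈ O ↔ shE v e ∈ O') {a : V d} :
    Inf O a ↔ Inf O' (a + v) := by
  have key : {w | (gr O').Reachable (a + v) w} = (fun w => w + v) '' {w | (gr O).Reachable a w} := by
    ext w
    constructor
    · intro hw
      refine ⟨w - v, ?_, by simp⟩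
      show (gr O).Reachable a (w - v)
      rw [reach_th_iff h, sub_add_cancel]
      exact hw
    · rintro ⟨w', hw', rfl⟩
      exact (reach_th_iff h).1 hw'
  unfold Inf
  rw [key, Set.infinite_image_iff (add_left_injective v).injOn]

theorem diff_th {O O' : Set (Ed d)} {v : V d} (h : ∀ e, e ∈ O ↔ shE v e ∈ O') (f : Ed d)
    (e : Ed d) : e ∈ O \ {f} ↔ shE v e ∈ O' \ {shE v f} := by
  simp only [Set.mem_sdiff, Set.mem_singleton_iff, h, (shEq v).injective.eq_iff]
  have : shE v e = shE v f ↔ e = f := (shEq v).injective.eq_iff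
  rw [this]

theorem br_th_iff {O O' : Set (Ed d)} {v : V d} (h : ∀ e, e ∈ O ↔ shE v e ∈ O') (f : Ed d) :
    Br O f ↔ Br O' (shE v f) := by
  unfold Br
  rw [h f, reach_th_iff (diff_th h f), inf_th_iff (diff_th h f), inf_th_iff (diff_th h f),
    tg_shE, shE_fst]

theorem uq_th_iff {O O' : Set (Ed d)} {v : V d} (h : ∀ e, e ∈ O ↔ shE v e ∈ O') :
    Uq O ↔ Uq O' := by
  unfold Uq
  constructor
  · intro hU a b ha hb
    have := hU (a - v) (b - v) ((inf_th_iff h).2 (by simpa using ha))
      ((inf_th_iff h).2 (by simpa using hb))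
    rw [reach_th_iff h] at this
    simpa using this
  · intro hU a b ha hb
    rw [reach_th_iff h]
    exact hU _ _ ((inf_th_iff h).1 ha) ((inf_th_iff h).1 hb)

end Pool.Agent.L7h96.RC
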