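import Pool.Agent.L7h96.RC.Vol

set_option autoImplicit false
set_option linter.unusedSectionVars false
set_option linter.unusedSimpArgs false

open Finset MeasureTheory

namespace Pool.Agent.L7h96.RC

variable {d : ℕ}

/-- `P` is the infinite volume law -/
structure IsLim (b : ℝ) (P : Measure (Om d)) : Prop where
  prob : IsProbabilityMeasure P
  loc : ∀ (F : Finset (Ed d)) (S : Set (Om d)), Dep F S →
    P.real S = Loc DB (fun _ => b) F (cp b) (c0 b) 0 (ind S)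

/-- local modifications -/
noncomputable def gm (K₁ K₂ U C : Finset (Ed d)) (σ : Om d) : Om d := fun e =>
  if e ∈ K₁ ∪ K₂ ∪ U ∪ C then
    ((((σ e).1 || decide (e ∈ U)) && !decide (e ∈ C)) || xor (σ e).2.1 (decide (e ∈ K₁)) ||
      xor (σ e).2.2 (decide (e ∈ K₂)),
      xor (σ e).2.1 (decide (e ∈ K₁)), xor (σ e).2.2 (decide (e ∈ K₂)))
  else σ e

/-- quasi-invariance under even local modifications -/
def S_QI : Prop :=
  ∀ (d : ℕ) (b : ℝ), 0 < b → b < 1 → ∀ P : Measure (Om d), IsLim b P →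
    ∀ K₁ K₂ U C : Finset (Ed d), bd DB K₁ = 0 → bd DB K₂ = 0 →
      ∃ c : ℝ, ∀ A : Set (Om d), MeasurableSet A → P.real (gm K₁ K₂ U C ⁻¹' A) ≤ c * P.real A

/-- the configuration of `p` -/
def pr (σ : Om d) : Ed d → Bool := fun e => (σ e).2.1

/-- zero-one law for `p` -/
def S_ZO : Prop :=
  ∀ (d : ℕ) (_ : Fin d) (b : ℝ), 0 < b → b < 1 → ∀ P : Measure (Om d), IsLim b P →
    ∀ D : Set (Ed d → Bool), MeasurableSet D → (∀ v : V d, th v ⁻¹' D = D) →
      0 < P.real (pr ⁻¹' D) → P.real (pr ⁻¹' D) = 1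

/-- `e` is a bridge in state `(1,0)` separating `z` from `z'` -/
def SepEv (e : Ed d) (z z' : V d) : Set (Om d) :=
  {σ | σ e = (true, true, false) ∧ ¬ (gr (Op σ \ {e})).Reachable e.1 (tg e) ∧
    (gr (Op σ \ {e})).Reachable e.1 z ∧ (gr (Op σ \ {e})).Reachable (tg e) z'}

/-- `L`-separation -/
def Far (L : ℕ) (u v : V d) : Prop := ∃ j, (L : ℤ) ≤ |u j - v j|

/-- far away bridges in state `(1,0)` hardly separate far away points -/
def S_2B : Prop :=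
  ∀ (d : ℕ) (b : ℝ), 0 < b → b < 1 → ∀ P : Measure (Om d), IsLim b P → TI P →
    (∀ᵐ σ ∂P, Uq (Op σ)) → ∀ e₀ : Ed d,
    (∀ e : Ed d, P.real {σ | σ e = (true, false, true) ∧
      ¬ (gr (Op σ \ {e})).Reachable e.1 (tg e)} = 0) →
    ∀ (R : ℕ) (δ : ℝ), 0 < δ → ∃ L : ℕ, ∀ u₀ u₁ u₂ : V d, Far L u₀ u₁ → Far L u₀ u₂ →
      Far L u₁ u₂ →
      P.real (SepEv (shE u₀ e₀) u₁ u₂) ≤
        b / (1 - b ^ 2) * (2 * P.real {σ | Rch (Op σ) 0 R ∧ ¬ Inf (Op σ) 0} + δ)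

end Pool.Agent.L7h96.RC
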