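import Pool.Agent.L7h96.RC.Loc

set_option autoImplicit false
set_option linter.unusedSectionVars false
set_option linter.unusedSimpArgs false

open Finset Filter Topology MeasureTheory
open scoped ENNReal

namespace Pool.Agent.L7h96.RC

variable {d : ℕ}

theorem zG_zz (b g : ℝ) (I : Finset (Ed d)) (B : Finset (V d)) (A : X d) :
    zG DB (fun _ => b) I (zz DG (fun _ => g) B) A = zz DD (tt b g) (I.disjSum B) A := by
  classical
  have hd : Disjoint (I.map Function.Embedding.inl) (B.map Function.Embedding.inr) :=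
    disjoint_map_inl_map_inr I B
  have hU : I.disjSum B = I.map Function.Embedding.inl ∪ B.map Function.Embedding.inr := by
    ext x
    cases x <;> simp
  unfold zG
  rw [hU]
  conv_rhs => unfold zz
  rw [sum_powerset_union hd, sum_powerset_map]
  refine sum_congr rfl fun p _ => ?_
  rw [sum_powerset_map]
  unfold zz
  rw [mul_sum]
  refine sum_congr rfl fun s _ => ?_
  have hd2 : Disjoint (p.map (Function.Embedding.inl : Ed d ↪ HE d))
      (s.map (Function.Embedding.inr : V d ↪ HE d)) := disjoint_map_inl_map_inr p s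
  have h1 : bd DD (p.map Function.Embedding.inl ∪ s.map Function.Embedding.inr) =
      bd DB p + bd DG s := by
    rw [bd_union DD hd2]
    unfold bd
    rw [sum_map, sum_map]
    rfl
  have h2 : tw (tt b g) (p.map Function.Embedding.inl ∪ s.map Function.Embedding.inr) =
      tw (fun _ => b) p * tw (fun _ => g) s := by
    unfold tw
    rw [prod_union hd2, prod_map, prod_map]
    rfl
  rw [h1, h2]
  have h3 : (bd DB p + bd DG s = A) ↔ (bd DG s = A + bd DB p) := by
    rw [eq_add_iff]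
  simp only [h3]
  split_ifs <;> ring

theorem zG_Gf (b g : ℝ) (n : ℕ) (A : X d) :
    zG DB (fun _ => b) (edg d n) (Gf n g) A = zz DD (tt b g) (II d n) A :=
  zG_zz b g (edg d n) (box d n) A

/-- normalisation -/
noncomputable def Zn (d : ℕ) (b g : ℝ) (n : ℕ) : ℝ :=
  zz DD (tt b g) (II d n) 0 * zz DB (fun _ => b) (edg d n) 0

/-- finite volume expectation; `p` has bulk sources `A` -/
noncomputable def EM (b g : ℝ) (n : ℕ) (A : X d)
    (f : Finset (Ed d) → Finset (Ed d) → Finset (Ed d) → ℝ) : ℝ :=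
  Y DB (fun _ => b) (edg d n) (Gf n g) A 0 f / Zn d b g n

/-- the configuration of three sets -/
def conf (ω p q : Finset (Ed d)) : Om d :=
  fun e => (decide (e ∈ ω), decide (e ∈ p), decide (e ∈ q))

open scoped Classical in
/-- indicator of an event -/
noncomputable def ind (S : Set (Om d)) (ω p q : Finset (Ed d)) : ℝ :=
  if conf ω p q ∈ S then 1 else 0

theorem ind_nonneg (S : Set (Om d)) (ω p q : Finset (Ed d)) : 0 ≤ ind S ω p q := by
  unfold ind; split_ifs <;> norm_num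

theorem ind_le_one (S : Set (Om d)) (ω p q : Finset (Ed d)) : ind S ω p q ≤ 1 := by
  unfold ind; split_ifs <;> norm_num

theorem Gf_nonneg {g : ℝ} (hg : 0 ≤ g) (n : ℕ) (C : X d) : 0 ≤ Gf n g C :=
  zz_nonneg (fun _ => hg) C

section basic

variable {b g : ℝ} (hb0 : 0 ≤ b) (hb1 : b < 1) (hg0 : 0 ≤ g) (hg1 : g ≤ 1)
include hb0 hb1 hg0 hg1

theorem Zn_pos (n : ℕ) : 0 < Zn d b g n :=
  mul_pos (zz_pos (tt_nonneg hb0 hg0) _) (zz_pos (fun _ => hb0) _)

theorem EM_one (n : ℕ) (A : X d) : EM b g n A (fun _ _ _ => 1) = c1 b g n A := by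
  unfold EM Zn c1 corr
  rw [Y_one, zG_Gf]
  have h1 := zz_pos (D := DB (d := d)) (t := fun _ => b) (fun _ => hb0) (edg d n)
  have h2 := zz_pos (D := DD (d := d)) (t := tt b g) (tt_nonneg hb0 hg0) (II d n)
  field_simp

theorem EM_mono {n : ℕ} {A : X d} {f f' : Finset (Ed d) → Finset (Ed d) → Finset (Ed d) → ℝ}
    (h : ∀ ω p q, ω ⊆ edg d n → p ⊆ ω → q ⊆ ω → f ω p q ≤ f' ω p q) :
    EM b g n A f ≤ EM b g n A f' :=
  div_le_div_of_nonneg_right (Y_mono (fun _ => hb0) (fun _ => hb1.le) (Gf_nonneg hg0 n) h)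
    (Zn_pos hb0 hb1 hg0 hg1 n).le

theorem EM_nonneg {n : ℕ} {A : X d} {f : Finset (Ed d) → Finset (Ed d) → Finset (Ed d) → ℝ}
    (h : ∀ ω p q, ω ⊆ edg d n → p ⊆ ω → q ⊆ ω → 0 ≤ f ω p q) :
    0 ≤ EM b g n A f :=
  div_nonneg (Y_nonneg (fun _ => hb0) (fun _ => hb1.le) (Gf_nonneg hg0 n) h)
    (Zn_pos hb0 hb1 hg0 hg1 n).le

theorem EM_loc {n : ℕ} {F : Finset (Ed d)} (hF : F ⊆ edg d n) (A : X d)
    (φ : Finset (Ed d) → Finset (Ed d) → Finset (Ed d) → ℝ) :
    EM b g n A (fun ω p q => φ (ω ∩ F) (p ∩ F) (q ∩ F)) =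
      Loc DB (fun _ => b) F (c1 b g n) (c2 b n) A φ := by
  unfold EM Zn
  rw [Y_loc DB (fun _ => hb0) (fun _ => hb1) hF]
  have h1 : (fun C => zG DB (fun _ => b) (edg d n) (Gf n g) C / zz DD (tt b g) (II d n) 0) =
      c1 b g n := by
    funext C
    rw [zG_Gf]
    rfl
  rw [h1]
  rfl

end basic

theorem EM_congr {b g : ℝ} {n : ℕ} {A : X d}
    {f f' : Finset (Ed d) → Finset (Ed d) → Finset (Ed d) → ℝ}
    (h : ∀ ω p q, ω ⊆ edg d n → p ⊆ ω → q ⊆ ω → f ω p q = f' ω p q) :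
    EM b g n A f = EM b g n A f' := by
  unfold EM
  rw [Y_congr h]

theorem EM_add {b g : ℝ} {n : ℕ} {A : X d}
    {f f' : Finset (Ed d) → Finset (Ed d) → Finset (Ed d) → ℝ} :
    EM b g n A (fun ω p q => f ω p q + f' ω p q) = EM b g n A f + EM b g n A f' := by
  unfold EM
  rw [Y_add, add_div]

theorem EM_sub {b g : ℝ} {n : ℕ} {A : X d}
    {f f' : Finset (Ed d) → Finset (Ed d) → Finset (Ed d) → ℝ} :
    EM b g n A (fun ω p q => f ω p q - f' ω p q) = EM b g n A f - EM b g n A f' := by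
  unfold EM
  rw [Y_sub, sub_div]

theorem ind_dep {F : Finset (Ed d)} {S : Set (Om d)} (h : Dep F S) (ω p q : Finset (Ed d)) :
    ind S (ω ∩ F) (p ∩ F) (q ∩ F) = ind S ω p q := by
  classical
  unfold ind
  have : conf (ω ∩ F) (p ∩ F) (q ∩ F) ∈ S ↔ conf ω p q ∈ S := by
    refine h _ _ fun e he => ?_
    unfold conf
    simp [he]
  simp only [this]

/-- finite volume measure -/
noncomputable def MM (b g : ℝ) (n : ℕ) : Measure (Om d) :=
  S3 (edg d n) (fun ω p q => ENNReal.ofReal (W (fun _ => b) (edg d n) ω p q *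
    Gf n g (bd DB p) * (if bd DB q = 0 then 1 else 0) / Zn d b g n) •
      Measure.dirac (conf ω p q))

theorem MM_real {b g : ℝ} (hb0 : 0 ≤ b) (hb1 : b < 1) (hg0 : 0 ≤ g) (hg1 : g ≤ 1) (n : ℕ)
    {S : Set (Om d)} (hS : MeasurableSet S) : (MM b g n).real S = EM b g n 0 (ind S) := by
  classical
  have hw : ∀ ω p q : Finset (Ed d), 0 ≤ W (fun _ => b) (edg d n) ω p q *
    Gf n g (bd DB p) * (if bd DB q = 0 then 1 else 0) / Zn d b g n := by
    intro ω p q
    have h1 := W_nonneg (fun (_ : Ed d) => hb0) (fun _ => hb1.le) (edg d n) ω p q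
    have h2 := Gf_nonneg hg0 n (bd DB p)
    have h3 := (Zn_pos (d := d) hb0 hb1 hg0 hg1 n).le
    split_ifs <;> positivity
  have h1 : (MM b g n) S = S3 (edg d n) (fun ω p q =>
      ENNReal.ofReal (W (fun _ => b) (edg d n) ω p q *
        Gf n g (bd DB p) * (if bd DB q = 0 then 1 else 0) / Zn d b g n * ind S ω p q)) := by
    unfold MM S3
    rw [Measure.finsetSum_apply]
    refine sum_congr rfl fun ω _ => ?_
    rw [Measure.finsetSum_apply]
    refine sum_congr rfl fun p _ => ?_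
    rw [Measure.finsetSum_apply]
    refine sum_congr rfl fun q _ => ?_
    rw [Measure.smul_apply, Measure.dirac_apply' _ hS, smul_eq_mul]
    show _ = ENNReal.ofReal (_ * ind S ω p q)
    rw [ENNReal.ofReal_mul (hw ω p q)]
    congr 1
    unfold ind
    by_cases h : conf ω p q ∈ S
    · simp [h]
    · simp [h]
  rw [Measure.real, h1]
  unfold EM Y
  rw [div_eq_inv_mul, ← S3_mul_left]
  unfold S3
  rw [ENNReal.toReal_sum (by
    intro ω _
    exact ENNReal.sum_ne_top.2 fun p _ => ENNReal.sum_ne_top.2 fun q _ => ENNReal.ofReal_ne_top)]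
  refine sum_congr rfl fun ω _ => ?_
  rw [ENNReal.toReal_sum (by
    intro p _
    exact ENNReal.sum_ne_top.2 fun q _ => ENNReal.ofReal_ne_top)]
  refine sum_congr rfl fun p _ => ?_
  rw [ENNReal.toReal_sum (by
    intro q _
    exact ENNReal.ofReal_ne_top)]
  refine sum_congr rfl fun q _ => ?_
  rw [ENNReal.toReal_ofReal (mul_nonneg (hw ω p q) (ind_nonneg S ω p q))]
  simp only [zero_add]
  ring

theorem MM_prob {b g : ℝ} (hb0 : 0 ≤ b) (hb1 : b < 1) (hg0 : 0 ≤ g) (hg1 : g ≤ 1) (n : ℕ) :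
    IsProbabilityMeasure (MM b g n : Measure (Om d)) := by
  have h := MM_real (d := d) hb0 hb1 hg0 hg1 n MeasurableSet.univ
  have h2 : EM b g n (0 : X d) (ind Set.univ) = 1 := by
    have : ind (Set.univ : Set (Om d)) = fun _ _ _ => 1 := by
      funext ω p q; simp [ind]
    rw [this, EM_one hb0 hb1 hg0 hg1]
    exact corr_zero (tt_nonneg hb0 hg0) _
  rw [h2] at h
  constructor
  have h3 : ((MM b g n : Measure (Om d)) Set.univ).toReal = 1 := h
  rwa [ENNReal.toReal_eq_one_iff] at h3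

/-- the filter `n → ∞`, then `g → 0+` -/
def FF : Filter (ℝ × ℕ) := (𝓝[>] (0:ℝ)).curry atTop

instance : NeBot FF := by
  rw [← frequently_true_iff_neBot, Filter.Frequently]
  intro h
  unfold FF at h
  rw [eventually_curry_iff] at h
  obtain ⟨g, hg⟩ := h.exists
  obtain ⟨n, hn⟩ := hg.exists
  exact hn trivial

theorem FF_ev {p : ℝ → ℕ → Prop} (h : ∀ᶠ g in 𝓝[>] (0:ℝ), ∀ᶠ n in atTop, p g n) :
    ∀ᶠ x in FF, p x.1 x.2 := h

theorem FF_tendsto {u : ℝ → ℕ → ℝ} {v : ℝ → ℝ} {w : ℝ}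
    (h1 : ∀ᶠ g in 𝓝[>] (0:ℝ), Tendsto (u g) atTop (𝓝 (v g)))
    (h2 : Tendsto v (𝓝[>] 0) (𝓝 w)) : Tendsto (fun x : ℝ × ℕ => u x.1 x.2) FF (𝓝 w) := by
  rw [Metric.tendsto_nhds] at h2 ⊢
  intro ε hε
  refine FF_ev (p := fun g n => dist (u g n) w < ε) ?_
  filter_upwards [h1, h2 (ε / 2) (half_pos hε)] with g hg1 hg2
  rw [Metric.tendsto_nhds] at hg1
  filter_upwards [hg1 (ε / 2) (half_pos hε)] with n hn
  have := dist_triangle (u g n) (v g) w
  linarith

section lim

variable {b : ℝ} (hb0 : 0 ≤ b) (hb1 : b < 1)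
include hb0 hb1

theorem c1_FF (A : X d) : Tendsto (fun x : ℝ × ℕ => c1 b x.1 x.2 A) FF (𝓝 (cp b A)) :=
  FF_tendsto (u := fun g n => c1 b g n A) ((ev_Ioo hb0 hb1.le).mono fun _ hg =>
    c1_tendsto hb0 hb1.le hg.1.le hg.2.le A) (cg_tendsto hb0 hb1.le A)

theorem c2_FF (A : X d) : Tendsto (fun x : ℝ × ℕ => c2 b x.2 A) FF (𝓝 (c0 b A)) :=
  FF_tendsto (u := fun _ n => c2 b n A) (v := fun _ => c0 b A)
    (Eventually.of_forall fun _ => c2_tendsto hb0 hb1.le A) tendsto_const_nhds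

theorem FF_good (n : ℕ) : ∀ᶠ x in FF, x.1 ∈ Set.Ioo (0:ℝ) 1 ∧ n ≤ x.2 := by
  refine FF_ev (p := fun g m => g ∈ Set.Ioo (0:ℝ) 1 ∧ n ≤ m) ?_
  filter_upwards [ev_Ioo hb0 hb1.le] with g hg
  filter_upwards [eventually_ge_atTop n] with m hm
  exact ⟨hg, hm⟩

/-- limits of local expectations -/
theorem EM_FF (F : Finset (Ed d)) (A : X d)
    (φ : Finset (Ed d) → Finset (Ed d) → Finset (Ed d) → ℝ) :
    Tendsto (fun x : ℝ × ℕ => EM b x.1 x.2 A (fun ω p q => φ (ω ∩ F) (p ∩ F) (q ∩ F))) FF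
      (𝓝 (Loc DB (fun _ => b) F (cp b) (c0 b) A φ)) := by
  refine (tendsto_Loc (c1_FF hb0 hb1) (c2_FF hb0 hb1) A φ).congr' ?_
  obtain ⟨n, hn⟩ := exists_edg_finset F
  filter_upwards [FF_good hb0 hb1 n] with x hx
  exact (EM_loc hb0 hb1 hx.1.1.le hx.1.2.le (hn.trans (edg_mono hx.2)) A φ).symm

theorem EM_FF_ind {F : Finset (Ed d)} {S : Set (Om d)} (hS : Dep F S) (A : X d) :
    Tendsto (fun x : ℝ × ℕ => EM b x.1 x.2 A (ind S)) FF
      (𝓝 (Loc DB (fun _ => b) F (cp b) (c0 b) A (ind S))) := by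
  have := EM_FF hb0 hb1 F A (ind S)
  refine this.congr fun x => ?_
  congr 1
  funext ω p q
  exact ind_dep hS ω p q

omit hb0 hb1 in
theorem compactPM (E : Type) [MeasurableSpace E] [TopologicalSpace E] [T2Space E] [BorelSpace E]
    [CompactSpace E] : CompactSpace (ProbabilityMeasure E) := inferInstance

/-- the infinite volume measure exists -/
theorem exists_P : ∃ P : Measure (Om d), IsProbabilityMeasure P ∧
    ∀ (F : Finset (Ed d)) (S : Set (Om d)), Dep F S →
      P.real S = Loc DB (fun _ => b) F (cp b) (c0 b) 0 (ind S) := by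
  classical
  obtain ⟨U, hU⟩ := Ultrafilter.exists_le FF
  let m : ℝ × ℕ → ProbabilityMeasure (Om d) := fun x =>
    if h : x.1 ∈ Set.Ioo (0:ℝ) 1 then
      ⟨MM b x.1 x.2, MM_prob hb0 hb1 h.1.le h.2.le x.2⟩
    else ⟨Measure.dirac (fun _ => (false, false, false)), inferInstance⟩
  have := compactPM (Om d)
  obtain ⟨P, _, hP⟩ := (isCompact_univ (X := ProbabilityMeasure (Om d))).ultrafilter_le_nhds
    (U.map m) (by simp)
  have hP' : Tendsto m U (𝓝 P) := hP
  refine ⟨P, inferInstance, fun F S hS => ?_⟩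
  have hopen : ∀ {T : Set (Om d)}, Dep F T → IsOpen T := by
    intro T hT
    rw [isOpen_iff_mem_nhds]
    intro x hx
    have hopen : IsOpen {y : Om d | ∀ e ∈ F, y e = x e} := by
      have : {y : Om d | ∀ e ∈ F, y e = x e} = ⋂ e ∈ F, (fun y : Om d => y e) ⁻¹' {x e} := by
        ext y; simp
      rw [this]
      exact isOpen_biInter_finset fun e _ => (isOpen_discrete _).preimage (continuous_apply e)
    refine mem_nhds_iff.2 ⟨_, fun y hy => ?_, hopen, fun e _ => rfl⟩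
    exact (hT y x hy).2 hx
  have hfr : (P : Measure (Om d)) (frontier S) = 0 := by
    have h1 : IsClopen S := ⟨⟨hopen hS.compl⟩, hopen hS⟩
    rw [h1.frontier_eq]
    simp
  have h2 := ProbabilityMeasure.tendsto_measure_of_null_frontier_of_tendsto' hP' hfr
  have h3 : Tendsto (fun x => (m x : Measure (Om d)).real S) U (𝓝 ((P : Measure (Om d)).real S)) :=
    (ENNReal.tendsto_toReal (measure_ne_top _ _)).comp h2
  have h4 : Tendsto (fun x => (m x : Measure (Om d)).real S) U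
      (𝓝 (Loc DB (fun _ => b) F (cp b) (c0 b) 0 (ind S))) := by
    refine ((EM_FF_ind hb0 hb1 hS 0).mono_left hU).congr' ?_
    filter_upwards [hU (FF_good hb0 hb1 0)] with x hx
    have hmx : m x = ⟨MM b x.1 x.2, MM_prob hb0 hb1 hx.1.1.le hx.1.2.le x.2⟩ := dif_pos hx.1
    have : (m x : Measure (Om d)) = MM b x.1 x.2 := by
      rw [hmx]
      rfl
    rw [this, MM_real hb0 hb1 hx.1.1.le hx.1.2.le x.2 hS.meas]
  exact tendsto_nhds_unique h3 h4

end lim

end Pool.Agent.L7h96.RC
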